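import Pool.Agent.H69.DF.Ops

/-! Common definitions of the project (all the objects used in the interfaces of the rows). -/

namespace Pool.Agent.H69.DF

open MvPolynomial

abbrev R5 := MvPolynomial (Fin 5) ℝ
abbrev R4 := MvPolynomial (Fin 4) ℝ
abbrev S := SymmetricAlgebra ℝ L
abbrev U := UniversalEnvelopingAlgebra ℝ L

/-- The derivations `ad h_0`, `ad e_0`, `ad e_1` of `R9 = S(g)/S(g)h`. -/
noncomputable def DT : Derivation ℝ R9 R9 :=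
  mkDerivation ℝ ![2 * X 0, 2 * X 1, 0, 0, 0, -2 * X 5, -2 * X 6, -2 * X 7, -2 * X 8]
noncomputable def D0 : Derivation ℝ R9 R9 :=
  mkDerivation ℝ ![0, 0, 0, -2 * X 0, -2 * X 1, 0, X 2, X 3, X 4]
noncomputable def D1 : Derivation ℝ R9 R9 :=
  mkDerivation ℝ ![0, 0, -2 * X 0, -2 * X 1, 0, X 2, X 3, X 4, 0]

/-- Coefficients of `4 e(z) f(z) + h(z)^2`. -/
noncomputable def K : Fin 5 → R9 :=
  ![4 * X 0 * X 5 + X 2 ^ 2,
    4 * (X 0 * X 6 + X 1 * X 5) + 2 * X 2 * X 3,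
    4 * (X 0 * X 7 + X 1 * X 6) + X 3 ^ 2 + 2 * X 2 * X 4,
    4 * (X 0 * X 8 + X 1 * X 7) + 2 * X 3 * X 4,
    4 * X 1 * X 8 + X 4 ^ 2]

/-- A Poisson bracket on the symmetric algebra (three hypotheses of the frozen statement). -/
structure IsPois (P : S →ₗ[ℝ] S →ₗ[ℝ] S) : Prop where
  gen : ∀ X Y : L, P (SymmetricAlgebra.ι ℝ L X) (SymmetricAlgebra.ι ℝ L Y)
        = SymmetricAlgebra.ι ℝ L ⁅X, Y⁆
  anti : ∀ a b : S, P a b = - P b a
  leib : ∀ a b c : S, P a (b * c) = P a b * c + b * P a c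

noncomputable def Jd : Ideal S := Ideal.span {s | ∃ Y : hs, s = SymmetricAlgebra.ι ℝ L (Y : L)}
noncomputable def Id : Ideal U :=
  Ideal.span {u | ∃ Y : hs, u = UniversalEnvelopingAlgebra.ι ℝ (Y : L)}

/-- Elements of `S(g)` whose class is `h`-invariant. -/
def inN (P : S →ₗ[ℝ] S →ₗ[ℝ] S) (a : S) : Prop :=
  ∀ Y : hs, P (SymmetricAlgebra.ι ℝ L (Y : L)) a ∈ Jd
/-- Elements of `U(g)` whose class is `h`-invariant. -/
def inNU (u : U) : Prop :=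
  ∀ Y : hs, UniversalEnvelopingAlgebra.ι ℝ (Y : L) * u
    - u * UniversalEnvelopingAlgebra.ι ℝ (Y : L) ∈ Id

def ZSs (P : S →ₗ[ℝ] S →ₗ[ℝ] S) : Set S := {a | inN P a ∧ ∀ b : S, inN P b → P a b ∈ Jd}
def ZUs : Set U := {u | inNU u ∧ ∀ v : U, inNU v → u * v - v * u ∈ Id}

/-- The basis vectors inside `U(g)`. -/
noncomputable def Eu (i : ℕ) : U := UniversalEnvelopingAlgebra.ι ℝ (eL i)
noncomputable def Hu (i : ℕ) : U := UniversalEnvelopingAlgebra.ι ℝ (hL i)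
noncomputable def Fu (i : ℕ) : U := UniversalEnvelopingAlgebra.ι ℝ (fL i)

/-- The quantum versions of `K 0` and of the Casimir elements `K 1, ..., K 4` in an algebra. -/
def q2 {A : Type*} [Ring A] (E H F : ℕ → A) : A :=
  4 * (F 0 * E 2 + F 1 * E 1 + F 2 * E 0) + 6 * H 2 + 2 * (H 0 * H 2) + H 1 * H 1
def qc {A : Type*} [Ring A] (E H F : ℕ → A) : Fin 4 → A :=
  ![4 * (F 3 * E 0 + F 2 * E 1 + F 1 * E 2 + F 0 * E 3) + 8 * H 3 + 2 * (H 0 * H 3)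
      + 2 * (H 1 * H 2),
    4 * (F 3 * E 1 + F 2 * E 2 + F 1 * E 3) + 2 * (H 1 * H 3) + H 2 * H 2,
    4 * (F 3 * E 2 + F 2 * E 3) + 2 * (H 2 * H 3),
    4 * (F 3 * E 3) + H 3 * H 3]

end Pool.Agent.H69.DF
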