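import Pool.Agent.H69.DF.Base

/-! More common definitions: normal forms, the reduction map `sg`, the lifts `Kt`, symbol calculus, `tau`. -/

namespace Pool.Agent.H69.DF

open MvPolynomial

/-- Normal form in the chart `e3 = 1` (the root of `e2 + e3 z` is `z`). -/
noncomputable def N1 (z y k3 k4 k5 k6 : ℝ) : Fin 9 → ℝ :=
  ![-z, 1, y, 0, 0,
    k3 / 4 + z * (k4 / 4 + z * (k5 / 4 + z * (k6 / 4))),
    k4 / 4 + z * (k5 / 4 + z * (k6 / 4)),
    k5 / 4 + z * (k6 / 4),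
    k6 / 4]

/-- Normal form in the chart `e2 = 1`. -/
noncomputable def N2 (w y k2 k3 k4 k5 : ℝ) : Fin 9 → ℝ :=
  ![1, -w, 0, 0, y,
    k2 / 4,
    k3 / 4 + w * (k2 / 4),
    k4 / 4 + w * (k3 / 4 + w * (k2 / 4)),
    k5 / 4 + w * (k4 / 4 + w * (k3 / 4 + w * (k2 / 4)))]

/-- The quartic `k2 + k3 z + k4 z^2 + k5 z^3 + k6 z^4`. -/
def qd (k2 k3 k4 k5 k6 z : ℝ) : ℝ := k2 + k3 * z + k4 * z ^ 2 + k5 * z ^ 3 + k6 * z ^ 4

/-- The linear map `L → R9` killing `h_0, e_0, e_1`. -/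
noncomputable def sgl : L →ₗ[ℝ] R9 where
  toFun x := x 2 • X 0 + x 3 • X 1 + x 5 • X 2 + x 6 • X 3 + x 7 • X 4 + x 8 • X 5 + x 9 • X 6
    + x 10 • X 7 + x 11 • X 8
  map_add' x y := by simp only [add_ap, add_smul]; abel
  map_smul' c x := by simp only [smul_ap, mul_smul, smul_add, RingHom.id_apply]

/-- The reduction map `S(g) → S(g)/S(g)h = R9`. -/
noncomputable def sg : S →ₐ[ℝ] R9 := SymmetricAlgebra.lift sgl

noncomputable def es (i : ℕ) : S := SymmetricAlgebra.ι ℝ L (eL i)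
noncomputable def hS (i : ℕ) : S := SymmetricAlgebra.ι ℝ L (hL i)
noncomputable def fs (i : ℕ) : S := SymmetricAlgebra.ι ℝ L (fL i)

/-- Lifts of `K 0` and the Casimir elements lifting `K 1, ..., K 4`. -/
noncomputable def Kt : Fin 5 → S :=
  ![4 * (es 0 * fs 2 + es 1 * fs 1 + es 2 * fs 0) + 2 * hS 0 * hS 2 + hS 1 ^ 2,
    4 * (es 0 * fs 3 + es 1 * fs 2 + es 2 * fs 1 + es 3 * fs 0) + 2 * hS 0 * hS 3
      + 2 * hS 1 * hS 2,
    4 * (es 1 * fs 3 + es 2 * fs 2 + es 3 * fs 1) + 2 * hS 1 * hS 3 + hS 2 ^ 2,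
    4 * (es 2 * fs 3 + es 3 * fs 2) + 2 * hS 2 * hS 3,
    4 * (es 3 * fs 3) + hS 3 ^ 2]

/-- `A` raises the degree by at most `d`, with symbol the multiplication by `s`. -/
def SymOp (A : Module.End ℝ R9) (d : ℕ) (s : R9) : Prop :=
  ∀ (n : ℕ) (p : R9), p.totalDegree ≤ n → (A p).totalDegree ≤ n + d ∧
    homogeneousComponent (n + d) (A p) = s * homogeneousComponent n p

/-- `A` does not raise the degree, with symbol of degree zero the operator `D`. -/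
def GrOp (A : Module.End ℝ R9) (D : R9 → R9) : Prop :=
  ∀ (n : ℕ) (p : R9), p.totalDegree ≤ n → (A p).totalDegree ≤ n ∧
    homogeneousComponent n (A p) = D (homogeneousComponent n p)

/-- Symbols of the generators. -/
noncomputable def sE : ℕ → R9
  | 2 => X 0
  | 3 => X 1
  | _ => 0
noncomputable def sH : ℕ → R9
  | 1 => X 2
  | 2 => X 3
  | 3 => X 4
  | _ => 0
noncomputable def sF : ℕ → R9
  | 0 => X 5
  | 1 => X 6
  | 2 => X 7
  | 3 => X 8
  | _ => 0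

/-- The ordered product `f^a h^b e^c` in `U(g)`. -/
noncomputable def word (α : Fin 9 →₀ ℕ) : U :=
  Fu 0 ^ α 5 * (Fu 1 ^ α 6 * (Fu 2 ^ α 7 * (Fu 3 ^ α 8 * (Hu 1 ^ α 2 * (Hu 2 ^ α 3 *
    (Hu 3 ^ α 4 * (Eu 2 ^ α 0 * Eu 3 ^ α 1)))))))

/-- The linear map sending a monomial to the ordered product. -/
noncomputable def tau : R9 →ₗ[ℝ] U := (basisMonomials (Fin 9) ℝ).constr ℝ word

theorem tau_monomial (α : Fin 9 →₀ ℕ) (c : ℝ) : tau (monomial α c) = c • word α := by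
  have h : (monomial α c : R9) = c • (basisMonomials (Fin 9) ℝ) α := by
    rw [coe_basisMonomials, smul_monomial, smul_eq_mul, mul_one]
  rw [h, map_smul, tau, Module.Basis.constr_basis]

end Pool.Agent.H69.DF
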