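import Mathlib

/-!
Project MP_76773c_DF (helper69): the frozen statement S01950 (negation of the Duflo statement as printed,
rho = -1/2 Tr ad_g).  The pair is g = sl2 (x) R[t]/t^4 (12 dimensional, perfect) and h = span(h_0, e_0, e_1).
Notation: e_i = e (x) t^i, h_i, f_i for i = 0..3;
  [h_i,e_j] = 2 e_(i+j), [h_i,f_j] = -2 f_(i+j), [e_i,f_j] = h_(i+j), indices >= 4 are 0.
Coordinates of L : Fin 12 -> R : e_i at i, h_i at 4+i, f_i at 8+i.
-/

namespace Pool.Agent.H69.DF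

open MvPolynomial

/-- The underlying space of sl2 (x) R[t]/t^4. -/
def L : Type := Fin 12 → ℝ

noncomputable instance : AddCommGroup L := inferInstanceAs (AddCommGroup (Fin 12 → ℝ))
noncomputable instance : Module ℝ L := inferInstanceAs (Module ℝ (Fin 12 → ℝ))
instance : FiniteDimensional ℝ L := inferInstanceAs (FiniteDimensional ℝ (Fin 12 → ℝ))

/-- The bracket. -/
noncomputable def br (x y : L) : L :=
  ![2 * (x 4 * y 0 - x 0 * y 4),
    2 * (x 4 * y 1 + x 5 * y 0 - x 1 * y 4 - x 0 * y 5),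
    2 * (x 4 * y 2 + x 5 * y 1 + x 6 * y 0 - x 2 * y 4 - x 1 * y 5 - x 0 * y 6),
    2 * (x 4 * y 3 + x 5 * y 2 + x 6 * y 1 + x 7 * y 0
        - x 3 * y 4 - x 2 * y 5 - x 1 * y 6 - x 0 * y 7),
    x 0 * y 8 - x 8 * y 0,
    x 0 * y 9 + x 1 * y 8 - x 9 * y 0 - x 8 * y 1,
    x 0 * y 10 + x 1 * y 9 + x 2 * y 8 - x 10 * y 0 - x 9 * y 1 - x 8 * y 2,
    x 0 * y 11 + x 1 * y 10 + x 2 * y 9 + x 3 * y 8
        - x 11 * y 0 - x 10 * y 1 - x 9 * y 2 - x 8 * y 3,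
    -2 * (x 4 * y 8 - x 8 * y 4),
    -2 * (x 4 * y 9 + x 5 * y 8 - x 9 * y 4 - x 8 * y 5),
    -2 * (x 4 * y 10 + x 5 * y 9 + x 6 * y 8 - x 10 * y 4 - x 9 * y 5 - x 8 * y 6),
    -2 * (x 4 * y 11 + x 5 * y 10 + x 6 * y 9 + x 7 * y 8
        - x 11 * y 4 - x 10 * y 5 - x 9 * y 6 - x 8 * y 7)]

theorem L_ext {x y : L} (h : ∀ i : Fin 12, x i = y i) : x = y := funext h

@[simp] theorem add_ap (x y : L) (i : Fin 12) : (x + y) i = x i + y i := rfl
@[simp] theorem smul_ap (c : ℝ) (x : L) (i : Fin 12) : (c • x) i = c * x i := rfl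
@[simp] theorem zero_ap (i : Fin 12) : (0 : L) i = 0 := rfl
@[simp] theorem neg_ap (x : L) (i : Fin 12) : (-x) i = -x i := rfl
@[simp] theorem sub_ap (x y : L) (i : Fin 12) : (x - y) i = x i - y i := rfl

theorem br_add_left (x y z : L) (i : Fin 12) : br (x + y) z i = br x z i + br y z i := by
  fin_cases i <;> simp [br] <;> ring

theorem br_add_right (x y z : L) (i : Fin 12) : br x (y + z) i = br x y i + br x z i := by
  fin_cases i <;> simp [br] <;> ring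

theorem br_self (x : L) (i : Fin 12) : br x x i = 0 := by
  fin_cases i <;> simp [br] <;> ring

theorem br_smul_right (c : ℝ) (x y : L) (i : Fin 12) : br x (c • y) i = c * br x y i := by
  fin_cases i <;> simp [br] <;> ring

theorem br_jacobi (x y z : L) (i : Fin 12) :
    br x (br y z) i = br (br x y) z i + br y (br x z) i := by
  fin_cases i <;> simp [br] <;> ring

noncomputable instance : LieRing L where
  bracket := br
  add_lie x y z := L_ext (br_add_left x y z)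
  lie_add x y z := L_ext (br_add_right x y z)
  lie_self x := L_ext (br_self x)
  leibniz_lie x y z := L_ext (br_jacobi x y z)

noncomputable instance : LieAlgebra ℝ L where
  lie_smul c x y := L_ext (br_smul_right c x y)

theorem bracket_def (x y : L) : ⁅x, y⁆ = br x y := rfl

/-- basis vectors `e_i`, `h_i`, `f_i`, zero for `i ≥ 4`. -/
noncomputable def eL (i : ℕ) : L := fun k => if i < 4 ∧ (k : ℕ) = i then 1 else 0
noncomputable def hL (i : ℕ) : L := fun k => if i < 4 ∧ (k : ℕ) = 4 + i then 1 else 0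
noncomputable def fL (i : ℕ) : L := fun k => if i < 4 ∧ (k : ℕ) = 8 + i then 1 else 0

/-- The subalgebra `h = span(h_0, e_0, e_1)`. -/
noncomputable def hs : LieSubalgebra ℝ L where
  carrier := {x | x 2 = 0 ∧ x 3 = 0 ∧ x 5 = 0 ∧ x 6 = 0 ∧ x 7 = 0 ∧ x 8 = 0 ∧ x 9 = 0
    ∧ x 10 = 0 ∧ x 11 = 0}
  add_mem' := by
    rintro x y ⟨a1, a2, a3, a4, a5, a6, a7, a8, a9⟩ ⟨b1, b2, b3, b4, b5, b6, b7, b8, b9⟩
    refine ⟨?_, ?_, ?_, ?_, ?_, ?_, ?_, ?_, ?_⟩ <;> simp [*]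
  zero_mem' := by simp
  smul_mem' := by
    rintro c x ⟨a1, a2, a3, a4, a5, a6, a7, a8, a9⟩
    refine ⟨?_, ?_, ?_, ?_, ?_, ?_, ?_, ?_, ?_⟩ <;> simp [*]
  lie_mem' := by
    rintro x y ⟨a1, a2, a3, a4, a5, a6, a7, a8, a9⟩ ⟨b1, b2, b3, b4, b5, b6, b7, b8, b9⟩
    refine ⟨?_, ?_, ?_, ?_, ?_, ?_, ?_, ?_, ?_⟩ <;> rw [bracket_def] <;> simp [br, *]

/-- The commutation relations of `sl2 ⊗ R[t]/t^4` in an associative algebra. -/
structure Rel {A : Type*} [Ring A] [Algebra ℝ A] (E H F : ℕ → A) : Prop where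
  E0 : ∀ i, 4 ≤ i → E i = 0
  H0 : ∀ i, 4 ≤ i → H i = 0
  F0 : ∀ i, 4 ≤ i → F i = 0
  EE : ∀ i j, E i * E j = E j * E i
  HH : ∀ i j, H i * H j = H j * H i
  FF : ∀ i j, F i * F j = F j * F i
  HE : ∀ i j, H i * E j = E j * H i + (2 : ℝ) • E (i + j)
  HF : ∀ i j, H i * F j = F j * H i - (2 : ℝ) • F (i + j)
  EF : ∀ i j, E i * F j = F j * E i + H (i + j)

end Pool.Agent.H69.DF
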