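import Pool.Agent.H69.DF.Base2

/-!
# Row LemQ: one-variable lemma and decompositions

(1) `const_of_inv`: P, P' : ℝ[X] with P.eval z = P'.eval (1/z) for all z < 0 ⟹ P = C c.
  Proof: multiply by z^n, n = P'.natDegree: z^n P'.eval (1/z) = (reverse-type polynomial R).eval z with natDegree R ≤ n
  (`Polynomial.eval₂_reverse_mul_pow`, or R = ∑ coefficients a_i X^(n-i)); so X^n * P = R (infinitely many z), so n + natDegree P ≤ n (or P = 0).
  Alternatively: z → -∞: P'.eval (1/z) → P'.eval 0, so P is bounded at -∞ hence constant (Polynomial.tendsto_nhds_iff or tendsto_abs_atTop).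
(2) `lemQ`. For z < 0: qd z = k2 + k3 z + k4 z² + k5 z³ + k6 z⁴ > 0 because of the signs. Take y = √(qd z) and y = -√(qd z) in h; add:
  A.eval z = A'.eval (1/z); subtract and divide by y ≠ 0: B.eval z - B'.eval (1/z)/z² = g/z. So A = C c by (1); and for P = X²*B - C g * X:
  P.eval z = B'.eval (1/z), so P is constant by (1); its coefficient 0 is 0, so P = 0; coefficient of X gives g = 0; then X² B = 0, B = 0.
(3) `decomp1`, `decomp2`, `decomp0`: the functions (z, y) ↦ A(z) + B(z) y on the curve y² = q(z) form a ring: (A+By)(A'+B'y) = (AA'+BB'q) + (AB'+A'B) y;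
  the coordinates of N1 (resp. N2) are of this form; MvPolynomial.induction_on F. In `decomp2` y² = q2(w) with
  q2(w) = k6 + k5 w + k4 w² + k3 w³ + k2 w⁴ is used. In `decomp0` (z = 0): N1 0 y k3 k4 k5 k6 = (0, 1, y, 0, 0, k3/4, k4/4, k5/4, k6/4), functions Φ(k) + Ψ(k) y
  with y² = k2 (variables 0..4 of R5 are k2..k6).
-/

namespace Pool.Agent.H69.DF

open Polynomial

theorem const_of_inv (P P' : ℝ[X]) (h : ∀ z < 0, P.eval z = P'.eval (1 / z)) : ∃ c, P = C c := by
  set n := P'.natDegree with hn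
  set R : ℝ[X] := ∑ i ∈ Finset.range (n + 1), C (P'.coeff i) * X ^ (n - i) with hR
  have hRd : R.natDegree ≤ n := by
    refine natDegree_sum_le_of_forall_le _ _ fun i _ => ?_
    refine (natDegree_C_mul_X_pow_le _ _).trans ?_
    omega
  have hRe : ∀ z : ℝ, z ≠ 0 → R.eval z = z ^ n * P'.eval (1 / z) := by
    intro z hz
    rw [hR, eval_finsetSum, eval_eq_sum_range, Finset.mul_sum]
    refine Finset.sum_congr rfl fun i hi => ?_
    have hi' : i ≤ n := Nat.lt_succ_iff.1 (Finset.mem_range.1 hi)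
    rw [eval_mul, eval_C, eval_pow, eval_X]
    have h1 : z ^ n = z ^ (n - i) * z ^ i := by
      rw [← pow_add, Nat.sub_add_cancel hi']
    rw [h1, one_div, inv_pow]
    have h2 : z ^ i ≠ 0 := pow_ne_zero _ hz
    field_simp
  have heq : X ^ n * P = R := by
    refine eq_of_infinite_eval_eq _ _ (Set.Infinite.mono ?_ (Set.Iio_infinite (0 : ℝ)))
    intro z hz
    have hz' : z < 0 := hz
    show (X ^ n * P).eval z = R.eval z
    rw [hRe z hz'.ne, eval_mul, eval_pow, eval_X, h z hz']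
  by_cases hP : P = 0
  · exact ⟨0, by rw [hP, C_0]⟩
  · have h1 : (X ^ n * P).natDegree = n + P.natDegree := by
      rw [natDegree_mul (pow_ne_zero _ X_ne_zero) hP, natDegree_X_pow]
    rw [heq] at h1
    have h2 : P.natDegree = 0 := by omega
    exact ⟨P.coeff 0, eq_C_of_natDegree_eq_zero h2⟩

theorem lemQ (k2 k3 k4 k5 k6 g : ℝ) (h2 : 0 < k2) (h3 : k3 < 0) (h4 : 0 < k4) (h5 : k5 < 0) (h6 : 0 < k6)
    (A B A' B' : ℝ[X])
    (h : ∀ z < 0, ∀ y, y ^ 2 = qd k2 k3 k4 k5 k6 z →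
      A.eval z + B.eval z * y - (A'.eval (1 / z) + B'.eval (1 / z) * (y / z ^ 2)) = g * (y / z)) :
    g = 0 ∧ B = 0 ∧ ∃ c, A = C c := by
  have key : ∀ z < 0, A.eval z = A'.eval (1 / z) ∧
      B.eval z - B'.eval (1 / z) / z ^ 2 = g / z := by
    intro z hz
    have hq : 0 < qd k2 k3 k4 k5 k6 z := by
      unfold qd
      have pow_pos_sq : 0 < z ^ 2 := by
        have h0 : z ≠ 0 := hz.ne
        positivity
      have a1 : 0 < k3 * z := mul_pos_of_neg_of_neg h3 hz
      have a2 : 0 < k4 * z ^ 2 := mul_pos h4 (pow_pos_sq)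
      have a3 : 0 < k5 * z ^ 3 := mul_pos_of_neg_of_neg h5 (by
        have : z ^ 3 = z * z ^ 2 := by ring
        rw [this]
        exact mul_neg_of_neg_of_pos hz (pow_pos_sq))
      have a4 : 0 < k6 * z ^ 4 := mul_pos h6 (by
        have : z ^ 4 = z ^ 2 * z ^ 2 := by ring
        rw [this]
        exact mul_pos (pow_pos_sq) (pow_pos_sq))
      linarith
    have hs : √(qd k2 k3 k4 k5 k6 z) ^ 2 = qd k2 k3 k4 k5 k6 z := Real.sq_sqrt hq.le
    have hsp : 0 < √(qd k2 k3 k4 k5 k6 z) := Real.sqrt_pos.2 hq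
    have e1 := h z hz _ hs
    have e2 := h z hz (-√(qd k2 k3 k4 k5 k6 z)) (by rw [neg_sq]; exact hs)
    set y := √(qd k2 k3 k4 k5 k6 z) with hy
    have hz0 : z ≠ 0 := hz.ne
    constructor
    · have e3 : 2 * (A.eval z - A'.eval (1 / z)) = 0 := by
        have h1 : B.eval z * -y = -(B.eval z * y) := by ring
        have h2 : B'.eval (1 / z) * (-y / z ^ 2) = -(B'.eval (1 / z) * (y / z ^ 2)) := by ring
        have h3 : g * (-y / z) = -(g * (y / z)) := by ring
        rw [h1, h2, h3] at e2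
        linarith
      linarith
    · have e3 : (B.eval z - B'.eval (1 / z) / z ^ 2 - g / z) * y = 0 := by
        have h1 : B.eval z * -y = -(B.eval z * y) := by ring
        have h2 : B'.eval (1 / z) * (-y / z ^ 2) = -(B'.eval (1 / z) * (y / z ^ 2)) := by ring
        have h3 : g * (-y / z) = -(g * (y / z)) := by ring
        rw [h1, h2, h3] at e2
        have h4 : (B.eval z - B'.eval (1 / z) / z ^ 2 - g / z) * y =
          B.eval z * y - B'.eval (1 / z) * (y / z ^ 2) - g * (y / z) := by ring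
        rw [h4]
        linarith
      rcases mul_eq_zero.1 e3 with h5 | h5
      · linarith
      · exact absurd h5 hsp.ne'
  obtain ⟨c, hc⟩ := const_of_inv A A' fun z hz => (key z hz).1
  obtain ⟨c', hc'⟩ := const_of_inv (X ^ 2 * B - C g * X) B' fun z hz => by
    have hz0 : z ≠ 0 := hz.ne
    have h1 := (key z hz).2
    rw [eval_sub, eval_mul, eval_mul, eval_pow, eval_X, eval_C]
    field_simp at h1
    linarith
  have hcf0 : c' = 0 := by
    have h1 := congrArg (fun p : ℝ[X] => p.coeff 0) hc'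
    simp only [coeff_sub, coeff_C_mul, coeff_X_zero, mul_zero, sub_zero, coeff_C_zero] at h1
    rw [coeff_X_pow_mul'] at h1
    simpa using h1.symm
  rw [hcf0, C_0] at hc'
  have hg : g = 0 := by
    have h1 := congrArg (fun p : ℝ[X] => p.coeff 1) hc'
    simp only [coeff_sub, coeff_C_mul, coeff_X_one, mul_one, coeff_zero] at h1
    rw [coeff_X_pow_mul'] at h1
    simpa using h1
  refine ⟨hg, ?_, c, hc⟩
  rw [hg, C_0, zero_mul, sub_zero] at hc'
  rcases mul_eq_zero.1 hc' with h1 | h1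
  · exact absurd h1 (pow_ne_zero _ X_ne_zero)
  · exact h1

theorem rlemq_gen {T : Type} [CommRing T] [Algebra ℝ T] {σ : Type} (ev : σ → T →ₐ[ℝ] ℝ)
    (y : σ → ℝ) (q : T) (hy : ∀ s, y s ^ 2 = ev s q) (v : σ → Fin 9 → ℝ)
    (hv : ∀ i, ∃ A B : T, ∀ s, v s i = ev s A + ev s B * y s)
    (F : MvPolynomial (Fin 9) ℝ) :
    ∃ A B : T, ∀ s, MvPolynomial.eval (v s) F = ev s A + ev s B * y s := by
  induction F using MvPolynomial.induction_on with
  | C a =>
    refine ⟨algebraMap ℝ T a, 0, fun s => ?_⟩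
    rw [MvPolynomial.eval_C, AlgHom.commutes, map_zero, zero_mul, add_zero]
    rfl
  | add p r hp hr =>
    obtain ⟨A, B, h1⟩ := hp
    obtain ⟨A', B', h2⟩ := hr
    refine ⟨A + A', B + B', fun s => ?_⟩
    rw [map_add, h1, h2, map_add, map_add]
    ring
  | mul_X p i hp =>
    obtain ⟨A, B, h1⟩ := hp
    obtain ⟨A', B', h2⟩ := hv i
    refine ⟨A * A' + B * B' * q, A * B' + B * A', fun s => ?_⟩
    rw [map_mul, MvPolynomial.eval_X, h1, h2, map_add, map_add, map_mul, map_mul, map_mul,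
      map_mul, map_mul, ← hy s]
    ring

theorem decomp1 (F : R9) (k2 k3 k4 k5 k6 : ℝ) : ∃ A B : ℝ[X], ∀ z y, y ^ 2 = qd k2 k3 k4 k5 k6 z →
    MvPolynomial.eval (N1 z y k3 k4 k5 k6) F = A.eval z + B.eval z * y := by
  obtain ⟨A, B, h⟩ := rlemq_gen (σ := {p : ℝ × ℝ // p.2 ^ 2 = qd k2 k3 k4 k5 k6 p.1})
    (fun s => Polynomial.aeval s.1.1) (fun s => s.1.2)
    (C k2 + C k3 * X + C k4 * X ^ 2 + C k5 * X ^ 3 + C k6 * X ^ 4)
    (fun s => by
      rw [s.2, qd, Polynomial.coe_aeval_eq_eval]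
      simp)
    (fun s => N1 s.1.1 s.1.2 k3 k4 k5 k6)
    (fun i => by
      have hC : ∀ P : ℝ[X], (∀ z : ℝ, N1 z 0 k3 k4 k5 k6 i = P.eval z) →
          (∀ z y : ℝ, N1 z y k3 k4 k5 k6 i = N1 z 0 k3 k4 k5 k6 i) →
          ∃ A B : ℝ[X], ∀ s : {p : ℝ × ℝ // p.2 ^ 2 = qd k2 k3 k4 k5 k6 p.1},
          N1 s.1.1 s.1.2 k3 k4 k5 k6 i = Polynomial.aeval s.1.1 A +
            Polynomial.aeval s.1.1 B * s.1.2 := by
        intro P h1 h2
        refine ⟨P, 0, fun s => ?_⟩
        rw [h2, h1, Polynomial.coe_aeval_eq_eval]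
        simp
      fin_cases i
      · exact hC (-X) (fun z => by simp [N1]) (fun z y => by simp [N1])
      · exact hC 1 (fun z => by simp [N1]) (fun z y => by simp [N1])
      · refine ⟨0, 1, fun s => ?_⟩
        simp [N1]
      · exact hC 0 (fun z => by simp [N1]) (fun z y => by simp [N1])
      · exact hC 0 (fun z => by simp [N1]) (fun z y => by simp [N1])
      · exact hC (C (k3 / 4) + X * (C (k4 / 4) + X * (C (k5 / 4) + X * C (k6 / 4))))
          (fun z => by simp only [N1, eval_add, eval_mul, eval_X, eval_C]; rfl)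
          (fun z y => rfl)
      · exact hC (C (k4 / 4) + X * (C (k5 / 4) + X * C (k6 / 4)))
          (fun z => by simp only [N1, eval_add, eval_mul, eval_X, eval_C]; rfl)
          (fun z y => rfl)
      · exact hC (C (k5 / 4) + X * C (k6 / 4))
          (fun z => by simp only [N1, eval_add, eval_mul, eval_X, eval_C]; rfl)
          (fun z y => rfl)
      · exact hC (C (k6 / 4)) (fun z => by simp only [N1, eval_C]; rfl) (fun z y => rfl))
    F
  refine ⟨A, B, fun z y hzy => ?_⟩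
  have h1 := h ⟨(z, y), hzy⟩
  simpa [Polynomial.coe_aeval_eq_eval] using h1

theorem decomp2 (F : R9) (k2 k3 k4 k5 k6 : ℝ) : ∃ A B : ℝ[X], ∀ w y,
    y ^ 2 = k6 + k5 * w + k4 * w ^ 2 + k3 * w ^ 3 + k2 * w ^ 4 →
    MvPolynomial.eval (N2 w y k2 k3 k4 k5) F = A.eval w + B.eval w * y := by
  obtain ⟨A, B, h⟩ := rlemq_gen
    (σ := {p : ℝ × ℝ // p.2 ^ 2 = k6 + k5 * p.1 + k4 * p.1 ^ 2 + k3 * p.1 ^ 3 + k2 * p.1 ^ 4})
    (fun s => Polynomial.aeval s.1.1) (fun s => s.1.2)
    (C k6 + C k5 * X + C k4 * X ^ 2 + C k3 * X ^ 3 + C k2 * X ^ 4)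
    (fun s => by
      rw [s.2, Polynomial.coe_aeval_eq_eval]
      simp)
    (fun s => N2 s.1.1 s.1.2 k2 k3 k4 k5)
    (fun i => by
      have hC : ∀ P : ℝ[X], (∀ z : ℝ, N2 z 0 k2 k3 k4 k5 i = P.eval z) →
          (∀ z y : ℝ, N2 z y k2 k3 k4 k5 i = N2 z 0 k2 k3 k4 k5 i) →
          ∃ A B : ℝ[X], ∀ s : {p : ℝ × ℝ //
            p.2 ^ 2 = k6 + k5 * p.1 + k4 * p.1 ^ 2 + k3 * p.1 ^ 3 + k2 * p.1 ^ 4},
          N2 s.1.1 s.1.2 k2 k3 k4 k5 i = Polynomial.aeval s.1.1 A +
            Polynomial.aeval s.1.1 B * s.1.2 := by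
        intro P h1 h2
        refine ⟨P, 0, fun s => ?_⟩
        rw [h2, h1, Polynomial.coe_aeval_eq_eval]
        simp
      fin_cases i
      · exact hC 1 (fun z => by simp [N2]) (fun z y => by simp [N2])
      · exact hC (-X) (fun z => by simp [N2]) (fun z y => by simp [N2])
      · exact hC 0 (fun z => by simp [N2]) (fun z y => by simp [N2])
      · exact hC 0 (fun z => by simp [N2]) (fun z y => by simp [N2])
      · refine ⟨0, 1, fun s => ?_⟩
        simp [N2]
      · exact hC (C (k2 / 4)) (fun z => by simp only [N2, eval_C]; rfl) (fun z y => rfl)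
      · exact hC (C (k3 / 4) + X * C (k2 / 4))
          (fun z => by simp only [N2, eval_add, eval_mul, eval_X, eval_C]; rfl)
          (fun z y => rfl)
      · exact hC (C (k4 / 4) + X * (C (k3 / 4) + X * C (k2 / 4)))
          (fun z => by simp only [N2, eval_add, eval_mul, eval_X, eval_C]; rfl)
          (fun z y => rfl)
      · exact hC (C (k5 / 4) + X * (C (k4 / 4) + X * (C (k3 / 4) + X * C (k2 / 4))))
          (fun z => by simp only [N2, eval_add, eval_mul, eval_X, eval_C]; rfl)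
          (fun z y => rfl))
    F
  refine ⟨A, B, fun z y hzy => ?_⟩
  have h1 := h ⟨(z, y), hzy⟩
  simpa [Polynomial.coe_aeval_eq_eval] using h1

theorem decomp0 (F : R9) : ∃ Φ Ψ : R5, ∀ k2 k3 k4 k5 k6 y : ℝ, y ^ 2 = k2 →
    MvPolynomial.eval (N1 0 y k3 k4 k5 k6) F = MvPolynomial.eval ![k2, k3, k4, k5, k6] Φ
      + MvPolynomial.eval ![k2, k3, k4, k5, k6] Ψ * y := by
  obtain ⟨A, B, h⟩ := rlemq_gen (T := R5)
    (σ := {p : (Fin 5 → ℝ) × ℝ // p.2 ^ 2 = p.1 0})
    (fun s => MvPolynomial.aeval s.1.1) (fun s => s.1.2)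
    (MvPolynomial.X 0)
    (fun s => by rw [s.2, MvPolynomial.aeval_X])
    (fun s => N1 0 s.1.2 (s.1.1 1) (s.1.1 2) (s.1.1 3) (s.1.1 4))
    (fun i => by
      have h4 : ∀ (s : {p : (Fin 5 → ℝ) × ℝ // p.2 ^ 2 = p.1 0}) (j : Fin 5),
          s.1.1 j / 4 = MvPolynomial.aeval s.1.1 ((1 / 4 : ℝ) • (MvPolynomial.X j : R5)) := by
        intro s j
        rw [map_smul, MvPolynomial.aeval_X, smul_eq_mul]
        ring
      fin_cases i
      · refine ⟨0, 0, fun s => ?_⟩
        simp [N1]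
      · refine ⟨1, 0, fun s => ?_⟩
        simp [N1]
      · refine ⟨0, 1, fun s => ?_⟩
        simp [N1]
      · refine ⟨0, 0, fun s => ?_⟩
        simp [N1]
      · refine ⟨0, 0, fun s => ?_⟩
        simp [N1]
      · refine ⟨(1 / 4 : ℝ) • MvPolynomial.X 1, 0, fun s => ?_⟩
        rw [← h4 s 1, map_zero, zero_mul, add_zero]
        simp [N1]
      · refine ⟨(1 / 4 : ℝ) • MvPolynomial.X 2, 0, fun s => ?_⟩
        rw [← h4 s 2, map_zero, zero_mul, add_zero]
        simp [N1]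
      · refine ⟨(1 / 4 : ℝ) • MvPolynomial.X 3, 0, fun s => ?_⟩
        rw [← h4 s 3, map_zero, zero_mul, add_zero]
        simp [N1]
      · refine ⟨(1 / 4 : ℝ) • MvPolynomial.X 4, 0, fun s => ?_⟩
        rw [← h4 s 4, map_zero, zero_mul, add_zero]
        simp [N1])
    F
  refine ⟨A, B, fun k2 k3 k4 k5 k6 y hy => ?_⟩
  have h1 := h ⟨(![k2, k3, k4, k5, k6], y), hy⟩
  simpa [MvPolynomial.coe_aeval_eq_eval] using h1

end Pool.Agent.H69.DF
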