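import Pool.Agent.H69.DF.RFlow
import Pool.Agent.H69.DF.RLemQ

/-!
# Row ThmAO: invariants, the obstruction theorem, algebraic independence
(1) `thmO`: DT W = 0, D0 W = 0, D1 W = aeval K G * X 1 imply G = 0.
  Fix k = (k2..k6) with k2 > 0, k3 < 0, k4 > 0, k5 < 0, k6 > 0. decomp1, decomp2 give A, B, A', B'. For z < 0, y² = qd z: chart_eq with
  y² - k3 z - k4 z² - k5 z³ - k6 z⁴ = k2 and (y/z²)² = k6 + k5 w + ... at w = 1/z (field_simp) gives the hypothesis of lemQ with g = 1/2 * eval k G. So eval k G = 0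
  for all these k: product of infinite sets, MvPolynomial.funext_set.
(2) `thmA`: with G = 0: for such k there is c with eval (N1 z y k3..k6) F = c for all z, y with y² = qd z (also z ≥ 0). z = 0, y = ±√k2 with decomp0:
  c = Φ(k), Ψ(k) = 0. So eval (N1 z y k3..k6) F = Φ(k) for all k in the orthant, y² = qd z.
  For x with x 1 > 0 and K-values in the orthant: normal1 and the identity y² = qd (K-values) z give eval x F = Φ(K-values) = eval x (aeval K Φ).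
  The points x with 0 < x0 < 1/10, 1 < x1 < 2, 2 < x2 < 3, 0 < x3 < 1/10, 0 < x4 < 1/10, -2 < x5 < -1, 1 < x6 < 2, -2 < x7 < -1, 1 < x8 < 2 have K-values in the
  orthant; product of infinite sets, funext_set, so F = aeval K Φ.
(3) `algInd`: aeval K Q = 0 implies Q = 0: evaluate at (0, 1, √k2, 0, 0, k3/4, k4/4, k5/4, k6/4), k2 > 0: K-values (k2, ..., k6); funext_set.
-/

namespace Pool.Agent.H69.DF

open MvPolynomial

theorem RThmAO_g (W : R9) (G : R5) (hT : DT W = 0) (h0 : D0 W = 0)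
    (h1 : D1 W = aeval K G * X 1) (k2 k3 k4 k5 k6 : ℝ) (h2 : 0 < k2) (h3 : k3 < 0) (h4 : 0 < k4)
    (h5 : k5 < 0) (h6 : 0 < k6) :
    eval ![k2, k3, k4, k5, k6] G = 0 ∧ ∃ c, ∀ z y, y ^ 2 = qd k2 k3 k4 k5 k6 z →
      eval (N1 z y k3 k4 k5 k6) W = c := by
  obtain ⟨A, B, hAB⟩ := decomp1 W k2 k3 k4 k5 k6
  obtain ⟨A', B', hAB'⟩ := decomp2 W k2 k3 k4 k5 k6
  obtain ⟨hg, hB, c, hc⟩ := lemQ k2 k3 k4 k5 k6 (1 / 2 * eval ![k2, k3, k4, k5, k6] G) h2 h3 h4 h5 h6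
    A B A' B' (by
      intro z hz y hy
      have e := chart_eq W G hT h0 h1 z y k3 k4 k5 k6 hz
      have e2 : y ^ 2 - k3 * z - k4 * z ^ 2 - k5 * z ^ 3 - k6 * z ^ 4 = k2 := by
        rw [hy, qd]; ring
      rw [e2] at e
      rw [hAB z y hy, hAB' (1 / z) (y / z ^ 2) (by
        rw [div_pow, hy, qd]
        have hz0 : z ≠ 0 := hz.ne
        field_simp
        ring)] at e
      linarith)
  refine ⟨by linarith, c, fun z y hy => ?_⟩
  rw [hAB z y hy, hB, hc]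
  simp

theorem RThmAO_vec (x : Fin 5 → ℝ) : x = ![x 0, x 1, x 2, x 3, x 4] := by
  funext i
  fin_cases i <;> rfl

theorem thmO (W : R9) (G : R5) (hT : DT W = 0) (h0 : D0 W = 0) (h1 : D1 W = aeval K G * X 1) : G = 0 := by
  refine MvPolynomial.funext_set
    (![Set.Ioi 0, Set.Iio 0, Set.Ioi 0, Set.Iio 0, Set.Ioi 0] : Fin 5 → Set ℝ) ?_ ?_
  · intro i
    fin_cases i
    · exact Set.Ioi_infinite 0
    · exact Set.Iio_infinite 0
    · exact Set.Ioi_infinite 0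
    · exact Set.Iio_infinite 0
    · exact Set.Ioi_infinite 0
  · intro x hx
    have h2 : 0 < x 0 := hx 0 (Set.mem_univ _)
    have h3 : x 1 < 0 := hx 1 (Set.mem_univ _)
    have h4 : 0 < x 2 := hx 2 (Set.mem_univ _)
    have h5 : x 3 < 0 := hx 3 (Set.mem_univ _)
    have h6 : 0 < x 4 := hx 4 (Set.mem_univ _)
    have := (RThmAO_g W G hT h0 h1 (x 0) (x 1) (x 2) (x 3) (x 4) h2 h3 h4 h5 h6).1
    rw [← RThmAO_vec x] at this
    rw [this, map_zero]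

theorem RThmAO_K (x : Fin 9 → ℝ) (hx : 0 < x 1) :
    (x 2 + x 3 * (-x 0 / x 1) + x 4 * (-x 0 / x 1) ^ 2) ^ 2 =
      qd (eval x (K 0)) (eval x (K 1)) (eval x (K 2)) (eval x (K 3)) (eval x (K 4)) (-x 0 / x 1) := by
  have hx0 : x 1 ≠ 0 := hx.ne'
  have hz : x 0 + x 1 * (-x 0 / x 1) = 0 := by field_simp; ring
  generalize -x 0 / x 1 = z at hz
  have e : qd (eval x (K 0)) (eval x (K 1)) (eval x (K 2)) (eval x (K 3)) (eval x (K 4)) z =
      4 * (x 0 + x 1 * z) * (x 5 + x 6 * z + x 7 * z ^ 2 + x 8 * z ^ 3) +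
        (x 2 + x 3 * z + x 4 * z ^ 2) ^ 2 := by
    simp only [qd, K, Matrix.cons_val_zero, Matrix.cons_val_one, Matrix.cons_val]
    simp only [map_add, map_mul, map_pow, eval_X, map_ofNat]
    ring
  rw [e, hz]
  ring

theorem RThmAO_evK (x : Fin 9 → ℝ) (Φ : R5) : eval x (aeval K Φ) =
    eval ![eval x (K 0), eval x (K 1), eval x (K 2), eval x (K 3), eval x (K 4)] Φ := by
  have h1 : (![eval x (K 0), eval x (K 1), eval x (K 2), eval x (K 3), eval x (K 4)] :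
      Fin 5 → ℝ) = fun i => eval x (K i) := by
    funext i
    fin_cases i <;> rfl
  rw [h1]
  induction Φ using MvPolynomial.induction_on with
  | C a => simp [algebraMap_eq]
  | add p q hp hq => simp only [map_add, hp, hq]
  | mul_X p i hp => simp only [map_mul, aeval_X, eval_X, hp]

theorem thmA (F : R9) (hT : DT F = 0) (h0 : D0 F = 0) (h1 : D1 F = 0) : ∃ Φ : R5, F = aeval K Φ := by
  obtain ⟨Φ, Ψ, hΦ⟩ := decomp0 F
  have h1' : D1 F = aeval K (0 : R5) * X 1 := by rw [h1, map_zero, zero_mul]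
  have key : ∀ k2 k3 k4 k5 k6 : ℝ, 0 < k2 → k3 < 0 → 0 < k4 → k5 < 0 → 0 < k6 → ∀ z y,
      y ^ 2 = qd k2 k3 k4 k5 k6 z → eval (N1 z y k3 k4 k5 k6) F = eval ![k2, k3, k4, k5, k6] Φ := by
    intro k2 k3 k4 k5 k6 a2 a3 a4 a5 a6 z y hy
    obtain ⟨-, c, hc⟩ := RThmAO_g F 0 hT h0 h1' k2 k3 k4 k5 k6 a2 a3 a4 a5 a6
    rw [hc z y hy]
    have hs : (√k2) ^ 2 = k2 := Real.sq_sqrt a2.le
    have hs' : (-√k2) ^ 2 = k2 := by rw [neg_sq, hs]
    have hq : qd k2 k3 k4 k5 k6 0 = k2 := by simp [qd]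
    have e1 := hc 0 (√k2) (by rw [hs, hq])
    have e2 := hc 0 (-√k2) (by rw [hs', hq])
    rw [hΦ k2 k3 k4 k5 k6 (√k2) hs] at e1
    rw [hΦ k2 k3 k4 k5 k6 (-√k2) hs'] at e2
    linarith
  refine ⟨Φ, ?_⟩
  refine MvPolynomial.funext_set
    (![Set.Ioo 0 (1 / 10), Set.Ioo 1 2, Set.Ioo 2 3, Set.Ioo 0 (1 / 10), Set.Ioo 0 (1 / 10),
      Set.Ioo (-2) (-1), Set.Ioo 1 2, Set.Ioo (-2) (-1), Set.Ioo 1 2] : Fin 9 → Set ℝ) ?_ ?_
  · intro i
    fin_cases i <;> exact Set.Ioo_infinite (by norm_num)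
  · intro x hx
    have m0 : x 0 ∈ Set.Ioo (0 : ℝ) (1 / 10) := hx 0 (Set.mem_univ _)
    have m1 : x 1 ∈ Set.Ioo (1 : ℝ) 2 := hx 1 (Set.mem_univ _)
    have m2 : x 2 ∈ Set.Ioo (2 : ℝ) 3 := hx 2 (Set.mem_univ _)
    have m3 : x 3 ∈ Set.Ioo (0 : ℝ) (1 / 10) := hx 3 (Set.mem_univ _)
    have m4 : x 4 ∈ Set.Ioo (0 : ℝ) (1 / 10) := hx 4 (Set.mem_univ _)
    have m5 : x 5 ∈ Set.Ioo (-2 : ℝ) (-1) := hx 5 (Set.mem_univ _)
    have m6 : x 6 ∈ Set.Ioo (1 : ℝ) 2 := hx 6 (Set.mem_univ _)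
    have m7 : x 7 ∈ Set.Ioo (-2 : ℝ) (-1) := hx 7 (Set.mem_univ _)
    have m8 : x 8 ∈ Set.Ioo (1 : ℝ) 2 := hx 8 (Set.mem_univ _)
    obtain ⟨l0, u0⟩ := m0
    obtain ⟨l1, u1⟩ := m1
    obtain ⟨l2, u2⟩ := m2
    obtain ⟨l3, u3⟩ := m3
    obtain ⟨l4, u4⟩ := m4
    obtain ⟨l5, u5⟩ := m5
    obtain ⟨l6, u6⟩ := m6
    obtain ⟨l7, u7⟩ := m7
    obtain ⟨l8, u8⟩ := m8
    have hx1 : 0 < x 1 := by linarith
    have K0 : 0 < eval x (K 0) := by
      simp only [K, Matrix.cons_val_zero, map_add, map_mul, map_pow, eval_X, map_ofNat]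
      nlinarith
    have K1 : eval x (K 1) < 0 := by
      simp only [K, Matrix.cons_val_one, Matrix.cons_val_zero, map_add, map_mul, eval_X,
        map_ofNat]
      nlinarith
    have K2 : 0 < eval x (K 2) := by
      simp only [K, Matrix.cons_val, map_add, map_mul, map_pow, eval_X, map_ofNat]
      nlinarith [mul_pos (show (0 : ℝ) < x 2 by linarith) l4]
    have K3 : eval x (K 3) < 0 := by
      simp only [K, Matrix.cons_val, map_add, map_mul, eval_X, map_ofNat]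
      nlinarith
    have K4 : 0 < eval x (K 4) := by
      simp only [K, Matrix.cons_val, map_add, map_mul, map_pow, eval_X, map_ofNat]
      nlinarith
    rw [normal1 F hT h0 h1 x hx1, key (eval x (K 0)) _ _ _ _ K0 K1 K2 K3 K4 _ _ (RThmAO_K x hx1),
      RThmAO_evK]

theorem algInd (Q : R5) (h : aeval K Q = 0) : Q = 0 := by
  refine MvPolynomial.funext_set (fun _ : Fin 5 => Set.Ioi (0 : ℝ)) (fun _ => Set.Ioi_infinite 0) ?_
  intro k hk
  have h0 : 0 < k 0 := hk 0 (Set.mem_univ _)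
  have e := RThmAO_evK ![0, 1, √(k 0), 0, 0, k 1 / 4, k 2 / 4, k 3 / 4, k 4 / 4] Q
  rw [h, map_zero] at e
  have hs : (√(k 0)) ^ 2 = k 0 := Real.sq_sqrt h0.le
  have hv : (![eval ![0, 1, √(k 0), 0, 0, k 1 / 4, k 2 / 4, k 3 / 4, k 4 / 4] (K 0),
      eval ![0, 1, √(k 0), 0, 0, k 1 / 4, k 2 / 4, k 3 / 4, k 4 / 4] (K 1),
      eval ![0, 1, √(k 0), 0, 0, k 1 / 4, k 2 / 4, k 3 / 4, k 4 / 4] (K 2),
      eval ![0, 1, √(k 0), 0, 0, k 1 / 4, k 2 / 4, k 3 / 4, k 4 / 4] (K 3),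
      eval ![0, 1, √(k 0), 0, 0, k 1 / 4, k 2 / 4, k 3 / 4, k 4 / 4] (K 4)] : Fin 5 → ℝ) = k := by
    funext i
    fin_cases i <;> simp [K, hs] <;> ring
  rw [hv] at e
  rw [← e, map_zero]

end Pool.Agent.H69.DF
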