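import Pool.Agent.H69.DF.RRed
import Pool.Agent.H69.DF.RThmAO

/-!
# Row Class: the Poisson center contains a polynomial ring in five variables
-/

namespace Pool.Agent.H69.DF

open MvPolynomial

theorem sg_aeval (Q : R5) : sg (aeval Kt Q) = aeval K Q := by
  have h : sg.comp (aeval Kt) = (aeval K : R5 →ₐ[ℝ] R9) := by
    refine MvPolynomial.algHom_ext fun i => ?_
    rw [AlgHom.comp_apply, aeval_X, aeval_X, sg_Kt]
  exact DFunLike.congr_fun h Q

theorem Kt_inN {P : S →ₗ[ℝ] S →ₗ[ℝ] S} (hP : IsPois P) (i : Fin 5) : inN P (Kt i) := by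
  refine Fin.cases (Kt_inN0 hP) (fun j => ?_) i
  intro Y
  rw [hP.anti, Kt_cas hP, neg_zero]
  exact Jd.zero_mem

theorem der_aeval (D : Derivation ℝ R9 R9) (hD : ∀ i, D (K i) = 0) (Q : R5) : D (aeval K Q) = 0 := by
  induction Q using MvPolynomial.induction_on with
  | C c => rw [algHom_C, algebraMap_eq]; exact D.map_algebraMap c
  | add p q hp hq => rw [map_add, map_add, hp, hq, add_zero]
  | mul_X p i hp =>
    rw [map_mul, aeval_X, Derivation.leibniz, hp, hD, smul_zero, smul_zero, add_zero]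

theorem inN_aeval {P : S →ₗ[ℝ] S →ₗ[ℝ] S} (hP : IsPois P) (Q : R5) : inN P (aeval Kt Q) := by
  rw [inN_iff hP, sg_aeval]
  have h := fun i => (inN_iff hP (Kt i)).mp (Kt_inN hP i)
  simp only [sg_Kt] at h
  exact ⟨der_aeval DT (fun i => (h i).1) Q, der_aeval D0 (fun i => (h i).2.1) Q,
    der_aeval D1 (fun i => (h i).2.2) Q⟩

theorem P_aeval {P : S →ₗ[ℝ] S →ₗ[ℝ] S} (hP : IsPois P) (c : S) (hc : ∀ i, P c (Kt i) = 0) (Q : R5) :
    P c (aeval Kt Q) = 0 := by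
  induction Q using MvPolynomial.induction_on with
  | C r => rw [algHom_C]; exact P_algebraMap hP c r
  | add p q hp hq => rw [map_add, map_add, hp, hq, add_zero]
  | mul_X p i hp => rw [map_mul, aeval_X, hP.leib, hp, hc, zero_mul, mul_zero, add_zero]

theorem P_self {P : S →ₗ[ℝ] S →ₗ[ℝ] S} (hP : IsPois P) (a : S) : P a a = 0 := by
  have h := hP.anti a a
  have h2 : (2 : ℝ) • P a a = 0 := by
    rw [two_smul]; nth_rewrite 2 [h]; exact add_neg_cancel _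
  exact (smul_eq_zero.mp h2).resolve_left (by norm_num)

theorem P_KK {P : S →ₗ[ℝ] S →ₗ[ℝ] S} (hP : IsPois P) (i j : Fin 5) : P (Kt i) (Kt j) = 0 := by
  refine Fin.cases ?_ (fun i' => Kt_cas hP i' _) i
  refine Fin.cases (P_self hP _) (fun j' => ?_) j
  rw [hP.anti, Kt_cas hP, neg_zero]

theorem P_comm {P : S →ₗ[ℝ] S →ₗ[ℝ] S} (hP : IsPois P) (Q R : R5) :
    P (aeval Kt Q) (aeval Kt R) = 0 := by
  refine P_aeval hP _ (fun i => ?_) R
  rw [hP.anti, P_aeval hP _ (fun j => P_KK hP i j) Q, neg_zero]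

theorem P_Jd {P : S →ₗ[ℝ] S →ₗ[ℝ] S} (hP : IsPois P) (a : S) (ha : inN P a) (j : S) (hj : j ∈ Jd) :
    P a j ∈ Jd := by
  refine Submodule.span_induction (p := fun x _ => P a x ∈ Jd) ?_ ?_ ?_ ?_ hj
  · rintro _ ⟨Y, rfl⟩
    rw [hP.anti]
    exact Jd.neg_mem (ha Y)
  · rw [map_zero]; exact Jd.zero_mem
  · intro x y _ _ hx hy
    rw [map_add]; exact Jd.add_mem hx hy
  · intro x y hy h
    rw [smul_eq_mul, hP.leib]
    exact Jd.add_mem (Jd.mul_mem_left _ hy) (Jd.mul_mem_left _ h)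

theorem classical (P : S →ₗ[ℝ] S →ₗ[ℝ] S) (hP : IsPois P) : ∃ Kt : Fin 5 → S,
    (∀ Q : R5, aeval Kt Q ∈ ZSs P) ∧ ∀ Q : R5, aeval Kt Q ∈ Jd → Q = 0 := by
  refine ⟨Kt, fun Q => ⟨inN_aeval hP Q, fun b hb => ?_⟩, fun Q hQ => ?_⟩
  · obtain ⟨hT, h0, h1⟩ := (inN_iff hP b).mp hb
    obtain ⟨R, hR⟩ := thmA (sg b) hT h0 h1
    have hj : b - aeval Kt R ∈ Jd := by
      rw [sg_mem, map_sub, sg_aeval, ← hR, sub_self]
    have e : P (aeval Kt Q) b = P (aeval Kt Q) (b - aeval Kt R) := by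
      rw [map_sub, P_comm hP, sub_zero]
    rw [e]
    exact P_Jd hP _ (inN_aeval hP Q) _ hj
  · rw [sg_mem, sg_aeval] at hQ
    exact algInd Q hQ

end Pool.Agent.H69.DF
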