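import Pool.Agent.H69.DF.RRelU

/-!
# Span: U(g) = (span of the words f^a h^b e^c) + Id

`tau_surj`: for every u in U(g) there is p in R9 with u - tau p in Id.  Let `RSpan_cl C V` be the smallest subspace containing `V` and
stable under left multiplication by the elements of `C`.  With `N_E = cl {Eu 2, Eu 3} (Id + R 1)`, `N_H = cl {Hu 1, Hu 2, Hu 3} N_E`,
`N_F = cl {Fu 0, ..., Fu 3} N_H` the relations show that `N_E` is stable under all `Eu k` and `Hu 0`, `N_H` under all `Eu k` and `Hu k`, and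
`N_F` under all generators, so `N_F` is everything; on the other hand the span of the words plus `Id` contains `N_F` by minimality.
-/

namespace Pool.Agent.H69.DF

open MvPolynomial

/-- smallest subspace containing `V` and stable under left multiplication by `C` -/
noncomputable def RSpan_cl (C : Set U) (V : Submodule ℝ U) : Submodule ℝ U :=
  sInf {W | V ≤ W ∧ ∀ c ∈ C, ∀ w ∈ W, c * w ∈ W}

theorem RSpan_le (C : Set U) (V : Submodule ℝ U) : V ≤ RSpan_cl C V :=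
  le_sInf fun _ hW => hW.1

theorem RSpan_min {C : Set U} {V W : Submodule ℝ U} (h1 : V ≤ W)
    (h2 : ∀ c ∈ C, ∀ w ∈ W, c * w ∈ W) : RSpan_cl C V ≤ W := sInf_le ⟨h1, h2⟩

theorem RSpan_st {C : Set U} {V : Submodule ℝ U} {c w : U} (hc : c ∈ C)
    (hw : w ∈ RSpan_cl C V) : c * w ∈ RSpan_cl C V := by
  rw [RSpan_cl, Submodule.mem_sInf] at hw ⊢
  intro W hW
  exact hW.2 c hc w (hw W hW)

/-- induction principle -/
theorem RSpan_ind {C : Set U} {V : Submodule ℝ U} (P : Submodule ℝ U)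
    (h1 : ∀ v ∈ V, v ∈ P)
    (h2 : ∀ c ∈ C, ∀ w, w ∈ RSpan_cl C V → w ∈ P → c * w ∈ P) {x : U}
    (hx : x ∈ RSpan_cl C V) : x ∈ P := by
  have h : RSpan_cl C V ≤ RSpan_cl C V ⊓ P :=
    RSpan_min (fun v hv => ⟨RSpan_le C V hv, h1 v hv⟩)
      (fun c hc w hw => ⟨RSpan_st hc hw.1, h2 c hc w hw.1 hw.2⟩)
  exact (h hx).2

/-- elements sent to `W` by left multiplication by `a` -/
noncomputable def RSpan_pre (a : U) (W : Submodule ℝ U) : Submodule ℝ U :=
  W.comap (LinearMap.mulLeft ℝ a)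

theorem RSpan_pre_mem {a x : U} {W : Submodule ℝ U} : x ∈ RSpan_pre a W ↔ a * x ∈ W := Iff.rfl

noncomputable def RSpan_I : Submodule ℝ U := Id.restrictScalars ℝ

theorem RSpan_I_mul {a x : U} (hx : x ∈ RSpan_I) : a * x ∈ RSpan_I := Id.mul_mem_left a hx

theorem RSpan_E0 : Eu 0 ∈ RSpan_I := by
  have h : Eu 0 ∈ Id := by simpa using Id_mem_gen 0 1 0
  exact h

theorem RSpan_E1 : Eu 1 ∈ RSpan_I := by
  have h : Eu 1 ∈ Id := by simpa using Id_mem_gen 0 0 1
  exact h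

theorem RSpan_H0 : Hu 0 ∈ RSpan_I := by
  have h : Hu 0 ∈ Id := by simpa using Id_mem_gen 1 0 0
  exact h

noncomputable def RSpan_V : Submodule ℝ U := RSpan_I ⊔ Submodule.span ℝ {1}

noncomputable def RSpan_NE : Submodule ℝ U := RSpan_cl {Eu 2, Eu 3} RSpan_V
noncomputable def RSpan_NH : Submodule ℝ U := RSpan_cl {Hu 1, Hu 2, Hu 3} RSpan_NE
noncomputable def RSpan_NF : Submodule ℝ U := RSpan_cl {Fu 0, Fu 1, Fu 2, Fu 3} RSpan_NH

theorem RSpan_V_st {a : U} (ha : a ∈ RSpan_I) {v : U} (hv : v ∈ RSpan_V) :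
    a * v ∈ RSpan_NE := by
  obtain ⟨y, hy, z, hz, rfl⟩ := Submodule.mem_sup.1 hv
  obtain ⟨c, rfl⟩ := Submodule.mem_span_singleton.1 hz
  rw [mul_add, mul_smul_comm, mul_one]
  exact add_mem (RSpan_le _ _ (Submodule.mem_sup_left (RSpan_I_mul hy)))
    (Submodule.smul_mem _ _ (RSpan_le _ _ (Submodule.mem_sup_left ha)))

theorem RSpan_NE_E01 {k : ℕ} (hk : Eu k ∈ RSpan_I) {x : U} (hx : x ∈ RSpan_NE) :
    Eu k * x ∈ RSpan_NE := by
  refine RSpan_ind (RSpan_pre (Eu k) RSpan_NE) (fun v hv => RSpan_V_st hk hv) ?_ hx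
  intro c hc w hw hw2
  rw [RSpan_pre_mem] at hw2 ⊢
  have hcc : ∃ j, c = Eu j := by
    rcases hc with h | h
    · exact ⟨2, h⟩
    · exact ⟨3, h⟩
  obtain ⟨j, rfl⟩ := hcc
  rw [← mul_assoc, relU.EE k j, mul_assoc]
  exact RSpan_st hc hw2

theorem RSpan_NE_E (k : ℕ) {x : U} (hx : x ∈ RSpan_NE) : Eu k * x ∈ RSpan_NE := by
  rcases lt_or_ge k 4 with h | h
  · interval_cases k
    · exact RSpan_NE_E01 RSpan_E0 hx
    · exact RSpan_NE_E01 RSpan_E1 hx
    · exact RSpan_st (by simp) hx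
    · exact RSpan_st (by simp) hx
  · rw [relU.E0 k h, zero_mul]
    exact zero_mem _

theorem RSpan_NE_H0 {x : U} (hx : x ∈ RSpan_NE) : Hu 0 * x ∈ RSpan_NE := by
  refine RSpan_ind (RSpan_pre (Hu 0) RSpan_NE) (fun v hv => RSpan_V_st RSpan_H0 hv) ?_ hx
  intro c hc w hw hw2
  rw [RSpan_pre_mem] at hw2 ⊢
  have hcc : ∃ j, c = Eu j := by
    rcases hc with h | h
    · exact ⟨2, h⟩
    · exact ⟨3, h⟩
  obtain ⟨j, rfl⟩ := hcc
  rw [← mul_assoc, relU.HE 0 j, add_mul, mul_assoc, smul_mul_assoc]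
  exact add_mem (RSpan_st hc hw2) (Submodule.smul_mem _ _ (RSpan_NE_E _ hw))

theorem RSpan_H_cases {c : U} (hc : c ∈ ({Hu 1, Hu 2, Hu 3} : Set U)) : ∃ j, c = Hu j := by
  rcases hc with h | h | h
  · exact ⟨1, h⟩
  · exact ⟨2, h⟩
  · exact ⟨3, h⟩

theorem RSpan_F_cases {c : U} (hc : c ∈ ({Fu 0, Fu 1, Fu 2, Fu 3} : Set U)) :
    ∃ j, c = Fu j := by
  rcases hc with h | h | h | h
  · exact ⟨0, h⟩
  · exact ⟨1, h⟩
  · exact ⟨2, h⟩
  · exact ⟨3, h⟩

theorem RSpan_NH_E {x : U} (hx : x ∈ RSpan_NH) : ∀ k, Eu k * x ∈ RSpan_NH := by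
  have h : x ∈ ⨅ k, RSpan_pre (Eu k) RSpan_NH := by
    refine RSpan_ind _ ?_ ?_ hx
    · intro v hv
      rw [Submodule.mem_iInf]
      intro k
      exact RSpan_le _ _ (RSpan_NE_E k hv)
    · intro c hc w hw hw2
      rw [Submodule.mem_iInf] at hw2 ⊢
      intro k
      obtain ⟨j, rfl⟩ := RSpan_H_cases hc
      have e : Eu k * (Hu j * w) = Hu j * (Eu k * w) - (2 : ℝ) • (Eu (j + k) * w) := by
        have h1 := relU.HE j k
        have h2 : Eu k * Hu j = Hu j * Eu k - (2 : ℝ) • Eu (j + k) := by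
          rw [h1, add_sub_cancel_right]
        rw [← mul_assoc, h2, sub_mul, mul_assoc, smul_mul_assoc]
      rw [RSpan_pre_mem, e]
      exact sub_mem (RSpan_st hc (hw2 k)) (Submodule.smul_mem _ _ (hw2 (j + k)))
  intro k
  exact (Submodule.mem_iInf _).1 h k

theorem RSpan_NH_H0 {x : U} (hx : x ∈ RSpan_NH) : Hu 0 * x ∈ RSpan_NH := by
  refine RSpan_ind (RSpan_pre (Hu 0) RSpan_NH)
    (fun v hv => RSpan_le _ _ (RSpan_NE_H0 hv)) ?_ hx
  intro c hc w hw hw2
  rw [RSpan_pre_mem] at hw2 ⊢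
  obtain ⟨j, rfl⟩ := RSpan_H_cases hc
  rw [← mul_assoc, relU.HH 0 j, mul_assoc]
  exact RSpan_st hc hw2

theorem RSpan_NH_H (k : ℕ) {x : U} (hx : x ∈ RSpan_NH) : Hu k * x ∈ RSpan_NH := by
  rcases lt_or_ge k 4 with h | h
  · interval_cases k
    · exact RSpan_NH_H0 hx
    · exact RSpan_st (by simp) hx
    · exact RSpan_st (by simp) hx
    · exact RSpan_st (by simp) hx
  · rw [relU.H0 k h, zero_mul]
    exact zero_mem _

theorem RSpan_NF_F (k : ℕ) {x : U} (hx : x ∈ RSpan_NF) : Fu k * x ∈ RSpan_NF := by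
  rcases lt_or_ge k 4 with h | h
  · interval_cases k
    · exact RSpan_st (by simp) hx
    · exact RSpan_st (by simp) hx
    · exact RSpan_st (by simp) hx
    · exact RSpan_st (by simp) hx
  · rw [relU.F0 k h, zero_mul]
    exact zero_mem _

theorem RSpan_NF_H (k : ℕ) {x : U} (hx : x ∈ RSpan_NF) : Hu k * x ∈ RSpan_NF := by
  refine RSpan_ind (RSpan_pre (Hu k) RSpan_NF)
    (fun v hv => RSpan_le _ _ (RSpan_NH_H k hv)) ?_ hx
  intro c hc w hw hw2
  rw [RSpan_pre_mem] at hw2 ⊢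
  obtain ⟨j, rfl⟩ := RSpan_F_cases hc
  rw [← mul_assoc, relU.HF k j, sub_mul, mul_assoc, smul_mul_assoc]
  exact sub_mem (RSpan_st hc hw2) (Submodule.smul_mem _ _ (RSpan_NF_F _ hw))

theorem RSpan_NF_E (k : ℕ) {x : U} (hx : x ∈ RSpan_NF) : Eu k * x ∈ RSpan_NF := by
  refine RSpan_ind (RSpan_pre (Eu k) RSpan_NF)
    (fun v hv => RSpan_le _ _ (RSpan_NH_E hv k)) ?_ hx
  intro c hc w hw hw2
  rw [RSpan_pre_mem] at hw2 ⊢
  obtain ⟨j, rfl⟩ := RSpan_F_cases hc
  rw [← mul_assoc, relU.EF k j, add_mul, mul_assoc]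
  exact add_mem (RSpan_st hc hw2) (RSpan_NF_H _ hw)

theorem RSpan_NF_iota (x : L) {n : U} (hn : n ∈ RSpan_NF) :
    UniversalEnvelopingAlgebra.ι ℝ x * n ∈ RSpan_NF := by
  have hE : ∀ (c : ℝ) (k : ℕ), UniversalEnvelopingAlgebra.ι ℝ (c • eL k) * n ∈ RSpan_NF := by
    intro c k
    rw [map_smul, smul_mul_assoc]
    exact Submodule.smul_mem _ _ (RSpan_NF_E k hn)
  have hH : ∀ (c : ℝ) (k : ℕ), UniversalEnvelopingAlgebra.ι ℝ (c • hL k) * n ∈ RSpan_NF := by
    intro c k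
    rw [map_smul, smul_mul_assoc]
    exact Submodule.smul_mem _ _ (RSpan_NF_H k hn)
  have hF : ∀ (c : ℝ) (k : ℕ), UniversalEnvelopingAlgebra.ι ℝ (c • fL k) * n ∈ RSpan_NF := by
    intro c k
    rw [map_smul, smul_mul_assoc]
    exact Submodule.smul_mem _ _ (RSpan_NF_F k hn)
  rw [decomp x]
  simp only [map_add, add_mul]
  refine add_mem (add_mem (add_mem (add_mem (add_mem (add_mem (add_mem (add_mem (add_mem
    (add_mem (add_mem ?_ ?_) ?_) ?_) ?_) ?_) ?_) ?_) ?_) ?_) ?_) ?_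
  · exact hE _ _
  · exact hE _ _
  · exact hE _ _
  · exact hE _ _
  · exact hH _ _
  · exact hH _ _
  · exact hH _ _
  · exact hH _ _
  · exact hF _ _
  · exact hF _ _
  · exact hF _ _
  · exact hF _ _

/-- the subalgebra of elements preserving `NF` -/
noncomputable def RSpan_alg : Subalgebra ℝ U where
  carrier := {u | ∀ n ∈ RSpan_NF, u * n ∈ RSpan_NF}
  mul_mem' := by
    intro a b ha hb n hn
    rw [mul_assoc]
    exact ha _ (hb _ hn)
  add_mem' := by
    intro a b ha hb n hn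
    rw [add_mul]
    exact add_mem (ha n hn) (hb n hn)
  algebraMap_mem' := by
    intro r n hn
    rw [← Algebra.smul_def]
    exact Submodule.smul_mem _ _ hn

attribute [local instance 100] LieRing.ofAssociativeRing in
theorem RSpan_gen (A : Subalgebra ℝ U) (h : ∀ x : L, UniversalEnvelopingAlgebra.ι ℝ x ∈ A)
    (u : U) : u ∈ A := by
  let φ : L →ₗ⁅ℝ⁆ A :=
    { toFun := fun x => ⟨UniversalEnvelopingAlgebra.ι ℝ x, h x⟩
      map_add' := fun x y => Subtype.ext (by simp)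
      map_smul' := fun c x => Subtype.ext (by simp)
      map_lie' := by
        intro x y
        apply Subtype.ext
        show UniversalEnvelopingAlgebra.ι ℝ ⁅x, y⁆ = _
        rw [LieHom.map_lie]
        rfl }
  have h1 : A.val.comp (UniversalEnvelopingAlgebra.lift ℝ φ) = AlgHom.id ℝ U := by
    apply UniversalEnvelopingAlgebra.hom_ext
    ext x
    simp [φ]
  have h2 : A.val (UniversalEnvelopingAlgebra.lift ℝ φ u) = u := by
    have := congrArg (fun f : U →ₐ[ℝ] U => f u) h1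
    simpa using this
  rw [← h2]
  exact (UniversalEnvelopingAlgebra.lift ℝ φ u).2

theorem RSpan_one : (1 : U) ∈ RSpan_NF :=
  RSpan_le _ _ (RSpan_le _ _ (RSpan_le _ _
    (Submodule.mem_sup_right (Submodule.mem_span_singleton_self 1))))

theorem RSpan_top (u : U) : u ∈ RSpan_NF := by
  have h : u ∈ RSpan_alg := RSpan_gen RSpan_alg (fun x n hn => RSpan_NF_iota x hn) u
  have := h 1 RSpan_one
  rwa [mul_one] at this

/-! ### the words -/

theorem RSpan_sw {c a : U} (h : c * a = a * c) (n : ℕ) (x : U) :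
    c * (a ^ n * x) = a ^ n * (c * x) := by
  have h1 : Commute c a := h
  rw [← mul_assoc, (h1.pow_right n).eq, mul_assoc]

theorem RSpan_up (a : U) (n : ℕ) (x : U) : a * (a ^ n * x) = a ^ (n + 1) * x := by
  rw [pow_succ', mul_assoc]

noncomputable def RSpan_sp (s : Set (Fin 9 →₀ ℕ)) : Submodule ℝ U :=
  RSpan_I ⊔ Submodule.span ℝ (word '' s)

theorem RSpan_sp_st {s : Set (Fin 9 →₀ ℕ)} {c : U}
    (h : ∀ α ∈ s, ∃ β ∈ s, c * word α = word β) {w : U} (hw : w ∈ RSpan_sp s) :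
    c * w ∈ RSpan_sp s := by
  obtain ⟨y, hy, z, hz, rfl⟩ := Submodule.mem_sup.1 hw
  rw [mul_add]
  refine add_mem (Submodule.mem_sup_left (RSpan_I_mul hy)) (Submodule.mem_sup_right ?_)
  have h1 : Submodule.span ℝ (word '' s) ≤ RSpan_pre c (Submodule.span ℝ (word '' s)) := by
    rw [Submodule.span_le]
    rintro _ ⟨α, hα, rfl⟩
    obtain ⟨β, hβ, e⟩ := h α hα
    show c * word α ∈ Submodule.span ℝ (word '' s)
    rw [e]
    exact Submodule.subset_span ⟨β, hβ, rfl⟩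
  exact h1 hz

theorem RSpan_sp_mono {s t : Set (Fin 9 →₀ ℕ)} (h : s ⊆ t) : RSpan_sp s ≤ RSpan_sp t :=
  sup_le_sup_left (Submodule.span_mono (Set.image_mono h)) _

def RSpan_sE : Set (Fin 9 →₀ ℕ) := {α | ∀ i : Fin 9, 2 ≤ (i : ℕ) → α i = 0}
def RSpan_sH : Set (Fin 9 →₀ ℕ) := {α | ∀ i : Fin 9, 5 ≤ (i : ℕ) → α i = 0}

theorem RSpan_addE (α : Fin 9 →₀ ℕ) (hα : α ∈ RSpan_sE) (k : Fin 9) (hk : (k : ℕ) < 2) :
    α + Finsupp.single k 1 ∈ RSpan_sE := by
  intro i hi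
  have : k ≠ i := by
    rintro rfl
    omega
  rw [Finsupp.add_apply, hα i hi, Finsupp.single_eq_of_ne (Ne.symm this), add_zero]

theorem RSpan_addH (α : Fin 9 →₀ ℕ) (hα : α ∈ RSpan_sH) (k : Fin 9) (hk : (k : ℕ) < 5) :
    α + Finsupp.single k 1 ∈ RSpan_sH := by
  intro i hi
  have : k ≠ i := by
    rintro rfl
    omega
  rw [Finsupp.add_apply, hα i hi, Finsupp.single_eq_of_ne (Ne.symm this), add_zero]

theorem RSpan_wE (α : Fin 9 →₀ ℕ) (hα : α ∈ RSpan_sE) :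
    word α = Eu 2 ^ α 0 * Eu 3 ^ α 1 := by
  unfold word
  rw [hα 2 (by decide), hα 3 (by decide), hα 4 (by decide), hα 5 (by decide), hα 6 (by decide),
    hα 7 (by decide), hα 8 (by decide)]
  simp

theorem RSpan_wH (α : Fin 9 →₀ ℕ) (hα : α ∈ RSpan_sH) :
    word α = Hu 1 ^ α 2 * (Hu 2 ^ α 3 * (Hu 3 ^ α 4 * (Eu 2 ^ α 0 * Eu 3 ^ α 1))) := by
  unfold word
  rw [hα 5 (by decide), hα 6 (by decide), hα 7 (by decide), hα 8 (by decide)]
  simp

theorem RSpan_val (α : Fin 9 →₀ ℕ) (k i : Fin 9) :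
    (α + Finsupp.single k 1 : Fin 9 →₀ ℕ) i = α i + if k = i then 1 else 0 := by
  rw [Finsupp.add_apply, Finsupp.single_apply]

theorem RSpan_TE : RSpan_NE ≤ RSpan_sp RSpan_sE := by
  refine RSpan_min (sup_le_sup_left ?_ _) ?_
  · rw [Submodule.span_le]
    rintro _ rfl
    refine Submodule.subset_span ⟨0, fun i _ => rfl, ?_⟩
    simp [word]
  · intro c hc w hw
    refine RSpan_sp_st ?_ hw
    intro α hα
    rcases hc with h | h
    · refine ⟨α + Finsupp.single 0 1, RSpan_addE α hα 0 (by decide), ?_⟩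
      rw [RSpan_wE _ (RSpan_addE α hα 0 (by decide)), RSpan_wE α hα, h, RSpan_val, RSpan_val,
        if_pos rfl, if_neg (by decide), RSpan_up, add_zero]
    · refine ⟨α + Finsupp.single 1 1, RSpan_addE α hα 1 (by decide), ?_⟩
      rw [RSpan_wE _ (RSpan_addE α hα 1 (by decide)), RSpan_wE α hα, h, RSpan_val, RSpan_val,
        if_neg (by decide), if_pos rfl, RSpan_sw (relU.EE 3 2), add_zero, ← pow_succ']

theorem RSpan_TH : RSpan_NH ≤ RSpan_sp RSpan_sH := by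
  refine RSpan_min (RSpan_TE.trans (RSpan_sp_mono fun α hα i hi => hα i (by omega))) ?_
  intro c hc w hw
  refine RSpan_sp_st ?_ hw
  intro α hα
  rcases hc with h | h | h
  · refine ⟨α + Finsupp.single 2 1, RSpan_addH α hα 2 (by decide), ?_⟩
    rw [RSpan_wH _ (RSpan_addH α hα 2 (by decide)), RSpan_wH α hα, h]
    simp only [RSpan_val]
    simp [RSpan_up]
  · refine ⟨α + Finsupp.single 3 1, RSpan_addH α hα 3 (by decide), ?_⟩
    rw [RSpan_wH _ (RSpan_addH α hα 3 (by decide)), RSpan_wH α hα, h]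
    simp only [RSpan_val]
    simp [RSpan_up, RSpan_sw (relU.HH 2 1)]
  · refine ⟨α + Finsupp.single 4 1, RSpan_addH α hα 4 (by decide), ?_⟩
    rw [RSpan_wH _ (RSpan_addH α hα 4 (by decide)), RSpan_wH α hα, h]
    simp only [RSpan_val]
    simp [RSpan_up, RSpan_sw (relU.HH 3 1), RSpan_sw (relU.HH 3 2)]

theorem RSpan_TF : RSpan_NF ≤ RSpan_sp Set.univ := by
  refine RSpan_min (RSpan_TH.trans (RSpan_sp_mono (Set.subset_univ _))) ?_
  intro c hc w hw
  refine RSpan_sp_st ?_ hw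
  intro α _
  rcases hc with h | h | h | h
  · refine ⟨α + Finsupp.single 5 1, trivial, ?_⟩
    unfold word
    rw [h]
    simp only [RSpan_val]
    simp [RSpan_up]
  · refine ⟨α + Finsupp.single 6 1, trivial, ?_⟩
    unfold word
    rw [h]
    simp only [RSpan_val]
    simp [RSpan_up, RSpan_sw (relU.FF 1 0)]
  · refine ⟨α + Finsupp.single 7 1, trivial, ?_⟩
    unfold word
    rw [h]
    simp only [RSpan_val]
    simp [RSpan_up, RSpan_sw (relU.FF 2 0), RSpan_sw (relU.FF 2 1)]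
  · refine ⟨α + Finsupp.single 8 1, trivial, ?_⟩
    unfold word
    rw [h]
    simp only [RSpan_val]
    simp [RSpan_up, RSpan_sw (relU.FF 3 0), RSpan_sw (relU.FF 3 1), RSpan_sw (relU.FF 3 2)]

theorem tau_surj (u : U) : ∃ p : R9, u - tau p ∈ Id := by
  obtain ⟨y, hy, z, hz, e⟩ := Submodule.mem_sup.1 (RSpan_TF (RSpan_top u))
  have h1 : Submodule.span ℝ (word '' Set.univ) ≤ LinearMap.range tau := by
    rw [Submodule.span_le]
    rintro _ ⟨α, -, rfl⟩
    refine ⟨monomial α 1, ?_⟩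
    rw [tau_monomial, one_smul]
  obtain ⟨p, hp⟩ := h1 hz
  refine ⟨p, ?_⟩
  rw [hp, ← e, add_sub_cancel_right]
  exact hy

end Pool.Agent.H69.DF
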