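import Pool.Agent.H69.DF.RSym

/-!
# Row TauInj: the words act on 1 with leading term the monomial

Let ρ : U →ₐ[ℝ] Module.End ℝ R9 with ρ (Eu i) = Eo i, ρ (Hu i) = Ho i, ρ (Fu i) = Fo i.
Statement `tau_inj`: ρ (tau p) 1 = 0 → p = 0.

Proof. For a word: ρ (word α) = Fo 0^(α 5) * ... * Eo 3^(α 1), so by SymOp.mul (and SymOp.one for the powers, induction on the exponents) and
symE, symH, symF: SymOp (ρ (word α)) (degree α) (monomial α 1), because sF j = X (5+j), sH 1 = X 2, sH 2 = X 3, sH 3 = X 4, sE 2 = X 0, sE 3 = X 1 and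
monomial α 1 = ∏ i, X i ^ α i (9 factors, `monomial_eq` / Finsupp.prod / Fin.prod_univ_succ).
Apply it to 1 (totalDegree 0, homogeneousComponent 0 1 = 1): q := ρ (word α) 1 has totalDegree ≤ degree α and
homogeneousComponent (degree α) q = monomial α 1.
Hence for p with totalDegree ≤ n: ρ (tau p) 1 has totalDegree ≤ n and homogeneousComponent n (ρ (tau p) 1) = homogeneousComponent n p: write p as the sum
of its monomials (p.as_sum / support_sum_monomial_coeff, tau_monomial); the monomials of degree < n contribute 0 to the component n.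
If p ≠ 0 take n = p.totalDegree: homogeneousComponent n p ≠ 0 (otherwise the totalDegree would be smaller), contradiction.
-/

namespace Pool.Agent.H69.DF

open MvPolynomial

theorem RTau_pow {A : Module.End ℝ R9} {s : R9} (hA : SymOp A 1 s) (n : ℕ) :
    SymOp (A ^ n) n (s ^ n) := by
  induction n with
  | zero => simpa using SymOp.one
  | succ n ih =>
    rw [pow_succ, pow_succ]
    exact ih.mul hA

theorem RTau_word (ρ : U →ₐ[ℝ] Module.End ℝ R9) (hE : ∀ i, ρ (Eu i) = Eo i)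
    (hH : ∀ i, ρ (Hu i) = Ho i) (hF : ∀ i, ρ (Fu i) = Fo i) (α : Fin 9 →₀ ℕ) :
    SymOp (ρ (word α)) (Finsupp.degree α) (monomial α 1) := by
  have hw : ρ (word α) = Fo 0 ^ α 5 * (Fo 1 ^ α 6 * (Fo 2 ^ α 7 * (Fo 3 ^ α 8 *
      (Ho 1 ^ α 2 * (Ho 2 ^ α 3 * (Ho 3 ^ α 4 * (Eo 2 ^ α 0 * Eo 3 ^ α 1))))))) := by
    simp only [word, map_mul, map_pow, hE, hH, hF]
  have h := (RTau_pow (symF 0) (α 5)).mul ((RTau_pow (symF 1) (α 6)).mul
    ((RTau_pow (symF 2) (α 7)).mul ((RTau_pow (symF 3) (α 8)).mul ((RTau_pow (symH 1) (α 2)).mul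
    ((RTau_pow (symH 2) (α 3)).mul ((RTau_pow (symH 3) (α 4)).mul
    ((RTau_pow (symE 2) (α 0)).mul (RTau_pow (symE 3) (α 1)))))))))
  rw [← hw] at h
  have hd : α 5 + (α 6 + (α 7 + (α 8 + (α 2 + (α 3 + (α 4 + (α 0 + α 1)))))))
      = Finsupp.degree α := by
    rw [Finsupp.degree_eq_sum]
    simp only [Fin.sum_univ_succ, Fin.sum_univ_zero]
    change _ = α 0 + (α 1 + (α 2 + (α 3 + (α 4 + (α 5 + (α 6 + (α 7 + (α 8 + 0))))))))
    omega
  have hs : sF 0 ^ α 5 * (sF 1 ^ α 6 * (sF 2 ^ α 7 * (sF 3 ^ α 8 * (sH 1 ^ α 2 *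
      (sH 2 ^ α 3 * (sH 3 ^ α 4 * (sE 2 ^ α 0 * sE 3 ^ α 1))))))) = monomial α (1 : ℝ) := by
    rw [monomial_eq, Finsupp.prod_fintype _ _ (fun i => pow_zero _)]
    simp only [Fin.prod_univ_succ, Fin.prod_univ_zero, map_one, one_mul]
    change (X 5 : R9) ^ α 5 * (X 6 ^ α 6 * (X 7 ^ α 7 * (X 8 ^ α 8 * (X 2 ^ α 2 *
      (X 3 ^ α 3 * (X 4 ^ α 4 * (X 0 ^ α 0 * X 1 ^ α 1))))))) =
      X 0 ^ α 0 * (X 1 ^ α 1 * (X 2 ^ α 2 * (X 3 ^ α 3 * (X 4 ^ α 4 * (X 5 ^ α 5 *
      (X 6 ^ α 6 * (X 7 ^ α 7 * (X 8 ^ α 8 * 1))))))))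
    ring
  rw [hd, hs] at h
  exact h

theorem tau_inj (ρ : U →ₐ[ℝ] Module.End ℝ R9) (hE : ∀ i, ρ (Eu i) = Eo i) (hH : ∀ i, ρ (Hu i) = Ho i)
    (hF : ∀ i, ρ (Fu i) = Fo i) (p : R9) (hp : ρ (tau p) 1 = 0) : p = 0 := by
  by_contra hne
  set n := p.totalDegree with hn
  have key : homogeneousComponent n (ρ (tau p) 1) = homogeneousComponent n p := by
    conv_lhs => rw [← support_sum_monomial_coeff p]
    conv_rhs => rw [← support_sum_monomial_coeff p]
    rw [map_sum, map_sum, LinearMap.sum_apply, map_sum, map_sum]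
    refine Finset.sum_congr rfl fun v hv => ?_
    have hvn : Finsupp.degree v ≤ n := by
      have := le_totalDegree hv
      rw [hn]
      refine le_trans (le_of_eq ?_) this
      rfl
    obtain ⟨h1, h2⟩ := RTau_word ρ hE hH hF v 0 1 (by simp)
    rw [tau_monomial, map_smul, LinearMap.smul_apply, map_smul]
    rcases hvn.lt_or_eq with hlt | heq
    · rw [homogeneousComponent_eq_zero _ _ (by omega), smul_zero]
      symm
      refine homogeneousComponent_eq_zero _ _ (lt_of_le_of_lt (totalDegree_monomial_le v _) ?_)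
      exact hlt
    · rw [zero_add, heq] at h2
      rw [h2, homogeneousComponent_of_mem (m := 0) (n := 0) (isHomogeneous_one _ _), if_pos rfl,
        mul_one, smul_monomial, smul_eq_mul, mul_one,
        homogeneousComponent_of_mem (m := n) (n := n) (isHomogeneous_monomial _ heq), if_pos rfl]
  rw [hp, map_zero] at key
  -- a monomial of top degree
  obtain ⟨v, hv, hvn⟩ : ∃ v ∈ p.support, Finsupp.degree v = n := by
    have hs : p.support.Nonempty := by
      rw [Finset.nonempty_iff_ne_empty]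
      intro h
      exact hne (support_eq_empty.mp h)
    obtain ⟨v, hv, h⟩ := Finset.exists_mem_eq_sup p.support hs
      (fun s : Fin 9 →₀ ℕ => s.sum fun _ e => e)
    exact ⟨v, hv, h.symm⟩
  have hc : coeff v (homogeneousComponent n p) = 0 := by rw [← key, coeff_zero]
  rw [coeff_homogeneousComponent, if_pos hvn] at hc
  exact (mem_support_iff.mp hv) hc

end Pool.Agent.H69.DF
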