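import Pool.Agent.H69.DF.RThmB
import Pool.Agent.H69.DF.RSpan
import Pool.Agent.H69.DF.RTau

/-!
# Row Quant: every h-invariant class in U(g)/U(g)h is a polynomial in the four central elements
-/

namespace Pool.Agent.H69.DF

open MvPolynomial

theorem quantum : ∃ Kc : Fin 4 → Subalgebra.center ℝ U,
    ∀ u : U, inNU u → ∃ Φ : R4, u - ((aeval Kc Φ : Subalgebra.center ℝ U) : U) ∈ Id := by
  obtain ⟨ρ, hE, hH, hF⟩ := lift_exists opRel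
  have hcen : ∀ i, qc Eu Hu Fu i ∈ Subalgebra.center ℝ U := fun i =>
    center_of_gen _ (qc_E relU i) (qc_H relU i) (qc_F relU i)
  refine ⟨fun i => ⟨qc Eu Hu Fu i, hcen i⟩, fun u hu => ?_⟩
  have k0 : ρ (Hu 0) 1 = 0 := by rw [hH]; exact Ho0_one
  have k1 : ρ (Eu 0) 1 = 0 := by rw [hE]; exact Eo0_one
  have k2 : ρ (Eu 1) 1 = 0 := by rw [hE]; exact Eo1_one
  have kill : ∀ w ∈ Id, ρ w 1 = 0 := fun w hw => Id_kill ρ 1 k0 k1 k2 w hw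
  have inv : ∀ y : U, ρ y 1 = 0 → y * u - u * y ∈ Id → ρ y (ρ u 1) = 0 := fun y hy h => by
    have h2 := kill _ h
    rw [map_sub, map_mul, map_mul, LinearMap.sub_apply, Module.End.mul_apply, Module.End.mul_apply,
      hy, map_zero, sub_zero] at h2
    exact h2
  have m0 : hL 0 ∈ hs := by
    refine ⟨?_, ?_, ?_, ?_, ?_, ?_, ?_, ?_, ?_⟩ <;> simp [hL]
  have m1 : eL 0 ∈ hs := by
    refine ⟨?_, ?_, ?_, ?_, ?_, ?_, ?_, ?_, ?_⟩ <;> simp [eL]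
  have m2 : eL 1 ∈ hs := by
    refine ⟨?_, ?_, ?_, ?_, ?_, ?_, ?_, ?_, ?_⟩ <;> simp [eL]
  have j0 := inv (Hu 0) k0 (hu ⟨_, m0⟩)
  have j1 := inv (Eu 0) k1 (hu ⟨_, m1⟩)
  have j2 := inv (Eu 1) k2 (hu ⟨_, m2⟩)
  rw [hH] at j0
  rw [hE] at j1 j2
  obtain ⟨Φ, hΦ⟩ := thmB ρ hE hH hF (fun i => ⟨qc Eu Hu Fu i, hcen i⟩) (fun _ => rfl) (ρ u 1) j0 j1 j2
  refine ⟨Φ, ?_⟩
  set z := ((aeval (fun i => (⟨qc Eu Hu Fu i, hcen i⟩ : Subalgebra.center ℝ U)) Φ :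
    Subalgebra.center ℝ U) : U) with hz
  obtain ⟨q, hq⟩ := tau_surj (u - z)
  have h3 := kill _ hq
  rw [map_sub, map_sub, LinearMap.sub_apply, LinearMap.sub_apply, hΦ, sub_self, zero_sub,
    neg_eq_zero] at h3
  have h4 := tau_inj ρ hE hH hF q h3
  rw [h4, map_zero, sub_zero] at hq
  exact hq

end Pool.Agent.H69.DF
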