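import Pool.Agent.H69.DF.Base2

/-!
# Row TrDep: two small facts

(1) `trace_zero`: tr (ad x) = 0 for every x in L.
Proof. Every x in L is a sum of two brackets: with a = (coordinates 0..3: x_i / 2, coordinates 8..11: -x_i / 2, middle 0) and
c = (coordinates 8..11: x_(i-4), i.e. c 8 = x 4, c 9 = x 5, c 10 = x 6, c 11 = x 7, all other coordinates 0),
   x = ⁅hL 0, a⁆ + ⁅eL 0, c⁆      (check the 12 coordinates with bracket_def, br).
Now ad ⁅y, z⁆ = ad y * ad z - ad z * ad y (LieHom.map_lie and Ring.lie_def / LieRing.of_associative_ring_bracket), and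
trace (A * B) = trace (B * A) (`LinearMap.trace_mul_comm`), so the trace of ad of a bracket is 0.

(2) `dep45`: five polynomials in four variables are algebraically dependent.
Proof. Otherwise the family is algebraically independent over ℝ (`AlgebraicIndependent`, which says aeval Φ is injective), so 5 ≤
transcendence degree of MvPolynomial (Fin 4) ℝ = 4. In Mathlib: `AlgebraicIndependent.lift_cardinalMk_le_trdeg` (or
`AlgebraicIndependent.cardinalMk_le_trdeg`) and the transcendence degree of MvPolynomial (`MvPolynomial.trdeg_of_isDomain` or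
`IsTranscendenceBasis.mvPolynomial` + `IsTranscendenceBasis.lift_cardinalMk_eq_trdeg`; search Mathlib/RingTheory/AlgebraicIndependent).
-/

namespace Pool.Agent.H69.DF

open MvPolynomial

theorem RTr_bracket (y z : L) : LinearMap.trace ℝ L (LieAlgebra.ad ℝ L ⁅y, z⁆) = 0 := by
  have h : LieAlgebra.ad ℝ L ⁅y, z⁆
      = LieAlgebra.ad ℝ L y * LieAlgebra.ad ℝ L z - LieAlgebra.ad ℝ L z * LieAlgebra.ad ℝ L y := by
    apply LinearMap.ext
    intro m
    rw [LinearMap.sub_apply, Module.End.mul_apply, Module.End.mul_apply, LieAlgebra.ad_apply,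
      LieAlgebra.ad_apply, LieAlgebra.ad_apply, LieAlgebra.ad_apply, LieAlgebra.ad_apply]
    exact lie_lie y z m
  rw [h, map_sub, LinearMap.trace_mul_comm, sub_self]

noncomputable def RTr_a (x : L) : L :=
  ![x 0 / 2, x 1 / 2, x 2 / 2, x 3 / 2, 0, 0, 0, 0, -(x 8 / 2), -(x 9 / 2), -(x 10 / 2),
    -(x 11 / 2)]

noncomputable def RTr_c (x : L) : L :=
  ![0, 0, 0, 0, 0, 0, 0, 0, x 4, x 5, x 6, x 7]

theorem RTr_dec (x : L) : x = ⁅hL 0, RTr_a x⁆ + ⁅eL 0, RTr_c x⁆ := by
  apply L_ext
  intro i
  rw [add_ap, bracket_def, bracket_def]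
  fin_cases i <;> simp [br, hL, eL, RTr_a, RTr_c] <;> ring

theorem trace_zero (x : L) : LinearMap.trace ℝ L (LieAlgebra.ad ℝ L x) = 0 := by
  rw [RTr_dec x, map_add, map_add, RTr_bracket, RTr_bracket, add_zero]

theorem dep45 (Φ : Fin 5 → R4) : ∃ Q : R5, Q ≠ 0 ∧ aeval Φ Q = 0 := by
  by_contra hcon
  push Not at hcon
  have hind : AlgebraicIndependent ℝ Φ := by
    rw [algebraicIndependent_iff]
    intro p hp
    by_contra hp0
    exact hcon p hp0 hp
  have h1 := hind.lift_cardinalMk_le_trdeg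
  rw [MvPolynomial.trdeg_of_isDomain] at h1
  simp at h1
  revert h1
  norm_num

end Pool.Agent.H69.DF
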