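import Pool.Agent.H69.DF.RPois
import Pool.Agent.H69.DF.RTr
import Pool.Agent.H69.DF.RClass
import Pool.Agent.H69.DF.RQuant

namespace Pool.Agent.H69.DF

open MvPolynomial

theorem no_iso (P : S →ₗ[ℝ] S →ₗ[ℝ] S) (hP : IsPois P) :
    ¬ ∃ f : S → U,
      (∀ a ∈ ZSs P, f a ∈ ZUs) ∧
      (∀ a ∈ ZSs P, a ∈ Jd → f a ∈ Id) ∧
      (∀ a ∈ ZSs P, f a ∈ Id → a ∈ Jd) ∧
      (∀ a ∈ ZSs P, ∀ b ∈ ZSs P, f (a + b) - (f a + f b) ∈ Id) ∧
      (∀ a ∈ ZSs P, ∀ b ∈ ZSs P, f (a * b) - f a * f b ∈ Id) ∧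
      (∀ c : ℝ, f (algebraMap ℝ S c) - algebraMap ℝ U c ∈ Id) ∧
      (∀ u ∈ ZUs, ∃ a ∈ ZSs P, f a - u ∈ Id) := by
  rintro ⟨f, h1, -, h3, h4, h5, h6, -⟩
  obtain ⟨Kt, hKt, hKt0⟩ := classical P hP
  obtain ⟨Kc, hKc⟩ := quantum
  have hK : ∀ i, Kt i ∈ ZSs P := fun i => by simpa using hKt (X i)
  choose Φ hΦ using fun i => hKc (f (Kt i)) (h1 _ (hK i)).1
  obtain ⟨Q, hQ, hQ0⟩ := dep45 Φ
  have key : ∀ Q : R5, f (aeval Kt Q) - ((aeval Kc (aeval Φ Q) : Subalgebra.center ℝ U) : U) ∈ Id := by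
    intro Q
    induction Q using MvPolynomial.induction_on with
    | C c =>
      have e : ((aeval Kc (aeval Φ (C c : R5)) : Subalgebra.center ℝ U) : U) = algebraMap ℝ U c := by
        rw [algHom_C, AlgHom.commutes, Subalgebra.coe_algebraMap]
      rw [e, algHom_C]
      exact h6 c
    | add p q hp hq =>
      have h := h4 _ (hKt p) _ (hKt q)
      simp only [map_add]
      have e : f (aeval Kt p + aeval Kt q) - ((aeval Kc (aeval Φ p) + aeval Kc (aeval Φ q) :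
          Subalgebra.center ℝ U) : U) = (f (aeval Kt p + aeval Kt q) - (f (aeval Kt p) + f (aeval Kt q)))
          + (f (aeval Kt p) - ((aeval Kc (aeval Φ p) : Subalgebra.center ℝ U) : U))
          + (f (aeval Kt q) - ((aeval Kc (aeval Φ q) : Subalgebra.center ℝ U) : U)) := by
        rw [Subalgebra.coe_add]; abel
      rw [e]
      exact Id.add_mem (Id.add_mem h hp) hq
    | mul_X p i hp =>
      have h := h5 _ (hKt p) _ (hK i)
      simp only [map_mul, aeval_X]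
      set a := f (aeval Kt p)
      set b := f (Kt i)
      set c := (aeval Kc (aeval Φ p) : Subalgebra.center ℝ U)
      set d := (aeval Kc (Φ i) : Subalgebra.center ℝ U)
      have hd : ∀ x : U, (d : U) * x = x * d := fun x => (Subalgebra.mem_center_iff.mp d.2 x).symm
      have e : f (aeval Kt p * Kt i) - ((c * d : Subalgebra.center ℝ U) : U)
          = (f (aeval Kt p * Kt i) - a * b) + a * (b - d) + d * (a - c) := by
        rw [Subalgebra.coe_mul, mul_sub, mul_sub, hd a, hd c]; abel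
      rw [e]
      exact Id.add_mem (Id.add_mem h (Id.mul_mem_left _ (hΦ i))) (Id.mul_mem_left _ hp)
  have h := key Q
  rw [hQ0, map_zero, Subalgebra.coe_zero, sub_zero] at h
  exact hQ (hKt0 Q (h3 _ (hKt Q) h))

end Pool.Agent.H69.DF
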