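import Pool.Agent.H69.DF.Ops

/-! The operators Eo, Ho, Fo satisfy the relations of sl2 (x) R[t]/t^4. -/

namespace Pool.Agent.H69.DF

open MvPolynomial

set_option maxRecDepth 100000

theorem he00 : Ho 0 * Eo 0 = Eo 0 * Ho 0 + mu 2 * Eo 0 := by
  refine LinearMap.ext fun p => ?_
  simp only [Eo, Fo, Ho, Hp, pd_two, mul_zero, add_zero, zero_add, LinearMap.sub_apply,
    LinearMap.add_apply, LinearMap.neg_apply, Module.End.mul_apply, mu_ap, pd_ap, Derivation.leibniz,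
    map_add, map_sub, smul_eq_mul, LinearMap.zero_apply, pderiv_X, Pi.single_apply, pd_comm 8 7,
    pd_comm 8 6, pd_comm 8 5, pd_comm 8 4, pd_comm 8 3, pd_comm 8 2, pd_comm 8 1, pd_comm 8 0,
    pd_comm 7 6, pd_comm 7 5, pd_comm 7 4, pd_comm 7 3, pd_comm 7 2, pd_comm 7 1, pd_comm 7 0,
    pd_comm 6 5, pd_comm 6 4, pd_comm 6 3, pd_comm 6 2, pd_comm 6 1, pd_comm 6 0, pd_comm 5 4,
    pd_comm 5 3, pd_comm 5 2, pd_comm 5 1, pd_comm 5 0, pd_comm 4 3, pd_comm 4 2, pd_comm 4 1,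
    pd_comm 4 0, pd_comm 3 2, pd_comm 3 1, pd_comm 3 0, pd_comm 2 1, pd_comm 2 0, pd_comm 1 0]
  try simp [pd_ap]
  try ring
theorem hf00 : Ho 0 * Fo 0 = Fo 0 * Ho 0 - mu 2 * Fo 0 := by
  refine LinearMap.ext fun p => ?_
  simp only [Eo, Fo, Ho, Hp, pd_two, mul_zero, add_zero, zero_add, LinearMap.sub_apply,
    LinearMap.add_apply, LinearMap.neg_apply, Module.End.mul_apply, mu_ap, pd_ap, Derivation.leibniz,
    map_add, map_sub, smul_eq_mul, LinearMap.zero_apply, pderiv_X, Pi.single_apply, pd_comm 8 7,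
    pd_comm 8 6, pd_comm 8 5, pd_comm 8 4, pd_comm 8 3, pd_comm 8 2, pd_comm 8 1, pd_comm 8 0,
    pd_comm 7 6, pd_comm 7 5, pd_comm 7 4, pd_comm 7 3, pd_comm 7 2, pd_comm 7 1, pd_comm 7 0,
    pd_comm 6 5, pd_comm 6 4, pd_comm 6 3, pd_comm 6 2, pd_comm 6 1, pd_comm 6 0, pd_comm 5 4,
    pd_comm 5 3, pd_comm 5 2, pd_comm 5 1, pd_comm 5 0, pd_comm 4 3, pd_comm 4 2, pd_comm 4 1,
    pd_comm 4 0, pd_comm 3 2, pd_comm 3 1, pd_comm 3 0, pd_comm 2 1, pd_comm 2 0, pd_comm 1 0]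
  try simp [pd_ap]
  try ring
theorem ef00 : Eo 0 * Fo 0 = Fo 0 * Eo 0 + Ho 0 := by
  refine LinearMap.ext fun p => ?_
  simp only [Eo, Fo, Ho, Hp, pd_two, mul_zero, add_zero, zero_add, LinearMap.sub_apply,
    LinearMap.add_apply, LinearMap.neg_apply, Module.End.mul_apply, mu_ap, pd_ap, Derivation.leibniz,
    map_add, map_sub, smul_eq_mul, LinearMap.zero_apply, pderiv_X, Pi.single_apply, pd_comm 8 7,
    pd_comm 8 6, pd_comm 8 5, pd_comm 8 4, pd_comm 8 3, pd_comm 8 2, pd_comm 8 1, pd_comm 8 0,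
    pd_comm 7 6, pd_comm 7 5, pd_comm 7 4, pd_comm 7 3, pd_comm 7 2, pd_comm 7 1, pd_comm 7 0,
    pd_comm 6 5, pd_comm 6 4, pd_comm 6 3, pd_comm 6 2, pd_comm 6 1, pd_comm 6 0, pd_comm 5 4,
    pd_comm 5 3, pd_comm 5 2, pd_comm 5 1, pd_comm 5 0, pd_comm 4 3, pd_comm 4 2, pd_comm 4 1,
    pd_comm 4 0, pd_comm 3 2, pd_comm 3 1, pd_comm 3 0, pd_comm 2 1, pd_comm 2 0, pd_comm 1 0]
  try simp [pd_ap]
  try ring
theorem ee01 : Eo 0 * Eo 1 = Eo 1 * Eo 0 := by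
  refine LinearMap.ext fun p => ?_
  simp only [Eo, Fo, Ho, Hp, pd_two, mul_zero, add_zero, zero_add, LinearMap.sub_apply,
    LinearMap.add_apply, LinearMap.neg_apply, Module.End.mul_apply, mu_ap, pd_ap, Derivation.leibniz,
    map_add, map_sub, smul_eq_mul, LinearMap.zero_apply, pderiv_X, Pi.single_apply, pd_comm 8 7,
    pd_comm 8 6, pd_comm 8 5, pd_comm 8 4, pd_comm 8 3, pd_comm 8 2, pd_comm 8 1, pd_comm 8 0,
    pd_comm 7 6, pd_comm 7 5, pd_comm 7 4, pd_comm 7 3, pd_comm 7 2, pd_comm 7 1, pd_comm 7 0,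
    pd_comm 6 5, pd_comm 6 4, pd_comm 6 3, pd_comm 6 2, pd_comm 6 1, pd_comm 6 0, pd_comm 5 4,
    pd_comm 5 3, pd_comm 5 2, pd_comm 5 1, pd_comm 5 0, pd_comm 4 3, pd_comm 4 2, pd_comm 4 1,
    pd_comm 4 0, pd_comm 3 2, pd_comm 3 1, pd_comm 3 0, pd_comm 2 1, pd_comm 2 0, pd_comm 1 0]
  try simp [pd_ap]
  try ring
theorem hh01 : Ho 0 * Ho 1 = Ho 1 * Ho 0 := by
  refine LinearMap.ext fun p => ?_
  simp only [Eo, Fo, Ho, Hp, pd_two, mul_zero, add_zero, zero_add, LinearMap.sub_apply,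
    LinearMap.add_apply, LinearMap.neg_apply, Module.End.mul_apply, mu_ap, pd_ap, Derivation.leibniz,
    map_add, map_sub, smul_eq_mul, LinearMap.zero_apply, pderiv_X, Pi.single_apply, pd_comm 8 7,
    pd_comm 8 6, pd_comm 8 5, pd_comm 8 4, pd_comm 8 3, pd_comm 8 2, pd_comm 8 1, pd_comm 8 0,
    pd_comm 7 6, pd_comm 7 5, pd_comm 7 4, pd_comm 7 3, pd_comm 7 2, pd_comm 7 1, pd_comm 7 0,
    pd_comm 6 5, pd_comm 6 4, pd_comm 6 3, pd_comm 6 2, pd_comm 6 1, pd_comm 6 0, pd_comm 5 4,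
    pd_comm 5 3, pd_comm 5 2, pd_comm 5 1, pd_comm 5 0, pd_comm 4 3, pd_comm 4 2, pd_comm 4 1,
    pd_comm 4 0, pd_comm 3 2, pd_comm 3 1, pd_comm 3 0, pd_comm 2 1, pd_comm 2 0, pd_comm 1 0]
  try simp [pd_ap]
  try ring
theorem ff01 : Fo 0 * Fo 1 = Fo 1 * Fo 0 := by
  refine LinearMap.ext fun p => ?_
  simp only [Eo, Fo, Ho, Hp, pd_two, mul_zero, add_zero, zero_add, LinearMap.sub_apply,
    LinearMap.add_apply, LinearMap.neg_apply, Module.End.mul_apply, mu_ap, pd_ap, Derivation.leibniz,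
    map_add, map_sub, smul_eq_mul, LinearMap.zero_apply, pderiv_X, Pi.single_apply, pd_comm 8 7,
    pd_comm 8 6, pd_comm 8 5, pd_comm 8 4, pd_comm 8 3, pd_comm 8 2, pd_comm 8 1, pd_comm 8 0,
    pd_comm 7 6, pd_comm 7 5, pd_comm 7 4, pd_comm 7 3, pd_comm 7 2, pd_comm 7 1, pd_comm 7 0,
    pd_comm 6 5, pd_comm 6 4, pd_comm 6 3, pd_comm 6 2, pd_comm 6 1, pd_comm 6 0, pd_comm 5 4,
    pd_comm 5 3, pd_comm 5 2, pd_comm 5 1, pd_comm 5 0, pd_comm 4 3, pd_comm 4 2, pd_comm 4 1,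
    pd_comm 4 0, pd_comm 3 2, pd_comm 3 1, pd_comm 3 0, pd_comm 2 1, pd_comm 2 0, pd_comm 1 0]
  try simp [pd_ap]
  try ring
theorem he01 : Ho 0 * Eo 1 = Eo 1 * Ho 0 + mu 2 * Eo 1 := by
  refine LinearMap.ext fun p => ?_
  simp only [Eo, Fo, Ho, Hp, pd_two, mul_zero, add_zero, zero_add, LinearMap.sub_apply,
    LinearMap.add_apply, LinearMap.neg_apply, Module.End.mul_apply, mu_ap, pd_ap, Derivation.leibniz,
    map_add, map_sub, smul_eq_mul, LinearMap.zero_apply, pderiv_X, Pi.single_apply, pd_comm 8 7,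
    pd_comm 8 6, pd_comm 8 5, pd_comm 8 4, pd_comm 8 3, pd_comm 8 2, pd_comm 8 1, pd_comm 8 0,
    pd_comm 7 6, pd_comm 7 5, pd_comm 7 4, pd_comm 7 3, pd_comm 7 2, pd_comm 7 1, pd_comm 7 0,
    pd_comm 6 5, pd_comm 6 4, pd_comm 6 3, pd_comm 6 2, pd_comm 6 1, pd_comm 6 0, pd_comm 5 4,
    pd_comm 5 3, pd_comm 5 2, pd_comm 5 1, pd_comm 5 0, pd_comm 4 3, pd_comm 4 2, pd_comm 4 1,
    pd_comm 4 0, pd_comm 3 2, pd_comm 3 1, pd_comm 3 0, pd_comm 2 1, pd_comm 2 0, pd_comm 1 0]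
  try simp [pd_ap]
  try ring
theorem hf01 : Ho 0 * Fo 1 = Fo 1 * Ho 0 - mu 2 * Fo 1 := by
  refine LinearMap.ext fun p => ?_
  simp only [Eo, Fo, Ho, Hp, pd_two, mul_zero, add_zero, zero_add, LinearMap.sub_apply,
    LinearMap.add_apply, LinearMap.neg_apply, Module.End.mul_apply, mu_ap, pd_ap, Derivation.leibniz,
    map_add, map_sub, smul_eq_mul, LinearMap.zero_apply, pderiv_X, Pi.single_apply, pd_comm 8 7,
    pd_comm 8 6, pd_comm 8 5, pd_comm 8 4, pd_comm 8 3, pd_comm 8 2, pd_comm 8 1, pd_comm 8 0,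
    pd_comm 7 6, pd_comm 7 5, pd_comm 7 4, pd_comm 7 3, pd_comm 7 2, pd_comm 7 1, pd_comm 7 0,
    pd_comm 6 5, pd_comm 6 4, pd_comm 6 3, pd_comm 6 2, pd_comm 6 1, pd_comm 6 0, pd_comm 5 4,
    pd_comm 5 3, pd_comm 5 2, pd_comm 5 1, pd_comm 5 0, pd_comm 4 3, pd_comm 4 2, pd_comm 4 1,
    pd_comm 4 0, pd_comm 3 2, pd_comm 3 1, pd_comm 3 0, pd_comm 2 1, pd_comm 2 0, pd_comm 1 0]
  try simp [pd_ap]
  try ring
theorem ef01 : Eo 0 * Fo 1 = Fo 1 * Eo 0 + Ho 1 := by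
  refine LinearMap.ext fun p => ?_
  simp only [Eo, Fo, Ho, Hp, pd_two, mul_zero, add_zero, zero_add, LinearMap.sub_apply,
    LinearMap.add_apply, LinearMap.neg_apply, Module.End.mul_apply, mu_ap, pd_ap, Derivation.leibniz,
    map_add, map_sub, smul_eq_mul, LinearMap.zero_apply, pderiv_X, Pi.single_apply, pd_comm 8 7,
    pd_comm 8 6, pd_comm 8 5, pd_comm 8 4, pd_comm 8 3, pd_comm 8 2, pd_comm 8 1, pd_comm 8 0,
    pd_comm 7 6, pd_comm 7 5, pd_comm 7 4, pd_comm 7 3, pd_comm 7 2, pd_comm 7 1, pd_comm 7 0,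
    pd_comm 6 5, pd_comm 6 4, pd_comm 6 3, pd_comm 6 2, pd_comm 6 1, pd_comm 6 0, pd_comm 5 4,
    pd_comm 5 3, pd_comm 5 2, pd_comm 5 1, pd_comm 5 0, pd_comm 4 3, pd_comm 4 2, pd_comm 4 1,
    pd_comm 4 0, pd_comm 3 2, pd_comm 3 1, pd_comm 3 0, pd_comm 2 1, pd_comm 2 0, pd_comm 1 0]
  try simp [pd_ap]
  try ring
theorem ee02 : Eo 0 * Eo 2 = Eo 2 * Eo 0 := by
  refine LinearMap.ext fun p => ?_
  simp only [Eo, Fo, Ho, Hp, pd_two, mul_zero, add_zero, zero_add, LinearMap.sub_apply,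
    LinearMap.add_apply, LinearMap.neg_apply, Module.End.mul_apply, mu_ap, pd_ap, Derivation.leibniz,
    map_add, map_sub, smul_eq_mul, LinearMap.zero_apply, pderiv_X, Pi.single_apply, pd_comm 8 7,
    pd_comm 8 6, pd_comm 8 5, pd_comm 8 4, pd_comm 8 3, pd_comm 8 2, pd_comm 8 1, pd_comm 8 0,
    pd_comm 7 6, pd_comm 7 5, pd_comm 7 4, pd_comm 7 3, pd_comm 7 2, pd_comm 7 1, pd_comm 7 0,
    pd_comm 6 5, pd_comm 6 4, pd_comm 6 3, pd_comm 6 2, pd_comm 6 1, pd_comm 6 0, pd_comm 5 4,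
    pd_comm 5 3, pd_comm 5 2, pd_comm 5 1, pd_comm 5 0, pd_comm 4 3, pd_comm 4 2, pd_comm 4 1,
    pd_comm 4 0, pd_comm 3 2, pd_comm 3 1, pd_comm 3 0, pd_comm 2 1, pd_comm 2 0, pd_comm 1 0]
  try simp [pd_ap]
  try ring
theorem hh02 : Ho 0 * Ho 2 = Ho 2 * Ho 0 := by
  refine LinearMap.ext fun p => ?_
  simp only [Eo, Fo, Ho, Hp, pd_two, mul_zero, add_zero, zero_add, LinearMap.sub_apply,
    LinearMap.add_apply, LinearMap.neg_apply, Module.End.mul_apply, mu_ap, pd_ap, Derivation.leibniz,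
    map_add, map_sub, smul_eq_mul, LinearMap.zero_apply, pderiv_X, Pi.single_apply, pd_comm 8 7,
    pd_comm 8 6, pd_comm 8 5, pd_comm 8 4, pd_comm 8 3, pd_comm 8 2, pd_comm 8 1, pd_comm 8 0,
    pd_comm 7 6, pd_comm 7 5, pd_comm 7 4, pd_comm 7 3, pd_comm 7 2, pd_comm 7 1, pd_comm 7 0,
    pd_comm 6 5, pd_comm 6 4, pd_comm 6 3, pd_comm 6 2, pd_comm 6 1, pd_comm 6 0, pd_comm 5 4,
    pd_comm 5 3, pd_comm 5 2, pd_comm 5 1, pd_comm 5 0, pd_comm 4 3, pd_comm 4 2, pd_comm 4 1,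
    pd_comm 4 0, pd_comm 3 2, pd_comm 3 1, pd_comm 3 0, pd_comm 2 1, pd_comm 2 0, pd_comm 1 0]
  try simp [pd_ap]
  try ring
theorem ff02 : Fo 0 * Fo 2 = Fo 2 * Fo 0 := by
  refine LinearMap.ext fun p => ?_
  simp only [Eo, Fo, Ho, Hp, pd_two, mul_zero, add_zero, zero_add, LinearMap.sub_apply,
    LinearMap.add_apply, LinearMap.neg_apply, Module.End.mul_apply, mu_ap, pd_ap, Derivation.leibniz,
    map_add, map_sub, smul_eq_mul, LinearMap.zero_apply, pderiv_X, Pi.single_apply, pd_comm 8 7,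
    pd_comm 8 6, pd_comm 8 5, pd_comm 8 4, pd_comm 8 3, pd_comm 8 2, pd_comm 8 1, pd_comm 8 0,
    pd_comm 7 6, pd_comm 7 5, pd_comm 7 4, pd_comm 7 3, pd_comm 7 2, pd_comm 7 1, pd_comm 7 0,
    pd_comm 6 5, pd_comm 6 4, pd_comm 6 3, pd_comm 6 2, pd_comm 6 1, pd_comm 6 0, pd_comm 5 4,
    pd_comm 5 3, pd_comm 5 2, pd_comm 5 1, pd_comm 5 0, pd_comm 4 3, pd_comm 4 2, pd_comm 4 1,
    pd_comm 4 0, pd_comm 3 2, pd_comm 3 1, pd_comm 3 0, pd_comm 2 1, pd_comm 2 0, pd_comm 1 0]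
  try simp [pd_ap]
  try ring
theorem he02 : Ho 0 * Eo 2 = Eo 2 * Ho 0 + mu 2 * Eo 2 := by
  refine LinearMap.ext fun p => ?_
  simp only [Eo, Fo, Ho, Hp, pd_two, mul_zero, add_zero, zero_add, LinearMap.sub_apply,
    LinearMap.add_apply, LinearMap.neg_apply, Module.End.mul_apply, mu_ap, pd_ap, Derivation.leibniz,
    map_add, map_sub, smul_eq_mul, LinearMap.zero_apply, pderiv_X, Pi.single_apply, pd_comm 8 7,
    pd_comm 8 6, pd_comm 8 5, pd_comm 8 4, pd_comm 8 3, pd_comm 8 2, pd_comm 8 1, pd_comm 8 0,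
    pd_comm 7 6, pd_comm 7 5, pd_comm 7 4, pd_comm 7 3, pd_comm 7 2, pd_comm 7 1, pd_comm 7 0,
    pd_comm 6 5, pd_comm 6 4, pd_comm 6 3, pd_comm 6 2, pd_comm 6 1, pd_comm 6 0, pd_comm 5 4,
    pd_comm 5 3, pd_comm 5 2, pd_comm 5 1, pd_comm 5 0, pd_comm 4 3, pd_comm 4 2, pd_comm 4 1,
    pd_comm 4 0, pd_comm 3 2, pd_comm 3 1, pd_comm 3 0, pd_comm 2 1, pd_comm 2 0, pd_comm 1 0]
  try simp [pd_ap]
  try ring
theorem hf02 : Ho 0 * Fo 2 = Fo 2 * Ho 0 - mu 2 * Fo 2 := by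
  refine LinearMap.ext fun p => ?_
  simp only [Eo, Fo, Ho, Hp, pd_two, mul_zero, add_zero, zero_add, LinearMap.sub_apply,
    LinearMap.add_apply, LinearMap.neg_apply, Module.End.mul_apply, mu_ap, pd_ap, Derivation.leibniz,
    map_add, map_sub, smul_eq_mul, LinearMap.zero_apply, pderiv_X, Pi.single_apply, pd_comm 8 7,
    pd_comm 8 6, pd_comm 8 5, pd_comm 8 4, pd_comm 8 3, pd_comm 8 2, pd_comm 8 1, pd_comm 8 0,
    pd_comm 7 6, pd_comm 7 5, pd_comm 7 4, pd_comm 7 3, pd_comm 7 2, pd_comm 7 1, pd_comm 7 0,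
    pd_comm 6 5, pd_comm 6 4, pd_comm 6 3, pd_comm 6 2, pd_comm 6 1, pd_comm 6 0, pd_comm 5 4,
    pd_comm 5 3, pd_comm 5 2, pd_comm 5 1, pd_comm 5 0, pd_comm 4 3, pd_comm 4 2, pd_comm 4 1,
    pd_comm 4 0, pd_comm 3 2, pd_comm 3 1, pd_comm 3 0, pd_comm 2 1, pd_comm 2 0, pd_comm 1 0]
  try simp [pd_ap]
  try ring
theorem ef02 : Eo 0 * Fo 2 = Fo 2 * Eo 0 + Ho 2 := by
  refine LinearMap.ext fun p => ?_
  simp only [Eo, Fo, Ho, Hp, pd_two, mul_zero, add_zero, zero_add, LinearMap.sub_apply,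
    LinearMap.add_apply, LinearMap.neg_apply, Module.End.mul_apply, mu_ap, pd_ap, Derivation.leibniz,
    map_add, map_sub, smul_eq_mul, LinearMap.zero_apply, pderiv_X, Pi.single_apply, pd_comm 8 7,
    pd_comm 8 6, pd_comm 8 5, pd_comm 8 4, pd_comm 8 3, pd_comm 8 2, pd_comm 8 1, pd_comm 8 0,
    pd_comm 7 6, pd_comm 7 5, pd_comm 7 4, pd_comm 7 3, pd_comm 7 2, pd_comm 7 1, pd_comm 7 0,
    pd_comm 6 5, pd_comm 6 4, pd_comm 6 3, pd_comm 6 2, pd_comm 6 1, pd_comm 6 0, pd_comm 5 4,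
    pd_comm 5 3, pd_comm 5 2, pd_comm 5 1, pd_comm 5 0, pd_comm 4 3, pd_comm 4 2, pd_comm 4 1,
    pd_comm 4 0, pd_comm 3 2, pd_comm 3 1, pd_comm 3 0, pd_comm 2 1, pd_comm 2 0, pd_comm 1 0]
  try simp [pd_ap]
  try ring
theorem ee03 : Eo 0 * Eo 3 = Eo 3 * Eo 0 := by
  refine LinearMap.ext fun p => ?_
  simp only [Eo, Fo, Ho, Hp, pd_two, mul_zero, add_zero, zero_add, LinearMap.sub_apply,
    LinearMap.add_apply, LinearMap.neg_apply, Module.End.mul_apply, mu_ap, pd_ap, Derivation.leibniz,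
    map_add, map_sub, smul_eq_mul, LinearMap.zero_apply, pderiv_X, Pi.single_apply, pd_comm 8 7,
    pd_comm 8 6, pd_comm 8 5, pd_comm 8 4, pd_comm 8 3, pd_comm 8 2, pd_comm 8 1, pd_comm 8 0,
    pd_comm 7 6, pd_comm 7 5, pd_comm 7 4, pd_comm 7 3, pd_comm 7 2, pd_comm 7 1, pd_comm 7 0,
    pd_comm 6 5, pd_comm 6 4, pd_comm 6 3, pd_comm 6 2, pd_comm 6 1, pd_comm 6 0, pd_comm 5 4,
    pd_comm 5 3, pd_comm 5 2, pd_comm 5 1, pd_comm 5 0, pd_comm 4 3, pd_comm 4 2, pd_comm 4 1,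
    pd_comm 4 0, pd_comm 3 2, pd_comm 3 1, pd_comm 3 0, pd_comm 2 1, pd_comm 2 0, pd_comm 1 0]
  try simp [pd_ap]
  try ring
theorem hh03 : Ho 0 * Ho 3 = Ho 3 * Ho 0 := by
  refine LinearMap.ext fun p => ?_
  simp only [Eo, Fo, Ho, Hp, pd_two, mul_zero, add_zero, zero_add, LinearMap.sub_apply,
    LinearMap.add_apply, LinearMap.neg_apply, Module.End.mul_apply, mu_ap, pd_ap, Derivation.leibniz,
    map_add, map_sub, smul_eq_mul, LinearMap.zero_apply, pderiv_X, Pi.single_apply, pd_comm 8 7,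
    pd_comm 8 6, pd_comm 8 5, pd_comm 8 4, pd_comm 8 3, pd_comm 8 2, pd_comm 8 1, pd_comm 8 0,
    pd_comm 7 6, pd_comm 7 5, pd_comm 7 4, pd_comm 7 3, pd_comm 7 2, pd_comm 7 1, pd_comm 7 0,
    pd_comm 6 5, pd_comm 6 4, pd_comm 6 3, pd_comm 6 2, pd_comm 6 1, pd_comm 6 0, pd_comm 5 4,
    pd_comm 5 3, pd_comm 5 2, pd_comm 5 1, pd_comm 5 0, pd_comm 4 3, pd_comm 4 2, pd_comm 4 1,
    pd_comm 4 0, pd_comm 3 2, pd_comm 3 1, pd_comm 3 0, pd_comm 2 1, pd_comm 2 0, pd_comm 1 0]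
  try simp [pd_ap]
  try ring
theorem ff03 : Fo 0 * Fo 3 = Fo 3 * Fo 0 := by
  refine LinearMap.ext fun p => ?_
  simp only [Eo, Fo, Ho, Hp, pd_two, mul_zero, add_zero, zero_add, LinearMap.sub_apply,
    LinearMap.add_apply, LinearMap.neg_apply, Module.End.mul_apply, mu_ap, pd_ap, Derivation.leibniz,
    map_add, map_sub, smul_eq_mul, LinearMap.zero_apply, pderiv_X, Pi.single_apply, pd_comm 8 7,
    pd_comm 8 6, pd_comm 8 5, pd_comm 8 4, pd_comm 8 3, pd_comm 8 2, pd_comm 8 1, pd_comm 8 0,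
    pd_comm 7 6, pd_comm 7 5, pd_comm 7 4, pd_comm 7 3, pd_comm 7 2, pd_comm 7 1, pd_comm 7 0,
    pd_comm 6 5, pd_comm 6 4, pd_comm 6 3, pd_comm 6 2, pd_comm 6 1, pd_comm 6 0, pd_comm 5 4,
    pd_comm 5 3, pd_comm 5 2, pd_comm 5 1, pd_comm 5 0, pd_comm 4 3, pd_comm 4 2, pd_comm 4 1,
    pd_comm 4 0, pd_comm 3 2, pd_comm 3 1, pd_comm 3 0, pd_comm 2 1, pd_comm 2 0, pd_comm 1 0]
  try simp [pd_ap]
  try ring
theorem he03 : Ho 0 * Eo 3 = Eo 3 * Ho 0 + mu 2 * Eo 3 := by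
  refine LinearMap.ext fun p => ?_
  simp only [Eo, Fo, Ho, Hp, pd_two, mul_zero, add_zero, zero_add, LinearMap.sub_apply,
    LinearMap.add_apply, LinearMap.neg_apply, Module.End.mul_apply, mu_ap, pd_ap, Derivation.leibniz,
    map_add, map_sub, smul_eq_mul, LinearMap.zero_apply, pderiv_X, Pi.single_apply, pd_comm 8 7,
    pd_comm 8 6, pd_comm 8 5, pd_comm 8 4, pd_comm 8 3, pd_comm 8 2, pd_comm 8 1, pd_comm 8 0,
    pd_comm 7 6, pd_comm 7 5, pd_comm 7 4, pd_comm 7 3, pd_comm 7 2, pd_comm 7 1, pd_comm 7 0,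
    pd_comm 6 5, pd_comm 6 4, pd_comm 6 3, pd_comm 6 2, pd_comm 6 1, pd_comm 6 0, pd_comm 5 4,
    pd_comm 5 3, pd_comm 5 2, pd_comm 5 1, pd_comm 5 0, pd_comm 4 3, pd_comm 4 2, pd_comm 4 1,
    pd_comm 4 0, pd_comm 3 2, pd_comm 3 1, pd_comm 3 0, pd_comm 2 1, pd_comm 2 0, pd_comm 1 0]
  try simp [pd_ap]
  try ring
theorem hf03 : Ho 0 * Fo 3 = Fo 3 * Ho 0 - mu 2 * Fo 3 := by
  refine LinearMap.ext fun p => ?_
  simp only [Eo, Fo, Ho, Hp, pd_two, mul_zero, add_zero, zero_add, LinearMap.sub_apply,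
    LinearMap.add_apply, LinearMap.neg_apply, Module.End.mul_apply, mu_ap, pd_ap, Derivation.leibniz,
    map_add, map_sub, smul_eq_mul, LinearMap.zero_apply, pderiv_X, Pi.single_apply, pd_comm 8 7,
    pd_comm 8 6, pd_comm 8 5, pd_comm 8 4, pd_comm 8 3, pd_comm 8 2, pd_comm 8 1, pd_comm 8 0,
    pd_comm 7 6, pd_comm 7 5, pd_comm 7 4, pd_comm 7 3, pd_comm 7 2, pd_comm 7 1, pd_comm 7 0,
    pd_comm 6 5, pd_comm 6 4, pd_comm 6 3, pd_comm 6 2, pd_comm 6 1, pd_comm 6 0, pd_comm 5 4,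
    pd_comm 5 3, pd_comm 5 2, pd_comm 5 1, pd_comm 5 0, pd_comm 4 3, pd_comm 4 2, pd_comm 4 1,
    pd_comm 4 0, pd_comm 3 2, pd_comm 3 1, pd_comm 3 0, pd_comm 2 1, pd_comm 2 0, pd_comm 1 0]
  try simp [pd_ap]
  try ring
theorem ef03 : Eo 0 * Fo 3 = Fo 3 * Eo 0 + Ho 3 := by
  refine LinearMap.ext fun p => ?_
  simp only [Eo, Fo, Ho, Hp, pd_two, mul_zero, add_zero, zero_add, LinearMap.sub_apply,
    LinearMap.add_apply, LinearMap.neg_apply, Module.End.mul_apply, mu_ap, pd_ap, Derivation.leibniz,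
    map_add, map_sub, smul_eq_mul, LinearMap.zero_apply, pderiv_X, Pi.single_apply, pd_comm 8 7,
    pd_comm 8 6, pd_comm 8 5, pd_comm 8 4, pd_comm 8 3, pd_comm 8 2, pd_comm 8 1, pd_comm 8 0,
    pd_comm 7 6, pd_comm 7 5, pd_comm 7 4, pd_comm 7 3, pd_comm 7 2, pd_comm 7 1, pd_comm 7 0,
    pd_comm 6 5, pd_comm 6 4, pd_comm 6 3, pd_comm 6 2, pd_comm 6 1, pd_comm 6 0, pd_comm 5 4,
    pd_comm 5 3, pd_comm 5 2, pd_comm 5 1, pd_comm 5 0, pd_comm 4 3, pd_comm 4 2, pd_comm 4 1,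
    pd_comm 4 0, pd_comm 3 2, pd_comm 3 1, pd_comm 3 0, pd_comm 2 1, pd_comm 2 0, pd_comm 1 0]
  try simp [pd_ap]
  try ring
theorem he10 : Ho 1 * Eo 0 = Eo 0 * Ho 1 + mu 2 * Eo 1 := by
  refine LinearMap.ext fun p => ?_
  simp only [Eo, Fo, Ho, Hp, pd_two, mul_zero, add_zero, zero_add, LinearMap.sub_apply,
    LinearMap.add_apply, LinearMap.neg_apply, Module.End.mul_apply, mu_ap, pd_ap, Derivation.leibniz,
    map_add, map_sub, smul_eq_mul, LinearMap.zero_apply, pderiv_X, Pi.single_apply, pd_comm 8 7,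
    pd_comm 8 6, pd_comm 8 5, pd_comm 8 4, pd_comm 8 3, pd_comm 8 2, pd_comm 8 1, pd_comm 8 0,
    pd_comm 7 6, pd_comm 7 5, pd_comm 7 4, pd_comm 7 3, pd_comm 7 2, pd_comm 7 1, pd_comm 7 0,
    pd_comm 6 5, pd_comm 6 4, pd_comm 6 3, pd_comm 6 2, pd_comm 6 1, pd_comm 6 0, pd_comm 5 4,
    pd_comm 5 3, pd_comm 5 2, pd_comm 5 1, pd_comm 5 0, pd_comm 4 3, pd_comm 4 2, pd_comm 4 1,
    pd_comm 4 0, pd_comm 3 2, pd_comm 3 1, pd_comm 3 0, pd_comm 2 1, pd_comm 2 0, pd_comm 1 0]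
  try simp [pd_ap]
  try ring
theorem hf10 : Ho 1 * Fo 0 = Fo 0 * Ho 1 - mu 2 * Fo 1 := by
  refine LinearMap.ext fun p => ?_
  simp only [Eo, Fo, Ho, Hp, pd_two, mul_zero, add_zero, zero_add, LinearMap.sub_apply,
    LinearMap.add_apply, LinearMap.neg_apply, Module.End.mul_apply, mu_ap, pd_ap, Derivation.leibniz,
    map_add, map_sub, smul_eq_mul, LinearMap.zero_apply, pderiv_X, Pi.single_apply, pd_comm 8 7,
    pd_comm 8 6, pd_comm 8 5, pd_comm 8 4, pd_comm 8 3, pd_comm 8 2, pd_comm 8 1, pd_comm 8 0,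
    pd_comm 7 6, pd_comm 7 5, pd_comm 7 4, pd_comm 7 3, pd_comm 7 2, pd_comm 7 1, pd_comm 7 0,
    pd_comm 6 5, pd_comm 6 4, pd_comm 6 3, pd_comm 6 2, pd_comm 6 1, pd_comm 6 0, pd_comm 5 4,
    pd_comm 5 3, pd_comm 5 2, pd_comm 5 1, pd_comm 5 0, pd_comm 4 3, pd_comm 4 2, pd_comm 4 1,
    pd_comm 4 0, pd_comm 3 2, pd_comm 3 1, pd_comm 3 0, pd_comm 2 1, pd_comm 2 0, pd_comm 1 0]
  try simp [pd_ap]
  try ring
theorem ef10 : Eo 1 * Fo 0 = Fo 0 * Eo 1 + Ho 1 := by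
  refine LinearMap.ext fun p => ?_
  simp only [Eo, Fo, Ho, Hp, pd_two, mul_zero, add_zero, zero_add, LinearMap.sub_apply,
    LinearMap.add_apply, LinearMap.neg_apply, Module.End.mul_apply, mu_ap, pd_ap, Derivation.leibniz,
    map_add, map_sub, smul_eq_mul, LinearMap.zero_apply, pderiv_X, Pi.single_apply, pd_comm 8 7,
    pd_comm 8 6, pd_comm 8 5, pd_comm 8 4, pd_comm 8 3, pd_comm 8 2, pd_comm 8 1, pd_comm 8 0,
    pd_comm 7 6, pd_comm 7 5, pd_comm 7 4, pd_comm 7 3, pd_comm 7 2, pd_comm 7 1, pd_comm 7 0,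
    pd_comm 6 5, pd_comm 6 4, pd_comm 6 3, pd_comm 6 2, pd_comm 6 1, pd_comm 6 0, pd_comm 5 4,
    pd_comm 5 3, pd_comm 5 2, pd_comm 5 1, pd_comm 5 0, pd_comm 4 3, pd_comm 4 2, pd_comm 4 1,
    pd_comm 4 0, pd_comm 3 2, pd_comm 3 1, pd_comm 3 0, pd_comm 2 1, pd_comm 2 0, pd_comm 1 0]
  try simp [pd_ap]
  try ring
theorem he11 : Ho 1 * Eo 1 = Eo 1 * Ho 1 + mu 2 * Eo 2 := by
  refine LinearMap.ext fun p => ?_
  simp only [Eo, Fo, Ho, Hp, pd_two, mul_zero, add_zero, zero_add, LinearMap.sub_apply,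
    LinearMap.add_apply, LinearMap.neg_apply, Module.End.mul_apply, mu_ap, pd_ap, Derivation.leibniz,
    map_add, map_sub, smul_eq_mul, LinearMap.zero_apply, pderiv_X, Pi.single_apply, pd_comm 8 7,
    pd_comm 8 6, pd_comm 8 5, pd_comm 8 4, pd_comm 8 3, pd_comm 8 2, pd_comm 8 1, pd_comm 8 0,
    pd_comm 7 6, pd_comm 7 5, pd_comm 7 4, pd_comm 7 3, pd_comm 7 2, pd_comm 7 1, pd_comm 7 0,
    pd_comm 6 5, pd_comm 6 4, pd_comm 6 3, pd_comm 6 2, pd_comm 6 1, pd_comm 6 0, pd_comm 5 4,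
    pd_comm 5 3, pd_comm 5 2, pd_comm 5 1, pd_comm 5 0, pd_comm 4 3, pd_comm 4 2, pd_comm 4 1,
    pd_comm 4 0, pd_comm 3 2, pd_comm 3 1, pd_comm 3 0, pd_comm 2 1, pd_comm 2 0, pd_comm 1 0]
  try simp [pd_ap]
  try ring
theorem hf11 : Ho 1 * Fo 1 = Fo 1 * Ho 1 - mu 2 * Fo 2 := by
  refine LinearMap.ext fun p => ?_
  simp only [Eo, Fo, Ho, Hp, pd_two, mul_zero, add_zero, zero_add, LinearMap.sub_apply,
    LinearMap.add_apply, LinearMap.neg_apply, Module.End.mul_apply, mu_ap, pd_ap, Derivation.leibniz,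
    map_add, map_sub, smul_eq_mul, LinearMap.zero_apply, pderiv_X, Pi.single_apply, pd_comm 8 7,
    pd_comm 8 6, pd_comm 8 5, pd_comm 8 4, pd_comm 8 3, pd_comm 8 2, pd_comm 8 1, pd_comm 8 0,
    pd_comm 7 6, pd_comm 7 5, pd_comm 7 4, pd_comm 7 3, pd_comm 7 2, pd_comm 7 1, pd_comm 7 0,
    pd_comm 6 5, pd_comm 6 4, pd_comm 6 3, pd_comm 6 2, pd_comm 6 1, pd_comm 6 0, pd_comm 5 4,
    pd_comm 5 3, pd_comm 5 2, pd_comm 5 1, pd_comm 5 0, pd_comm 4 3, pd_comm 4 2, pd_comm 4 1,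
    pd_comm 4 0, pd_comm 3 2, pd_comm 3 1, pd_comm 3 0, pd_comm 2 1, pd_comm 2 0, pd_comm 1 0]
  try simp [pd_ap]
  try ring
theorem ef11 : Eo 1 * Fo 1 = Fo 1 * Eo 1 + Ho 2 := by
  refine LinearMap.ext fun p => ?_
  simp only [Eo, Fo, Ho, Hp, pd_two, mul_zero, add_zero, zero_add, LinearMap.sub_apply,
    LinearMap.add_apply, LinearMap.neg_apply, Module.End.mul_apply, mu_ap, pd_ap, Derivation.leibniz,
    map_add, map_sub, smul_eq_mul, LinearMap.zero_apply, pderiv_X, Pi.single_apply, pd_comm 8 7,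
    pd_comm 8 6, pd_comm 8 5, pd_comm 8 4, pd_comm 8 3, pd_comm 8 2, pd_comm 8 1, pd_comm 8 0,
    pd_comm 7 6, pd_comm 7 5, pd_comm 7 4, pd_comm 7 3, pd_comm 7 2, pd_comm 7 1, pd_comm 7 0,
    pd_comm 6 5, pd_comm 6 4, pd_comm 6 3, pd_comm 6 2, pd_comm 6 1, pd_comm 6 0, pd_comm 5 4,
    pd_comm 5 3, pd_comm 5 2, pd_comm 5 1, pd_comm 5 0, pd_comm 4 3, pd_comm 4 2, pd_comm 4 1,
    pd_comm 4 0, pd_comm 3 2, pd_comm 3 1, pd_comm 3 0, pd_comm 2 1, pd_comm 2 0, pd_comm 1 0]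
  try simp [pd_ap]
  try ring
theorem ee12 : Eo 1 * Eo 2 = Eo 2 * Eo 1 := by
  refine LinearMap.ext fun p => ?_
  simp only [Eo, Fo, Ho, Hp, pd_two, mul_zero, add_zero, zero_add, LinearMap.sub_apply,
    LinearMap.add_apply, LinearMap.neg_apply, Module.End.mul_apply, mu_ap, pd_ap, Derivation.leibniz,
    map_add, map_sub, smul_eq_mul, LinearMap.zero_apply, pderiv_X, Pi.single_apply, pd_comm 8 7,
    pd_comm 8 6, pd_comm 8 5, pd_comm 8 4, pd_comm 8 3, pd_comm 8 2, pd_comm 8 1, pd_comm 8 0,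
    pd_comm 7 6, pd_comm 7 5, pd_comm 7 4, pd_comm 7 3, pd_comm 7 2, pd_comm 7 1, pd_comm 7 0,
    pd_comm 6 5, pd_comm 6 4, pd_comm 6 3, pd_comm 6 2, pd_comm 6 1, pd_comm 6 0, pd_comm 5 4,
    pd_comm 5 3, pd_comm 5 2, pd_comm 5 1, pd_comm 5 0, pd_comm 4 3, pd_comm 4 2, pd_comm 4 1,
    pd_comm 4 0, pd_comm 3 2, pd_comm 3 1, pd_comm 3 0, pd_comm 2 1, pd_comm 2 0, pd_comm 1 0]
  try simp [pd_ap]
  try ring
theorem hh12 : Ho 1 * Ho 2 = Ho 2 * Ho 1 := by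
  refine LinearMap.ext fun p => ?_
  simp only [Eo, Fo, Ho, Hp, pd_two, mul_zero, add_zero, zero_add, LinearMap.sub_apply,
    LinearMap.add_apply, LinearMap.neg_apply, Module.End.mul_apply, mu_ap, pd_ap, Derivation.leibniz,
    map_add, map_sub, smul_eq_mul, LinearMap.zero_apply, pderiv_X, Pi.single_apply, pd_comm 8 7,
    pd_comm 8 6, pd_comm 8 5, pd_comm 8 4, pd_comm 8 3, pd_comm 8 2, pd_comm 8 1, pd_comm 8 0,
    pd_comm 7 6, pd_comm 7 5, pd_comm 7 4, pd_comm 7 3, pd_comm 7 2, pd_comm 7 1, pd_comm 7 0,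
    pd_comm 6 5, pd_comm 6 4, pd_comm 6 3, pd_comm 6 2, pd_comm 6 1, pd_comm 6 0, pd_comm 5 4,
    pd_comm 5 3, pd_comm 5 2, pd_comm 5 1, pd_comm 5 0, pd_comm 4 3, pd_comm 4 2, pd_comm 4 1,
    pd_comm 4 0, pd_comm 3 2, pd_comm 3 1, pd_comm 3 0, pd_comm 2 1, pd_comm 2 0, pd_comm 1 0]
  try simp [pd_ap]
  try ring
theorem ff12 : Fo 1 * Fo 2 = Fo 2 * Fo 1 := by
  refine LinearMap.ext fun p => ?_
  simp only [Eo, Fo, Ho, Hp, pd_two, mul_zero, add_zero, zero_add, LinearMap.sub_apply,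
    LinearMap.add_apply, LinearMap.neg_apply, Module.End.mul_apply, mu_ap, pd_ap, Derivation.leibniz,
    map_add, map_sub, smul_eq_mul, LinearMap.zero_apply, pderiv_X, Pi.single_apply, pd_comm 8 7,
    pd_comm 8 6, pd_comm 8 5, pd_comm 8 4, pd_comm 8 3, pd_comm 8 2, pd_comm 8 1, pd_comm 8 0,
    pd_comm 7 6, pd_comm 7 5, pd_comm 7 4, pd_comm 7 3, pd_comm 7 2, pd_comm 7 1, pd_comm 7 0,
    pd_comm 6 5, pd_comm 6 4, pd_comm 6 3, pd_comm 6 2, pd_comm 6 1, pd_comm 6 0, pd_comm 5 4,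
    pd_comm 5 3, pd_comm 5 2, pd_comm 5 1, pd_comm 5 0, pd_comm 4 3, pd_comm 4 2, pd_comm 4 1,
    pd_comm 4 0, pd_comm 3 2, pd_comm 3 1, pd_comm 3 0, pd_comm 2 1, pd_comm 2 0, pd_comm 1 0]
  try simp [pd_ap]
  try ring
theorem he12 : Ho 1 * Eo 2 = Eo 2 * Ho 1 + mu 2 * Eo 3 := by
  refine LinearMap.ext fun p => ?_
  simp only [Eo, Fo, Ho, Hp, pd_two, mul_zero, add_zero, zero_add, LinearMap.sub_apply,
    LinearMap.add_apply, LinearMap.neg_apply, Module.End.mul_apply, mu_ap, pd_ap, Derivation.leibniz,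
    map_add, map_sub, smul_eq_mul, LinearMap.zero_apply, pderiv_X, Pi.single_apply, pd_comm 8 7,
    pd_comm 8 6, pd_comm 8 5, pd_comm 8 4, pd_comm 8 3, pd_comm 8 2, pd_comm 8 1, pd_comm 8 0,
    pd_comm 7 6, pd_comm 7 5, pd_comm 7 4, pd_comm 7 3, pd_comm 7 2, pd_comm 7 1, pd_comm 7 0,
    pd_comm 6 5, pd_comm 6 4, pd_comm 6 3, pd_comm 6 2, pd_comm 6 1, pd_comm 6 0, pd_comm 5 4,
    pd_comm 5 3, pd_comm 5 2, pd_comm 5 1, pd_comm 5 0, pd_comm 4 3, pd_comm 4 2, pd_comm 4 1,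
    pd_comm 4 0, pd_comm 3 2, pd_comm 3 1, pd_comm 3 0, pd_comm 2 1, pd_comm 2 0, pd_comm 1 0]
  try simp [pd_ap]
  try ring
theorem hf12 : Ho 1 * Fo 2 = Fo 2 * Ho 1 - mu 2 * Fo 3 := by
  refine LinearMap.ext fun p => ?_
  simp only [Eo, Fo, Ho, Hp, pd_two, mul_zero, add_zero, zero_add, LinearMap.sub_apply,
    LinearMap.add_apply, LinearMap.neg_apply, Module.End.mul_apply, mu_ap, pd_ap, Derivation.leibniz,
    map_add, map_sub, smul_eq_mul, LinearMap.zero_apply, pderiv_X, Pi.single_apply, pd_comm 8 7,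
    pd_comm 8 6, pd_comm 8 5, pd_comm 8 4, pd_comm 8 3, pd_comm 8 2, pd_comm 8 1, pd_comm 8 0,
    pd_comm 7 6, pd_comm 7 5, pd_comm 7 4, pd_comm 7 3, pd_comm 7 2, pd_comm 7 1, pd_comm 7 0,
    pd_comm 6 5, pd_comm 6 4, pd_comm 6 3, pd_comm 6 2, pd_comm 6 1, pd_comm 6 0, pd_comm 5 4,
    pd_comm 5 3, pd_comm 5 2, pd_comm 5 1, pd_comm 5 0, pd_comm 4 3, pd_comm 4 2, pd_comm 4 1,
    pd_comm 4 0, pd_comm 3 2, pd_comm 3 1, pd_comm 3 0, pd_comm 2 1, pd_comm 2 0, pd_comm 1 0]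
  try simp [pd_ap]
  try ring
theorem ef12 : Eo 1 * Fo 2 = Fo 2 * Eo 1 + Ho 3 := by
  refine LinearMap.ext fun p => ?_
  simp only [Eo, Fo, Ho, Hp, pd_two, mul_zero, add_zero, zero_add, LinearMap.sub_apply,
    LinearMap.add_apply, LinearMap.neg_apply, Module.End.mul_apply, mu_ap, pd_ap, Derivation.leibniz,
    map_add, map_sub, smul_eq_mul, LinearMap.zero_apply, pderiv_X, Pi.single_apply, pd_comm 8 7,
    pd_comm 8 6, pd_comm 8 5, pd_comm 8 4, pd_comm 8 3, pd_comm 8 2, pd_comm 8 1, pd_comm 8 0,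
    pd_comm 7 6, pd_comm 7 5, pd_comm 7 4, pd_comm 7 3, pd_comm 7 2, pd_comm 7 1, pd_comm 7 0,
    pd_comm 6 5, pd_comm 6 4, pd_comm 6 3, pd_comm 6 2, pd_comm 6 1, pd_comm 6 0, pd_comm 5 4,
    pd_comm 5 3, pd_comm 5 2, pd_comm 5 1, pd_comm 5 0, pd_comm 4 3, pd_comm 4 2, pd_comm 4 1,
    pd_comm 4 0, pd_comm 3 2, pd_comm 3 1, pd_comm 3 0, pd_comm 2 1, pd_comm 2 0, pd_comm 1 0]
  try simp [pd_ap]
  try ring
theorem ee13 : Eo 1 * Eo 3 = Eo 3 * Eo 1 := by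
  refine LinearMap.ext fun p => ?_
  simp only [Eo, Fo, Ho, Hp, pd_two, mul_zero, add_zero, zero_add, LinearMap.sub_apply,
    LinearMap.add_apply, LinearMap.neg_apply, Module.End.mul_apply, mu_ap, pd_ap, Derivation.leibniz,
    map_add, map_sub, smul_eq_mul, LinearMap.zero_apply, pderiv_X, Pi.single_apply, pd_comm 8 7,
    pd_comm 8 6, pd_comm 8 5, pd_comm 8 4, pd_comm 8 3, pd_comm 8 2, pd_comm 8 1, pd_comm 8 0,
    pd_comm 7 6, pd_comm 7 5, pd_comm 7 4, pd_comm 7 3, pd_comm 7 2, pd_comm 7 1, pd_comm 7 0,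
    pd_comm 6 5, pd_comm 6 4, pd_comm 6 3, pd_comm 6 2, pd_comm 6 1, pd_comm 6 0, pd_comm 5 4,
    pd_comm 5 3, pd_comm 5 2, pd_comm 5 1, pd_comm 5 0, pd_comm 4 3, pd_comm 4 2, pd_comm 4 1,
    pd_comm 4 0, pd_comm 3 2, pd_comm 3 1, pd_comm 3 0, pd_comm 2 1, pd_comm 2 0, pd_comm 1 0]
  try simp [pd_ap]
  try ring
theorem hh13 : Ho 1 * Ho 3 = Ho 3 * Ho 1 := by
  refine LinearMap.ext fun p => ?_
  simp only [Eo, Fo, Ho, Hp, pd_two, mul_zero, add_zero, zero_add, LinearMap.sub_apply,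
    LinearMap.add_apply, LinearMap.neg_apply, Module.End.mul_apply, mu_ap, pd_ap, Derivation.leibniz,
    map_add, map_sub, smul_eq_mul, LinearMap.zero_apply, pderiv_X, Pi.single_apply, pd_comm 8 7,
    pd_comm 8 6, pd_comm 8 5, pd_comm 8 4, pd_comm 8 3, pd_comm 8 2, pd_comm 8 1, pd_comm 8 0,
    pd_comm 7 6, pd_comm 7 5, pd_comm 7 4, pd_comm 7 3, pd_comm 7 2, pd_comm 7 1, pd_comm 7 0,
    pd_comm 6 5, pd_comm 6 4, pd_comm 6 3, pd_comm 6 2, pd_comm 6 1, pd_comm 6 0, pd_comm 5 4,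
    pd_comm 5 3, pd_comm 5 2, pd_comm 5 1, pd_comm 5 0, pd_comm 4 3, pd_comm 4 2, pd_comm 4 1,
    pd_comm 4 0, pd_comm 3 2, pd_comm 3 1, pd_comm 3 0, pd_comm 2 1, pd_comm 2 0, pd_comm 1 0]
  try simp [pd_ap]
  try ring
theorem ff13 : Fo 1 * Fo 3 = Fo 3 * Fo 1 := by
  refine LinearMap.ext fun p => ?_
  simp only [Eo, Fo, Ho, Hp, pd_two, mul_zero, add_zero, zero_add, LinearMap.sub_apply,
    LinearMap.add_apply, LinearMap.neg_apply, Module.End.mul_apply, mu_ap, pd_ap, Derivation.leibniz,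
    map_add, map_sub, smul_eq_mul, LinearMap.zero_apply, pderiv_X, Pi.single_apply, pd_comm 8 7,
    pd_comm 8 6, pd_comm 8 5, pd_comm 8 4, pd_comm 8 3, pd_comm 8 2, pd_comm 8 1, pd_comm 8 0,
    pd_comm 7 6, pd_comm 7 5, pd_comm 7 4, pd_comm 7 3, pd_comm 7 2, pd_comm 7 1, pd_comm 7 0,
    pd_comm 6 5, pd_comm 6 4, pd_comm 6 3, pd_comm 6 2, pd_comm 6 1, pd_comm 6 0, pd_comm 5 4,
    pd_comm 5 3, pd_comm 5 2, pd_comm 5 1, pd_comm 5 0, pd_comm 4 3, pd_comm 4 2, pd_comm 4 1,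
    pd_comm 4 0, pd_comm 3 2, pd_comm 3 1, pd_comm 3 0, pd_comm 2 1, pd_comm 2 0, pd_comm 1 0]
  try simp [pd_ap]
  try ring
theorem he13 : Ho 1 * Eo 3 = Eo 3 * Ho 1 := by
  refine LinearMap.ext fun p => ?_
  simp only [Eo, Fo, Ho, Hp, pd_two, mul_zero, add_zero, zero_add, LinearMap.sub_apply,
    LinearMap.add_apply, LinearMap.neg_apply, Module.End.mul_apply, mu_ap, pd_ap, Derivation.leibniz,
    map_add, map_sub, smul_eq_mul, LinearMap.zero_apply, pderiv_X, Pi.single_apply, pd_comm 8 7,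
    pd_comm 8 6, pd_comm 8 5, pd_comm 8 4, pd_comm 8 3, pd_comm 8 2, pd_comm 8 1, pd_comm 8 0,
    pd_comm 7 6, pd_comm 7 5, pd_comm 7 4, pd_comm 7 3, pd_comm 7 2, pd_comm 7 1, pd_comm 7 0,
    pd_comm 6 5, pd_comm 6 4, pd_comm 6 3, pd_comm 6 2, pd_comm 6 1, pd_comm 6 0, pd_comm 5 4,
    pd_comm 5 3, pd_comm 5 2, pd_comm 5 1, pd_comm 5 0, pd_comm 4 3, pd_comm 4 2, pd_comm 4 1,
    pd_comm 4 0, pd_comm 3 2, pd_comm 3 1, pd_comm 3 0, pd_comm 2 1, pd_comm 2 0, pd_comm 1 0]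
  try simp [pd_ap]
  try ring
theorem hf13 : Ho 1 * Fo 3 = Fo 3 * Ho 1 := by
  refine LinearMap.ext fun p => ?_
  simp only [Eo, Fo, Ho, Hp, pd_two, mul_zero, add_zero, zero_add, LinearMap.sub_apply,
    LinearMap.add_apply, LinearMap.neg_apply, Module.End.mul_apply, mu_ap, pd_ap, Derivation.leibniz,
    map_add, map_sub, smul_eq_mul, LinearMap.zero_apply, pderiv_X, Pi.single_apply, pd_comm 8 7,
    pd_comm 8 6, pd_comm 8 5, pd_comm 8 4, pd_comm 8 3, pd_comm 8 2, pd_comm 8 1, pd_comm 8 0,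
    pd_comm 7 6, pd_comm 7 5, pd_comm 7 4, pd_comm 7 3, pd_comm 7 2, pd_comm 7 1, pd_comm 7 0,
    pd_comm 6 5, pd_comm 6 4, pd_comm 6 3, pd_comm 6 2, pd_comm 6 1, pd_comm 6 0, pd_comm 5 4,
    pd_comm 5 3, pd_comm 5 2, pd_comm 5 1, pd_comm 5 0, pd_comm 4 3, pd_comm 4 2, pd_comm 4 1,
    pd_comm 4 0, pd_comm 3 2, pd_comm 3 1, pd_comm 3 0, pd_comm 2 1, pd_comm 2 0, pd_comm 1 0]
  try simp [pd_ap]
  try ring
theorem ef13 : Eo 1 * Fo 3 = Fo 3 * Eo 1 := by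
  refine LinearMap.ext fun p => ?_
  simp only [Eo, Fo, Ho, Hp, pd_two, mul_zero, add_zero, zero_add, LinearMap.sub_apply,
    LinearMap.add_apply, LinearMap.neg_apply, Module.End.mul_apply, mu_ap, pd_ap, Derivation.leibniz,
    map_add, map_sub, smul_eq_mul, LinearMap.zero_apply, pderiv_X, Pi.single_apply, pd_comm 8 7,
    pd_comm 8 6, pd_comm 8 5, pd_comm 8 4, pd_comm 8 3, pd_comm 8 2, pd_comm 8 1, pd_comm 8 0,
    pd_comm 7 6, pd_comm 7 5, pd_comm 7 4, pd_comm 7 3, pd_comm 7 2, pd_comm 7 1, pd_comm 7 0,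
    pd_comm 6 5, pd_comm 6 4, pd_comm 6 3, pd_comm 6 2, pd_comm 6 1, pd_comm 6 0, pd_comm 5 4,
    pd_comm 5 3, pd_comm 5 2, pd_comm 5 1, pd_comm 5 0, pd_comm 4 3, pd_comm 4 2, pd_comm 4 1,
    pd_comm 4 0, pd_comm 3 2, pd_comm 3 1, pd_comm 3 0, pd_comm 2 1, pd_comm 2 0, pd_comm 1 0]
  try simp [pd_ap]
  try ring
theorem he20 : Ho 2 * Eo 0 = Eo 0 * Ho 2 + mu 2 * Eo 2 := by
  refine LinearMap.ext fun p => ?_
  simp only [Eo, Fo, Ho, Hp, pd_two, mul_zero, add_zero, zero_add, LinearMap.sub_apply,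
    LinearMap.add_apply, LinearMap.neg_apply, Module.End.mul_apply, mu_ap, pd_ap, Derivation.leibniz,
    map_add, map_sub, smul_eq_mul, LinearMap.zero_apply, pderiv_X, Pi.single_apply, pd_comm 8 7,
    pd_comm 8 6, pd_comm 8 5, pd_comm 8 4, pd_comm 8 3, pd_comm 8 2, pd_comm 8 1, pd_comm 8 0,
    pd_comm 7 6, pd_comm 7 5, pd_comm 7 4, pd_comm 7 3, pd_comm 7 2, pd_comm 7 1, pd_comm 7 0,
    pd_comm 6 5, pd_comm 6 4, pd_comm 6 3, pd_comm 6 2, pd_comm 6 1, pd_comm 6 0, pd_comm 5 4,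
    pd_comm 5 3, pd_comm 5 2, pd_comm 5 1, pd_comm 5 0, pd_comm 4 3, pd_comm 4 2, pd_comm 4 1,
    pd_comm 4 0, pd_comm 3 2, pd_comm 3 1, pd_comm 3 0, pd_comm 2 1, pd_comm 2 0, pd_comm 1 0]
  try simp [pd_ap]
  try ring
theorem hf20 : Ho 2 * Fo 0 = Fo 0 * Ho 2 - mu 2 * Fo 2 := by
  refine LinearMap.ext fun p => ?_
  simp only [Eo, Fo, Ho, Hp, pd_two, mul_zero, add_zero, zero_add, LinearMap.sub_apply,
    LinearMap.add_apply, LinearMap.neg_apply, Module.End.mul_apply, mu_ap, pd_ap, Derivation.leibniz,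
    map_add, map_sub, smul_eq_mul, LinearMap.zero_apply, pderiv_X, Pi.single_apply, pd_comm 8 7,
    pd_comm 8 6, pd_comm 8 5, pd_comm 8 4, pd_comm 8 3, pd_comm 8 2, pd_comm 8 1, pd_comm 8 0,
    pd_comm 7 6, pd_comm 7 5, pd_comm 7 4, pd_comm 7 3, pd_comm 7 2, pd_comm 7 1, pd_comm 7 0,
    pd_comm 6 5, pd_comm 6 4, pd_comm 6 3, pd_comm 6 2, pd_comm 6 1, pd_comm 6 0, pd_comm 5 4,
    pd_comm 5 3, pd_comm 5 2, pd_comm 5 1, pd_comm 5 0, pd_comm 4 3, pd_comm 4 2, pd_comm 4 1,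
    pd_comm 4 0, pd_comm 3 2, pd_comm 3 1, pd_comm 3 0, pd_comm 2 1, pd_comm 2 0, pd_comm 1 0]
  try simp [pd_ap]
  try ring
theorem ef20 : Eo 2 * Fo 0 = Fo 0 * Eo 2 + Ho 2 := by
  refine LinearMap.ext fun p => ?_
  simp only [Eo, Fo, Ho, Hp, pd_two, mul_zero, add_zero, zero_add, LinearMap.sub_apply,
    LinearMap.add_apply, LinearMap.neg_apply, Module.End.mul_apply, mu_ap, pd_ap, Derivation.leibniz,
    map_add, map_sub, smul_eq_mul, LinearMap.zero_apply, pderiv_X, Pi.single_apply, pd_comm 8 7,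
    pd_comm 8 6, pd_comm 8 5, pd_comm 8 4, pd_comm 8 3, pd_comm 8 2, pd_comm 8 1, pd_comm 8 0,
    pd_comm 7 6, pd_comm 7 5, pd_comm 7 4, pd_comm 7 3, pd_comm 7 2, pd_comm 7 1, pd_comm 7 0,
    pd_comm 6 5, pd_comm 6 4, pd_comm 6 3, pd_comm 6 2, pd_comm 6 1, pd_comm 6 0, pd_comm 5 4,
    pd_comm 5 3, pd_comm 5 2, pd_comm 5 1, pd_comm 5 0, pd_comm 4 3, pd_comm 4 2, pd_comm 4 1,
    pd_comm 4 0, pd_comm 3 2, pd_comm 3 1, pd_comm 3 0, pd_comm 2 1, pd_comm 2 0, pd_comm 1 0]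
  try simp [pd_ap]
  try ring
theorem he21 : Ho 2 * Eo 1 = Eo 1 * Ho 2 + mu 2 * Eo 3 := by
  refine LinearMap.ext fun p => ?_
  simp only [Eo, Fo, Ho, Hp, pd_two, mul_zero, add_zero, zero_add, LinearMap.sub_apply,
    LinearMap.add_apply, LinearMap.neg_apply, Module.End.mul_apply, mu_ap, pd_ap, Derivation.leibniz,
    map_add, map_sub, smul_eq_mul, LinearMap.zero_apply, pderiv_X, Pi.single_apply, pd_comm 8 7,
    pd_comm 8 6, pd_comm 8 5, pd_comm 8 4, pd_comm 8 3, pd_comm 8 2, pd_comm 8 1, pd_comm 8 0,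
    pd_comm 7 6, pd_comm 7 5, pd_comm 7 4, pd_comm 7 3, pd_comm 7 2, pd_comm 7 1, pd_comm 7 0,
    pd_comm 6 5, pd_comm 6 4, pd_comm 6 3, pd_comm 6 2, pd_comm 6 1, pd_comm 6 0, pd_comm 5 4,
    pd_comm 5 3, pd_comm 5 2, pd_comm 5 1, pd_comm 5 0, pd_comm 4 3, pd_comm 4 2, pd_comm 4 1,
    pd_comm 4 0, pd_comm 3 2, pd_comm 3 1, pd_comm 3 0, pd_comm 2 1, pd_comm 2 0, pd_comm 1 0]
  try simp [pd_ap]
  try ring
theorem hf21 : Ho 2 * Fo 1 = Fo 1 * Ho 2 - mu 2 * Fo 3 := by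
  refine LinearMap.ext fun p => ?_
  simp only [Eo, Fo, Ho, Hp, pd_two, mul_zero, add_zero, zero_add, LinearMap.sub_apply,
    LinearMap.add_apply, LinearMap.neg_apply, Module.End.mul_apply, mu_ap, pd_ap, Derivation.leibniz,
    map_add, map_sub, smul_eq_mul, LinearMap.zero_apply, pderiv_X, Pi.single_apply, pd_comm 8 7,
    pd_comm 8 6, pd_comm 8 5, pd_comm 8 4, pd_comm 8 3, pd_comm 8 2, pd_comm 8 1, pd_comm 8 0,
    pd_comm 7 6, pd_comm 7 5, pd_comm 7 4, pd_comm 7 3, pd_comm 7 2, pd_comm 7 1, pd_comm 7 0,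
    pd_comm 6 5, pd_comm 6 4, pd_comm 6 3, pd_comm 6 2, pd_comm 6 1, pd_comm 6 0, pd_comm 5 4,
    pd_comm 5 3, pd_comm 5 2, pd_comm 5 1, pd_comm 5 0, pd_comm 4 3, pd_comm 4 2, pd_comm 4 1,
    pd_comm 4 0, pd_comm 3 2, pd_comm 3 1, pd_comm 3 0, pd_comm 2 1, pd_comm 2 0, pd_comm 1 0]
  try simp [pd_ap]
  try ring
theorem ef21 : Eo 2 * Fo 1 = Fo 1 * Eo 2 + Ho 3 := by
  refine LinearMap.ext fun p => ?_
  simp only [Eo, Fo, Ho, Hp, pd_two, mul_zero, add_zero, zero_add, LinearMap.sub_apply,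
    LinearMap.add_apply, LinearMap.neg_apply, Module.End.mul_apply, mu_ap, pd_ap, Derivation.leibniz,
    map_add, map_sub, smul_eq_mul, LinearMap.zero_apply, pderiv_X, Pi.single_apply, pd_comm 8 7,
    pd_comm 8 6, pd_comm 8 5, pd_comm 8 4, pd_comm 8 3, pd_comm 8 2, pd_comm 8 1, pd_comm 8 0,
    pd_comm 7 6, pd_comm 7 5, pd_comm 7 4, pd_comm 7 3, pd_comm 7 2, pd_comm 7 1, pd_comm 7 0,
    pd_comm 6 5, pd_comm 6 4, pd_comm 6 3, pd_comm 6 2, pd_comm 6 1, pd_comm 6 0, pd_comm 5 4,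
    pd_comm 5 3, pd_comm 5 2, pd_comm 5 1, pd_comm 5 0, pd_comm 4 3, pd_comm 4 2, pd_comm 4 1,
    pd_comm 4 0, pd_comm 3 2, pd_comm 3 1, pd_comm 3 0, pd_comm 2 1, pd_comm 2 0, pd_comm 1 0]
  try simp [pd_ap]
  try ring
theorem he22 : Ho 2 * Eo 2 = Eo 2 * Ho 2 := by
  refine LinearMap.ext fun p => ?_
  simp only [Eo, Fo, Ho, Hp, pd_two, mul_zero, add_zero, zero_add, LinearMap.sub_apply,
    LinearMap.add_apply, LinearMap.neg_apply, Module.End.mul_apply, mu_ap, pd_ap, Derivation.leibniz,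
    map_add, map_sub, smul_eq_mul, LinearMap.zero_apply, pderiv_X, Pi.single_apply, pd_comm 8 7,
    pd_comm 8 6, pd_comm 8 5, pd_comm 8 4, pd_comm 8 3, pd_comm 8 2, pd_comm 8 1, pd_comm 8 0,
    pd_comm 7 6, pd_comm 7 5, pd_comm 7 4, pd_comm 7 3, pd_comm 7 2, pd_comm 7 1, pd_comm 7 0,
    pd_comm 6 5, pd_comm 6 4, pd_comm 6 3, pd_comm 6 2, pd_comm 6 1, pd_comm 6 0, pd_comm 5 4,
    pd_comm 5 3, pd_comm 5 2, pd_comm 5 1, pd_comm 5 0, pd_comm 4 3, pd_comm 4 2, pd_comm 4 1,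
    pd_comm 4 0, pd_comm 3 2, pd_comm 3 1, pd_comm 3 0, pd_comm 2 1, pd_comm 2 0, pd_comm 1 0]
  try simp [pd_ap]
  try ring
theorem hf22 : Ho 2 * Fo 2 = Fo 2 * Ho 2 := by
  refine LinearMap.ext fun p => ?_
  simp only [Eo, Fo, Ho, Hp, pd_two, mul_zero, add_zero, zero_add, LinearMap.sub_apply,
    LinearMap.add_apply, LinearMap.neg_apply, Module.End.mul_apply, mu_ap, pd_ap, Derivation.leibniz,
    map_add, map_sub, smul_eq_mul, LinearMap.zero_apply, pderiv_X, Pi.single_apply, pd_comm 8 7,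
    pd_comm 8 6, pd_comm 8 5, pd_comm 8 4, pd_comm 8 3, pd_comm 8 2, pd_comm 8 1, pd_comm 8 0,
    pd_comm 7 6, pd_comm 7 5, pd_comm 7 4, pd_comm 7 3, pd_comm 7 2, pd_comm 7 1, pd_comm 7 0,
    pd_comm 6 5, pd_comm 6 4, pd_comm 6 3, pd_comm 6 2, pd_comm 6 1, pd_comm 6 0, pd_comm 5 4,
    pd_comm 5 3, pd_comm 5 2, pd_comm 5 1, pd_comm 5 0, pd_comm 4 3, pd_comm 4 2, pd_comm 4 1,
    pd_comm 4 0, pd_comm 3 2, pd_comm 3 1, pd_comm 3 0, pd_comm 2 1, pd_comm 2 0, pd_comm 1 0]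
  try simp [pd_ap]
  try ring
theorem ef22 : Eo 2 * Fo 2 = Fo 2 * Eo 2 := by
  refine LinearMap.ext fun p => ?_
  simp only [Eo, Fo, Ho, Hp, pd_two, mul_zero, add_zero, zero_add, LinearMap.sub_apply,
    LinearMap.add_apply, LinearMap.neg_apply, Module.End.mul_apply, mu_ap, pd_ap, Derivation.leibniz,
    map_add, map_sub, smul_eq_mul, LinearMap.zero_apply, pderiv_X, Pi.single_apply, pd_comm 8 7,
    pd_comm 8 6, pd_comm 8 5, pd_comm 8 4, pd_comm 8 3, pd_comm 8 2, pd_comm 8 1, pd_comm 8 0,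
    pd_comm 7 6, pd_comm 7 5, pd_comm 7 4, pd_comm 7 3, pd_comm 7 2, pd_comm 7 1, pd_comm 7 0,
    pd_comm 6 5, pd_comm 6 4, pd_comm 6 3, pd_comm 6 2, pd_comm 6 1, pd_comm 6 0, pd_comm 5 4,
    pd_comm 5 3, pd_comm 5 2, pd_comm 5 1, pd_comm 5 0, pd_comm 4 3, pd_comm 4 2, pd_comm 4 1,
    pd_comm 4 0, pd_comm 3 2, pd_comm 3 1, pd_comm 3 0, pd_comm 2 1, pd_comm 2 0, pd_comm 1 0]
  try simp [pd_ap]
  try ring
theorem ee23 : Eo 2 * Eo 3 = Eo 3 * Eo 2 := by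
  refine LinearMap.ext fun p => ?_
  simp only [Eo, Fo, Ho, Hp, pd_two, mul_zero, add_zero, zero_add, LinearMap.sub_apply,
    LinearMap.add_apply, LinearMap.neg_apply, Module.End.mul_apply, mu_ap, pd_ap, Derivation.leibniz,
    map_add, map_sub, smul_eq_mul, LinearMap.zero_apply, pderiv_X, Pi.single_apply, pd_comm 8 7,
    pd_comm 8 6, pd_comm 8 5, pd_comm 8 4, pd_comm 8 3, pd_comm 8 2, pd_comm 8 1, pd_comm 8 0,
    pd_comm 7 6, pd_comm 7 5, pd_comm 7 4, pd_comm 7 3, pd_comm 7 2, pd_comm 7 1, pd_comm 7 0,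
    pd_comm 6 5, pd_comm 6 4, pd_comm 6 3, pd_comm 6 2, pd_comm 6 1, pd_comm 6 0, pd_comm 5 4,
    pd_comm 5 3, pd_comm 5 2, pd_comm 5 1, pd_comm 5 0, pd_comm 4 3, pd_comm 4 2, pd_comm 4 1,
    pd_comm 4 0, pd_comm 3 2, pd_comm 3 1, pd_comm 3 0, pd_comm 2 1, pd_comm 2 0, pd_comm 1 0]
  try simp [pd_ap]
  try ring
theorem hh23 : Ho 2 * Ho 3 = Ho 3 * Ho 2 := by
  refine LinearMap.ext fun p => ?_
  simp only [Eo, Fo, Ho, Hp, pd_two, mul_zero, add_zero, zero_add, LinearMap.sub_apply,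
    LinearMap.add_apply, LinearMap.neg_apply, Module.End.mul_apply, mu_ap, pd_ap, Derivation.leibniz,
    map_add, map_sub, smul_eq_mul, LinearMap.zero_apply, pderiv_X, Pi.single_apply, pd_comm 8 7,
    pd_comm 8 6, pd_comm 8 5, pd_comm 8 4, pd_comm 8 3, pd_comm 8 2, pd_comm 8 1, pd_comm 8 0,
    pd_comm 7 6, pd_comm 7 5, pd_comm 7 4, pd_comm 7 3, pd_comm 7 2, pd_comm 7 1, pd_comm 7 0,
    pd_comm 6 5, pd_comm 6 4, pd_comm 6 3, pd_comm 6 2, pd_comm 6 1, pd_comm 6 0, pd_comm 5 4,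
    pd_comm 5 3, pd_comm 5 2, pd_comm 5 1, pd_comm 5 0, pd_comm 4 3, pd_comm 4 2, pd_comm 4 1,
    pd_comm 4 0, pd_comm 3 2, pd_comm 3 1, pd_comm 3 0, pd_comm 2 1, pd_comm 2 0, pd_comm 1 0]
  try simp [pd_ap]
  try ring
theorem ff23 : Fo 2 * Fo 3 = Fo 3 * Fo 2 := by
  refine LinearMap.ext fun p => ?_
  simp only [Eo, Fo, Ho, Hp, pd_two, mul_zero, add_zero, zero_add, LinearMap.sub_apply,
    LinearMap.add_apply, LinearMap.neg_apply, Module.End.mul_apply, mu_ap, pd_ap, Derivation.leibniz,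
    map_add, map_sub, smul_eq_mul, LinearMap.zero_apply, pderiv_X, Pi.single_apply, pd_comm 8 7,
    pd_comm 8 6, pd_comm 8 5, pd_comm 8 4, pd_comm 8 3, pd_comm 8 2, pd_comm 8 1, pd_comm 8 0,
    pd_comm 7 6, pd_comm 7 5, pd_comm 7 4, pd_comm 7 3, pd_comm 7 2, pd_comm 7 1, pd_comm 7 0,
    pd_comm 6 5, pd_comm 6 4, pd_comm 6 3, pd_comm 6 2, pd_comm 6 1, pd_comm 6 0, pd_comm 5 4,
    pd_comm 5 3, pd_comm 5 2, pd_comm 5 1, pd_comm 5 0, pd_comm 4 3, pd_comm 4 2, pd_comm 4 1,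
    pd_comm 4 0, pd_comm 3 2, pd_comm 3 1, pd_comm 3 0, pd_comm 2 1, pd_comm 2 0, pd_comm 1 0]
  try simp [pd_ap]
  try ring
theorem he23 : Ho 2 * Eo 3 = Eo 3 * Ho 2 := by
  refine LinearMap.ext fun p => ?_
  simp only [Eo, Fo, Ho, Hp, pd_two, mul_zero, add_zero, zero_add, LinearMap.sub_apply,
    LinearMap.add_apply, LinearMap.neg_apply, Module.End.mul_apply, mu_ap, pd_ap, Derivation.leibniz,
    map_add, map_sub, smul_eq_mul, LinearMap.zero_apply, pderiv_X, Pi.single_apply, pd_comm 8 7,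
    pd_comm 8 6, pd_comm 8 5, pd_comm 8 4, pd_comm 8 3, pd_comm 8 2, pd_comm 8 1, pd_comm 8 0,
    pd_comm 7 6, pd_comm 7 5, pd_comm 7 4, pd_comm 7 3, pd_comm 7 2, pd_comm 7 1, pd_comm 7 0,
    pd_comm 6 5, pd_comm 6 4, pd_comm 6 3, pd_comm 6 2, pd_comm 6 1, pd_comm 6 0, pd_comm 5 4,
    pd_comm 5 3, pd_comm 5 2, pd_comm 5 1, pd_comm 5 0, pd_comm 4 3, pd_comm 4 2, pd_comm 4 1,
    pd_comm 4 0, pd_comm 3 2, pd_comm 3 1, pd_comm 3 0, pd_comm 2 1, pd_comm 2 0, pd_comm 1 0]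
  try simp [pd_ap]
  try ring
theorem hf23 : Ho 2 * Fo 3 = Fo 3 * Ho 2 := by
  refine LinearMap.ext fun p => ?_
  simp only [Eo, Fo, Ho, Hp, pd_two, mul_zero, add_zero, zero_add, LinearMap.sub_apply,
    LinearMap.add_apply, LinearMap.neg_apply, Module.End.mul_apply, mu_ap, pd_ap, Derivation.leibniz,
    map_add, map_sub, smul_eq_mul, LinearMap.zero_apply, pderiv_X, Pi.single_apply, pd_comm 8 7,
    pd_comm 8 6, pd_comm 8 5, pd_comm 8 4, pd_comm 8 3, pd_comm 8 2, pd_comm 8 1, pd_comm 8 0,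
    pd_comm 7 6, pd_comm 7 5, pd_comm 7 4, pd_comm 7 3, pd_comm 7 2, pd_comm 7 1, pd_comm 7 0,
    pd_comm 6 5, pd_comm 6 4, pd_comm 6 3, pd_comm 6 2, pd_comm 6 1, pd_comm 6 0, pd_comm 5 4,
    pd_comm 5 3, pd_comm 5 2, pd_comm 5 1, pd_comm 5 0, pd_comm 4 3, pd_comm 4 2, pd_comm 4 1,
    pd_comm 4 0, pd_comm 3 2, pd_comm 3 1, pd_comm 3 0, pd_comm 2 1, pd_comm 2 0, pd_comm 1 0]
  try simp [pd_ap]
  try ring
theorem ef23 : Eo 2 * Fo 3 = Fo 3 * Eo 2 := by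
  refine LinearMap.ext fun p => ?_
  simp only [Eo, Fo, Ho, Hp, pd_two, mul_zero, add_zero, zero_add, LinearMap.sub_apply,
    LinearMap.add_apply, LinearMap.neg_apply, Module.End.mul_apply, mu_ap, pd_ap, Derivation.leibniz,
    map_add, map_sub, smul_eq_mul, LinearMap.zero_apply, pderiv_X, Pi.single_apply, pd_comm 8 7,
    pd_comm 8 6, pd_comm 8 5, pd_comm 8 4, pd_comm 8 3, pd_comm 8 2, pd_comm 8 1, pd_comm 8 0,
    pd_comm 7 6, pd_comm 7 5, pd_comm 7 4, pd_comm 7 3, pd_comm 7 2, pd_comm 7 1, pd_comm 7 0,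
    pd_comm 6 5, pd_comm 6 4, pd_comm 6 3, pd_comm 6 2, pd_comm 6 1, pd_comm 6 0, pd_comm 5 4,
    pd_comm 5 3, pd_comm 5 2, pd_comm 5 1, pd_comm 5 0, pd_comm 4 3, pd_comm 4 2, pd_comm 4 1,
    pd_comm 4 0, pd_comm 3 2, pd_comm 3 1, pd_comm 3 0, pd_comm 2 1, pd_comm 2 0, pd_comm 1 0]
  try simp [pd_ap]
  try ring
theorem he30 : Ho 3 * Eo 0 = Eo 0 * Ho 3 + mu 2 * Eo 3 := by
  refine LinearMap.ext fun p => ?_
  simp only [Eo, Fo, Ho, Hp, pd_two, mul_zero, add_zero, zero_add, LinearMap.sub_apply,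
    LinearMap.add_apply, LinearMap.neg_apply, Module.End.mul_apply, mu_ap, pd_ap, Derivation.leibniz,
    map_add, map_sub, smul_eq_mul, LinearMap.zero_apply, pderiv_X, Pi.single_apply, pd_comm 8 7,
    pd_comm 8 6, pd_comm 8 5, pd_comm 8 4, pd_comm 8 3, pd_comm 8 2, pd_comm 8 1, pd_comm 8 0,
    pd_comm 7 6, pd_comm 7 5, pd_comm 7 4, pd_comm 7 3, pd_comm 7 2, pd_comm 7 1, pd_comm 7 0,
    pd_comm 6 5, pd_comm 6 4, pd_comm 6 3, pd_comm 6 2, pd_comm 6 1, pd_comm 6 0, pd_comm 5 4,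
    pd_comm 5 3, pd_comm 5 2, pd_comm 5 1, pd_comm 5 0, pd_comm 4 3, pd_comm 4 2, pd_comm 4 1,
    pd_comm 4 0, pd_comm 3 2, pd_comm 3 1, pd_comm 3 0, pd_comm 2 1, pd_comm 2 0, pd_comm 1 0]
  try simp [pd_ap]
  try ring
theorem hf30 : Ho 3 * Fo 0 = Fo 0 * Ho 3 - mu 2 * Fo 3 := by
  refine LinearMap.ext fun p => ?_
  simp only [Eo, Fo, Ho, Hp, pd_two, mul_zero, add_zero, zero_add, LinearMap.sub_apply,
    LinearMap.add_apply, LinearMap.neg_apply, Module.End.mul_apply, mu_ap, pd_ap, Derivation.leibniz,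
    map_add, map_sub, smul_eq_mul, LinearMap.zero_apply, pderiv_X, Pi.single_apply, pd_comm 8 7,
    pd_comm 8 6, pd_comm 8 5, pd_comm 8 4, pd_comm 8 3, pd_comm 8 2, pd_comm 8 1, pd_comm 8 0,
    pd_comm 7 6, pd_comm 7 5, pd_comm 7 4, pd_comm 7 3, pd_comm 7 2, pd_comm 7 1, pd_comm 7 0,
    pd_comm 6 5, pd_comm 6 4, pd_comm 6 3, pd_comm 6 2, pd_comm 6 1, pd_comm 6 0, pd_comm 5 4,
    pd_comm 5 3, pd_comm 5 2, pd_comm 5 1, pd_comm 5 0, pd_comm 4 3, pd_comm 4 2, pd_comm 4 1,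
    pd_comm 4 0, pd_comm 3 2, pd_comm 3 1, pd_comm 3 0, pd_comm 2 1, pd_comm 2 0, pd_comm 1 0]
  try simp [pd_ap]
  try ring
theorem ef30 : Eo 3 * Fo 0 = Fo 0 * Eo 3 + Ho 3 := by
  refine LinearMap.ext fun p => ?_
  simp only [Eo, Fo, Ho, Hp, pd_two, mul_zero, add_zero, zero_add, LinearMap.sub_apply,
    LinearMap.add_apply, LinearMap.neg_apply, Module.End.mul_apply, mu_ap, pd_ap, Derivation.leibniz,
    map_add, map_sub, smul_eq_mul, LinearMap.zero_apply, pderiv_X, Pi.single_apply, pd_comm 8 7,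
    pd_comm 8 6, pd_comm 8 5, pd_comm 8 4, pd_comm 8 3, pd_comm 8 2, pd_comm 8 1, pd_comm 8 0,
    pd_comm 7 6, pd_comm 7 5, pd_comm 7 4, pd_comm 7 3, pd_comm 7 2, pd_comm 7 1, pd_comm 7 0,
    pd_comm 6 5, pd_comm 6 4, pd_comm 6 3, pd_comm 6 2, pd_comm 6 1, pd_comm 6 0, pd_comm 5 4,
    pd_comm 5 3, pd_comm 5 2, pd_comm 5 1, pd_comm 5 0, pd_comm 4 3, pd_comm 4 2, pd_comm 4 1,
    pd_comm 4 0, pd_comm 3 2, pd_comm 3 1, pd_comm 3 0, pd_comm 2 1, pd_comm 2 0, pd_comm 1 0]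
  try simp [pd_ap]
  try ring
theorem he31 : Ho 3 * Eo 1 = Eo 1 * Ho 3 := by
  refine LinearMap.ext fun p => ?_
  simp only [Eo, Fo, Ho, Hp, pd_two, mul_zero, add_zero, zero_add, LinearMap.sub_apply,
    LinearMap.add_apply, LinearMap.neg_apply, Module.End.mul_apply, mu_ap, pd_ap, Derivation.leibniz,
    map_add, map_sub, smul_eq_mul, LinearMap.zero_apply, pderiv_X, Pi.single_apply, pd_comm 8 7,
    pd_comm 8 6, pd_comm 8 5, pd_comm 8 4, pd_comm 8 3, pd_comm 8 2, pd_comm 8 1, pd_comm 8 0,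
    pd_comm 7 6, pd_comm 7 5, pd_comm 7 4, pd_comm 7 3, pd_comm 7 2, pd_comm 7 1, pd_comm 7 0,
    pd_comm 6 5, pd_comm 6 4, pd_comm 6 3, pd_comm 6 2, pd_comm 6 1, pd_comm 6 0, pd_comm 5 4,
    pd_comm 5 3, pd_comm 5 2, pd_comm 5 1, pd_comm 5 0, pd_comm 4 3, pd_comm 4 2, pd_comm 4 1,
    pd_comm 4 0, pd_comm 3 2, pd_comm 3 1, pd_comm 3 0, pd_comm 2 1, pd_comm 2 0, pd_comm 1 0]
  try simp [pd_ap]
  try ring
theorem hf31 : Ho 3 * Fo 1 = Fo 1 * Ho 3 := by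
  refine LinearMap.ext fun p => ?_
  simp only [Eo, Fo, Ho, Hp, pd_two, mul_zero, add_zero, zero_add, LinearMap.sub_apply,
    LinearMap.add_apply, LinearMap.neg_apply, Module.End.mul_apply, mu_ap, pd_ap, Derivation.leibniz,
    map_add, map_sub, smul_eq_mul, LinearMap.zero_apply, pderiv_X, Pi.single_apply, pd_comm 8 7,
    pd_comm 8 6, pd_comm 8 5, pd_comm 8 4, pd_comm 8 3, pd_comm 8 2, pd_comm 8 1, pd_comm 8 0,
    pd_comm 7 6, pd_comm 7 5, pd_comm 7 4, pd_comm 7 3, pd_comm 7 2, pd_comm 7 1, pd_comm 7 0,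
    pd_comm 6 5, pd_comm 6 4, pd_comm 6 3, pd_comm 6 2, pd_comm 6 1, pd_comm 6 0, pd_comm 5 4,
    pd_comm 5 3, pd_comm 5 2, pd_comm 5 1, pd_comm 5 0, pd_comm 4 3, pd_comm 4 2, pd_comm 4 1,
    pd_comm 4 0, pd_comm 3 2, pd_comm 3 1, pd_comm 3 0, pd_comm 2 1, pd_comm 2 0, pd_comm 1 0]
  try simp [pd_ap]
  try ring
theorem ef31 : Eo 3 * Fo 1 = Fo 1 * Eo 3 := by
  refine LinearMap.ext fun p => ?_
  simp only [Eo, Fo, Ho, Hp, pd_two, mul_zero, add_zero, zero_add, LinearMap.sub_apply,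
    LinearMap.add_apply, LinearMap.neg_apply, Module.End.mul_apply, mu_ap, pd_ap, Derivation.leibniz,
    map_add, map_sub, smul_eq_mul, LinearMap.zero_apply, pderiv_X, Pi.single_apply, pd_comm 8 7,
    pd_comm 8 6, pd_comm 8 5, pd_comm 8 4, pd_comm 8 3, pd_comm 8 2, pd_comm 8 1, pd_comm 8 0,
    pd_comm 7 6, pd_comm 7 5, pd_comm 7 4, pd_comm 7 3, pd_comm 7 2, pd_comm 7 1, pd_comm 7 0,
    pd_comm 6 5, pd_comm 6 4, pd_comm 6 3, pd_comm 6 2, pd_comm 6 1, pd_comm 6 0, pd_comm 5 4,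
    pd_comm 5 3, pd_comm 5 2, pd_comm 5 1, pd_comm 5 0, pd_comm 4 3, pd_comm 4 2, pd_comm 4 1,
    pd_comm 4 0, pd_comm 3 2, pd_comm 3 1, pd_comm 3 0, pd_comm 2 1, pd_comm 2 0, pd_comm 1 0]
  try simp [pd_ap]
  try ring
theorem he32 : Ho 3 * Eo 2 = Eo 2 * Ho 3 := by
  refine LinearMap.ext fun p => ?_
  simp only [Eo, Fo, Ho, Hp, pd_two, mul_zero, add_zero, zero_add, LinearMap.sub_apply,
    LinearMap.add_apply, LinearMap.neg_apply, Module.End.mul_apply, mu_ap, pd_ap, Derivation.leibniz,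
    map_add, map_sub, smul_eq_mul, LinearMap.zero_apply, pderiv_X, Pi.single_apply, pd_comm 8 7,
    pd_comm 8 6, pd_comm 8 5, pd_comm 8 4, pd_comm 8 3, pd_comm 8 2, pd_comm 8 1, pd_comm 8 0,
    pd_comm 7 6, pd_comm 7 5, pd_comm 7 4, pd_comm 7 3, pd_comm 7 2, pd_comm 7 1, pd_comm 7 0,
    pd_comm 6 5, pd_comm 6 4, pd_comm 6 3, pd_comm 6 2, pd_comm 6 1, pd_comm 6 0, pd_comm 5 4,
    pd_comm 5 3, pd_comm 5 2, pd_comm 5 1, pd_comm 5 0, pd_comm 4 3, pd_comm 4 2, pd_comm 4 1,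
    pd_comm 4 0, pd_comm 3 2, pd_comm 3 1, pd_comm 3 0, pd_comm 2 1, pd_comm 2 0, pd_comm 1 0]
  try simp [pd_ap]
  try ring
theorem hf32 : Ho 3 * Fo 2 = Fo 2 * Ho 3 := by
  refine LinearMap.ext fun p => ?_
  simp only [Eo, Fo, Ho, Hp, pd_two, mul_zero, add_zero, zero_add, LinearMap.sub_apply,
    LinearMap.add_apply, LinearMap.neg_apply, Module.End.mul_apply, mu_ap, pd_ap, Derivation.leibniz,
    map_add, map_sub, smul_eq_mul, LinearMap.zero_apply, pderiv_X, Pi.single_apply, pd_comm 8 7,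
    pd_comm 8 6, pd_comm 8 5, pd_comm 8 4, pd_comm 8 3, pd_comm 8 2, pd_comm 8 1, pd_comm 8 0,
    pd_comm 7 6, pd_comm 7 5, pd_comm 7 4, pd_comm 7 3, pd_comm 7 2, pd_comm 7 1, pd_comm 7 0,
    pd_comm 6 5, pd_comm 6 4, pd_comm 6 3, pd_comm 6 2, pd_comm 6 1, pd_comm 6 0, pd_comm 5 4,
    pd_comm 5 3, pd_comm 5 2, pd_comm 5 1, pd_comm 5 0, pd_comm 4 3, pd_comm 4 2, pd_comm 4 1,
    pd_comm 4 0, pd_comm 3 2, pd_comm 3 1, pd_comm 3 0, pd_comm 2 1, pd_comm 2 0, pd_comm 1 0]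
  try simp [pd_ap]
  try ring
theorem ef32 : Eo 3 * Fo 2 = Fo 2 * Eo 3 := by
  refine LinearMap.ext fun p => ?_
  simp only [Eo, Fo, Ho, Hp, pd_two, mul_zero, add_zero, zero_add, LinearMap.sub_apply,
    LinearMap.add_apply, LinearMap.neg_apply, Module.End.mul_apply, mu_ap, pd_ap, Derivation.leibniz,
    map_add, map_sub, smul_eq_mul, LinearMap.zero_apply, pderiv_X, Pi.single_apply, pd_comm 8 7,
    pd_comm 8 6, pd_comm 8 5, pd_comm 8 4, pd_comm 8 3, pd_comm 8 2, pd_comm 8 1, pd_comm 8 0,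
    pd_comm 7 6, pd_comm 7 5, pd_comm 7 4, pd_comm 7 3, pd_comm 7 2, pd_comm 7 1, pd_comm 7 0,
    pd_comm 6 5, pd_comm 6 4, pd_comm 6 3, pd_comm 6 2, pd_comm 6 1, pd_comm 6 0, pd_comm 5 4,
    pd_comm 5 3, pd_comm 5 2, pd_comm 5 1, pd_comm 5 0, pd_comm 4 3, pd_comm 4 2, pd_comm 4 1,
    pd_comm 4 0, pd_comm 3 2, pd_comm 3 1, pd_comm 3 0, pd_comm 2 1, pd_comm 2 0, pd_comm 1 0]
  try simp [pd_ap]
  try ring
theorem he33 : Ho 3 * Eo 3 = Eo 3 * Ho 3 := by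
  refine LinearMap.ext fun p => ?_
  simp only [Eo, Fo, Ho, Hp, pd_two, mul_zero, add_zero, zero_add, LinearMap.sub_apply,
    LinearMap.add_apply, LinearMap.neg_apply, Module.End.mul_apply, mu_ap, pd_ap, Derivation.leibniz,
    map_add, map_sub, smul_eq_mul, LinearMap.zero_apply, pderiv_X, Pi.single_apply, pd_comm 8 7,
    pd_comm 8 6, pd_comm 8 5, pd_comm 8 4, pd_comm 8 3, pd_comm 8 2, pd_comm 8 1, pd_comm 8 0,
    pd_comm 7 6, pd_comm 7 5, pd_comm 7 4, pd_comm 7 3, pd_comm 7 2, pd_comm 7 1, pd_comm 7 0,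
    pd_comm 6 5, pd_comm 6 4, pd_comm 6 3, pd_comm 6 2, pd_comm 6 1, pd_comm 6 0, pd_comm 5 4,
    pd_comm 5 3, pd_comm 5 2, pd_comm 5 1, pd_comm 5 0, pd_comm 4 3, pd_comm 4 2, pd_comm 4 1,
    pd_comm 4 0, pd_comm 3 2, pd_comm 3 1, pd_comm 3 0, pd_comm 2 1, pd_comm 2 0, pd_comm 1 0]
  try simp [pd_ap]
  try ring
theorem hf33 : Ho 3 * Fo 3 = Fo 3 * Ho 3 := by
  refine LinearMap.ext fun p => ?_
  simp only [Eo, Fo, Ho, Hp, pd_two, mul_zero, add_zero, zero_add, LinearMap.sub_apply,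
    LinearMap.add_apply, LinearMap.neg_apply, Module.End.mul_apply, mu_ap, pd_ap, Derivation.leibniz,
    map_add, map_sub, smul_eq_mul, LinearMap.zero_apply, pderiv_X, Pi.single_apply, pd_comm 8 7,
    pd_comm 8 6, pd_comm 8 5, pd_comm 8 4, pd_comm 8 3, pd_comm 8 2, pd_comm 8 1, pd_comm 8 0,
    pd_comm 7 6, pd_comm 7 5, pd_comm 7 4, pd_comm 7 3, pd_comm 7 2, pd_comm 7 1, pd_comm 7 0,
    pd_comm 6 5, pd_comm 6 4, pd_comm 6 3, pd_comm 6 2, pd_comm 6 1, pd_comm 6 0, pd_comm 5 4,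
    pd_comm 5 3, pd_comm 5 2, pd_comm 5 1, pd_comm 5 0, pd_comm 4 3, pd_comm 4 2, pd_comm 4 1,
    pd_comm 4 0, pd_comm 3 2, pd_comm 3 1, pd_comm 3 0, pd_comm 2 1, pd_comm 2 0, pd_comm 1 0]
  try simp [pd_ap]
  try ring
theorem ef33 : Eo 3 * Fo 3 = Fo 3 * Eo 3 := by
  refine LinearMap.ext fun p => ?_
  simp only [Eo, Fo, Ho, Hp, pd_two, mul_zero, add_zero, zero_add, LinearMap.sub_apply,
    LinearMap.add_apply, LinearMap.neg_apply, Module.End.mul_apply, mu_ap, pd_ap, Derivation.leibniz,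
    map_add, map_sub, smul_eq_mul, LinearMap.zero_apply, pderiv_X, Pi.single_apply, pd_comm 8 7,
    pd_comm 8 6, pd_comm 8 5, pd_comm 8 4, pd_comm 8 3, pd_comm 8 2, pd_comm 8 1, pd_comm 8 0,
    pd_comm 7 6, pd_comm 7 5, pd_comm 7 4, pd_comm 7 3, pd_comm 7 2, pd_comm 7 1, pd_comm 7 0,
    pd_comm 6 5, pd_comm 6 4, pd_comm 6 3, pd_comm 6 2, pd_comm 6 1, pd_comm 6 0, pd_comm 5 4,
    pd_comm 5 3, pd_comm 5 2, pd_comm 5 1, pd_comm 5 0, pd_comm 4 3, pd_comm 4 2, pd_comm 4 1,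
    pd_comm 4 0, pd_comm 3 2, pd_comm 3 1, pd_comm 3 0, pd_comm 2 1, pd_comm 2 0, pd_comm 1 0]
  try simp [pd_ap]
  try ring

end Pool.Agent.H69.DF
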