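import Pool.Agent.H69.DF.OpRel

/-! The operators Eo, Ho, Fo satisfy the relations `Rel`. -/

namespace Pool.Agent.H69.DF

open MvPolynomial

theorem mu_two_mul (A : Module.End ℝ R9) : mu 2 * A = (2 : ℝ) • A := by
  refine LinearMap.ext fun p => ?_
  rw [Module.End.mul_apply, mu_ap, LinearMap.smul_apply, smul_eq_C_mul, map_ofNat]

theorem Eo_ge (i : ℕ) (hi : 4 ≤ i) : Eo i = 0 := by
  obtain ⟨k, rfl⟩ := Nat.exists_eq_add_of_le hi
  rw [Nat.add_comm]; rfl

theorem Ho_ge (i : ℕ) (hi : 4 ≤ i) : Ho i = 0 := by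
  obtain ⟨k, rfl⟩ := Nat.exists_eq_add_of_le hi
  rw [Nat.add_comm]; rfl

theorem Fo_ge (i : ℕ) (hi : 4 ≤ i) : Fo i = 0 := by
  obtain ⟨k, rfl⟩ := Nat.exists_eq_add_of_le hi
  rw [Nat.add_comm]; rfl

theorem ee_all (i j : ℕ) : Eo i * Eo j = Eo j * Eo i := by
  by_cases hi : 4 ≤ i
  · rw [Eo_ge i hi]; simp
  by_cases hj : 4 ≤ j
  · rw [Eo_ge j hj]; simp
  push Not at hi hj
  interval_cases i <;> interval_cases j
  · rfl
  · exact ee01
  · exact ee02
  · exact ee03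
  · exact ee01.symm
  · rfl
  · exact ee12
  · exact ee13
  · exact ee02.symm
  · exact ee12.symm
  · rfl
  · exact ee23
  · exact ee03.symm
  · exact ee13.symm
  · exact ee23.symm
  · rfl

theorem hh_all (i j : ℕ) : Ho i * Ho j = Ho j * Ho i := by
  by_cases hi : 4 ≤ i
  · rw [Ho_ge i hi]; simp
  by_cases hj : 4 ≤ j
  · rw [Ho_ge j hj]; simp
  push Not at hi hj
  interval_cases i <;> interval_cases j
  · rfl
  · exact hh01
  · exact hh02
  · exact hh03
  · exact hh01.symm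
  · rfl
  · exact hh12
  · exact hh13
  · exact hh02.symm
  · exact hh12.symm
  · rfl
  · exact hh23
  · exact hh03.symm
  · exact hh13.symm
  · exact hh23.symm
  · rfl

theorem ff_all (i j : ℕ) : Fo i * Fo j = Fo j * Fo i := by
  by_cases hi : 4 ≤ i
  · rw [Fo_ge i hi]; simp
  by_cases hj : 4 ≤ j
  · rw [Fo_ge j hj]; simp
  push Not at hi hj
  interval_cases i <;> interval_cases j
  · rfl
  · exact ff01
  · exact ff02
  · exact ff03
  · exact ff01.symm
  · rfl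
  · exact ff12
  · exact ff13
  · exact ff02.symm
  · exact ff12.symm
  · rfl
  · exact ff23
  · exact ff03.symm
  · exact ff13.symm
  · exact ff23.symm
  · rfl

theorem he_all (i j : ℕ) : Ho i * Eo j = Eo j * Ho i + (2 : ℝ) • Eo (i + j) := by
  by_cases hi : 4 ≤ i
  · rw [Ho_ge i hi, Eo_ge (i + j) (by omega)]; simp
  by_cases hj : 4 ≤ j
  · rw [Eo_ge j hj, Eo_ge (i + j) (by omega)]; simp
  push Not at hi hj
  interval_cases i <;> interval_cases j
  · rw [he00, mu_two_mul]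
  · rw [he01, mu_two_mul]
  · rw [he02, mu_two_mul]
  · rw [he03, mu_two_mul]
  · rw [he10, mu_two_mul]
  · rw [he11, mu_two_mul]
  · rw [he12, mu_two_mul]
  · rw [he13, Eo_ge (1 + 3) (by norm_num)]; simp
  · rw [he20, mu_two_mul]
  · rw [he21, mu_two_mul]
  · rw [he22, Eo_ge (2 + 2) (by norm_num)]; simp
  · rw [he23, Eo_ge (2 + 3) (by norm_num)]; simp
  · rw [he30, mu_two_mul]
  · rw [he31, Eo_ge (3 + 1) (by norm_num)]; simp
  · rw [he32, Eo_ge (3 + 2) (by norm_num)]; simp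
  · rw [he33, Eo_ge (3 + 3) (by norm_num)]; simp

theorem hf_all (i j : ℕ) : Ho i * Fo j = Fo j * Ho i - (2 : ℝ) • Fo (i + j) := by
  by_cases hi : 4 ≤ i
  · rw [Ho_ge i hi, Fo_ge (i + j) (by omega)]; simp
  by_cases hj : 4 ≤ j
  · rw [Fo_ge j hj, Fo_ge (i + j) (by omega)]; simp
  push Not at hi hj
  interval_cases i <;> interval_cases j
  · rw [hf00, mu_two_mul]
  · rw [hf01, mu_two_mul]
  · rw [hf02, mu_two_mul]
  · rw [hf03, mu_two_mul]
  · rw [hf10, mu_two_mul]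
  · rw [hf11, mu_two_mul]
  · rw [hf12, mu_two_mul]
  · rw [hf13, Fo_ge (1 + 3) (by norm_num)]; simp
  · rw [hf20, mu_two_mul]
  · rw [hf21, mu_two_mul]
  · rw [hf22, Fo_ge (2 + 2) (by norm_num)]; simp
  · rw [hf23, Fo_ge (2 + 3) (by norm_num)]; simp
  · rw [hf30, mu_two_mul]
  · rw [hf31, Fo_ge (3 + 1) (by norm_num)]; simp
  · rw [hf32, Fo_ge (3 + 2) (by norm_num)]; simp
  · rw [hf33, Fo_ge (3 + 3) (by norm_num)]; simp

theorem ef_all (i j : ℕ) : Eo i * Fo j = Fo j * Eo i + Ho (i + j) := by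
  by_cases hi : 4 ≤ i
  · rw [Eo_ge i hi, Ho_ge (i + j) (by omega)]; simp
  by_cases hj : 4 ≤ j
  · rw [Fo_ge j hj, Ho_ge (i + j) (by omega)]; simp
  push Not at hi hj
  interval_cases i <;> interval_cases j
  · exact ef00
  · exact ef01
  · exact ef02
  · exact ef03
  · exact ef10
  · exact ef11
  · exact ef12
  · rw [ef13, Ho_ge (1 + 3) (by norm_num)]; simp
  · exact ef20
  · exact ef21
  · rw [ef22, Ho_ge (2 + 2) (by norm_num)]; simp
  · rw [ef23, Ho_ge (2 + 3) (by norm_num)]; simp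
  · exact ef30
  · rw [ef31, Ho_ge (3 + 1) (by norm_num)]; simp
  · rw [ef32, Ho_ge (3 + 2) (by norm_num)]; simp
  · rw [ef33, Ho_ge (3 + 3) (by norm_num)]; simp

theorem opRel : Rel Eo Ho Fo where
  E0 := Eo_ge
  H0 := Ho_ge
  F0 := Fo_ge
  EE := ee_all
  HH := hh_all
  FF := ff_all
  HE := he_all
  HF := hf_all
  EF := ef_all

end Pool.Agent.H69.DF
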