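import Pool.Agent.H69.DF.Defs

/-!
The model of U(g)/U(g)h: explicit operators on R9 = R[e2,e3,h1,h2,h3,f0,f1,f2,f3].
Variables: X 0 = e2, X 1 = e3, X 2 = h1, X 3 = h2, X 4 = h3, X 5 = f0, X 6 = f1, X 7 = f2, X 8 = f3.
-/

namespace Pool.Agent.H69.DF

open MvPolynomial

abbrev R9 := MvPolynomial (Fin 9) ℝ

theorem pd_comm (i j : Fin 9) (p : R9) : pderiv i (pderiv j p) = pderiv j (pderiv i p) := by
  have h : ⁅(pderiv i : Derivation ℝ R9 R9), (pderiv j : Derivation ℝ R9 R9)⁆ = 0 := by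
    refine MvPolynomial.derivation_ext fun k => ?_
    rw [Derivation.commutator_apply, pderiv_X, pderiv_X]
    by_cases h1 : j = k <;> by_cases h2 : i = k <;> simp [h1, h2, eq_comm]
  have h2 := DFunLike.congr_fun h p
  rw [Derivation.commutator_apply] at h2
  exact sub_eq_zero.mp (by simpa using h2)

/-- multiplication by a polynomial -/
noncomputable def mu (s : R9) : Module.End ℝ R9 := LinearMap.mulLeft ℝ s
/-- partial derivative as an endomorphism -/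
noncomputable def pd (i : Fin 9) : Module.End ℝ R9 := (pderiv i : Derivation ℝ R9 R9).toLinearMap

@[simp] theorem mu_ap (s p : R9) : mu s p = s * p := rfl
@[simp] theorem pd_ap (i : Fin 9) (p : R9) : pd i p = pderiv i p := rfl

noncomputable def Fo : ℕ → Module.End ℝ R9
  | 0 => mu (X 5)
  | 1 => mu (X 6)
  | 2 => mu (X 7)
  | 3 => mu (X 8)
  | _ => 0

/-- the action of h_i on R[h1,h2,h3] (x) R[e2,e3] -/
noncomputable def Hp : ℕ → Module.End ℝ R9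
  | 0 => mu 2 * (mu (X 0) * pd 0 + mu (X 1) * pd 1)
  | 1 => mu (X 2) - mu 2 * (mu (X 3) * pd 2 + mu (X 4) * pd 3)
  | 2 => mu (X 3) - mu 2 * (mu (X 4) * pd 2)
  | 3 => mu (X 4)
  | _ => 0

noncomputable def Ho : ℕ → Module.End ℝ R9
  | 0 => Hp 0 - mu 2 * (mu (X 5) * pd 5 + mu (X 6) * pd 6 + mu (X 7) * pd 7 + mu (X 8) * pd 8)
  | 1 => Hp 1 - mu 2 * (mu (X 6) * pd 5 + mu (X 7) * pd 6 + mu (X 8) * pd 7)
  | 2 => Hp 2 - mu 2 * (mu (X 7) * pd 5 + mu (X 8) * pd 6)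
  | 3 => Hp 3 - mu 2 * (mu (X 8) * pd 5)
  | _ => 0

noncomputable def Eo : ℕ → Module.End ℝ R9
  | 0 => (Hp 0 * pd 5 + Hp 1 * pd 6 + Hp 2 * pd 7 + Hp 3 * pd 8)
        - mu 2 * (mu (X 0) * pd 3 + mu (X 1) * pd 4)
        - (mu (X 5) * (pd 5 * pd 5) + mu 2 * (mu (X 6) * (pd 5 * pd 6))
          + mu (X 7) * (mu 2 * (pd 5 * pd 7) + pd 6 * pd 6)
          + mu 2 * (mu (X 8) * (pd 5 * pd 8 + pd 6 * pd 7)))
  | 1 => (Hp 1 * pd 5 + Hp 2 * pd 6 + Hp 3 * pd 7)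
        - mu 2 * (mu (X 0) * pd 2 + mu (X 1) * pd 3)
        - (mu (X 6) * (pd 5 * pd 5) + mu 2 * (mu (X 7) * (pd 5 * pd 6))
          + mu (X 8) * (mu 2 * (pd 5 * pd 7) + pd 6 * pd 6))
  | 2 => (Hp 2 * pd 5 + Hp 3 * pd 6) + mu (X 0) - mu 2 * (mu (X 1) * pd 2)
        - (mu (X 7) * (pd 5 * pd 5) + mu 2 * (mu (X 8) * (pd 5 * pd 6)))
  | 3 => Hp 3 * pd 5 + mu (X 1) - mu (X 8) * (pd 5 * pd 5)
  | _ => 0

theorem pd_two (i : Fin 9) : pderiv i (2 : R9) = 0 := by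
  have := pderiv_C (R := ℝ) (σ := Fin 9) (i := i) (a := 2)
  rwa [map_ofNat] at this

end Pool.Agent.H69.DF
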