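import Pool.Agent.H69.DF.Base2

/-!
# Row Flow: from derivations to finite transformations

Notation: points x : Fin 9 → ℝ = (e2, e3, h1, h2, h3, f0, f1, f2, f3).
(1) Chain rule `hasDerivAt_eval`: D : Derivation ℝ R9 R9, x : ℝ → Fin 9 → ℝ with HasDerivAt (fun t => x t i) (eval (x t) (D (X i))) t for all i, t; then
    HasDerivAt (fun t => eval (x t) F) (eval (x t) (D F)) t for all F.  (MvPolynomial.induction_on F; Derivation.leibniz; HasDerivAt.mul/add/const.)
(2) Flows (explicit): a1 τ x = (e2, e3, h1 - 2τ e2, h2 - 2τ e3, h3, f0 + τ h1 - τ² e2, f1 + τ h2 - τ² e3, f2 + τ h3, f3) for D1,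
    a0 τ x = (e2, e3, h1, h2 - 2τ e2, h3 - 2τ e3, f0, f1 + τ h1, f2 + τ h2 - τ² e2, f3 + τ h3 - τ² e3) for D0,
    sc l x = (l e2, l e3, h1, h2, h3, f0/l, f1/l, f2/l, f3/l), l > 0, for DT (curve t ↦ sc (exp (2 t)) x).
    Each curve satisfies the hypothesis of (1) (12.. one-line derivatives; D0, D1, DT on X i by mkDerivation_X).
    All three preserve K: eval (a1 τ x) (K i) = eval x (K i) etc. (fin_cases i; simp [K, a1]; ring / field_simp).
(3) If DT W = 0, D0 W = 0, D1 W = aeval K G * X 1 then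
    eval (sc l x) W = eval x W (l > 0), eval (a0 τ x) W = eval x W, eval (a1 τ x) W = eval x W + τ * eval (fun i => eval x (K i)) G * x 1.
    (the derivative along the curve is 0, resp. the constant eval (K-values) G * x 1: is_const_of_deriv_eq_zero applied to
     t ↦ eval (x t) W - c t.)   eval x (aeval K G) = eval (fun i => eval x (K i)) G.
(4) `normal1` (case G = 0): x with 0 < x 1. Put z = -x 0 / x 1, y = x 2 + x 3 z + x 4 z². Apply sc (1 / x 1), then a0 (h3/2), then a1 (h2'/2) with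
    h2' = h2 + z h3: the result is a point with e3 = 1, e2 = -z, h1 = y, h2 = h3 = 0, and the same K-values, hence it is N1 z y K1 K2 K3 K4
    (K 4 = 4 f3 + h3², K 3 = 4 (e2 f3 + f2), ... determine f3, f2, f1, f0): just compare the 9 coordinates with field_simp; ring.
(5) `chart_eq`: z < 0, start with x = N1 z y k3 k4 k5 k6; its K-values are (k2, k3, k4, k5, k6), k2 = y² - k3 z - k4 z² - k5 z³ - k6 z⁴. With l = -1/z > 0:
    x' = sc l x = (1, -1/z, y, 0, 0, -z f0, -z f1, -z f2, -z f3). Then a1 (y/2) x' has h1 = 0, h2 = y/z, h3 = 0; then a0 (y/(2z)) gives h2 = 0, h3 = y/z²: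
    this is N2 (1/z) (y/z²) k2 k3 k4 k5 (compare the 9 coordinates). By (3): eval x'' W = eval x W + (y/2) * G(k) * (-1/z).
-/

namespace Pool.Agent.H69.DF

open MvPolynomial

theorem RFlow_deriv (D : Derivation ℝ R9 R9) (x : ℝ → Fin 9 → ℝ)
    (hx : ∀ i t, HasDerivAt (fun t => x t i) (eval (x t) (D (X i))) t) (F : R9) :
    ∀ t, HasDerivAt (fun t => eval (x t) F) (eval (x t) (D F)) t := by
  induction F using MvPolynomial.induction_on with
  | C a =>
    intro t
    have h0 : D (C a) = 0 := D.map_algebraMap a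
    simp only [eval_C, h0, map_zero]
    exact hasDerivAt_const t a
  | add p q hp hq =>
    intro t
    simp only [map_add]
    exact (hp t).add (hq t)
  | mul_X p i hp =>
    intro t
    have h := (hp t).mul (hx i t)
    have h1 : eval (x t) (D (p * X i)) =
        eval (x t) (D p) * x t i + eval (x t) p * eval (x t) (D (X i)) := by
      rw [Derivation.leibniz]
      simp only [smul_eq_mul, map_add, map_mul, eval_X]
      ring
    rw [h1]
    have h2 : (fun t => eval (x t) (p * X i)) = (fun t => eval (x t) p) * (fun t => x t i) := by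
      funext s
      simp only [map_mul, eval_X, Pi.mul_apply]
    rw [h2]
    exact h

theorem RFlow_const (D : Derivation ℝ R9 R9) (x : ℝ → Fin 9 → ℝ)
    (hx : ∀ i t, HasDerivAt (fun t => x t i) (eval (x t) (D (X i))) t) (W : R9) (c : ℝ)
    (hW : ∀ t, eval (x t) (D W) = c) (t : ℝ) : eval (x t) W = eval (x 0) W + t * c := by
  have h1 : ∀ t, HasDerivAt (fun t => eval (x t) W - t * c) 0 t := by
    intro t
    have h2 := (RFlow_deriv D x hx W t).sub ((hasDerivAt_id t).mul_const c)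
    rw [hW t, one_mul, sub_self] at h2
    exact h2
  have h3 := is_const_of_deriv_eq_zero (f := fun t => eval (x t) W - t * c)
    (fun t => (h1 t).differentiableAt) (fun t => (h1 t).deriv) t 0
  have h4 : eval (x t) W - t * c = eval (x 0) W - 0 * c := h3
  linarith

theorem RFlow_aeval (x : Fin 9 → ℝ) (G : R5) :
    eval x (aeval K G) = eval (fun i => eval x (K i)) G := by
  induction G using MvPolynomial.induction_on with
  | C a =>
    rw [aeval_C, eval_C]
    exact eval_C a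
  | add p q hp hq => rw [map_add, map_add, map_add, hp, hq]
  | mul_X p i hp => rw [map_mul, map_mul, map_mul, hp, aeval_X, eval_X]

noncomputable def RFlow_a1 (x : Fin 9 → ℝ) (t : ℝ) : Fin 9 → ℝ :=
  ![x 0, x 1, x 2 - 2 * t * x 0, x 3 - 2 * t * x 1, x 4, x 5 + t * x 2 - t ^ 2 * x 0,
    x 6 + t * x 3 - t ^ 2 * x 1, x 7 + t * x 4, x 8]

noncomputable def RFlow_a0 (x : Fin 9 → ℝ) (t : ℝ) : Fin 9 → ℝ :=
  ![x 0, x 1, x 2, x 3 - 2 * t * x 0, x 4 - 2 * t * x 1, x 5, x 6 + t * x 2,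
    x 7 + t * x 3 - t ^ 2 * x 0, x 8 + t * x 4 - t ^ 2 * x 1]

noncomputable def RFlow_sc (x : Fin 9 → ℝ) (t : ℝ) : Fin 9 → ℝ :=
  ![Real.exp (2 * t) * x 0, Real.exp (2 * t) * x 1, x 2, x 3, x 4, Real.exp (-2 * t) * x 5,
    Real.exp (-2 * t) * x 6, Real.exp (-2 * t) * x 7, Real.exp (-2 * t) * x 8]

theorem RFlow_q (a b c t : ℝ) : HasDerivAt (fun t => a + t * b - t ^ 2 * c) (b - 2 * t * c) t := by
  have h1 := (((hasDerivAt_id t).mul_const b).const_add a).sub
    (((hasDerivAt_id t).pow 2).mul_const c)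
  refine (h1.congr_deriv ?_)
  simp only [id]
  ring

theorem RFlow_l (a b t : ℝ) : HasDerivAt (fun t => a - 2 * t * b) (-2 * b) t := by
  have h1 := (((hasDerivAt_id t).const_mul 2).mul_const b).const_sub a
  refine (h1.congr_deriv ?_)
  ring

theorem RFlow_l2 (a b t : ℝ) : HasDerivAt (fun t => a + t * b) b t := by
  have h1 := ((hasDerivAt_id t).mul_const b).const_add a
  refine (h1.congr_deriv ?_)
  ring

theorem RFlow_e (a c t : ℝ) : HasDerivAt (fun t => Real.exp (c * t) * a) (c * (Real.exp (c * t) * a)) t := by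
  have h1 := ((((hasDerivAt_id t).const_mul c).exp)).mul_const a
  refine (h1.congr_deriv ?_)
  simp only [id]
  ring

theorem RFlow_h1 (x : Fin 9 → ℝ) (i : Fin 9) (t : ℝ) :
    HasDerivAt (fun t => RFlow_a1 x t i) (eval (RFlow_a1 x t) (D1 (X i))) t := by
  rw [D1, mkDerivation_X]
  fin_cases i
  · simpa [RFlow_a1] using hasDerivAt_const t (x 0)
  · simpa [RFlow_a1] using hasDerivAt_const t (x 1)
  · simpa [RFlow_a1] using RFlow_l (x 2) (x 0) t
  · simpa [RFlow_a1] using RFlow_l (x 3) (x 1) t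
  · simpa [RFlow_a1] using hasDerivAt_const t (x 4)
  · simpa [RFlow_a1] using RFlow_q (x 5) (x 2) (x 0) t
  · simpa [RFlow_a1] using RFlow_q (x 6) (x 3) (x 1) t
  · simpa [RFlow_a1] using RFlow_l2 (x 7) (x 4) t
  · simpa [RFlow_a1] using hasDerivAt_const t (x 8)

theorem RFlow_h0 (x : Fin 9 → ℝ) (i : Fin 9) (t : ℝ) :
    HasDerivAt (fun t => RFlow_a0 x t i) (eval (RFlow_a0 x t) (D0 (X i))) t := by
  rw [D0, mkDerivation_X]
  fin_cases i
  · simpa [RFlow_a0] using hasDerivAt_const t (x 0)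
  · simpa [RFlow_a0] using hasDerivAt_const t (x 1)
  · simpa [RFlow_a0] using hasDerivAt_const t (x 2)
  · simpa [RFlow_a0] using RFlow_l (x 3) (x 0) t
  · simpa [RFlow_a0] using RFlow_l (x 4) (x 1) t
  · simpa [RFlow_a0] using hasDerivAt_const t (x 5)
  · simpa [RFlow_a0] using RFlow_l2 (x 6) (x 2) t
  · simpa [RFlow_a0] using RFlow_q (x 7) (x 3) (x 0) t
  · simpa [RFlow_a0] using RFlow_q (x 8) (x 4) (x 1) t

theorem RFlow_hT (x : Fin 9 → ℝ) (i : Fin 9) (t : ℝ) :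
    HasDerivAt (fun t => RFlow_sc x t i) (eval (RFlow_sc x t) (DT (X i))) t := by
  rw [DT, mkDerivation_X]
  fin_cases i
  · simpa [RFlow_sc] using RFlow_e (x 0) 2 t
  · simpa [RFlow_sc] using RFlow_e (x 1) 2 t
  · simpa [RFlow_sc] using hasDerivAt_const t (x 2)
  · simpa [RFlow_sc] using hasDerivAt_const t (x 3)
  · simpa [RFlow_sc] using hasDerivAt_const t (x 4)
  · simpa [RFlow_sc] using RFlow_e (x 5) (-2) t
  · simpa [RFlow_sc] using RFlow_e (x 6) (-2) t
  · simpa [RFlow_sc] using RFlow_e (x 7) (-2) t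
  · simpa [RFlow_sc] using RFlow_e (x 8) (-2) t

theorem RFlow_K1 (x : Fin 9 → ℝ) (t : ℝ) (i : Fin 5) :
    eval (RFlow_a1 x t) (K i) = eval x (K i) := by
  fin_cases i <;> simp [K, RFlow_a1] <;> ring

theorem RFlow_a1_zero (x : Fin 9 → ℝ) : RFlow_a1 x 0 = x := by
  funext i
  fin_cases i <;> simp [RFlow_a1]

theorem RFlow_a0_zero (x : Fin 9 → ℝ) : RFlow_a0 x 0 = x := by
  funext i
  fin_cases i <;> simp [RFlow_a0]

theorem RFlow_sc_zero (x : Fin 9 → ℝ) : RFlow_sc x 0 = x := by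
  funext i
  fin_cases i <;> simp [RFlow_sc]

theorem RFlow_inv0 (W : R9) (h0 : D0 W = 0) (x : Fin 9 → ℝ) (t : ℝ) :
    eval (RFlow_a0 x t) W = eval x W := by
  have h := RFlow_const D0 (RFlow_a0 x) (RFlow_h0 x) W 0 (fun s => by rw [h0, map_zero]) t
  rw [RFlow_a0_zero, mul_zero, add_zero] at h
  exact h

/-- the scaled point -/
noncomputable def RFlow_s (x : Fin 9 → ℝ) (l : ℝ) : Fin 9 → ℝ :=
  ![l * x 0, l * x 1, x 2, x 3, x 4, x 5 / l, x 6 / l, x 7 / l, x 8 / l]

theorem RFlow_invT (W : R9) (hT : DT W = 0) (x : Fin 9 → ℝ) (l : ℝ) (hl : 0 < l) :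
    eval (RFlow_s x l) W = eval x W := by
  have h := RFlow_const DT (RFlow_sc x) (RFlow_hT x) W 0 (fun s => by rw [hT, map_zero])
    (Real.log l / 2)
  rw [RFlow_sc_zero, mul_zero, add_zero] at h
  rw [← h]
  congr 1
  have e1 : Real.exp (2 * (Real.log l / 2)) = l := by
    rw [mul_div_cancel₀ _ (two_ne_zero), Real.exp_log hl]
  have e2 : Real.exp (-2 * (Real.log l / 2)) = l⁻¹ := by
    rw [show -2 * (Real.log l / 2) = -(2 * (Real.log l / 2)) by ring, Real.exp_neg, e1]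
  rw [RFlow_s, RFlow_sc, e1, e2]
  simp only [div_eq_inv_mul]

theorem RFlow_inv1 (W : R9) (G : R5) (h1 : D1 W = aeval K G * X 1) (x : Fin 9 → ℝ) (t : ℝ) :
    eval (RFlow_a1 x t) W = eval x W + t * (eval (fun i => eval x (K i)) G * x 1) := by
  have h := RFlow_const D1 (RFlow_a1 x) (RFlow_h1 x) W (eval (fun i => eval x (K i)) G * x 1)
    (fun s => by
      rw [h1, map_mul, RFlow_aeval, eval_X]
      have h2 : (fun i => eval (RFlow_a1 x s) (K i)) = fun i => eval x (K i) :=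
        funext fun i => RFlow_K1 x s i
      rw [h2]
      rfl) t
  rw [RFlow_a1_zero] at h
  exact h

theorem normal1 (W : R9) (hT : DT W = 0) (h0 : D0 W = 0) (h1 : D1 W = 0) (x : Fin 9 → ℝ) (hx : 0 < x 1) :
    eval x W = eval (N1 (-x 0 / x 1) (x 2 + x 3 * (-x 0 / x 1) + x 4 * (-x 0 / x 1) ^ 2)
      (eval x (K 1)) (eval x (K 2)) (eval x (K 3)) (eval x (K 4))) W := by
  have hx1 : x 1 ≠ 0 := hx.ne'
  have e1 := RFlow_invT W hT x (1 / x 1) (by positivity)
  have e2 := RFlow_inv0 W h0 (RFlow_s x (1 / x 1)) (x 4 / 2)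
  have e3 := RFlow_inv1 W 0 (by rw [h1, map_zero, zero_mul])
    (RFlow_a0 (RFlow_s x (1 / x 1)) (x 4 / 2)) ((x 3 + (-x 0 / x 1) * x 4) / 2)
  rw [map_zero, zero_mul, mul_zero, add_zero, e2, e1] at e3
  rw [← e3]
  have hp : RFlow_a1 (RFlow_a0 (RFlow_s x (1 / x 1)) (x 4 / 2)) ((x 3 + (-x 0 / x 1) * x 4) / 2) =
      N1 (-x 0 / x 1) (x 2 + x 3 * (-x 0 / x 1) + x 4 * (-x 0 / x 1) ^ 2)
        (eval x (K 1)) (eval x (K 2)) (eval x (K 3)) (eval x (K 4)) := by
    funext i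
    fin_cases i <;> simp [RFlow_a1, RFlow_a0, RFlow_s, N1, K] <;> field_simp <;> ring
  rw [hp]

theorem chart_eq (W : R9) (G : R5) (hT : DT W = 0) (h0 : D0 W = 0) (h1 : D1 W = aeval K G * X 1)
    (z y k3 k4 k5 k6 : ℝ) (hz : z < 0) :
    eval (N1 z y k3 k4 k5 k6) W
      = eval (N2 (1 / z) (y / z ^ 2) (y ^ 2 - k3 * z - k4 * z ^ 2 - k5 * z ^ 3 - k6 * z ^ 4) k3 k4 k5) W
        + 1 / 2 * eval ![y ^ 2 - k3 * z - k4 * z ^ 2 - k5 * z ^ 3 - k6 * z ^ 4, k3, k4, k5, k6] G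
          * (y / z) := by
  have hz0 : z ≠ 0 := hz.ne
  have hl : 0 < -1 / z := div_pos_of_neg_of_neg (by norm_num) hz
  set x : Fin 9 → ℝ := N1 z y k3 k4 k5 k6 with hx
  have e1 := RFlow_invT W hT x (-1 / z) hl
  have e2 := RFlow_inv1 W G h1 (RFlow_s x (-1 / z)) (y / 2)
  have e3 := RFlow_inv0 W h0 (RFlow_a1 (RFlow_s x (-1 / z)) (y / 2)) (y / (2 * z))
  have hK : (fun i => eval (RFlow_s x (-1 / z)) (K i)) =
      ![y ^ 2 - k3 * z - k4 * z ^ 2 - k5 * z ^ 3 - k6 * z ^ 4, k3, k4, k5, k6] := by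
    funext i
    fin_cases i <;> simp [hx, RFlow_s, N1, K] <;> field_simp <;> ring
  have hp : RFlow_a0 (RFlow_a1 (RFlow_s x (-1 / z)) (y / 2)) (y / (2 * z)) =
      N2 (1 / z) (y / z ^ 2) (y ^ 2 - k3 * z - k4 * z ^ 2 - k5 * z ^ 3 - k6 * z ^ 4) k3 k4 k5 := by
    funext i
    fin_cases i <;> simp [hx, RFlow_a1, RFlow_a0, RFlow_s, N1, N2] <;> field_simp <;> ring
  rw [hp] at e3
  rw [hK, e1] at e2
  have h5 : RFlow_s x (-1 / z) 1 = -1 / z := by
    simp [hx, RFlow_s, N1]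
  rw [e3, e2, h5]
  field_simp
  ring

end Pool.Agent.H69.DF
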