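import Pool.Agent.H69.DF.Base2

/-!
# Row QC: identities in any algebra satisfying `Rel`

All identities are computations with the relations: move every product to the normal order F..H..E with
`Rel.EF`, `Rel.HF`, `Rel.HE` (E i * F j = F j * E i + H (i+j), H i * F j = F j * H i - 2 • F (i+j), H i * E j = E j * H i + 2 • E (i+j)),
use E k = H k = F k = 0 for k ≥ 4, then `abel` / `noncomm_ring`.  Suggestion: write ⁅x, y⁆ = x*y - y*x as a derivation: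
  x * (a * b) - (a * b) * x = (x * a - a * x) * b + a * (x * b - b * x),
so each identity is a sum of few terms.  Hand computations:
* E1 with q2: [E1, F0 E2 + F1 E1 + F2 E0] = H1 E2 + H2 E1 + H3 E0; [E1, 6 H2] = -12 E3; [E1, 2 H0 H2] = -4 E1 H2 - 4 H0 E3;
  [E1, H1 H1] = -2 E2 H1 - 2 H1 E2; with H1 E2 = E2 H1 + 2 E3 the sum 4(...)+... is 4 H3 E0 - 4 E3 H0 - 8 E3.
* E0 and H0 commute with q2, and all E i, H i, F i commute with the four qc: e.g. [E1, F3 E0 + F2 E1 + F1 E2 + F0 E3]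
  = H3 E1 + H2 E2 + H1 E3 (H4 = 0), [E1, H3] = -2 E4 = 0, [E1, H0 H3] = -2 E1 H3 - 0, [E1, H1 H2] = -2 E2 H2 - 2 H1 E3, total
  4 (H3 E1 + H2 E2 + H1 E3) - 4 E1 H3 - 4 E2 H2 - 4 H1 E3 = 4 [H3,E1] + 4 [H2,E2] = 8 E4 + 8 E4 = 0.
For all natural i: for i ≥ 4 the element is 0; for i < 4 use interval_cases.
-/

set_option linter.unusedSimpArgs false
set_option linter.unusedSectionVars false
set_option linter.unusedTactic false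
set_option linter.unreachableTactic false

namespace Pool.Agent.H69.DF

open MvPolynomial

variable {A : Type*} [Ring A] [Algebra ℝ A] {E H F : ℕ → A}

theorem RQC_EF (h : Rel E H F) (i j : ℕ) : E i * F j = F j * E i + H (i + j) := h.EF i j

theorem RQC_EF' (h : Rel E H F) (i j : ℕ) (x : A) :
    E i * (F j * x) = F j * (E i * x) + H (i + j) * x := by
  rw [← mul_assoc, h.EF, add_mul, mul_assoc]

theorem RQC_EH (h : Rel E H F) (i j : ℕ) : E i * H j = H j * E i - 2 • E (i + j) := by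
  rw [h.HE j i, two_smul, two_nsmul, Nat.add_comm j i]
  abel

theorem RQC_EH' (h : Rel E H F) (i j : ℕ) (x : A) :
    E i * (H j * x) = H j * (E i * x) - 2 • (E (i + j) * x) := by
  rw [← mul_assoc, RQC_EH h, sub_mul, mul_assoc, smul_mul_assoc]

theorem RQC_HF (h : Rel E H F) (i j : ℕ) : H i * F j = F j * H i - 2 • F (i + j) := by
  rw [h.HF i j, two_smul, two_nsmul]

theorem RQC_HF' (h : Rel E H F) (i j : ℕ) (x : A) :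
    H i * (F j * x) = F j * (H i * x) - 2 • (F (i + j) * x) := by
  rw [← mul_assoc, RQC_HF h, sub_mul, mul_assoc, smul_mul_assoc]

theorem RQC_c {a b : A} (h : a * b = b * a) (x : A) : a * (b * x) = b * (a * x) := by
  rw [← mul_assoc, h, mul_assoc]

theorem RQC_2 (x : A) : (2 : A) * x = 2 • x := by rw [nsmul_eq_mul]; norm_num

theorem RQC_4 (x : A) : (4 : A) * x = 4 • x := by rw [nsmul_eq_mul]; norm_num

theorem RQC_6 (x : A) : (6 : A) * x = 6 • x := by rw [nsmul_eq_mul]; norm_num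

theorem RQC_8 (x : A) : (8 : A) * x = 8 • x := by rw [nsmul_eq_mul]; norm_num

theorem q2_E0 (h : Rel E H F) : E 0 * q2 E H F = q2 E H F * E 0 := by
  unfold q2
  simp only [mul_add, add_mul, mul_sub, sub_mul, mul_assoc, RQC_2, RQC_4, RQC_6, RQC_8, mul_smul_comm, smul_mul_assoc,
    smul_add, smul_sub, RQC_EF h, RQC_EF' h, RQC_EH h, RQC_EH' h, RQC_HF h, RQC_HF' h,
    h.EE 1 0, RQC_c (h.EE 1 0), h.EE 2 0, RQC_c (h.EE 2 0),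
    h.EE 2 1, RQC_c (h.EE 2 1), h.EE 3 0, RQC_c (h.EE 3 0),
    h.EE 3 1, RQC_c (h.EE 3 1), h.EE 3 2, RQC_c (h.EE 3 2),
    h.HH 1 0, RQC_c (h.HH 1 0), h.HH 2 0, RQC_c (h.HH 2 0),
    h.HH 2 1, RQC_c (h.HH 2 1), h.HH 3 0, RQC_c (h.HH 3 0),
    h.HH 3 1, RQC_c (h.HH 3 1), h.HH 3 2, RQC_c (h.HH 3 2),
    h.FF 1 0, RQC_c (h.FF 1 0), h.FF 2 0, RQC_c (h.FF 2 0),
    h.FF 2 1, RQC_c (h.FF 2 1), h.FF 3 0, RQC_c (h.FF 3 0),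
    h.FF 3 1, RQC_c (h.FF 3 1), h.FF 3 2, RQC_c (h.FF 3 2),
    h.E0 4 (by norm_num), h.E0 5 (by norm_num), h.E0 6 (by norm_num),
    h.E0 7 (by norm_num), h.H0 4 (by norm_num), h.H0 5 (by norm_num),
    h.H0 6 (by norm_num), h.H0 7 (by norm_num), h.F0 4 (by norm_num),
    h.F0 5 (by norm_num), h.F0 6 (by norm_num), h.F0 7 (by norm_num),
    Nat.reduceAdd, zero_mul, mul_zero, smul_zero, sub_zero, add_zero, zero_add, zero_sub,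
    Nat.add_zero, Nat.zero_add]
  abel

theorem q2_H0 (h : Rel E H F) : H 0 * q2 E H F = q2 E H F * H 0 := by
  unfold q2
  simp only [mul_add, add_mul, mul_sub, sub_mul, mul_assoc, RQC_2, RQC_4, RQC_6, RQC_8, mul_smul_comm, smul_mul_assoc,
    smul_add, smul_sub, RQC_EF h, RQC_EF' h, RQC_EH h, RQC_EH' h, RQC_HF h, RQC_HF' h,
    h.EE 1 0, RQC_c (h.EE 1 0), h.EE 2 0, RQC_c (h.EE 2 0),
    h.EE 2 1, RQC_c (h.EE 2 1), h.EE 3 0, RQC_c (h.EE 3 0),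
    h.EE 3 1, RQC_c (h.EE 3 1), h.EE 3 2, RQC_c (h.EE 3 2),
    h.HH 1 0, RQC_c (h.HH 1 0), h.HH 2 0, RQC_c (h.HH 2 0),
    h.HH 2 1, RQC_c (h.HH 2 1), h.HH 3 0, RQC_c (h.HH 3 0),
    h.HH 3 1, RQC_c (h.HH 3 1), h.HH 3 2, RQC_c (h.HH 3 2),
    h.FF 1 0, RQC_c (h.FF 1 0), h.FF 2 0, RQC_c (h.FF 2 0),
    h.FF 2 1, RQC_c (h.FF 2 1), h.FF 3 0, RQC_c (h.FF 3 0),
    h.FF 3 1, RQC_c (h.FF 3 1), h.FF 3 2, RQC_c (h.FF 3 2),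
    h.E0 4 (by norm_num), h.E0 5 (by norm_num), h.E0 6 (by norm_num),
    h.E0 7 (by norm_num), h.H0 4 (by norm_num), h.H0 5 (by norm_num),
    h.H0 6 (by norm_num), h.H0 7 (by norm_num), h.F0 4 (by norm_num),
    h.F0 5 (by norm_num), h.F0 6 (by norm_num), h.F0 7 (by norm_num),
    Nat.reduceAdd, zero_mul, mul_zero, smul_zero, sub_zero, add_zero, zero_add, zero_sub,
    Nat.add_zero, Nat.zero_add]
  try abel

theorem q2_E1 (h : Rel E H F) : E 1 * q2 E H F = q2 E H F * E 1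
    + (4 * (H 3 * E 0) - 4 * (E 3 * H 0) - 8 * E 3) := by
  unfold q2
  simp only [mul_add, add_mul, mul_sub, sub_mul, mul_assoc, RQC_2, RQC_4, RQC_6, RQC_8, mul_smul_comm, smul_mul_assoc,
    smul_add, smul_sub, RQC_EF h, RQC_EF' h, RQC_EH h, RQC_EH' h, RQC_HF h, RQC_HF' h,
    h.EE 1 0, RQC_c (h.EE 1 0), h.EE 2 0, RQC_c (h.EE 2 0),
    h.EE 2 1, RQC_c (h.EE 2 1), h.EE 3 0, RQC_c (h.EE 3 0),
    h.EE 3 1, RQC_c (h.EE 3 1), h.EE 3 2, RQC_c (h.EE 3 2),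
    h.HH 1 0, RQC_c (h.HH 1 0), h.HH 2 0, RQC_c (h.HH 2 0),
    h.HH 2 1, RQC_c (h.HH 2 1), h.HH 3 0, RQC_c (h.HH 3 0),
    h.HH 3 1, RQC_c (h.HH 3 1), h.HH 3 2, RQC_c (h.HH 3 2),
    h.FF 1 0, RQC_c (h.FF 1 0), h.FF 2 0, RQC_c (h.FF 2 0),
    h.FF 2 1, RQC_c (h.FF 2 1), h.FF 3 0, RQC_c (h.FF 3 0),
    h.FF 3 1, RQC_c (h.FF 3 1), h.FF 3 2, RQC_c (h.FF 3 2),
    h.E0 4 (by norm_num), h.E0 5 (by norm_num), h.E0 6 (by norm_num),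
    h.E0 7 (by norm_num), h.H0 4 (by norm_num), h.H0 5 (by norm_num),
    h.H0 6 (by norm_num), h.H0 7 (by norm_num), h.F0 4 (by norm_num),
    h.F0 5 (by norm_num), h.F0 6 (by norm_num), h.F0 7 (by norm_num),
    Nat.reduceAdd, zero_mul, mul_zero, smul_zero, sub_zero, add_zero, zero_add, zero_sub,
    Nat.add_zero, Nat.zero_add]
  abel

theorem RQC_E_0_0 (h : Rel E H F) : E 0 * (4 * (F 3 * E 0 + F 2 * E 1 + F 1 * E 2 + F 0 * E 3) + 8 * H 3 + 2 * (H 0 * H 3)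
      + 2 * (H 1 * H 2)) =
    (4 * (F 3 * E 0 + F 2 * E 1 + F 1 * E 2 + F 0 * E 3) + 8 * H 3 + 2 * (H 0 * H 3)
      + 2 * (H 1 * H 2)) * E 0 := by
  simp only [mul_add, add_mul, mul_sub, sub_mul, mul_assoc, RQC_2, RQC_4, RQC_6, RQC_8, mul_smul_comm, smul_mul_assoc,
    smul_add, smul_sub, RQC_EF h, RQC_EF' h, RQC_EH h, RQC_EH' h, RQC_HF h, RQC_HF' h,
    h.EE 1 0, RQC_c (h.EE 1 0), h.EE 2 0, RQC_c (h.EE 2 0),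
    h.EE 2 1, RQC_c (h.EE 2 1), h.EE 3 0, RQC_c (h.EE 3 0),
    h.EE 3 1, RQC_c (h.EE 3 1), h.EE 3 2, RQC_c (h.EE 3 2),
    h.HH 1 0, RQC_c (h.HH 1 0), h.HH 2 0, RQC_c (h.HH 2 0),
    h.HH 2 1, RQC_c (h.HH 2 1), h.HH 3 0, RQC_c (h.HH 3 0),
    h.HH 3 1, RQC_c (h.HH 3 1), h.HH 3 2, RQC_c (h.HH 3 2),
    h.FF 1 0, RQC_c (h.FF 1 0), h.FF 2 0, RQC_c (h.FF 2 0),
    h.FF 2 1, RQC_c (h.FF 2 1), h.FF 3 0, RQC_c (h.FF 3 0),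
    h.FF 3 1, RQC_c (h.FF 3 1), h.FF 3 2, RQC_c (h.FF 3 2),
    h.E0 4 (by norm_num), h.E0 5 (by norm_num), h.E0 6 (by norm_num),
    h.E0 7 (by norm_num), h.H0 4 (by norm_num), h.H0 5 (by norm_num),
    h.H0 6 (by norm_num), h.H0 7 (by norm_num), h.F0 4 (by norm_num),
    h.F0 5 (by norm_num), h.F0 6 (by norm_num), h.F0 7 (by norm_num),
    Nat.reduceAdd, zero_mul, mul_zero, smul_zero, sub_zero, add_zero, zero_add, zero_sub,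
    Nat.add_zero, Nat.zero_add]
  try abel

theorem RQC_E_0_1 (h : Rel E H F) : E 1 * (4 * (F 3 * E 0 + F 2 * E 1 + F 1 * E 2 + F 0 * E 3) + 8 * H 3 + 2 * (H 0 * H 3)
      + 2 * (H 1 * H 2)) =
    (4 * (F 3 * E 0 + F 2 * E 1 + F 1 * E 2 + F 0 * E 3) + 8 * H 3 + 2 * (H 0 * H 3)
      + 2 * (H 1 * H 2)) * E 1 := by
  simp only [mul_add, add_mul, mul_sub, sub_mul, mul_assoc, RQC_2, RQC_4, RQC_6, RQC_8, mul_smul_comm, smul_mul_assoc,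
    smul_add, smul_sub, RQC_EF h, RQC_EF' h, RQC_EH h, RQC_EH' h, RQC_HF h, RQC_HF' h,
    h.EE 1 0, RQC_c (h.EE 1 0), h.EE 2 0, RQC_c (h.EE 2 0),
    h.EE 2 1, RQC_c (h.EE 2 1), h.EE 3 0, RQC_c (h.EE 3 0),
    h.EE 3 1, RQC_c (h.EE 3 1), h.EE 3 2, RQC_c (h.EE 3 2),
    h.HH 1 0, RQC_c (h.HH 1 0), h.HH 2 0, RQC_c (h.HH 2 0),
    h.HH 2 1, RQC_c (h.HH 2 1), h.HH 3 0, RQC_c (h.HH 3 0),
    h.HH 3 1, RQC_c (h.HH 3 1), h.HH 3 2, RQC_c (h.HH 3 2),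
    h.FF 1 0, RQC_c (h.FF 1 0), h.FF 2 0, RQC_c (h.FF 2 0),
    h.FF 2 1, RQC_c (h.FF 2 1), h.FF 3 0, RQC_c (h.FF 3 0),
    h.FF 3 1, RQC_c (h.FF 3 1), h.FF 3 2, RQC_c (h.FF 3 2),
    h.E0 4 (by norm_num), h.E0 5 (by norm_num), h.E0 6 (by norm_num),
    h.E0 7 (by norm_num), h.H0 4 (by norm_num), h.H0 5 (by norm_num),
    h.H0 6 (by norm_num), h.H0 7 (by norm_num), h.F0 4 (by norm_num),
    h.F0 5 (by norm_num), h.F0 6 (by norm_num), h.F0 7 (by norm_num),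
    Nat.reduceAdd, zero_mul, mul_zero, smul_zero, sub_zero, add_zero, zero_add, zero_sub,
    Nat.add_zero, Nat.zero_add]
  try abel

theorem RQC_E_0_2 (h : Rel E H F) : E 2 * (4 * (F 3 * E 0 + F 2 * E 1 + F 1 * E 2 + F 0 * E 3) + 8 * H 3 + 2 * (H 0 * H 3)
      + 2 * (H 1 * H 2)) =
    (4 * (F 3 * E 0 + F 2 * E 1 + F 1 * E 2 + F 0 * E 3) + 8 * H 3 + 2 * (H 0 * H 3)
      + 2 * (H 1 * H 2)) * E 2 := by
  simp only [mul_add, add_mul, mul_sub, sub_mul, mul_assoc, RQC_2, RQC_4, RQC_6, RQC_8, mul_smul_comm, smul_mul_assoc,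
    smul_add, smul_sub, RQC_EF h, RQC_EF' h, RQC_EH h, RQC_EH' h, RQC_HF h, RQC_HF' h,
    h.EE 1 0, RQC_c (h.EE 1 0), h.EE 2 0, RQC_c (h.EE 2 0),
    h.EE 2 1, RQC_c (h.EE 2 1), h.EE 3 0, RQC_c (h.EE 3 0),
    h.EE 3 1, RQC_c (h.EE 3 1), h.EE 3 2, RQC_c (h.EE 3 2),
    h.HH 1 0, RQC_c (h.HH 1 0), h.HH 2 0, RQC_c (h.HH 2 0),
    h.HH 2 1, RQC_c (h.HH 2 1), h.HH 3 0, RQC_c (h.HH 3 0),
    h.HH 3 1, RQC_c (h.HH 3 1), h.HH 3 2, RQC_c (h.HH 3 2),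
    h.FF 1 0, RQC_c (h.FF 1 0), h.FF 2 0, RQC_c (h.FF 2 0),
    h.FF 2 1, RQC_c (h.FF 2 1), h.FF 3 0, RQC_c (h.FF 3 0),
    h.FF 3 1, RQC_c (h.FF 3 1), h.FF 3 2, RQC_c (h.FF 3 2),
    h.E0 4 (by norm_num), h.E0 5 (by norm_num), h.E0 6 (by norm_num),
    h.E0 7 (by norm_num), h.H0 4 (by norm_num), h.H0 5 (by norm_num),
    h.H0 6 (by norm_num), h.H0 7 (by norm_num), h.F0 4 (by norm_num),
    h.F0 5 (by norm_num), h.F0 6 (by norm_num), h.F0 7 (by norm_num),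
    Nat.reduceAdd, zero_mul, mul_zero, smul_zero, sub_zero, add_zero, zero_add, zero_sub,
    Nat.add_zero, Nat.zero_add]
  try abel

theorem RQC_E_0_3 (h : Rel E H F) : E 3 * (4 * (F 3 * E 0 + F 2 * E 1 + F 1 * E 2 + F 0 * E 3) + 8 * H 3 + 2 * (H 0 * H 3)
      + 2 * (H 1 * H 2)) =
    (4 * (F 3 * E 0 + F 2 * E 1 + F 1 * E 2 + F 0 * E 3) + 8 * H 3 + 2 * (H 0 * H 3)
      + 2 * (H 1 * H 2)) * E 3 := by
  simp only [mul_add, add_mul, mul_sub, sub_mul, mul_assoc, RQC_2, RQC_4, RQC_6, RQC_8, mul_smul_comm, smul_mul_assoc,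
    smul_add, smul_sub, RQC_EF h, RQC_EF' h, RQC_EH h, RQC_EH' h, RQC_HF h, RQC_HF' h,
    h.EE 1 0, RQC_c (h.EE 1 0), h.EE 2 0, RQC_c (h.EE 2 0),
    h.EE 2 1, RQC_c (h.EE 2 1), h.EE 3 0, RQC_c (h.EE 3 0),
    h.EE 3 1, RQC_c (h.EE 3 1), h.EE 3 2, RQC_c (h.EE 3 2),
    h.HH 1 0, RQC_c (h.HH 1 0), h.HH 2 0, RQC_c (h.HH 2 0),
    h.HH 2 1, RQC_c (h.HH 2 1), h.HH 3 0, RQC_c (h.HH 3 0),
    h.HH 3 1, RQC_c (h.HH 3 1), h.HH 3 2, RQC_c (h.HH 3 2),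
    h.FF 1 0, RQC_c (h.FF 1 0), h.FF 2 0, RQC_c (h.FF 2 0),
    h.FF 2 1, RQC_c (h.FF 2 1), h.FF 3 0, RQC_c (h.FF 3 0),
    h.FF 3 1, RQC_c (h.FF 3 1), h.FF 3 2, RQC_c (h.FF 3 2),
    h.E0 4 (by norm_num), h.E0 5 (by norm_num), h.E0 6 (by norm_num),
    h.E0 7 (by norm_num), h.H0 4 (by norm_num), h.H0 5 (by norm_num),
    h.H0 6 (by norm_num), h.H0 7 (by norm_num), h.F0 4 (by norm_num),
    h.F0 5 (by norm_num), h.F0 6 (by norm_num), h.F0 7 (by norm_num),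
    Nat.reduceAdd, zero_mul, mul_zero, smul_zero, sub_zero, add_zero, zero_add, zero_sub,
    Nat.add_zero, Nat.zero_add]
  try abel

theorem RQC_E_1_0 (h : Rel E H F) : E 0 * (4 * (F 3 * E 1 + F 2 * E 2 + F 1 * E 3) + 2 * (H 1 * H 3) + H 2 * H 2) =
    (4 * (F 3 * E 1 + F 2 * E 2 + F 1 * E 3) + 2 * (H 1 * H 3) + H 2 * H 2) * E 0 := by
  simp only [mul_add, add_mul, mul_sub, sub_mul, mul_assoc, RQC_2, RQC_4, RQC_6, RQC_8, mul_smul_comm, smul_mul_assoc,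
    smul_add, smul_sub, RQC_EF h, RQC_EF' h, RQC_EH h, RQC_EH' h, RQC_HF h, RQC_HF' h,
    h.EE 1 0, RQC_c (h.EE 1 0), h.EE 2 0, RQC_c (h.EE 2 0),
    h.EE 2 1, RQC_c (h.EE 2 1), h.EE 3 0, RQC_c (h.EE 3 0),
    h.EE 3 1, RQC_c (h.EE 3 1), h.EE 3 2, RQC_c (h.EE 3 2),
    h.HH 1 0, RQC_c (h.HH 1 0), h.HH 2 0, RQC_c (h.HH 2 0),
    h.HH 2 1, RQC_c (h.HH 2 1), h.HH 3 0, RQC_c (h.HH 3 0),
    h.HH 3 1, RQC_c (h.HH 3 1), h.HH 3 2, RQC_c (h.HH 3 2),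
    h.FF 1 0, RQC_c (h.FF 1 0), h.FF 2 0, RQC_c (h.FF 2 0),
    h.FF 2 1, RQC_c (h.FF 2 1), h.FF 3 0, RQC_c (h.FF 3 0),
    h.FF 3 1, RQC_c (h.FF 3 1), h.FF 3 2, RQC_c (h.FF 3 2),
    h.E0 4 (by norm_num), h.E0 5 (by norm_num), h.E0 6 (by norm_num),
    h.E0 7 (by norm_num), h.H0 4 (by norm_num), h.H0 5 (by norm_num),
    h.H0 6 (by norm_num), h.H0 7 (by norm_num), h.F0 4 (by norm_num),
    h.F0 5 (by norm_num), h.F0 6 (by norm_num), h.F0 7 (by norm_num),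
    Nat.reduceAdd, zero_mul, mul_zero, smul_zero, sub_zero, add_zero, zero_add, zero_sub,
    Nat.add_zero, Nat.zero_add]
  try abel

theorem RQC_E_1_1 (h : Rel E H F) : E 1 * (4 * (F 3 * E 1 + F 2 * E 2 + F 1 * E 3) + 2 * (H 1 * H 3) + H 2 * H 2) =
    (4 * (F 3 * E 1 + F 2 * E 2 + F 1 * E 3) + 2 * (H 1 * H 3) + H 2 * H 2) * E 1 := by
  simp only [mul_add, add_mul, mul_sub, sub_mul, mul_assoc, RQC_2, RQC_4, RQC_6, RQC_8, mul_smul_comm, smul_mul_assoc,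
    smul_add, smul_sub, RQC_EF h, RQC_EF' h, RQC_EH h, RQC_EH' h, RQC_HF h, RQC_HF' h,
    h.EE 1 0, RQC_c (h.EE 1 0), h.EE 2 0, RQC_c (h.EE 2 0),
    h.EE 2 1, RQC_c (h.EE 2 1), h.EE 3 0, RQC_c (h.EE 3 0),
    h.EE 3 1, RQC_c (h.EE 3 1), h.EE 3 2, RQC_c (h.EE 3 2),
    h.HH 1 0, RQC_c (h.HH 1 0), h.HH 2 0, RQC_c (h.HH 2 0),
    h.HH 2 1, RQC_c (h.HH 2 1), h.HH 3 0, RQC_c (h.HH 3 0),
    h.HH 3 1, RQC_c (h.HH 3 1), h.HH 3 2, RQC_c (h.HH 3 2),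
    h.FF 1 0, RQC_c (h.FF 1 0), h.FF 2 0, RQC_c (h.FF 2 0),
    h.FF 2 1, RQC_c (h.FF 2 1), h.FF 3 0, RQC_c (h.FF 3 0),
    h.FF 3 1, RQC_c (h.FF 3 1), h.FF 3 2, RQC_c (h.FF 3 2),
    h.E0 4 (by norm_num), h.E0 5 (by norm_num), h.E0 6 (by norm_num),
    h.E0 7 (by norm_num), h.H0 4 (by norm_num), h.H0 5 (by norm_num),
    h.H0 6 (by norm_num), h.H0 7 (by norm_num), h.F0 4 (by norm_num),
    h.F0 5 (by norm_num), h.F0 6 (by norm_num), h.F0 7 (by norm_num),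
    Nat.reduceAdd, zero_mul, mul_zero, smul_zero, sub_zero, add_zero, zero_add, zero_sub,
    Nat.add_zero, Nat.zero_add]
  try abel

theorem RQC_E_1_2 (h : Rel E H F) : E 2 * (4 * (F 3 * E 1 + F 2 * E 2 + F 1 * E 3) + 2 * (H 1 * H 3) + H 2 * H 2) =
    (4 * (F 3 * E 1 + F 2 * E 2 + F 1 * E 3) + 2 * (H 1 * H 3) + H 2 * H 2) * E 2 := by
  simp only [mul_add, add_mul, mul_sub, sub_mul, mul_assoc, RQC_2, RQC_4, RQC_6, RQC_8, mul_smul_comm, smul_mul_assoc,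
    smul_add, smul_sub, RQC_EF h, RQC_EF' h, RQC_EH h, RQC_EH' h, RQC_HF h, RQC_HF' h,
    h.EE 1 0, RQC_c (h.EE 1 0), h.EE 2 0, RQC_c (h.EE 2 0),
    h.EE 2 1, RQC_c (h.EE 2 1), h.EE 3 0, RQC_c (h.EE 3 0),
    h.EE 3 1, RQC_c (h.EE 3 1), h.EE 3 2, RQC_c (h.EE 3 2),
    h.HH 1 0, RQC_c (h.HH 1 0), h.HH 2 0, RQC_c (h.HH 2 0),
    h.HH 2 1, RQC_c (h.HH 2 1), h.HH 3 0, RQC_c (h.HH 3 0),
    h.HH 3 1, RQC_c (h.HH 3 1), h.HH 3 2, RQC_c (h.HH 3 2),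
    h.FF 1 0, RQC_c (h.FF 1 0), h.FF 2 0, RQC_c (h.FF 2 0),
    h.FF 2 1, RQC_c (h.FF 2 1), h.FF 3 0, RQC_c (h.FF 3 0),
    h.FF 3 1, RQC_c (h.FF 3 1), h.FF 3 2, RQC_c (h.FF 3 2),
    h.E0 4 (by norm_num), h.E0 5 (by norm_num), h.E0 6 (by norm_num),
    h.E0 7 (by norm_num), h.H0 4 (by norm_num), h.H0 5 (by norm_num),
    h.H0 6 (by norm_num), h.H0 7 (by norm_num), h.F0 4 (by norm_num),
    h.F0 5 (by norm_num), h.F0 6 (by norm_num), h.F0 7 (by norm_num),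
    Nat.reduceAdd, zero_mul, mul_zero, smul_zero, sub_zero, add_zero, zero_add, zero_sub,
    Nat.add_zero, Nat.zero_add]
  try abel

theorem RQC_E_1_3 (h : Rel E H F) : E 3 * (4 * (F 3 * E 1 + F 2 * E 2 + F 1 * E 3) + 2 * (H 1 * H 3) + H 2 * H 2) =
    (4 * (F 3 * E 1 + F 2 * E 2 + F 1 * E 3) + 2 * (H 1 * H 3) + H 2 * H 2) * E 3 := by
  simp only [mul_add, add_mul, mul_sub, sub_mul, mul_assoc, RQC_2, RQC_4, RQC_6, RQC_8, mul_smul_comm, smul_mul_assoc,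
    smul_add, smul_sub, RQC_EF h, RQC_EF' h, RQC_EH h, RQC_EH' h, RQC_HF h, RQC_HF' h,
    h.EE 1 0, RQC_c (h.EE 1 0), h.EE 2 0, RQC_c (h.EE 2 0),
    h.EE 2 1, RQC_c (h.EE 2 1), h.EE 3 0, RQC_c (h.EE 3 0),
    h.EE 3 1, RQC_c (h.EE 3 1), h.EE 3 2, RQC_c (h.EE 3 2),
    h.HH 1 0, RQC_c (h.HH 1 0), h.HH 2 0, RQC_c (h.HH 2 0),
    h.HH 2 1, RQC_c (h.HH 2 1), h.HH 3 0, RQC_c (h.HH 3 0),
    h.HH 3 1, RQC_c (h.HH 3 1), h.HH 3 2, RQC_c (h.HH 3 2),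
    h.FF 1 0, RQC_c (h.FF 1 0), h.FF 2 0, RQC_c (h.FF 2 0),
    h.FF 2 1, RQC_c (h.FF 2 1), h.FF 3 0, RQC_c (h.FF 3 0),
    h.FF 3 1, RQC_c (h.FF 3 1), h.FF 3 2, RQC_c (h.FF 3 2),
    h.E0 4 (by norm_num), h.E0 5 (by norm_num), h.E0 6 (by norm_num),
    h.E0 7 (by norm_num), h.H0 4 (by norm_num), h.H0 5 (by norm_num),
    h.H0 6 (by norm_num), h.H0 7 (by norm_num), h.F0 4 (by norm_num),
    h.F0 5 (by norm_num), h.F0 6 (by norm_num), h.F0 7 (by norm_num),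
    Nat.reduceAdd, zero_mul, mul_zero, smul_zero, sub_zero, add_zero, zero_add, zero_sub,
    Nat.add_zero, Nat.zero_add]
  try abel

theorem RQC_E_2_0 (h : Rel E H F) : E 0 * (4 * (F 3 * E 2 + F 2 * E 3) + 2 * (H 2 * H 3)) =
    (4 * (F 3 * E 2 + F 2 * E 3) + 2 * (H 2 * H 3)) * E 0 := by
  simp only [mul_add, add_mul, mul_sub, sub_mul, mul_assoc, RQC_2, RQC_4, RQC_6, RQC_8, mul_smul_comm, smul_mul_assoc,
    smul_add, smul_sub, RQC_EF h, RQC_EF' h, RQC_EH h, RQC_EH' h, RQC_HF h, RQC_HF' h,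
    h.EE 1 0, RQC_c (h.EE 1 0), h.EE 2 0, RQC_c (h.EE 2 0),
    h.EE 2 1, RQC_c (h.EE 2 1), h.EE 3 0, RQC_c (h.EE 3 0),
    h.EE 3 1, RQC_c (h.EE 3 1), h.EE 3 2, RQC_c (h.EE 3 2),
    h.HH 1 0, RQC_c (h.HH 1 0), h.HH 2 0, RQC_c (h.HH 2 0),
    h.HH 2 1, RQC_c (h.HH 2 1), h.HH 3 0, RQC_c (h.HH 3 0),
    h.HH 3 1, RQC_c (h.HH 3 1), h.HH 3 2, RQC_c (h.HH 3 2),
    h.FF 1 0, RQC_c (h.FF 1 0), h.FF 2 0, RQC_c (h.FF 2 0),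
    h.FF 2 1, RQC_c (h.FF 2 1), h.FF 3 0, RQC_c (h.FF 3 0),
    h.FF 3 1, RQC_c (h.FF 3 1), h.FF 3 2, RQC_c (h.FF 3 2),
    h.E0 4 (by norm_num), h.E0 5 (by norm_num), h.E0 6 (by norm_num),
    h.E0 7 (by norm_num), h.H0 4 (by norm_num), h.H0 5 (by norm_num),
    h.H0 6 (by norm_num), h.H0 7 (by norm_num), h.F0 4 (by norm_num),
    h.F0 5 (by norm_num), h.F0 6 (by norm_num), h.F0 7 (by norm_num),
    Nat.reduceAdd, zero_mul, mul_zero, smul_zero, sub_zero, add_zero, zero_add, zero_sub,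
    Nat.add_zero, Nat.zero_add]
  try abel

theorem RQC_E_2_1 (h : Rel E H F) : E 1 * (4 * (F 3 * E 2 + F 2 * E 3) + 2 * (H 2 * H 3)) =
    (4 * (F 3 * E 2 + F 2 * E 3) + 2 * (H 2 * H 3)) * E 1 := by
  simp only [mul_add, add_mul, mul_sub, sub_mul, mul_assoc, RQC_2, RQC_4, RQC_6, RQC_8, mul_smul_comm, smul_mul_assoc,
    smul_add, smul_sub, RQC_EF h, RQC_EF' h, RQC_EH h, RQC_EH' h, RQC_HF h, RQC_HF' h,
    h.EE 1 0, RQC_c (h.EE 1 0), h.EE 2 0, RQC_c (h.EE 2 0),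
    h.EE 2 1, RQC_c (h.EE 2 1), h.EE 3 0, RQC_c (h.EE 3 0),
    h.EE 3 1, RQC_c (h.EE 3 1), h.EE 3 2, RQC_c (h.EE 3 2),
    h.HH 1 0, RQC_c (h.HH 1 0), h.HH 2 0, RQC_c (h.HH 2 0),
    h.HH 2 1, RQC_c (h.HH 2 1), h.HH 3 0, RQC_c (h.HH 3 0),
    h.HH 3 1, RQC_c (h.HH 3 1), h.HH 3 2, RQC_c (h.HH 3 2),
    h.FF 1 0, RQC_c (h.FF 1 0), h.FF 2 0, RQC_c (h.FF 2 0),
    h.FF 2 1, RQC_c (h.FF 2 1), h.FF 3 0, RQC_c (h.FF 3 0),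
    h.FF 3 1, RQC_c (h.FF 3 1), h.FF 3 2, RQC_c (h.FF 3 2),
    h.E0 4 (by norm_num), h.E0 5 (by norm_num), h.E0 6 (by norm_num),
    h.E0 7 (by norm_num), h.H0 4 (by norm_num), h.H0 5 (by norm_num),
    h.H0 6 (by norm_num), h.H0 7 (by norm_num), h.F0 4 (by norm_num),
    h.F0 5 (by norm_num), h.F0 6 (by norm_num), h.F0 7 (by norm_num),
    Nat.reduceAdd, zero_mul, mul_zero, smul_zero, sub_zero, add_zero, zero_add, zero_sub,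
    Nat.add_zero, Nat.zero_add]
  try abel

theorem RQC_E_2_2 (h : Rel E H F) : E 2 * (4 * (F 3 * E 2 + F 2 * E 3) + 2 * (H 2 * H 3)) =
    (4 * (F 3 * E 2 + F 2 * E 3) + 2 * (H 2 * H 3)) * E 2 := by
  simp only [mul_add, add_mul, mul_sub, sub_mul, mul_assoc, RQC_2, RQC_4, RQC_6, RQC_8, mul_smul_comm, smul_mul_assoc,
    smul_add, smul_sub, RQC_EF h, RQC_EF' h, RQC_EH h, RQC_EH' h, RQC_HF h, RQC_HF' h,
    h.EE 1 0, RQC_c (h.EE 1 0), h.EE 2 0, RQC_c (h.EE 2 0),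
    h.EE 2 1, RQC_c (h.EE 2 1), h.EE 3 0, RQC_c (h.EE 3 0),
    h.EE 3 1, RQC_c (h.EE 3 1), h.EE 3 2, RQC_c (h.EE 3 2),
    h.HH 1 0, RQC_c (h.HH 1 0), h.HH 2 0, RQC_c (h.HH 2 0),
    h.HH 2 1, RQC_c (h.HH 2 1), h.HH 3 0, RQC_c (h.HH 3 0),
    h.HH 3 1, RQC_c (h.HH 3 1), h.HH 3 2, RQC_c (h.HH 3 2),
    h.FF 1 0, RQC_c (h.FF 1 0), h.FF 2 0, RQC_c (h.FF 2 0),
    h.FF 2 1, RQC_c (h.FF 2 1), h.FF 3 0, RQC_c (h.FF 3 0),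
    h.FF 3 1, RQC_c (h.FF 3 1), h.FF 3 2, RQC_c (h.FF 3 2),
    h.E0 4 (by norm_num), h.E0 5 (by norm_num), h.E0 6 (by norm_num),
    h.E0 7 (by norm_num), h.H0 4 (by norm_num), h.H0 5 (by norm_num),
    h.H0 6 (by norm_num), h.H0 7 (by norm_num), h.F0 4 (by norm_num),
    h.F0 5 (by norm_num), h.F0 6 (by norm_num), h.F0 7 (by norm_num),
    Nat.reduceAdd, zero_mul, mul_zero, smul_zero, sub_zero, add_zero, zero_add, zero_sub,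
    Nat.add_zero, Nat.zero_add]
  try abel

theorem RQC_E_2_3 (h : Rel E H F) : E 3 * (4 * (F 3 * E 2 + F 2 * E 3) + 2 * (H 2 * H 3)) =
    (4 * (F 3 * E 2 + F 2 * E 3) + 2 * (H 2 * H 3)) * E 3 := by
  simp only [mul_add, add_mul, mul_sub, sub_mul, mul_assoc, RQC_2, RQC_4, RQC_6, RQC_8, mul_smul_comm, smul_mul_assoc,
    smul_add, smul_sub, RQC_EF h, RQC_EF' h, RQC_EH h, RQC_EH' h, RQC_HF h, RQC_HF' h,
    h.EE 1 0, RQC_c (h.EE 1 0), h.EE 2 0, RQC_c (h.EE 2 0),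
    h.EE 2 1, RQC_c (h.EE 2 1), h.EE 3 0, RQC_c (h.EE 3 0),
    h.EE 3 1, RQC_c (h.EE 3 1), h.EE 3 2, RQC_c (h.EE 3 2),
    h.HH 1 0, RQC_c (h.HH 1 0), h.HH 2 0, RQC_c (h.HH 2 0),
    h.HH 2 1, RQC_c (h.HH 2 1), h.HH 3 0, RQC_c (h.HH 3 0),
    h.HH 3 1, RQC_c (h.HH 3 1), h.HH 3 2, RQC_c (h.HH 3 2),
    h.FF 1 0, RQC_c (h.FF 1 0), h.FF 2 0, RQC_c (h.FF 2 0),
    h.FF 2 1, RQC_c (h.FF 2 1), h.FF 3 0, RQC_c (h.FF 3 0),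
    h.FF 3 1, RQC_c (h.FF 3 1), h.FF 3 2, RQC_c (h.FF 3 2),
    h.E0 4 (by norm_num), h.E0 5 (by norm_num), h.E0 6 (by norm_num),
    h.E0 7 (by norm_num), h.H0 4 (by norm_num), h.H0 5 (by norm_num),
    h.H0 6 (by norm_num), h.H0 7 (by norm_num), h.F0 4 (by norm_num),
    h.F0 5 (by norm_num), h.F0 6 (by norm_num), h.F0 7 (by norm_num),
    Nat.reduceAdd, zero_mul, mul_zero, smul_zero, sub_zero, add_zero, zero_add, zero_sub,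
    Nat.add_zero, Nat.zero_add]
  try abel

theorem RQC_E_3_0 (h : Rel E H F) : E 0 * (4 * (F 3 * E 3) + H 3 * H 3) =
    (4 * (F 3 * E 3) + H 3 * H 3) * E 0 := by
  simp only [mul_add, add_mul, mul_sub, sub_mul, mul_assoc, RQC_2, RQC_4, RQC_6, RQC_8, mul_smul_comm, smul_mul_assoc,
    smul_add, smul_sub, RQC_EF h, RQC_EF' h, RQC_EH h, RQC_EH' h, RQC_HF h, RQC_HF' h,
    h.EE 1 0, RQC_c (h.EE 1 0), h.EE 2 0, RQC_c (h.EE 2 0),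
    h.EE 2 1, RQC_c (h.EE 2 1), h.EE 3 0, RQC_c (h.EE 3 0),
    h.EE 3 1, RQC_c (h.EE 3 1), h.EE 3 2, RQC_c (h.EE 3 2),
    h.HH 1 0, RQC_c (h.HH 1 0), h.HH 2 0, RQC_c (h.HH 2 0),
    h.HH 2 1, RQC_c (h.HH 2 1), h.HH 3 0, RQC_c (h.HH 3 0),
    h.HH 3 1, RQC_c (h.HH 3 1), h.HH 3 2, RQC_c (h.HH 3 2),
    h.FF 1 0, RQC_c (h.FF 1 0), h.FF 2 0, RQC_c (h.FF 2 0),
    h.FF 2 1, RQC_c (h.FF 2 1), h.FF 3 0, RQC_c (h.FF 3 0),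
    h.FF 3 1, RQC_c (h.FF 3 1), h.FF 3 2, RQC_c (h.FF 3 2),
    h.E0 4 (by norm_num), h.E0 5 (by norm_num), h.E0 6 (by norm_num),
    h.E0 7 (by norm_num), h.H0 4 (by norm_num), h.H0 5 (by norm_num),
    h.H0 6 (by norm_num), h.H0 7 (by norm_num), h.F0 4 (by norm_num),
    h.F0 5 (by norm_num), h.F0 6 (by norm_num), h.F0 7 (by norm_num),
    Nat.reduceAdd, zero_mul, mul_zero, smul_zero, sub_zero, add_zero, zero_add, zero_sub,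
    Nat.add_zero, Nat.zero_add]
  try abel

theorem RQC_E_3_1 (h : Rel E H F) : E 1 * (4 * (F 3 * E 3) + H 3 * H 3) =
    (4 * (F 3 * E 3) + H 3 * H 3) * E 1 := by
  simp only [mul_add, add_mul, mul_sub, sub_mul, mul_assoc, RQC_2, RQC_4, RQC_6, RQC_8, mul_smul_comm, smul_mul_assoc,
    smul_add, smul_sub, RQC_EF h, RQC_EF' h, RQC_EH h, RQC_EH' h, RQC_HF h, RQC_HF' h,
    h.EE 1 0, RQC_c (h.EE 1 0), h.EE 2 0, RQC_c (h.EE 2 0),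
    h.EE 2 1, RQC_c (h.EE 2 1), h.EE 3 0, RQC_c (h.EE 3 0),
    h.EE 3 1, RQC_c (h.EE 3 1), h.EE 3 2, RQC_c (h.EE 3 2),
    h.HH 1 0, RQC_c (h.HH 1 0), h.HH 2 0, RQC_c (h.HH 2 0),
    h.HH 2 1, RQC_c (h.HH 2 1), h.HH 3 0, RQC_c (h.HH 3 0),
    h.HH 3 1, RQC_c (h.HH 3 1), h.HH 3 2, RQC_c (h.HH 3 2),
    h.FF 1 0, RQC_c (h.FF 1 0), h.FF 2 0, RQC_c (h.FF 2 0),
    h.FF 2 1, RQC_c (h.FF 2 1), h.FF 3 0, RQC_c (h.FF 3 0),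
    h.FF 3 1, RQC_c (h.FF 3 1), h.FF 3 2, RQC_c (h.FF 3 2),
    h.E0 4 (by norm_num), h.E0 5 (by norm_num), h.E0 6 (by norm_num),
    h.E0 7 (by norm_num), h.H0 4 (by norm_num), h.H0 5 (by norm_num),
    h.H0 6 (by norm_num), h.H0 7 (by norm_num), h.F0 4 (by norm_num),
    h.F0 5 (by norm_num), h.F0 6 (by norm_num), h.F0 7 (by norm_num),
    Nat.reduceAdd, zero_mul, mul_zero, smul_zero, sub_zero, add_zero, zero_add, zero_sub,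
    Nat.add_zero, Nat.zero_add]
  try abel

theorem RQC_E_3_2 (h : Rel E H F) : E 2 * (4 * (F 3 * E 3) + H 3 * H 3) =
    (4 * (F 3 * E 3) + H 3 * H 3) * E 2 := by
  simp only [mul_add, add_mul, mul_sub, sub_mul, mul_assoc, RQC_2, RQC_4, RQC_6, RQC_8, mul_smul_comm, smul_mul_assoc,
    smul_add, smul_sub, RQC_EF h, RQC_EF' h, RQC_EH h, RQC_EH' h, RQC_HF h, RQC_HF' h,
    h.EE 1 0, RQC_c (h.EE 1 0), h.EE 2 0, RQC_c (h.EE 2 0),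
    h.EE 2 1, RQC_c (h.EE 2 1), h.EE 3 0, RQC_c (h.EE 3 0),
    h.EE 3 1, RQC_c (h.EE 3 1), h.EE 3 2, RQC_c (h.EE 3 2),
    h.HH 1 0, RQC_c (h.HH 1 0), h.HH 2 0, RQC_c (h.HH 2 0),
    h.HH 2 1, RQC_c (h.HH 2 1), h.HH 3 0, RQC_c (h.HH 3 0),
    h.HH 3 1, RQC_c (h.HH 3 1), h.HH 3 2, RQC_c (h.HH 3 2),
    h.FF 1 0, RQC_c (h.FF 1 0), h.FF 2 0, RQC_c (h.FF 2 0),
    h.FF 2 1, RQC_c (h.FF 2 1), h.FF 3 0, RQC_c (h.FF 3 0),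
    h.FF 3 1, RQC_c (h.FF 3 1), h.FF 3 2, RQC_c (h.FF 3 2),
    h.E0 4 (by norm_num), h.E0 5 (by norm_num), h.E0 6 (by norm_num),
    h.E0 7 (by norm_num), h.H0 4 (by norm_num), h.H0 5 (by norm_num),
    h.H0 6 (by norm_num), h.H0 7 (by norm_num), h.F0 4 (by norm_num),
    h.F0 5 (by norm_num), h.F0 6 (by norm_num), h.F0 7 (by norm_num),
    Nat.reduceAdd, zero_mul, mul_zero, smul_zero, sub_zero, add_zero, zero_add, zero_sub,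
    Nat.add_zero, Nat.zero_add]
  try abel

theorem RQC_E_3_3 (h : Rel E H F) : E 3 * (4 * (F 3 * E 3) + H 3 * H 3) =
    (4 * (F 3 * E 3) + H 3 * H 3) * E 3 := by
  simp only [mul_add, add_mul, mul_sub, sub_mul, mul_assoc, RQC_2, RQC_4, RQC_6, RQC_8, mul_smul_comm, smul_mul_assoc,
    smul_add, smul_sub, RQC_EF h, RQC_EF' h, RQC_EH h, RQC_EH' h, RQC_HF h, RQC_HF' h,
    h.EE 1 0, RQC_c (h.EE 1 0), h.EE 2 0, RQC_c (h.EE 2 0),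
    h.EE 2 1, RQC_c (h.EE 2 1), h.EE 3 0, RQC_c (h.EE 3 0),
    h.EE 3 1, RQC_c (h.EE 3 1), h.EE 3 2, RQC_c (h.EE 3 2),
    h.HH 1 0, RQC_c (h.HH 1 0), h.HH 2 0, RQC_c (h.HH 2 0),
    h.HH 2 1, RQC_c (h.HH 2 1), h.HH 3 0, RQC_c (h.HH 3 0),
    h.HH 3 1, RQC_c (h.HH 3 1), h.HH 3 2, RQC_c (h.HH 3 2),
    h.FF 1 0, RQC_c (h.FF 1 0), h.FF 2 0, RQC_c (h.FF 2 0),
    h.FF 2 1, RQC_c (h.FF 2 1), h.FF 3 0, RQC_c (h.FF 3 0),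
    h.FF 3 1, RQC_c (h.FF 3 1), h.FF 3 2, RQC_c (h.FF 3 2),
    h.E0 4 (by norm_num), h.E0 5 (by norm_num), h.E0 6 (by norm_num),
    h.E0 7 (by norm_num), h.H0 4 (by norm_num), h.H0 5 (by norm_num),
    h.H0 6 (by norm_num), h.H0 7 (by norm_num), h.F0 4 (by norm_num),
    h.F0 5 (by norm_num), h.F0 6 (by norm_num), h.F0 7 (by norm_num),
    Nat.reduceAdd, zero_mul, mul_zero, smul_zero, sub_zero, add_zero, zero_add, zero_sub,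
    Nat.add_zero, Nat.zero_add]
  try abel

theorem RQC_H_0_0 (h : Rel E H F) : H 0 * (4 * (F 3 * E 0 + F 2 * E 1 + F 1 * E 2 + F 0 * E 3) + 8 * H 3 + 2 * (H 0 * H 3)
      + 2 * (H 1 * H 2)) =
    (4 * (F 3 * E 0 + F 2 * E 1 + F 1 * E 2 + F 0 * E 3) + 8 * H 3 + 2 * (H 0 * H 3)
      + 2 * (H 1 * H 2)) * H 0 := by
  simp only [mul_add, add_mul, mul_sub, sub_mul, mul_assoc, RQC_2, RQC_4, RQC_6, RQC_8, mul_smul_comm, smul_mul_assoc,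
    smul_add, smul_sub, RQC_EF h, RQC_EF' h, RQC_EH h, RQC_EH' h, RQC_HF h, RQC_HF' h,
    h.EE 1 0, RQC_c (h.EE 1 0), h.EE 2 0, RQC_c (h.EE 2 0),
    h.EE 2 1, RQC_c (h.EE 2 1), h.EE 3 0, RQC_c (h.EE 3 0),
    h.EE 3 1, RQC_c (h.EE 3 1), h.EE 3 2, RQC_c (h.EE 3 2),
    h.HH 1 0, RQC_c (h.HH 1 0), h.HH 2 0, RQC_c (h.HH 2 0),
    h.HH 2 1, RQC_c (h.HH 2 1), h.HH 3 0, RQC_c (h.HH 3 0),
    h.HH 3 1, RQC_c (h.HH 3 1), h.HH 3 2, RQC_c (h.HH 3 2),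
    h.FF 1 0, RQC_c (h.FF 1 0), h.FF 2 0, RQC_c (h.FF 2 0),
    h.FF 2 1, RQC_c (h.FF 2 1), h.FF 3 0, RQC_c (h.FF 3 0),
    h.FF 3 1, RQC_c (h.FF 3 1), h.FF 3 2, RQC_c (h.FF 3 2),
    h.E0 4 (by norm_num), h.E0 5 (by norm_num), h.E0 6 (by norm_num),
    h.E0 7 (by norm_num), h.H0 4 (by norm_num), h.H0 5 (by norm_num),
    h.H0 6 (by norm_num), h.H0 7 (by norm_num), h.F0 4 (by norm_num),
    h.F0 5 (by norm_num), h.F0 6 (by norm_num), h.F0 7 (by norm_num),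
    Nat.reduceAdd, zero_mul, mul_zero, smul_zero, sub_zero, add_zero, zero_add, zero_sub,
    Nat.add_zero, Nat.zero_add]
  try abel

theorem RQC_H_0_1 (h : Rel E H F) : H 1 * (4 * (F 3 * E 0 + F 2 * E 1 + F 1 * E 2 + F 0 * E 3) + 8 * H 3 + 2 * (H 0 * H 3)
      + 2 * (H 1 * H 2)) =
    (4 * (F 3 * E 0 + F 2 * E 1 + F 1 * E 2 + F 0 * E 3) + 8 * H 3 + 2 * (H 0 * H 3)
      + 2 * (H 1 * H 2)) * H 1 := by
  simp only [mul_add, add_mul, mul_sub, sub_mul, mul_assoc, RQC_2, RQC_4, RQC_6, RQC_8, mul_smul_comm, smul_mul_assoc,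
    smul_add, smul_sub, RQC_EF h, RQC_EF' h, RQC_EH h, RQC_EH' h, RQC_HF h, RQC_HF' h,
    h.EE 1 0, RQC_c (h.EE 1 0), h.EE 2 0, RQC_c (h.EE 2 0),
    h.EE 2 1, RQC_c (h.EE 2 1), h.EE 3 0, RQC_c (h.EE 3 0),
    h.EE 3 1, RQC_c (h.EE 3 1), h.EE 3 2, RQC_c (h.EE 3 2),
    h.HH 1 0, RQC_c (h.HH 1 0), h.HH 2 0, RQC_c (h.HH 2 0),
    h.HH 2 1, RQC_c (h.HH 2 1), h.HH 3 0, RQC_c (h.HH 3 0),
    h.HH 3 1, RQC_c (h.HH 3 1), h.HH 3 2, RQC_c (h.HH 3 2),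
    h.FF 1 0, RQC_c (h.FF 1 0), h.FF 2 0, RQC_c (h.FF 2 0),
    h.FF 2 1, RQC_c (h.FF 2 1), h.FF 3 0, RQC_c (h.FF 3 0),
    h.FF 3 1, RQC_c (h.FF 3 1), h.FF 3 2, RQC_c (h.FF 3 2),
    h.E0 4 (by norm_num), h.E0 5 (by norm_num), h.E0 6 (by norm_num),
    h.E0 7 (by norm_num), h.H0 4 (by norm_num), h.H0 5 (by norm_num),
    h.H0 6 (by norm_num), h.H0 7 (by norm_num), h.F0 4 (by norm_num),
    h.F0 5 (by norm_num), h.F0 6 (by norm_num), h.F0 7 (by norm_num),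
    Nat.reduceAdd, zero_mul, mul_zero, smul_zero, sub_zero, add_zero, zero_add, zero_sub,
    Nat.add_zero, Nat.zero_add]
  try abel

theorem RQC_H_0_2 (h : Rel E H F) : H 2 * (4 * (F 3 * E 0 + F 2 * E 1 + F 1 * E 2 + F 0 * E 3) + 8 * H 3 + 2 * (H 0 * H 3)
      + 2 * (H 1 * H 2)) =
    (4 * (F 3 * E 0 + F 2 * E 1 + F 1 * E 2 + F 0 * E 3) + 8 * H 3 + 2 * (H 0 * H 3)
      + 2 * (H 1 * H 2)) * H 2 := by
  simp only [mul_add, add_mul, mul_sub, sub_mul, mul_assoc, RQC_2, RQC_4, RQC_6, RQC_8, mul_smul_comm, smul_mul_assoc,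
    smul_add, smul_sub, RQC_EF h, RQC_EF' h, RQC_EH h, RQC_EH' h, RQC_HF h, RQC_HF' h,
    h.EE 1 0, RQC_c (h.EE 1 0), h.EE 2 0, RQC_c (h.EE 2 0),
    h.EE 2 1, RQC_c (h.EE 2 1), h.EE 3 0, RQC_c (h.EE 3 0),
    h.EE 3 1, RQC_c (h.EE 3 1), h.EE 3 2, RQC_c (h.EE 3 2),
    h.HH 1 0, RQC_c (h.HH 1 0), h.HH 2 0, RQC_c (h.HH 2 0),
    h.HH 2 1, RQC_c (h.HH 2 1), h.HH 3 0, RQC_c (h.HH 3 0),
    h.HH 3 1, RQC_c (h.HH 3 1), h.HH 3 2, RQC_c (h.HH 3 2),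
    h.FF 1 0, RQC_c (h.FF 1 0), h.FF 2 0, RQC_c (h.FF 2 0),
    h.FF 2 1, RQC_c (h.FF 2 1), h.FF 3 0, RQC_c (h.FF 3 0),
    h.FF 3 1, RQC_c (h.FF 3 1), h.FF 3 2, RQC_c (h.FF 3 2),
    h.E0 4 (by norm_num), h.E0 5 (by norm_num), h.E0 6 (by norm_num),
    h.E0 7 (by norm_num), h.H0 4 (by norm_num), h.H0 5 (by norm_num),
    h.H0 6 (by norm_num), h.H0 7 (by norm_num), h.F0 4 (by norm_num),
    h.F0 5 (by norm_num), h.F0 6 (by norm_num), h.F0 7 (by norm_num),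
    Nat.reduceAdd, zero_mul, mul_zero, smul_zero, sub_zero, add_zero, zero_add, zero_sub,
    Nat.add_zero, Nat.zero_add]
  try abel

theorem RQC_H_0_3 (h : Rel E H F) : H 3 * (4 * (F 3 * E 0 + F 2 * E 1 + F 1 * E 2 + F 0 * E 3) + 8 * H 3 + 2 * (H 0 * H 3)
      + 2 * (H 1 * H 2)) =
    (4 * (F 3 * E 0 + F 2 * E 1 + F 1 * E 2 + F 0 * E 3) + 8 * H 3 + 2 * (H 0 * H 3)
      + 2 * (H 1 * H 2)) * H 3 := by
  simp only [mul_add, add_mul, mul_sub, sub_mul, mul_assoc, RQC_2, RQC_4, RQC_6, RQC_8, mul_smul_comm, smul_mul_assoc,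
    smul_add, smul_sub, RQC_EF h, RQC_EF' h, RQC_EH h, RQC_EH' h, RQC_HF h, RQC_HF' h,
    h.EE 1 0, RQC_c (h.EE 1 0), h.EE 2 0, RQC_c (h.EE 2 0),
    h.EE 2 1, RQC_c (h.EE 2 1), h.EE 3 0, RQC_c (h.EE 3 0),
    h.EE 3 1, RQC_c (h.EE 3 1), h.EE 3 2, RQC_c (h.EE 3 2),
    h.HH 1 0, RQC_c (h.HH 1 0), h.HH 2 0, RQC_c (h.HH 2 0),
    h.HH 2 1, RQC_c (h.HH 2 1), h.HH 3 0, RQC_c (h.HH 3 0),
    h.HH 3 1, RQC_c (h.HH 3 1), h.HH 3 2, RQC_c (h.HH 3 2),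
    h.FF 1 0, RQC_c (h.FF 1 0), h.FF 2 0, RQC_c (h.FF 2 0),
    h.FF 2 1, RQC_c (h.FF 2 1), h.FF 3 0, RQC_c (h.FF 3 0),
    h.FF 3 1, RQC_c (h.FF 3 1), h.FF 3 2, RQC_c (h.FF 3 2),
    h.E0 4 (by norm_num), h.E0 5 (by norm_num), h.E0 6 (by norm_num),
    h.E0 7 (by norm_num), h.H0 4 (by norm_num), h.H0 5 (by norm_num),
    h.H0 6 (by norm_num), h.H0 7 (by norm_num), h.F0 4 (by norm_num),
    h.F0 5 (by norm_num), h.F0 6 (by norm_num), h.F0 7 (by norm_num),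
    Nat.reduceAdd, zero_mul, mul_zero, smul_zero, sub_zero, add_zero, zero_add, zero_sub,
    Nat.add_zero, Nat.zero_add]
  try abel

theorem RQC_H_1_0 (h : Rel E H F) : H 0 * (4 * (F 3 * E 1 + F 2 * E 2 + F 1 * E 3) + 2 * (H 1 * H 3) + H 2 * H 2) =
    (4 * (F 3 * E 1 + F 2 * E 2 + F 1 * E 3) + 2 * (H 1 * H 3) + H 2 * H 2) * H 0 := by
  simp only [mul_add, add_mul, mul_sub, sub_mul, mul_assoc, RQC_2, RQC_4, RQC_6, RQC_8, mul_smul_comm, smul_mul_assoc,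
    smul_add, smul_sub, RQC_EF h, RQC_EF' h, RQC_EH h, RQC_EH' h, RQC_HF h, RQC_HF' h,
    h.EE 1 0, RQC_c (h.EE 1 0), h.EE 2 0, RQC_c (h.EE 2 0),
    h.EE 2 1, RQC_c (h.EE 2 1), h.EE 3 0, RQC_c (h.EE 3 0),
    h.EE 3 1, RQC_c (h.EE 3 1), h.EE 3 2, RQC_c (h.EE 3 2),
    h.HH 1 0, RQC_c (h.HH 1 0), h.HH 2 0, RQC_c (h.HH 2 0),
    h.HH 2 1, RQC_c (h.HH 2 1), h.HH 3 0, RQC_c (h.HH 3 0),
    h.HH 3 1, RQC_c (h.HH 3 1), h.HH 3 2, RQC_c (h.HH 3 2),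
    h.FF 1 0, RQC_c (h.FF 1 0), h.FF 2 0, RQC_c (h.FF 2 0),
    h.FF 2 1, RQC_c (h.FF 2 1), h.FF 3 0, RQC_c (h.FF 3 0),
    h.FF 3 1, RQC_c (h.FF 3 1), h.FF 3 2, RQC_c (h.FF 3 2),
    h.E0 4 (by norm_num), h.E0 5 (by norm_num), h.E0 6 (by norm_num),
    h.E0 7 (by norm_num), h.H0 4 (by norm_num), h.H0 5 (by norm_num),
    h.H0 6 (by norm_num), h.H0 7 (by norm_num), h.F0 4 (by norm_num),
    h.F0 5 (by norm_num), h.F0 6 (by norm_num), h.F0 7 (by norm_num),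
    Nat.reduceAdd, zero_mul, mul_zero, smul_zero, sub_zero, add_zero, zero_add, zero_sub,
    Nat.add_zero, Nat.zero_add]
  try abel

theorem RQC_H_1_1 (h : Rel E H F) : H 1 * (4 * (F 3 * E 1 + F 2 * E 2 + F 1 * E 3) + 2 * (H 1 * H 3) + H 2 * H 2) =
    (4 * (F 3 * E 1 + F 2 * E 2 + F 1 * E 3) + 2 * (H 1 * H 3) + H 2 * H 2) * H 1 := by
  simp only [mul_add, add_mul, mul_sub, sub_mul, mul_assoc, RQC_2, RQC_4, RQC_6, RQC_8, mul_smul_comm, smul_mul_assoc,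
    smul_add, smul_sub, RQC_EF h, RQC_EF' h, RQC_EH h, RQC_EH' h, RQC_HF h, RQC_HF' h,
    h.EE 1 0, RQC_c (h.EE 1 0), h.EE 2 0, RQC_c (h.EE 2 0),
    h.EE 2 1, RQC_c (h.EE 2 1), h.EE 3 0, RQC_c (h.EE 3 0),
    h.EE 3 1, RQC_c (h.EE 3 1), h.EE 3 2, RQC_c (h.EE 3 2),
    h.HH 1 0, RQC_c (h.HH 1 0), h.HH 2 0, RQC_c (h.HH 2 0),
    h.HH 2 1, RQC_c (h.HH 2 1), h.HH 3 0, RQC_c (h.HH 3 0),
    h.HH 3 1, RQC_c (h.HH 3 1), h.HH 3 2, RQC_c (h.HH 3 2),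
    h.FF 1 0, RQC_c (h.FF 1 0), h.FF 2 0, RQC_c (h.FF 2 0),
    h.FF 2 1, RQC_c (h.FF 2 1), h.FF 3 0, RQC_c (h.FF 3 0),
    h.FF 3 1, RQC_c (h.FF 3 1), h.FF 3 2, RQC_c (h.FF 3 2),
    h.E0 4 (by norm_num), h.E0 5 (by norm_num), h.E0 6 (by norm_num),
    h.E0 7 (by norm_num), h.H0 4 (by norm_num), h.H0 5 (by norm_num),
    h.H0 6 (by norm_num), h.H0 7 (by norm_num), h.F0 4 (by norm_num),
    h.F0 5 (by norm_num), h.F0 6 (by norm_num), h.F0 7 (by norm_num),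
    Nat.reduceAdd, zero_mul, mul_zero, smul_zero, sub_zero, add_zero, zero_add, zero_sub,
    Nat.add_zero, Nat.zero_add]
  try abel

theorem RQC_H_1_2 (h : Rel E H F) : H 2 * (4 * (F 3 * E 1 + F 2 * E 2 + F 1 * E 3) + 2 * (H 1 * H 3) + H 2 * H 2) =
    (4 * (F 3 * E 1 + F 2 * E 2 + F 1 * E 3) + 2 * (H 1 * H 3) + H 2 * H 2) * H 2 := by
  simp only [mul_add, add_mul, mul_sub, sub_mul, mul_assoc, RQC_2, RQC_4, RQC_6, RQC_8, mul_smul_comm, smul_mul_assoc,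
    smul_add, smul_sub, RQC_EF h, RQC_EF' h, RQC_EH h, RQC_EH' h, RQC_HF h, RQC_HF' h,
    h.EE 1 0, RQC_c (h.EE 1 0), h.EE 2 0, RQC_c (h.EE 2 0),
    h.EE 2 1, RQC_c (h.EE 2 1), h.EE 3 0, RQC_c (h.EE 3 0),
    h.EE 3 1, RQC_c (h.EE 3 1), h.EE 3 2, RQC_c (h.EE 3 2),
    h.HH 1 0, RQC_c (h.HH 1 0), h.HH 2 0, RQC_c (h.HH 2 0),
    h.HH 2 1, RQC_c (h.HH 2 1), h.HH 3 0, RQC_c (h.HH 3 0),
    h.HH 3 1, RQC_c (h.HH 3 1), h.HH 3 2, RQC_c (h.HH 3 2),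
    h.FF 1 0, RQC_c (h.FF 1 0), h.FF 2 0, RQC_c (h.FF 2 0),
    h.FF 2 1, RQC_c (h.FF 2 1), h.FF 3 0, RQC_c (h.FF 3 0),
    h.FF 3 1, RQC_c (h.FF 3 1), h.FF 3 2, RQC_c (h.FF 3 2),
    h.E0 4 (by norm_num), h.E0 5 (by norm_num), h.E0 6 (by norm_num),
    h.E0 7 (by norm_num), h.H0 4 (by norm_num), h.H0 5 (by norm_num),
    h.H0 6 (by norm_num), h.H0 7 (by norm_num), h.F0 4 (by norm_num),
    h.F0 5 (by norm_num), h.F0 6 (by norm_num), h.F0 7 (by norm_num),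
    Nat.reduceAdd, zero_mul, mul_zero, smul_zero, sub_zero, add_zero, zero_add, zero_sub,
    Nat.add_zero, Nat.zero_add]
  try abel

theorem RQC_H_1_3 (h : Rel E H F) : H 3 * (4 * (F 3 * E 1 + F 2 * E 2 + F 1 * E 3) + 2 * (H 1 * H 3) + H 2 * H 2) =
    (4 * (F 3 * E 1 + F 2 * E 2 + F 1 * E 3) + 2 * (H 1 * H 3) + H 2 * H 2) * H 3 := by
  simp only [mul_add, add_mul, mul_sub, sub_mul, mul_assoc, RQC_2, RQC_4, RQC_6, RQC_8, mul_smul_comm, smul_mul_assoc,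
    smul_add, smul_sub, RQC_EF h, RQC_EF' h, RQC_EH h, RQC_EH' h, RQC_HF h, RQC_HF' h,
    h.EE 1 0, RQC_c (h.EE 1 0), h.EE 2 0, RQC_c (h.EE 2 0),
    h.EE 2 1, RQC_c (h.EE 2 1), h.EE 3 0, RQC_c (h.EE 3 0),
    h.EE 3 1, RQC_c (h.EE 3 1), h.EE 3 2, RQC_c (h.EE 3 2),
    h.HH 1 0, RQC_c (h.HH 1 0), h.HH 2 0, RQC_c (h.HH 2 0),
    h.HH 2 1, RQC_c (h.HH 2 1), h.HH 3 0, RQC_c (h.HH 3 0),
    h.HH 3 1, RQC_c (h.HH 3 1), h.HH 3 2, RQC_c (h.HH 3 2),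
    h.FF 1 0, RQC_c (h.FF 1 0), h.FF 2 0, RQC_c (h.FF 2 0),
    h.FF 2 1, RQC_c (h.FF 2 1), h.FF 3 0, RQC_c (h.FF 3 0),
    h.FF 3 1, RQC_c (h.FF 3 1), h.FF 3 2, RQC_c (h.FF 3 2),
    h.E0 4 (by norm_num), h.E0 5 (by norm_num), h.E0 6 (by norm_num),
    h.E0 7 (by norm_num), h.H0 4 (by norm_num), h.H0 5 (by norm_num),
    h.H0 6 (by norm_num), h.H0 7 (by norm_num), h.F0 4 (by norm_num),
    h.F0 5 (by norm_num), h.F0 6 (by norm_num), h.F0 7 (by norm_num),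
    Nat.reduceAdd, zero_mul, mul_zero, smul_zero, sub_zero, add_zero, zero_add, zero_sub,
    Nat.add_zero, Nat.zero_add]
  try abel

theorem RQC_H_2_0 (h : Rel E H F) : H 0 * (4 * (F 3 * E 2 + F 2 * E 3) + 2 * (H 2 * H 3)) =
    (4 * (F 3 * E 2 + F 2 * E 3) + 2 * (H 2 * H 3)) * H 0 := by
  simp only [mul_add, add_mul, mul_sub, sub_mul, mul_assoc, RQC_2, RQC_4, RQC_6, RQC_8, mul_smul_comm, smul_mul_assoc,
    smul_add, smul_sub, RQC_EF h, RQC_EF' h, RQC_EH h, RQC_EH' h, RQC_HF h, RQC_HF' h,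
    h.EE 1 0, RQC_c (h.EE 1 0), h.EE 2 0, RQC_c (h.EE 2 0),
    h.EE 2 1, RQC_c (h.EE 2 1), h.EE 3 0, RQC_c (h.EE 3 0),
    h.EE 3 1, RQC_c (h.EE 3 1), h.EE 3 2, RQC_c (h.EE 3 2),
    h.HH 1 0, RQC_c (h.HH 1 0), h.HH 2 0, RQC_c (h.HH 2 0),
    h.HH 2 1, RQC_c (h.HH 2 1), h.HH 3 0, RQC_c (h.HH 3 0),
    h.HH 3 1, RQC_c (h.HH 3 1), h.HH 3 2, RQC_c (h.HH 3 2),
    h.FF 1 0, RQC_c (h.FF 1 0), h.FF 2 0, RQC_c (h.FF 2 0),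
    h.FF 2 1, RQC_c (h.FF 2 1), h.FF 3 0, RQC_c (h.FF 3 0),
    h.FF 3 1, RQC_c (h.FF 3 1), h.FF 3 2, RQC_c (h.FF 3 2),
    h.E0 4 (by norm_num), h.E0 5 (by norm_num), h.E0 6 (by norm_num),
    h.E0 7 (by norm_num), h.H0 4 (by norm_num), h.H0 5 (by norm_num),
    h.H0 6 (by norm_num), h.H0 7 (by norm_num), h.F0 4 (by norm_num),
    h.F0 5 (by norm_num), h.F0 6 (by norm_num), h.F0 7 (by norm_num),
    Nat.reduceAdd, zero_mul, mul_zero, smul_zero, sub_zero, add_zero, zero_add, zero_sub,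
    Nat.add_zero, Nat.zero_add]
  try abel

theorem RQC_H_2_1 (h : Rel E H F) : H 1 * (4 * (F 3 * E 2 + F 2 * E 3) + 2 * (H 2 * H 3)) =
    (4 * (F 3 * E 2 + F 2 * E 3) + 2 * (H 2 * H 3)) * H 1 := by
  simp only [mul_add, add_mul, mul_sub, sub_mul, mul_assoc, RQC_2, RQC_4, RQC_6, RQC_8, mul_smul_comm, smul_mul_assoc,
    smul_add, smul_sub, RQC_EF h, RQC_EF' h, RQC_EH h, RQC_EH' h, RQC_HF h, RQC_HF' h,
    h.EE 1 0, RQC_c (h.EE 1 0), h.EE 2 0, RQC_c (h.EE 2 0),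
    h.EE 2 1, RQC_c (h.EE 2 1), h.EE 3 0, RQC_c (h.EE 3 0),
    h.EE 3 1, RQC_c (h.EE 3 1), h.EE 3 2, RQC_c (h.EE 3 2),
    h.HH 1 0, RQC_c (h.HH 1 0), h.HH 2 0, RQC_c (h.HH 2 0),
    h.HH 2 1, RQC_c (h.HH 2 1), h.HH 3 0, RQC_c (h.HH 3 0),
    h.HH 3 1, RQC_c (h.HH 3 1), h.HH 3 2, RQC_c (h.HH 3 2),
    h.FF 1 0, RQC_c (h.FF 1 0), h.FF 2 0, RQC_c (h.FF 2 0),
    h.FF 2 1, RQC_c (h.FF 2 1), h.FF 3 0, RQC_c (h.FF 3 0),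
    h.FF 3 1, RQC_c (h.FF 3 1), h.FF 3 2, RQC_c (h.FF 3 2),
    h.E0 4 (by norm_num), h.E0 5 (by norm_num), h.E0 6 (by norm_num),
    h.E0 7 (by norm_num), h.H0 4 (by norm_num), h.H0 5 (by norm_num),
    h.H0 6 (by norm_num), h.H0 7 (by norm_num), h.F0 4 (by norm_num),
    h.F0 5 (by norm_num), h.F0 6 (by norm_num), h.F0 7 (by norm_num),
    Nat.reduceAdd, zero_mul, mul_zero, smul_zero, sub_zero, add_zero, zero_add, zero_sub,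
    Nat.add_zero, Nat.zero_add]
  try abel

theorem RQC_H_2_2 (h : Rel E H F) : H 2 * (4 * (F 3 * E 2 + F 2 * E 3) + 2 * (H 2 * H 3)) =
    (4 * (F 3 * E 2 + F 2 * E 3) + 2 * (H 2 * H 3)) * H 2 := by
  simp only [mul_add, add_mul, mul_sub, sub_mul, mul_assoc, RQC_2, RQC_4, RQC_6, RQC_8, mul_smul_comm, smul_mul_assoc,
    smul_add, smul_sub, RQC_EF h, RQC_EF' h, RQC_EH h, RQC_EH' h, RQC_HF h, RQC_HF' h,
    h.EE 1 0, RQC_c (h.EE 1 0), h.EE 2 0, RQC_c (h.EE 2 0),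
    h.EE 2 1, RQC_c (h.EE 2 1), h.EE 3 0, RQC_c (h.EE 3 0),
    h.EE 3 1, RQC_c (h.EE 3 1), h.EE 3 2, RQC_c (h.EE 3 2),
    h.HH 1 0, RQC_c (h.HH 1 0), h.HH 2 0, RQC_c (h.HH 2 0),
    h.HH 2 1, RQC_c (h.HH 2 1), h.HH 3 0, RQC_c (h.HH 3 0),
    h.HH 3 1, RQC_c (h.HH 3 1), h.HH 3 2, RQC_c (h.HH 3 2),
    h.FF 1 0, RQC_c (h.FF 1 0), h.FF 2 0, RQC_c (h.FF 2 0),
    h.FF 2 1, RQC_c (h.FF 2 1), h.FF 3 0, RQC_c (h.FF 3 0),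
    h.FF 3 1, RQC_c (h.FF 3 1), h.FF 3 2, RQC_c (h.FF 3 2),
    h.E0 4 (by norm_num), h.E0 5 (by norm_num), h.E0 6 (by norm_num),
    h.E0 7 (by norm_num), h.H0 4 (by norm_num), h.H0 5 (by norm_num),
    h.H0 6 (by norm_num), h.H0 7 (by norm_num), h.F0 4 (by norm_num),
    h.F0 5 (by norm_num), h.F0 6 (by norm_num), h.F0 7 (by norm_num),
    Nat.reduceAdd, zero_mul, mul_zero, smul_zero, sub_zero, add_zero, zero_add, zero_sub,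
    Nat.add_zero, Nat.zero_add]
  try abel

theorem RQC_H_2_3 (h : Rel E H F) : H 3 * (4 * (F 3 * E 2 + F 2 * E 3) + 2 * (H 2 * H 3)) =
    (4 * (F 3 * E 2 + F 2 * E 3) + 2 * (H 2 * H 3)) * H 3 := by
  simp only [mul_add, add_mul, mul_sub, sub_mul, mul_assoc, RQC_2, RQC_4, RQC_6, RQC_8, mul_smul_comm, smul_mul_assoc,
    smul_add, smul_sub, RQC_EF h, RQC_EF' h, RQC_EH h, RQC_EH' h, RQC_HF h, RQC_HF' h,
    h.EE 1 0, RQC_c (h.EE 1 0), h.EE 2 0, RQC_c (h.EE 2 0),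
    h.EE 2 1, RQC_c (h.EE 2 1), h.EE 3 0, RQC_c (h.EE 3 0),
    h.EE 3 1, RQC_c (h.EE 3 1), h.EE 3 2, RQC_c (h.EE 3 2),
    h.HH 1 0, RQC_c (h.HH 1 0), h.HH 2 0, RQC_c (h.HH 2 0),
    h.HH 2 1, RQC_c (h.HH 2 1), h.HH 3 0, RQC_c (h.HH 3 0),
    h.HH 3 1, RQC_c (h.HH 3 1), h.HH 3 2, RQC_c (h.HH 3 2),
    h.FF 1 0, RQC_c (h.FF 1 0), h.FF 2 0, RQC_c (h.FF 2 0),
    h.FF 2 1, RQC_c (h.FF 2 1), h.FF 3 0, RQC_c (h.FF 3 0),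
    h.FF 3 1, RQC_c (h.FF 3 1), h.FF 3 2, RQC_c (h.FF 3 2),
    h.E0 4 (by norm_num), h.E0 5 (by norm_num), h.E0 6 (by norm_num),
    h.E0 7 (by norm_num), h.H0 4 (by norm_num), h.H0 5 (by norm_num),
    h.H0 6 (by norm_num), h.H0 7 (by norm_num), h.F0 4 (by norm_num),
    h.F0 5 (by norm_num), h.F0 6 (by norm_num), h.F0 7 (by norm_num),
    Nat.reduceAdd, zero_mul, mul_zero, smul_zero, sub_zero, add_zero, zero_add, zero_sub,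
    Nat.add_zero, Nat.zero_add]
  try abel

theorem RQC_H_3_0 (h : Rel E H F) : H 0 * (4 * (F 3 * E 3) + H 3 * H 3) =
    (4 * (F 3 * E 3) + H 3 * H 3) * H 0 := by
  simp only [mul_add, add_mul, mul_sub, sub_mul, mul_assoc, RQC_2, RQC_4, RQC_6, RQC_8, mul_smul_comm, smul_mul_assoc,
    smul_add, smul_sub, RQC_EF h, RQC_EF' h, RQC_EH h, RQC_EH' h, RQC_HF h, RQC_HF' h,
    h.EE 1 0, RQC_c (h.EE 1 0), h.EE 2 0, RQC_c (h.EE 2 0),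
    h.EE 2 1, RQC_c (h.EE 2 1), h.EE 3 0, RQC_c (h.EE 3 0),
    h.EE 3 1, RQC_c (h.EE 3 1), h.EE 3 2, RQC_c (h.EE 3 2),
    h.HH 1 0, RQC_c (h.HH 1 0), h.HH 2 0, RQC_c (h.HH 2 0),
    h.HH 2 1, RQC_c (h.HH 2 1), h.HH 3 0, RQC_c (h.HH 3 0),
    h.HH 3 1, RQC_c (h.HH 3 1), h.HH 3 2, RQC_c (h.HH 3 2),
    h.FF 1 0, RQC_c (h.FF 1 0), h.FF 2 0, RQC_c (h.FF 2 0),
    h.FF 2 1, RQC_c (h.FF 2 1), h.FF 3 0, RQC_c (h.FF 3 0),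
    h.FF 3 1, RQC_c (h.FF 3 1), h.FF 3 2, RQC_c (h.FF 3 2),
    h.E0 4 (by norm_num), h.E0 5 (by norm_num), h.E0 6 (by norm_num),
    h.E0 7 (by norm_num), h.H0 4 (by norm_num), h.H0 5 (by norm_num),
    h.H0 6 (by norm_num), h.H0 7 (by norm_num), h.F0 4 (by norm_num),
    h.F0 5 (by norm_num), h.F0 6 (by norm_num), h.F0 7 (by norm_num),
    Nat.reduceAdd, zero_mul, mul_zero, smul_zero, sub_zero, add_zero, zero_add, zero_sub,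
    Nat.add_zero, Nat.zero_add]
  try abel

theorem RQC_H_3_1 (h : Rel E H F) : H 1 * (4 * (F 3 * E 3) + H 3 * H 3) =
    (4 * (F 3 * E 3) + H 3 * H 3) * H 1 := by
  simp only [mul_add, add_mul, mul_sub, sub_mul, mul_assoc, RQC_2, RQC_4, RQC_6, RQC_8, mul_smul_comm, smul_mul_assoc,
    smul_add, smul_sub, RQC_EF h, RQC_EF' h, RQC_EH h, RQC_EH' h, RQC_HF h, RQC_HF' h,
    h.EE 1 0, RQC_c (h.EE 1 0), h.EE 2 0, RQC_c (h.EE 2 0),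
    h.EE 2 1, RQC_c (h.EE 2 1), h.EE 3 0, RQC_c (h.EE 3 0),
    h.EE 3 1, RQC_c (h.EE 3 1), h.EE 3 2, RQC_c (h.EE 3 2),
    h.HH 1 0, RQC_c (h.HH 1 0), h.HH 2 0, RQC_c (h.HH 2 0),
    h.HH 2 1, RQC_c (h.HH 2 1), h.HH 3 0, RQC_c (h.HH 3 0),
    h.HH 3 1, RQC_c (h.HH 3 1), h.HH 3 2, RQC_c (h.HH 3 2),
    h.FF 1 0, RQC_c (h.FF 1 0), h.FF 2 0, RQC_c (h.FF 2 0),
    h.FF 2 1, RQC_c (h.FF 2 1), h.FF 3 0, RQC_c (h.FF 3 0),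
    h.FF 3 1, RQC_c (h.FF 3 1), h.FF 3 2, RQC_c (h.FF 3 2),
    h.E0 4 (by norm_num), h.E0 5 (by norm_num), h.E0 6 (by norm_num),
    h.E0 7 (by norm_num), h.H0 4 (by norm_num), h.H0 5 (by norm_num),
    h.H0 6 (by norm_num), h.H0 7 (by norm_num), h.F0 4 (by norm_num),
    h.F0 5 (by norm_num), h.F0 6 (by norm_num), h.F0 7 (by norm_num),
    Nat.reduceAdd, zero_mul, mul_zero, smul_zero, sub_zero, add_zero, zero_add, zero_sub,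
    Nat.add_zero, Nat.zero_add]
  try abel

theorem RQC_H_3_2 (h : Rel E H F) : H 2 * (4 * (F 3 * E 3) + H 3 * H 3) =
    (4 * (F 3 * E 3) + H 3 * H 3) * H 2 := by
  simp only [mul_add, add_mul, mul_sub, sub_mul, mul_assoc, RQC_2, RQC_4, RQC_6, RQC_8, mul_smul_comm, smul_mul_assoc,
    smul_add, smul_sub, RQC_EF h, RQC_EF' h, RQC_EH h, RQC_EH' h, RQC_HF h, RQC_HF' h,
    h.EE 1 0, RQC_c (h.EE 1 0), h.EE 2 0, RQC_c (h.EE 2 0),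
    h.EE 2 1, RQC_c (h.EE 2 1), h.EE 3 0, RQC_c (h.EE 3 0),
    h.EE 3 1, RQC_c (h.EE 3 1), h.EE 3 2, RQC_c (h.EE 3 2),
    h.HH 1 0, RQC_c (h.HH 1 0), h.HH 2 0, RQC_c (h.HH 2 0),
    h.HH 2 1, RQC_c (h.HH 2 1), h.HH 3 0, RQC_c (h.HH 3 0),
    h.HH 3 1, RQC_c (h.HH 3 1), h.HH 3 2, RQC_c (h.HH 3 2),
    h.FF 1 0, RQC_c (h.FF 1 0), h.FF 2 0, RQC_c (h.FF 2 0),
    h.FF 2 1, RQC_c (h.FF 2 1), h.FF 3 0, RQC_c (h.FF 3 0),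
    h.FF 3 1, RQC_c (h.FF 3 1), h.FF 3 2, RQC_c (h.FF 3 2),
    h.E0 4 (by norm_num), h.E0 5 (by norm_num), h.E0 6 (by norm_num),
    h.E0 7 (by norm_num), h.H0 4 (by norm_num), h.H0 5 (by norm_num),
    h.H0 6 (by norm_num), h.H0 7 (by norm_num), h.F0 4 (by norm_num),
    h.F0 5 (by norm_num), h.F0 6 (by norm_num), h.F0 7 (by norm_num),
    Nat.reduceAdd, zero_mul, mul_zero, smul_zero, sub_zero, add_zero, zero_add, zero_sub,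
    Nat.add_zero, Nat.zero_add]
  try abel

theorem RQC_H_3_3 (h : Rel E H F) : H 3 * (4 * (F 3 * E 3) + H 3 * H 3) =
    (4 * (F 3 * E 3) + H 3 * H 3) * H 3 := by
  simp only [mul_add, add_mul, mul_sub, sub_mul, mul_assoc, RQC_2, RQC_4, RQC_6, RQC_8, mul_smul_comm, smul_mul_assoc,
    smul_add, smul_sub, RQC_EF h, RQC_EF' h, RQC_EH h, RQC_EH' h, RQC_HF h, RQC_HF' h,
    h.EE 1 0, RQC_c (h.EE 1 0), h.EE 2 0, RQC_c (h.EE 2 0),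
    h.EE 2 1, RQC_c (h.EE 2 1), h.EE 3 0, RQC_c (h.EE 3 0),
    h.EE 3 1, RQC_c (h.EE 3 1), h.EE 3 2, RQC_c (h.EE 3 2),
    h.HH 1 0, RQC_c (h.HH 1 0), h.HH 2 0, RQC_c (h.HH 2 0),
    h.HH 2 1, RQC_c (h.HH 2 1), h.HH 3 0, RQC_c (h.HH 3 0),
    h.HH 3 1, RQC_c (h.HH 3 1), h.HH 3 2, RQC_c (h.HH 3 2),
    h.FF 1 0, RQC_c (h.FF 1 0), h.FF 2 0, RQC_c (h.FF 2 0),
    h.FF 2 1, RQC_c (h.FF 2 1), h.FF 3 0, RQC_c (h.FF 3 0),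
    h.FF 3 1, RQC_c (h.FF 3 1), h.FF 3 2, RQC_c (h.FF 3 2),
    h.E0 4 (by norm_num), h.E0 5 (by norm_num), h.E0 6 (by norm_num),
    h.E0 7 (by norm_num), h.H0 4 (by norm_num), h.H0 5 (by norm_num),
    h.H0 6 (by norm_num), h.H0 7 (by norm_num), h.F0 4 (by norm_num),
    h.F0 5 (by norm_num), h.F0 6 (by norm_num), h.F0 7 (by norm_num),
    Nat.reduceAdd, zero_mul, mul_zero, smul_zero, sub_zero, add_zero, zero_add, zero_sub,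
    Nat.add_zero, Nat.zero_add]
  try abel

theorem RQC_F_0_0 (h : Rel E H F) : F 0 * (4 * (F 3 * E 0 + F 2 * E 1 + F 1 * E 2 + F 0 * E 3) + 8 * H 3 + 2 * (H 0 * H 3)
      + 2 * (H 1 * H 2)) =
    (4 * (F 3 * E 0 + F 2 * E 1 + F 1 * E 2 + F 0 * E 3) + 8 * H 3 + 2 * (H 0 * H 3)
      + 2 * (H 1 * H 2)) * F 0 := by
  simp only [mul_add, add_mul, mul_sub, sub_mul, mul_assoc, RQC_2, RQC_4, RQC_6, RQC_8, mul_smul_comm, smul_mul_assoc,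
    smul_add, smul_sub, RQC_EF h, RQC_EF' h, RQC_EH h, RQC_EH' h, RQC_HF h, RQC_HF' h,
    h.EE 1 0, RQC_c (h.EE 1 0), h.EE 2 0, RQC_c (h.EE 2 0),
    h.EE 2 1, RQC_c (h.EE 2 1), h.EE 3 0, RQC_c (h.EE 3 0),
    h.EE 3 1, RQC_c (h.EE 3 1), h.EE 3 2, RQC_c (h.EE 3 2),
    h.HH 1 0, RQC_c (h.HH 1 0), h.HH 2 0, RQC_c (h.HH 2 0),
    h.HH 2 1, RQC_c (h.HH 2 1), h.HH 3 0, RQC_c (h.HH 3 0),
    h.HH 3 1, RQC_c (h.HH 3 1), h.HH 3 2, RQC_c (h.HH 3 2),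
    h.FF 1 0, RQC_c (h.FF 1 0), h.FF 2 0, RQC_c (h.FF 2 0),
    h.FF 2 1, RQC_c (h.FF 2 1), h.FF 3 0, RQC_c (h.FF 3 0),
    h.FF 3 1, RQC_c (h.FF 3 1), h.FF 3 2, RQC_c (h.FF 3 2),
    h.E0 4 (by norm_num), h.E0 5 (by norm_num), h.E0 6 (by norm_num),
    h.E0 7 (by norm_num), h.H0 4 (by norm_num), h.H0 5 (by norm_num),
    h.H0 6 (by norm_num), h.H0 7 (by norm_num), h.F0 4 (by norm_num),
    h.F0 5 (by norm_num), h.F0 6 (by norm_num), h.F0 7 (by norm_num),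
    Nat.reduceAdd, zero_mul, mul_zero, smul_zero, sub_zero, add_zero, zero_add, zero_sub,
    Nat.add_zero, Nat.zero_add]
  try abel

theorem RQC_F_0_1 (h : Rel E H F) : F 1 * (4 * (F 3 * E 0 + F 2 * E 1 + F 1 * E 2 + F 0 * E 3) + 8 * H 3 + 2 * (H 0 * H 3)
      + 2 * (H 1 * H 2)) =
    (4 * (F 3 * E 0 + F 2 * E 1 + F 1 * E 2 + F 0 * E 3) + 8 * H 3 + 2 * (H 0 * H 3)
      + 2 * (H 1 * H 2)) * F 1 := by
  simp only [mul_add, add_mul, mul_sub, sub_mul, mul_assoc, RQC_2, RQC_4, RQC_6, RQC_8, mul_smul_comm, smul_mul_assoc,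
    smul_add, smul_sub, RQC_EF h, RQC_EF' h, RQC_EH h, RQC_EH' h, RQC_HF h, RQC_HF' h,
    h.EE 1 0, RQC_c (h.EE 1 0), h.EE 2 0, RQC_c (h.EE 2 0),
    h.EE 2 1, RQC_c (h.EE 2 1), h.EE 3 0, RQC_c (h.EE 3 0),
    h.EE 3 1, RQC_c (h.EE 3 1), h.EE 3 2, RQC_c (h.EE 3 2),
    h.HH 1 0, RQC_c (h.HH 1 0), h.HH 2 0, RQC_c (h.HH 2 0),
    h.HH 2 1, RQC_c (h.HH 2 1), h.HH 3 0, RQC_c (h.HH 3 0),
    h.HH 3 1, RQC_c (h.HH 3 1), h.HH 3 2, RQC_c (h.HH 3 2),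
    h.FF 1 0, RQC_c (h.FF 1 0), h.FF 2 0, RQC_c (h.FF 2 0),
    h.FF 2 1, RQC_c (h.FF 2 1), h.FF 3 0, RQC_c (h.FF 3 0),
    h.FF 3 1, RQC_c (h.FF 3 1), h.FF 3 2, RQC_c (h.FF 3 2),
    h.E0 4 (by norm_num), h.E0 5 (by norm_num), h.E0 6 (by norm_num),
    h.E0 7 (by norm_num), h.H0 4 (by norm_num), h.H0 5 (by norm_num),
    h.H0 6 (by norm_num), h.H0 7 (by norm_num), h.F0 4 (by norm_num),
    h.F0 5 (by norm_num), h.F0 6 (by norm_num), h.F0 7 (by norm_num),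
    Nat.reduceAdd, zero_mul, mul_zero, smul_zero, sub_zero, add_zero, zero_add, zero_sub,
    Nat.add_zero, Nat.zero_add]
  try abel

theorem RQC_F_0_2 (h : Rel E H F) : F 2 * (4 * (F 3 * E 0 + F 2 * E 1 + F 1 * E 2 + F 0 * E 3) + 8 * H 3 + 2 * (H 0 * H 3)
      + 2 * (H 1 * H 2)) =
    (4 * (F 3 * E 0 + F 2 * E 1 + F 1 * E 2 + F 0 * E 3) + 8 * H 3 + 2 * (H 0 * H 3)
      + 2 * (H 1 * H 2)) * F 2 := by
  simp only [mul_add, add_mul, mul_sub, sub_mul, mul_assoc, RQC_2, RQC_4, RQC_6, RQC_8, mul_smul_comm, smul_mul_assoc,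
    smul_add, smul_sub, RQC_EF h, RQC_EF' h, RQC_EH h, RQC_EH' h, RQC_HF h, RQC_HF' h,
    h.EE 1 0, RQC_c (h.EE 1 0), h.EE 2 0, RQC_c (h.EE 2 0),
    h.EE 2 1, RQC_c (h.EE 2 1), h.EE 3 0, RQC_c (h.EE 3 0),
    h.EE 3 1, RQC_c (h.EE 3 1), h.EE 3 2, RQC_c (h.EE 3 2),
    h.HH 1 0, RQC_c (h.HH 1 0), h.HH 2 0, RQC_c (h.HH 2 0),
    h.HH 2 1, RQC_c (h.HH 2 1), h.HH 3 0, RQC_c (h.HH 3 0),
    h.HH 3 1, RQC_c (h.HH 3 1), h.HH 3 2, RQC_c (h.HH 3 2),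
    h.FF 1 0, RQC_c (h.FF 1 0), h.FF 2 0, RQC_c (h.FF 2 0),
    h.FF 2 1, RQC_c (h.FF 2 1), h.FF 3 0, RQC_c (h.FF 3 0),
    h.FF 3 1, RQC_c (h.FF 3 1), h.FF 3 2, RQC_c (h.FF 3 2),
    h.E0 4 (by norm_num), h.E0 5 (by norm_num), h.E0 6 (by norm_num),
    h.E0 7 (by norm_num), h.H0 4 (by norm_num), h.H0 5 (by norm_num),
    h.H0 6 (by norm_num), h.H0 7 (by norm_num), h.F0 4 (by norm_num),
    h.F0 5 (by norm_num), h.F0 6 (by norm_num), h.F0 7 (by norm_num),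
    Nat.reduceAdd, zero_mul, mul_zero, smul_zero, sub_zero, add_zero, zero_add, zero_sub,
    Nat.add_zero, Nat.zero_add]
  try abel

theorem RQC_F_0_3 (h : Rel E H F) : F 3 * (4 * (F 3 * E 0 + F 2 * E 1 + F 1 * E 2 + F 0 * E 3) + 8 * H 3 + 2 * (H 0 * H 3)
      + 2 * (H 1 * H 2)) =
    (4 * (F 3 * E 0 + F 2 * E 1 + F 1 * E 2 + F 0 * E 3) + 8 * H 3 + 2 * (H 0 * H 3)
      + 2 * (H 1 * H 2)) * F 3 := by
  simp only [mul_add, add_mul, mul_sub, sub_mul, mul_assoc, RQC_2, RQC_4, RQC_6, RQC_8, mul_smul_comm, smul_mul_assoc,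
    smul_add, smul_sub, RQC_EF h, RQC_EF' h, RQC_EH h, RQC_EH' h, RQC_HF h, RQC_HF' h,
    h.EE 1 0, RQC_c (h.EE 1 0), h.EE 2 0, RQC_c (h.EE 2 0),
    h.EE 2 1, RQC_c (h.EE 2 1), h.EE 3 0, RQC_c (h.EE 3 0),
    h.EE 3 1, RQC_c (h.EE 3 1), h.EE 3 2, RQC_c (h.EE 3 2),
    h.HH 1 0, RQC_c (h.HH 1 0), h.HH 2 0, RQC_c (h.HH 2 0),
    h.HH 2 1, RQC_c (h.HH 2 1), h.HH 3 0, RQC_c (h.HH 3 0),
    h.HH 3 1, RQC_c (h.HH 3 1), h.HH 3 2, RQC_c (h.HH 3 2),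
    h.FF 1 0, RQC_c (h.FF 1 0), h.FF 2 0, RQC_c (h.FF 2 0),
    h.FF 2 1, RQC_c (h.FF 2 1), h.FF 3 0, RQC_c (h.FF 3 0),
    h.FF 3 1, RQC_c (h.FF 3 1), h.FF 3 2, RQC_c (h.FF 3 2),
    h.E0 4 (by norm_num), h.E0 5 (by norm_num), h.E0 6 (by norm_num),
    h.E0 7 (by norm_num), h.H0 4 (by norm_num), h.H0 5 (by norm_num),
    h.H0 6 (by norm_num), h.H0 7 (by norm_num), h.F0 4 (by norm_num),
    h.F0 5 (by norm_num), h.F0 6 (by norm_num), h.F0 7 (by norm_num),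
    Nat.reduceAdd, zero_mul, mul_zero, smul_zero, sub_zero, add_zero, zero_add, zero_sub,
    Nat.add_zero, Nat.zero_add]
  try abel

theorem RQC_F_1_0 (h : Rel E H F) : F 0 * (4 * (F 3 * E 1 + F 2 * E 2 + F 1 * E 3) + 2 * (H 1 * H 3) + H 2 * H 2) =
    (4 * (F 3 * E 1 + F 2 * E 2 + F 1 * E 3) + 2 * (H 1 * H 3) + H 2 * H 2) * F 0 := by
  simp only [mul_add, add_mul, mul_sub, sub_mul, mul_assoc, RQC_2, RQC_4, RQC_6, RQC_8, mul_smul_comm, smul_mul_assoc,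
    smul_add, smul_sub, RQC_EF h, RQC_EF' h, RQC_EH h, RQC_EH' h, RQC_HF h, RQC_HF' h,
    h.EE 1 0, RQC_c (h.EE 1 0), h.EE 2 0, RQC_c (h.EE 2 0),
    h.EE 2 1, RQC_c (h.EE 2 1), h.EE 3 0, RQC_c (h.EE 3 0),
    h.EE 3 1, RQC_c (h.EE 3 1), h.EE 3 2, RQC_c (h.EE 3 2),
    h.HH 1 0, RQC_c (h.HH 1 0), h.HH 2 0, RQC_c (h.HH 2 0),
    h.HH 2 1, RQC_c (h.HH 2 1), h.HH 3 0, RQC_c (h.HH 3 0),
    h.HH 3 1, RQC_c (h.HH 3 1), h.HH 3 2, RQC_c (h.HH 3 2),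
    h.FF 1 0, RQC_c (h.FF 1 0), h.FF 2 0, RQC_c (h.FF 2 0),
    h.FF 2 1, RQC_c (h.FF 2 1), h.FF 3 0, RQC_c (h.FF 3 0),
    h.FF 3 1, RQC_c (h.FF 3 1), h.FF 3 2, RQC_c (h.FF 3 2),
    h.E0 4 (by norm_num), h.E0 5 (by norm_num), h.E0 6 (by norm_num),
    h.E0 7 (by norm_num), h.H0 4 (by norm_num), h.H0 5 (by norm_num),
    h.H0 6 (by norm_num), h.H0 7 (by norm_num), h.F0 4 (by norm_num),
    h.F0 5 (by norm_num), h.F0 6 (by norm_num), h.F0 7 (by norm_num),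
    Nat.reduceAdd, zero_mul, mul_zero, smul_zero, sub_zero, add_zero, zero_add, zero_sub,
    Nat.add_zero, Nat.zero_add]
  try abel

theorem RQC_F_1_1 (h : Rel E H F) : F 1 * (4 * (F 3 * E 1 + F 2 * E 2 + F 1 * E 3) + 2 * (H 1 * H 3) + H 2 * H 2) =
    (4 * (F 3 * E 1 + F 2 * E 2 + F 1 * E 3) + 2 * (H 1 * H 3) + H 2 * H 2) * F 1 := by
  simp only [mul_add, add_mul, mul_sub, sub_mul, mul_assoc, RQC_2, RQC_4, RQC_6, RQC_8, mul_smul_comm, smul_mul_assoc,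
    smul_add, smul_sub, RQC_EF h, RQC_EF' h, RQC_EH h, RQC_EH' h, RQC_HF h, RQC_HF' h,
    h.EE 1 0, RQC_c (h.EE 1 0), h.EE 2 0, RQC_c (h.EE 2 0),
    h.EE 2 1, RQC_c (h.EE 2 1), h.EE 3 0, RQC_c (h.EE 3 0),
    h.EE 3 1, RQC_c (h.EE 3 1), h.EE 3 2, RQC_c (h.EE 3 2),
    h.HH 1 0, RQC_c (h.HH 1 0), h.HH 2 0, RQC_c (h.HH 2 0),
    h.HH 2 1, RQC_c (h.HH 2 1), h.HH 3 0, RQC_c (h.HH 3 0),
    h.HH 3 1, RQC_c (h.HH 3 1), h.HH 3 2, RQC_c (h.HH 3 2),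
    h.FF 1 0, RQC_c (h.FF 1 0), h.FF 2 0, RQC_c (h.FF 2 0),
    h.FF 2 1, RQC_c (h.FF 2 1), h.FF 3 0, RQC_c (h.FF 3 0),
    h.FF 3 1, RQC_c (h.FF 3 1), h.FF 3 2, RQC_c (h.FF 3 2),
    h.E0 4 (by norm_num), h.E0 5 (by norm_num), h.E0 6 (by norm_num),
    h.E0 7 (by norm_num), h.H0 4 (by norm_num), h.H0 5 (by norm_num),
    h.H0 6 (by norm_num), h.H0 7 (by norm_num), h.F0 4 (by norm_num),
    h.F0 5 (by norm_num), h.F0 6 (by norm_num), h.F0 7 (by norm_num),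
    Nat.reduceAdd, zero_mul, mul_zero, smul_zero, sub_zero, add_zero, zero_add, zero_sub,
    Nat.add_zero, Nat.zero_add]
  try abel

theorem RQC_F_1_2 (h : Rel E H F) : F 2 * (4 * (F 3 * E 1 + F 2 * E 2 + F 1 * E 3) + 2 * (H 1 * H 3) + H 2 * H 2) =
    (4 * (F 3 * E 1 + F 2 * E 2 + F 1 * E 3) + 2 * (H 1 * H 3) + H 2 * H 2) * F 2 := by
  simp only [mul_add, add_mul, mul_sub, sub_mul, mul_assoc, RQC_2, RQC_4, RQC_6, RQC_8, mul_smul_comm, smul_mul_assoc,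
    smul_add, smul_sub, RQC_EF h, RQC_EF' h, RQC_EH h, RQC_EH' h, RQC_HF h, RQC_HF' h,
    h.EE 1 0, RQC_c (h.EE 1 0), h.EE 2 0, RQC_c (h.EE 2 0),
    h.EE 2 1, RQC_c (h.EE 2 1), h.EE 3 0, RQC_c (h.EE 3 0),
    h.EE 3 1, RQC_c (h.EE 3 1), h.EE 3 2, RQC_c (h.EE 3 2),
    h.HH 1 0, RQC_c (h.HH 1 0), h.HH 2 0, RQC_c (h.HH 2 0),
    h.HH 2 1, RQC_c (h.HH 2 1), h.HH 3 0, RQC_c (h.HH 3 0),
    h.HH 3 1, RQC_c (h.HH 3 1), h.HH 3 2, RQC_c (h.HH 3 2),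
    h.FF 1 0, RQC_c (h.FF 1 0), h.FF 2 0, RQC_c (h.FF 2 0),
    h.FF 2 1, RQC_c (h.FF 2 1), h.FF 3 0, RQC_c (h.FF 3 0),
    h.FF 3 1, RQC_c (h.FF 3 1), h.FF 3 2, RQC_c (h.FF 3 2),
    h.E0 4 (by norm_num), h.E0 5 (by norm_num), h.E0 6 (by norm_num),
    h.E0 7 (by norm_num), h.H0 4 (by norm_num), h.H0 5 (by norm_num),
    h.H0 6 (by norm_num), h.H0 7 (by norm_num), h.F0 4 (by norm_num),
    h.F0 5 (by norm_num), h.F0 6 (by norm_num), h.F0 7 (by norm_num),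
    Nat.reduceAdd, zero_mul, mul_zero, smul_zero, sub_zero, add_zero, zero_add, zero_sub,
    Nat.add_zero, Nat.zero_add]
  try abel

theorem RQC_F_1_3 (h : Rel E H F) : F 3 * (4 * (F 3 * E 1 + F 2 * E 2 + F 1 * E 3) + 2 * (H 1 * H 3) + H 2 * H 2) =
    (4 * (F 3 * E 1 + F 2 * E 2 + F 1 * E 3) + 2 * (H 1 * H 3) + H 2 * H 2) * F 3 := by
  simp only [mul_add, add_mul, mul_sub, sub_mul, mul_assoc, RQC_2, RQC_4, RQC_6, RQC_8, mul_smul_comm, smul_mul_assoc,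
    smul_add, smul_sub, RQC_EF h, RQC_EF' h, RQC_EH h, RQC_EH' h, RQC_HF h, RQC_HF' h,
    h.EE 1 0, RQC_c (h.EE 1 0), h.EE 2 0, RQC_c (h.EE 2 0),
    h.EE 2 1, RQC_c (h.EE 2 1), h.EE 3 0, RQC_c (h.EE 3 0),
    h.EE 3 1, RQC_c (h.EE 3 1), h.EE 3 2, RQC_c (h.EE 3 2),
    h.HH 1 0, RQC_c (h.HH 1 0), h.HH 2 0, RQC_c (h.HH 2 0),
    h.HH 2 1, RQC_c (h.HH 2 1), h.HH 3 0, RQC_c (h.HH 3 0),
    h.HH 3 1, RQC_c (h.HH 3 1), h.HH 3 2, RQC_c (h.HH 3 2),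
    h.FF 1 0, RQC_c (h.FF 1 0), h.FF 2 0, RQC_c (h.FF 2 0),
    h.FF 2 1, RQC_c (h.FF 2 1), h.FF 3 0, RQC_c (h.FF 3 0),
    h.FF 3 1, RQC_c (h.FF 3 1), h.FF 3 2, RQC_c (h.FF 3 2),
    h.E0 4 (by norm_num), h.E0 5 (by norm_num), h.E0 6 (by norm_num),
    h.E0 7 (by norm_num), h.H0 4 (by norm_num), h.H0 5 (by norm_num),
    h.H0 6 (by norm_num), h.H0 7 (by norm_num), h.F0 4 (by norm_num),
    h.F0 5 (by norm_num), h.F0 6 (by norm_num), h.F0 7 (by norm_num),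
    Nat.reduceAdd, zero_mul, mul_zero, smul_zero, sub_zero, add_zero, zero_add, zero_sub,
    Nat.add_zero, Nat.zero_add]
  try abel

theorem RQC_F_2_0 (h : Rel E H F) : F 0 * (4 * (F 3 * E 2 + F 2 * E 3) + 2 * (H 2 * H 3)) =
    (4 * (F 3 * E 2 + F 2 * E 3) + 2 * (H 2 * H 3)) * F 0 := by
  simp only [mul_add, add_mul, mul_sub, sub_mul, mul_assoc, RQC_2, RQC_4, RQC_6, RQC_8, mul_smul_comm, smul_mul_assoc,
    smul_add, smul_sub, RQC_EF h, RQC_EF' h, RQC_EH h, RQC_EH' h, RQC_HF h, RQC_HF' h,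
    h.EE 1 0, RQC_c (h.EE 1 0), h.EE 2 0, RQC_c (h.EE 2 0),
    h.EE 2 1, RQC_c (h.EE 2 1), h.EE 3 0, RQC_c (h.EE 3 0),
    h.EE 3 1, RQC_c (h.EE 3 1), h.EE 3 2, RQC_c (h.EE 3 2),
    h.HH 1 0, RQC_c (h.HH 1 0), h.HH 2 0, RQC_c (h.HH 2 0),
    h.HH 2 1, RQC_c (h.HH 2 1), h.HH 3 0, RQC_c (h.HH 3 0),
    h.HH 3 1, RQC_c (h.HH 3 1), h.HH 3 2, RQC_c (h.HH 3 2),
    h.FF 1 0, RQC_c (h.FF 1 0), h.FF 2 0, RQC_c (h.FF 2 0),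
    h.FF 2 1, RQC_c (h.FF 2 1), h.FF 3 0, RQC_c (h.FF 3 0),
    h.FF 3 1, RQC_c (h.FF 3 1), h.FF 3 2, RQC_c (h.FF 3 2),
    h.E0 4 (by norm_num), h.E0 5 (by norm_num), h.E0 6 (by norm_num),
    h.E0 7 (by norm_num), h.H0 4 (by norm_num), h.H0 5 (by norm_num),
    h.H0 6 (by norm_num), h.H0 7 (by norm_num), h.F0 4 (by norm_num),
    h.F0 5 (by norm_num), h.F0 6 (by norm_num), h.F0 7 (by norm_num),
    Nat.reduceAdd, zero_mul, mul_zero, smul_zero, sub_zero, add_zero, zero_add, zero_sub,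
    Nat.add_zero, Nat.zero_add]
  try abel

theorem RQC_F_2_1 (h : Rel E H F) : F 1 * (4 * (F 3 * E 2 + F 2 * E 3) + 2 * (H 2 * H 3)) =
    (4 * (F 3 * E 2 + F 2 * E 3) + 2 * (H 2 * H 3)) * F 1 := by
  simp only [mul_add, add_mul, mul_sub, sub_mul, mul_assoc, RQC_2, RQC_4, RQC_6, RQC_8, mul_smul_comm, smul_mul_assoc,
    smul_add, smul_sub, RQC_EF h, RQC_EF' h, RQC_EH h, RQC_EH' h, RQC_HF h, RQC_HF' h,
    h.EE 1 0, RQC_c (h.EE 1 0), h.EE 2 0, RQC_c (h.EE 2 0),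
    h.EE 2 1, RQC_c (h.EE 2 1), h.EE 3 0, RQC_c (h.EE 3 0),
    h.EE 3 1, RQC_c (h.EE 3 1), h.EE 3 2, RQC_c (h.EE 3 2),
    h.HH 1 0, RQC_c (h.HH 1 0), h.HH 2 0, RQC_c (h.HH 2 0),
    h.HH 2 1, RQC_c (h.HH 2 1), h.HH 3 0, RQC_c (h.HH 3 0),
    h.HH 3 1, RQC_c (h.HH 3 1), h.HH 3 2, RQC_c (h.HH 3 2),
    h.FF 1 0, RQC_c (h.FF 1 0), h.FF 2 0, RQC_c (h.FF 2 0),
    h.FF 2 1, RQC_c (h.FF 2 1), h.FF 3 0, RQC_c (h.FF 3 0),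
    h.FF 3 1, RQC_c (h.FF 3 1), h.FF 3 2, RQC_c (h.FF 3 2),
    h.E0 4 (by norm_num), h.E0 5 (by norm_num), h.E0 6 (by norm_num),
    h.E0 7 (by norm_num), h.H0 4 (by norm_num), h.H0 5 (by norm_num),
    h.H0 6 (by norm_num), h.H0 7 (by norm_num), h.F0 4 (by norm_num),
    h.F0 5 (by norm_num), h.F0 6 (by norm_num), h.F0 7 (by norm_num),
    Nat.reduceAdd, zero_mul, mul_zero, smul_zero, sub_zero, add_zero, zero_add, zero_sub,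
    Nat.add_zero, Nat.zero_add]
  try abel

theorem RQC_F_2_2 (h : Rel E H F) : F 2 * (4 * (F 3 * E 2 + F 2 * E 3) + 2 * (H 2 * H 3)) =
    (4 * (F 3 * E 2 + F 2 * E 3) + 2 * (H 2 * H 3)) * F 2 := by
  simp only [mul_add, add_mul, mul_sub, sub_mul, mul_assoc, RQC_2, RQC_4, RQC_6, RQC_8, mul_smul_comm, smul_mul_assoc,
    smul_add, smul_sub, RQC_EF h, RQC_EF' h, RQC_EH h, RQC_EH' h, RQC_HF h, RQC_HF' h,
    h.EE 1 0, RQC_c (h.EE 1 0), h.EE 2 0, RQC_c (h.EE 2 0),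
    h.EE 2 1, RQC_c (h.EE 2 1), h.EE 3 0, RQC_c (h.EE 3 0),
    h.EE 3 1, RQC_c (h.EE 3 1), h.EE 3 2, RQC_c (h.EE 3 2),
    h.HH 1 0, RQC_c (h.HH 1 0), h.HH 2 0, RQC_c (h.HH 2 0),
    h.HH 2 1, RQC_c (h.HH 2 1), h.HH 3 0, RQC_c (h.HH 3 0),
    h.HH 3 1, RQC_c (h.HH 3 1), h.HH 3 2, RQC_c (h.HH 3 2),
    h.FF 1 0, RQC_c (h.FF 1 0), h.FF 2 0, RQC_c (h.FF 2 0),
    h.FF 2 1, RQC_c (h.FF 2 1), h.FF 3 0, RQC_c (h.FF 3 0),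
    h.FF 3 1, RQC_c (h.FF 3 1), h.FF 3 2, RQC_c (h.FF 3 2),
    h.E0 4 (by norm_num), h.E0 5 (by norm_num), h.E0 6 (by norm_num),
    h.E0 7 (by norm_num), h.H0 4 (by norm_num), h.H0 5 (by norm_num),
    h.H0 6 (by norm_num), h.H0 7 (by norm_num), h.F0 4 (by norm_num),
    h.F0 5 (by norm_num), h.F0 6 (by norm_num), h.F0 7 (by norm_num),
    Nat.reduceAdd, zero_mul, mul_zero, smul_zero, sub_zero, add_zero, zero_add, zero_sub,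
    Nat.add_zero, Nat.zero_add]
  try abel

theorem RQC_F_2_3 (h : Rel E H F) : F 3 * (4 * (F 3 * E 2 + F 2 * E 3) + 2 * (H 2 * H 3)) =
    (4 * (F 3 * E 2 + F 2 * E 3) + 2 * (H 2 * H 3)) * F 3 := by
  simp only [mul_add, add_mul, mul_sub, sub_mul, mul_assoc, RQC_2, RQC_4, RQC_6, RQC_8, mul_smul_comm, smul_mul_assoc,
    smul_add, smul_sub, RQC_EF h, RQC_EF' h, RQC_EH h, RQC_EH' h, RQC_HF h, RQC_HF' h,
    h.EE 1 0, RQC_c (h.EE 1 0), h.EE 2 0, RQC_c (h.EE 2 0),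
    h.EE 2 1, RQC_c (h.EE 2 1), h.EE 3 0, RQC_c (h.EE 3 0),
    h.EE 3 1, RQC_c (h.EE 3 1), h.EE 3 2, RQC_c (h.EE 3 2),
    h.HH 1 0, RQC_c (h.HH 1 0), h.HH 2 0, RQC_c (h.HH 2 0),
    h.HH 2 1, RQC_c (h.HH 2 1), h.HH 3 0, RQC_c (h.HH 3 0),
    h.HH 3 1, RQC_c (h.HH 3 1), h.HH 3 2, RQC_c (h.HH 3 2),
    h.FF 1 0, RQC_c (h.FF 1 0), h.FF 2 0, RQC_c (h.FF 2 0),
    h.FF 2 1, RQC_c (h.FF 2 1), h.FF 3 0, RQC_c (h.FF 3 0),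
    h.FF 3 1, RQC_c (h.FF 3 1), h.FF 3 2, RQC_c (h.FF 3 2),
    h.E0 4 (by norm_num), h.E0 5 (by norm_num), h.E0 6 (by norm_num),
    h.E0 7 (by norm_num), h.H0 4 (by norm_num), h.H0 5 (by norm_num),
    h.H0 6 (by norm_num), h.H0 7 (by norm_num), h.F0 4 (by norm_num),
    h.F0 5 (by norm_num), h.F0 6 (by norm_num), h.F0 7 (by norm_num),
    Nat.reduceAdd, zero_mul, mul_zero, smul_zero, sub_zero, add_zero, zero_add, zero_sub,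
    Nat.add_zero, Nat.zero_add]
  try abel

theorem RQC_F_3_0 (h : Rel E H F) : F 0 * (4 * (F 3 * E 3) + H 3 * H 3) =
    (4 * (F 3 * E 3) + H 3 * H 3) * F 0 := by
  simp only [mul_add, add_mul, mul_sub, sub_mul, mul_assoc, RQC_2, RQC_4, RQC_6, RQC_8, mul_smul_comm, smul_mul_assoc,
    smul_add, smul_sub, RQC_EF h, RQC_EF' h, RQC_EH h, RQC_EH' h, RQC_HF h, RQC_HF' h,
    h.EE 1 0, RQC_c (h.EE 1 0), h.EE 2 0, RQC_c (h.EE 2 0),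
    h.EE 2 1, RQC_c (h.EE 2 1), h.EE 3 0, RQC_c (h.EE 3 0),
    h.EE 3 1, RQC_c (h.EE 3 1), h.EE 3 2, RQC_c (h.EE 3 2),
    h.HH 1 0, RQC_c (h.HH 1 0), h.HH 2 0, RQC_c (h.HH 2 0),
    h.HH 2 1, RQC_c (h.HH 2 1), h.HH 3 0, RQC_c (h.HH 3 0),
    h.HH 3 1, RQC_c (h.HH 3 1), h.HH 3 2, RQC_c (h.HH 3 2),
    h.FF 1 0, RQC_c (h.FF 1 0), h.FF 2 0, RQC_c (h.FF 2 0),
    h.FF 2 1, RQC_c (h.FF 2 1), h.FF 3 0, RQC_c (h.FF 3 0),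
    h.FF 3 1, RQC_c (h.FF 3 1), h.FF 3 2, RQC_c (h.FF 3 2),
    h.E0 4 (by norm_num), h.E0 5 (by norm_num), h.E0 6 (by norm_num),
    h.E0 7 (by norm_num), h.H0 4 (by norm_num), h.H0 5 (by norm_num),
    h.H0 6 (by norm_num), h.H0 7 (by norm_num), h.F0 4 (by norm_num),
    h.F0 5 (by norm_num), h.F0 6 (by norm_num), h.F0 7 (by norm_num),
    Nat.reduceAdd, zero_mul, mul_zero, smul_zero, sub_zero, add_zero, zero_add, zero_sub,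
    Nat.add_zero, Nat.zero_add]
  try abel

theorem RQC_F_3_1 (h : Rel E H F) : F 1 * (4 * (F 3 * E 3) + H 3 * H 3) =
    (4 * (F 3 * E 3) + H 3 * H 3) * F 1 := by
  simp only [mul_add, add_mul, mul_sub, sub_mul, mul_assoc, RQC_2, RQC_4, RQC_6, RQC_8, mul_smul_comm, smul_mul_assoc,
    smul_add, smul_sub, RQC_EF h, RQC_EF' h, RQC_EH h, RQC_EH' h, RQC_HF h, RQC_HF' h,
    h.EE 1 0, RQC_c (h.EE 1 0), h.EE 2 0, RQC_c (h.EE 2 0),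
    h.EE 2 1, RQC_c (h.EE 2 1), h.EE 3 0, RQC_c (h.EE 3 0),
    h.EE 3 1, RQC_c (h.EE 3 1), h.EE 3 2, RQC_c (h.EE 3 2),
    h.HH 1 0, RQC_c (h.HH 1 0), h.HH 2 0, RQC_c (h.HH 2 0),
    h.HH 2 1, RQC_c (h.HH 2 1), h.HH 3 0, RQC_c (h.HH 3 0),
    h.HH 3 1, RQC_c (h.HH 3 1), h.HH 3 2, RQC_c (h.HH 3 2),
    h.FF 1 0, RQC_c (h.FF 1 0), h.FF 2 0, RQC_c (h.FF 2 0),
    h.FF 2 1, RQC_c (h.FF 2 1), h.FF 3 0, RQC_c (h.FF 3 0),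
    h.FF 3 1, RQC_c (h.FF 3 1), h.FF 3 2, RQC_c (h.FF 3 2),
    h.E0 4 (by norm_num), h.E0 5 (by norm_num), h.E0 6 (by norm_num),
    h.E0 7 (by norm_num), h.H0 4 (by norm_num), h.H0 5 (by norm_num),
    h.H0 6 (by norm_num), h.H0 7 (by norm_num), h.F0 4 (by norm_num),
    h.F0 5 (by norm_num), h.F0 6 (by norm_num), h.F0 7 (by norm_num),
    Nat.reduceAdd, zero_mul, mul_zero, smul_zero, sub_zero, add_zero, zero_add, zero_sub,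
    Nat.add_zero, Nat.zero_add]
  try abel

theorem RQC_F_3_2 (h : Rel E H F) : F 2 * (4 * (F 3 * E 3) + H 3 * H 3) =
    (4 * (F 3 * E 3) + H 3 * H 3) * F 2 := by
  simp only [mul_add, add_mul, mul_sub, sub_mul, mul_assoc, RQC_2, RQC_4, RQC_6, RQC_8, mul_smul_comm, smul_mul_assoc,
    smul_add, smul_sub, RQC_EF h, RQC_EF' h, RQC_EH h, RQC_EH' h, RQC_HF h, RQC_HF' h,
    h.EE 1 0, RQC_c (h.EE 1 0), h.EE 2 0, RQC_c (h.EE 2 0),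
    h.EE 2 1, RQC_c (h.EE 2 1), h.EE 3 0, RQC_c (h.EE 3 0),
    h.EE 3 1, RQC_c (h.EE 3 1), h.EE 3 2, RQC_c (h.EE 3 2),
    h.HH 1 0, RQC_c (h.HH 1 0), h.HH 2 0, RQC_c (h.HH 2 0),
    h.HH 2 1, RQC_c (h.HH 2 1), h.HH 3 0, RQC_c (h.HH 3 0),
    h.HH 3 1, RQC_c (h.HH 3 1), h.HH 3 2, RQC_c (h.HH 3 2),
    h.FF 1 0, RQC_c (h.FF 1 0), h.FF 2 0, RQC_c (h.FF 2 0),
    h.FF 2 1, RQC_c (h.FF 2 1), h.FF 3 0, RQC_c (h.FF 3 0),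
    h.FF 3 1, RQC_c (h.FF 3 1), h.FF 3 2, RQC_c (h.FF 3 2),
    h.E0 4 (by norm_num), h.E0 5 (by norm_num), h.E0 6 (by norm_num),
    h.E0 7 (by norm_num), h.H0 4 (by norm_num), h.H0 5 (by norm_num),
    h.H0 6 (by norm_num), h.H0 7 (by norm_num), h.F0 4 (by norm_num),
    h.F0 5 (by norm_num), h.F0 6 (by norm_num), h.F0 7 (by norm_num),
    Nat.reduceAdd, zero_mul, mul_zero, smul_zero, sub_zero, add_zero, zero_add, zero_sub,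
    Nat.add_zero, Nat.zero_add]
  try abel

theorem RQC_F_3_3 (h : Rel E H F) : F 3 * (4 * (F 3 * E 3) + H 3 * H 3) =
    (4 * (F 3 * E 3) + H 3 * H 3) * F 3 := by
  simp only [mul_add, add_mul, mul_sub, sub_mul, mul_assoc, RQC_2, RQC_4, RQC_6, RQC_8, mul_smul_comm, smul_mul_assoc,
    smul_add, smul_sub, RQC_EF h, RQC_EF' h, RQC_EH h, RQC_EH' h, RQC_HF h, RQC_HF' h,
    h.EE 1 0, RQC_c (h.EE 1 0), h.EE 2 0, RQC_c (h.EE 2 0),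
    h.EE 2 1, RQC_c (h.EE 2 1), h.EE 3 0, RQC_c (h.EE 3 0),
    h.EE 3 1, RQC_c (h.EE 3 1), h.EE 3 2, RQC_c (h.EE 3 2),
    h.HH 1 0, RQC_c (h.HH 1 0), h.HH 2 0, RQC_c (h.HH 2 0),
    h.HH 2 1, RQC_c (h.HH 2 1), h.HH 3 0, RQC_c (h.HH 3 0),
    h.HH 3 1, RQC_c (h.HH 3 1), h.HH 3 2, RQC_c (h.HH 3 2),
    h.FF 1 0, RQC_c (h.FF 1 0), h.FF 2 0, RQC_c (h.FF 2 0),
    h.FF 2 1, RQC_c (h.FF 2 1), h.FF 3 0, RQC_c (h.FF 3 0),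
    h.FF 3 1, RQC_c (h.FF 3 1), h.FF 3 2, RQC_c (h.FF 3 2),
    h.E0 4 (by norm_num), h.E0 5 (by norm_num), h.E0 6 (by norm_num),
    h.E0 7 (by norm_num), h.H0 4 (by norm_num), h.H0 5 (by norm_num),
    h.H0 6 (by norm_num), h.H0 7 (by norm_num), h.F0 4 (by norm_num),
    h.F0 5 (by norm_num), h.F0 6 (by norm_num), h.F0 7 (by norm_num),
    Nat.reduceAdd, zero_mul, mul_zero, smul_zero, sub_zero, add_zero, zero_add, zero_sub,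
    Nat.add_zero, Nat.zero_add]
  try abel

theorem qc_E (h : Rel E H F) (k : Fin 4) (i : ℕ) : E i * qc E H F k = qc E H F k * E i := by
  by_cases hi : 4 ≤ i
  · rw [h.E0 i hi, zero_mul, mul_zero]
  · have hi' : i < 4 := by omega
    interval_cases i
    · fin_cases k
      · exact RQC_E_0_0 h
      · exact RQC_E_1_0 h
      · exact RQC_E_2_0 h
      · exact RQC_E_3_0 h
    · fin_cases k
      · exact RQC_E_0_1 h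
      · exact RQC_E_1_1 h
      · exact RQC_E_2_1 h
      · exact RQC_E_3_1 h
    · fin_cases k
      · exact RQC_E_0_2 h
      · exact RQC_E_1_2 h
      · exact RQC_E_2_2 h
      · exact RQC_E_3_2 h
    · fin_cases k
      · exact RQC_E_0_3 h
      · exact RQC_E_1_3 h
      · exact RQC_E_2_3 h
      · exact RQC_E_3_3 h

theorem qc_H (h : Rel E H F) (k : Fin 4) (i : ℕ) : H i * qc E H F k = qc E H F k * H i := by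
  by_cases hi : 4 ≤ i
  · rw [h.H0 i hi, zero_mul, mul_zero]
  · have hi' : i < 4 := by omega
    interval_cases i
    · fin_cases k
      · exact RQC_H_0_0 h
      · exact RQC_H_1_0 h
      · exact RQC_H_2_0 h
      · exact RQC_H_3_0 h
    · fin_cases k
      · exact RQC_H_0_1 h
      · exact RQC_H_1_1 h
      · exact RQC_H_2_1 h
      · exact RQC_H_3_1 h
    · fin_cases k
      · exact RQC_H_0_2 h
      · exact RQC_H_1_2 h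
      · exact RQC_H_2_2 h
      · exact RQC_H_3_2 h
    · fin_cases k
      · exact RQC_H_0_3 h
      · exact RQC_H_1_3 h
      · exact RQC_H_2_3 h
      · exact RQC_H_3_3 h

theorem qc_F (h : Rel E H F) (k : Fin 4) (i : ℕ) : F i * qc E H F k = qc E H F k * F i := by
  by_cases hi : 4 ≤ i
  · rw [h.F0 i hi, zero_mul, mul_zero]
  · have hi' : i < 4 := by omega
    interval_cases i
    · fin_cases k
      · exact RQC_F_0_0 h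
      · exact RQC_F_1_0 h
      · exact RQC_F_2_0 h
      · exact RQC_F_3_0 h
    · fin_cases k
      · exact RQC_F_0_1 h
      · exact RQC_F_1_1 h
      · exact RQC_F_2_1 h
      · exact RQC_F_3_1 h
    · fin_cases k
      · exact RQC_F_0_2 h
      · exact RQC_F_1_2 h
      · exact RQC_F_2_2 h
      · exact RQC_F_3_2 h
    · fin_cases k
      · exact RQC_F_0_3 h
      · exact RQC_F_1_3 h
      · exact RQC_F_2_3 h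
      · exact RQC_F_3_3 h

end Pool.Agent.H69.DF
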