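import Pool.Agent.H69.DF.RSym
import Pool.Agent.H69.DF.RQC
import Pool.Agent.H69.DF.OpRel2

/-!
# Row Lift: operators with given symbol

Everything is done inside Module.End ℝ R9 with the operators Eo, Ho, Fo (which satisfy `opRel : Rel Eo Ho Fo`).
Put Q := q2 Eo Ho Fo and C k := qc Eo Ho Fo k (k : Fin 4).

(1) `symq2`: SymOp Q 2 (K 0).  `symqc`: SymOp (C k) 2 (K k.succ).  (SymOp.add, SymOp.mul, symE, symH, symF; the terms 6 * H 2, 8 * H 3 have degree 1
   so symbol 0 in degree 2 (SymOp.lower). Numerals: 4 * A = (4:ℝ) • A etc.)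
(2) `lift_exists_op`: for Φ : R5 homogeneous of degree k there are operators û, v, w0, w1 with
   (a) Eo 0 * û = û * Eo 0, Ho 0 * û = û * Ho 0;
   (b) SymOp û (2 k) (aeval K Φ);
   (c) Eo 1 * û = û * Eo 1 + v + w1 * Eo 0 + w0 * Ho 0;
   (d) if 1 ≤ k then SymOp v (2 k - 1) (-8 * aeval K (pderiv 0 Φ) * X 1), and if k = 0 then v = 0.
Proof. For a monomial Φ = X^α (|α| = k) take û = Q^(α 0) * C 0^(α 1) * C 1^(α 2) * C 2^(α 3) * C 3^(α 4). (a): q2_E0, q2_H0, qc_E, qc_H.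
 (b): SymOp.mul repeatedly. (c), (d): Let c = the product of the C's (it commutes with everything: qc_E, qc_H, qc_F and hence with Q, polynomial in the
 generators). By induction on a: Eo 1 * Q^a = Q^a * Eo 1 + V_a + (..) * Eo 0 + (..) * Ho 0 with V_0 = 0, V_(a+1) = Q * V_a - 8 * Eo 3 * Q^a:
   Eo 1 * Q * Q^a = (Q * Eo 1 + 4 Ho 3 Eo 0 - 4 Eo 3 Ho 0 - 8 Eo 3) * Q^a  and Eo 0, Ho 0 commute with Q^a.
 SymOp V_a (2 a - 1) (-8 a K0^(a-1) X1) for a ≥ 1 (V_1 = -8 Eo 3; V_(a+1): K0 * (-8 a K0^(a-1) X1) - 8 X1 K0^a).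
 v = V_a * c: SymOp (2 a - 1 + 2 (k - a)) = 2 k - 1 with symbol -8 a K^(α - e0) X1 = -8 aeval K (pderiv 0 X^α) X1 (pderiv_monomial). If α 0 = 0, v = 0 and
 pderiv 0 X^α = 0.
 General homogeneous Φ = ∑ coefficients * monomials (all of degree k): sums of û, v, w0, w1 (`MvPolynomial.support_sum_monomial_coeff`,
 IsHomogeneous: every α in the support has degree k). A convenient way: the set of Φ in `homogeneousSubmodule (Fin 5) ℝ k` for which the
 quadruple exists is closed under + and scalars, and homogeneousSubmodule is spanned by the monomials of degree k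
 (`homogeneousSubmodule_eq_finsupp_supported`), or use induction over Φ.support.
(3) `qc_lift`: for Φ' : R4 homogeneous of degree k, SymOp (aeval C Φ') ... : formulated with the ordered product to avoid non-commutative aeval:
   there is an operator û which is a polynomial in the C's. This is done in the next row inside U(g); here only (1) and (2).
-/

namespace Pool.Agent.H69.DF

open MvPolynomial

private theorem RLift_cast {A : Module.End ℝ R9} {d e : ℕ} {s t : R9} (h : SymOp A d s)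
    (hd : d = e) (hs : s = t) : SymOp A e t := by
  subst hd
  subst hs
  exact h

private theorem RLift_num (n : ℕ) (A : Module.End ℝ R9) :
    (n : Module.End ℝ R9) * A = (n : ℝ) • A := by
  rw [← nsmul_eq_mul, Nat.cast_smul_eq_nsmul]

private theorem RLift_two (A : Module.End ℝ R9) : 2 * A = (2 : ℝ) • A := by
  simpa using RLift_num 2 A

private theorem RLift_four (A : Module.End ℝ R9) : 4 * A = (4 : ℝ) • A := by
  simpa using RLift_num 4 A

private theorem RLift_six (A : Module.End ℝ R9) : 6 * A = (6 : ℝ) • A := by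
  simpa using RLift_num 6 A

private theorem RLift_eight (A : Module.End ℝ R9) : 8 * A = (8 : ℝ) • A := by
  simpa using RLift_num 8 A

private theorem RLift_sub {A B : Module.End ℝ R9} {d : ℕ} {s t : R9} (hA : SymOp A d s)
    (hB : SymOp B d t) : SymOp (A - B) d (s - t) := by
  rw [sub_eq_add_neg, sub_eq_add_neg]
  exact hA.add hB.neg

private theorem RLift_pow {A : Module.End ℝ R9} {d : ℕ} {s : R9} (hA : SymOp A d s) (n : ℕ) :
    SymOp (A ^ n) (d * n) (s ^ n) := by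
  induction n with
  | zero => exact SymOp.one
  | succ n ih =>
    rw [pow_succ, pow_succ]
    exact RLift_cast (ih.mul hA) (by ring) rfl

theorem symq2 : SymOp (q2 Eo Ho Fo) 2 (K 0) := by
  unfold q2
  rw [RLift_four, RLift_six, RLift_two]
  refine RLift_cast ((((((symF 0).mul (symE 2)).add ((symF 1).mul (symE 1))).add
    ((symF 2).mul (symE 0))).smul 4 |>.add (((symH 2).smul 6).lower (by norm_num))
    |>.add (((symH 0).mul (symH 2)).smul 2)) |>.add ((symH 1).mul (symH 1))) rfl ?_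
  simp only [sF, sE, sH, K, smul_eq_C_mul, map_ofNat, Matrix.cons_val_zero]
  ring

theorem symqc (k : Fin 4) : SymOp (qc Eo Ho Fo k) 2 (K k.succ) := by
  fin_cases k
  · change SymOp (4 * (Fo 3 * Eo 0 + Fo 2 * Eo 1 + Fo 1 * Eo 2 + Fo 0 * Eo 3) + 8 * Ho 3
      + 2 * (Ho 0 * Ho 3) + 2 * (Ho 1 * Ho 2)) 2
      (4 * (X 0 * X 6 + X 1 * X 5) + 2 * X 2 * X 3)
    rw [RLift_four, RLift_eight, RLift_two, RLift_two]
    refine RLift_cast (((((((symF 3).mul (symE 0)).add ((symF 2).mul (symE 1))).add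
      ((symF 1).mul (symE 2))).add ((symF 0).mul (symE 3))).smul 4
      |>.add (((symH 3).smul 8).lower (by norm_num))
      |>.add (((symH 0).mul (symH 3)).smul 2)) |>.add (((symH 1).mul (symH 2)).smul 2)) rfl ?_
    simp only [sF, sE, sH, smul_eq_C_mul, map_ofNat]
    ring
  · change SymOp (4 * (Fo 3 * Eo 1 + Fo 2 * Eo 2 + Fo 1 * Eo 3) + 2 * (Ho 1 * Ho 3)
      + Ho 2 * Ho 2) 2
      (4 * (X 0 * X 7 + X 1 * X 6) + X 3 ^ 2 + 2 * X 2 * X 4)
    rw [RLift_four, RLift_two]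
    refine RLift_cast (((((symF 3).mul (symE 1)).add ((symF 2).mul (symE 2))).add
      ((symF 1).mul (symE 3))).smul 4
      |>.add (((symH 1).mul (symH 3)).smul 2) |>.add ((symH 2).mul (symH 2))) rfl ?_
    simp only [sF, sE, sH, smul_eq_C_mul, map_ofNat]
    ring
  · change SymOp (4 * (Fo 3 * Eo 2 + Fo 2 * Eo 3) + 2 * (Ho 2 * Ho 3)) 2
      (4 * (X 0 * X 8 + X 1 * X 7) + 2 * X 3 * X 4)
    rw [RLift_four, RLift_two]
    refine RLift_cast ((((symF 3).mul (symE 2)).add ((symF 2).mul (symE 3))).smul 4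
      |>.add (((symH 2).mul (symH 3)).smul 2)) rfl ?_
    simp only [sF, sE, sH, smul_eq_C_mul, map_ofNat]
    ring
  · change SymOp (4 * (Fo 3 * Eo 3) + Ho 3 * Ho 3) 2 (4 * X 1 * X 8 + X 4 ^ 2)
    rw [RLift_four]
    refine RLift_cast (((symF 3).mul (symE 3)).smul 4 |>.add ((symH 3).mul (symH 3))) rfl ?_
    simp only [sF, sE, sH, smul_eq_C_mul, map_ofNat]
    ring

private def RLift_Good (k : ℕ) (Φ : R5) : Prop :=
  ∃ u v w0 w1 : Module.End ℝ R9,
      Eo 0 * u = u * Eo 0 ∧ Ho 0 * u = u * Ho 0 ∧ SymOp u (2 * k) (aeval K Φ) ∧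
      Eo 1 * u = u * Eo 1 + v + w1 * Eo 0 + w0 * Ho 0 ∧
      (1 ≤ k → SymOp v (2 * k - 1) (-8 * aeval K (pderiv 0 Φ) * X 1)) ∧ (k = 0 → v = 0)

private theorem RLift_add {k : ℕ} {Φ Ψ : R5} (h1 : RLift_Good k Φ) (h2 : RLift_Good k Ψ) :
    RLift_Good k (Φ + Ψ) := by
  obtain ⟨u, v, w0, w1, a1, a2, a3, a4, a5, a6⟩ := h1
  obtain ⟨u', v', w0', w1', b1, b2, b3, b4, b5, b6⟩ := h2
  refine ⟨u + u', v + v', w0 + w0', w1 + w1', ?_, ?_, ?_, ?_, ?_, ?_⟩
  · rw [mul_add, add_mul, a1, b1]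
  · rw [mul_add, add_mul, a2, b2]
  · rw [map_add]
    exact a3.add b3
  · rw [mul_add, a4, b4]
    simp only [add_mul]
    abel
  · intro hk
    refine RLift_cast ((a5 hk).add (b5 hk)) rfl ?_
    rw [map_add, map_add]
    ring
  · intro hk
    rw [a6 hk, b6 hk, add_zero]

private theorem RLift_smul {k : ℕ} {Φ : R5} (r : ℝ) (h1 : RLift_Good k Φ) :
    RLift_Good k (r • Φ) := by
  obtain ⟨u, v, w0, w1, a1, a2, a3, a4, a5, a6⟩ := h1
  refine ⟨r • u, r • v, r • w0, r • w1, ?_, ?_, ?_, ?_, ?_, ?_⟩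
  · rw [mul_smul_comm, smul_mul_assoc, a1]
  · rw [mul_smul_comm, smul_mul_assoc, a2]
  · rw [map_smul]
    exact a3.smul r
  · rw [mul_smul_comm, a4]
    simp only [smul_mul_assoc, smul_add]
  · intro hk
    refine RLift_cast ((a5 hk).smul r) rfl ?_
    rw [Derivation.map_smul, map_smul, smul_eq_C_mul, smul_eq_C_mul]
    ring
  · intro hk
    rw [a6 hk, smul_zero]

private theorem RLift_zero (k : ℕ) : RLift_Good k 0 := by
  refine ⟨0, 0, 0, 0, ?_, ?_, ?_, ?_, ?_, ?_⟩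
  · rw [mul_zero, zero_mul]
  · rw [mul_zero, zero_mul]
  · rw [map_zero]
    exact SymOp.zero _
  · simp only [mul_zero, zero_mul, add_zero]
  · intro _
    refine RLift_cast (SymOp.zero _) rfl ?_
    rw [map_zero, map_zero, mul_zero, zero_mul]
  · intro _
    rfl

private theorem RLift_qpow (a : ℕ) :
    ∃ V W1 W0 : Module.End ℝ R9,
      Eo 1 * q2 Eo Ho Fo ^ a = q2 Eo Ho Fo ^ a * Eo 1 + V + W1 * Eo 0 + W0 * Ho 0 ∧
      (a = 0 → V = 0) ∧
      (1 ≤ a → SymOp V (2 * a - 1) (-8 * ((a : R9) * K 0 ^ (a - 1)) * X 1)) := by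
  induction a with
  | zero =>
    refine ⟨0, 0, 0, ?_, fun _ => rfl, fun h => absurd h (by norm_num)⟩
    simp only [pow_zero, mul_one, one_mul, add_zero, zero_mul]
  | succ a ih =>
    obtain ⟨V, W1, W0, h1, h2, h3⟩ := ih
    have c0 : Eo 0 * q2 Eo Ho Fo ^ a = q2 Eo Ho Fo ^ a * Eo 0 :=
      (Commute.pow_right (show Commute (Eo 0) (q2 Eo Ho Fo) from q2_E0 opRel) a).eq
    have c1 : Ho 0 * q2 Eo Ho Fo ^ a = q2 Eo Ho Fo ^ a * Ho 0 :=
      (Commute.pow_right (show Commute (Ho 0) (q2 Eo Ho Fo) from q2_H0 opRel) a).eq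
    refine ⟨q2 Eo Ho Fo * V - 8 * (Eo 3 * q2 Eo Ho Fo ^ a),
      q2 Eo Ho Fo * W1 + 4 * (Ho 3 * q2 Eo Ho Fo ^ a),
      q2 Eo Ho Fo * W0 - 4 * (Eo 3 * q2 Eo Ho Fo ^ a), ?_, fun h => absurd h (Nat.succ_ne_zero a),
      fun _ => ?_⟩
    · rw [pow_succ', ← mul_assoc, q2_E1 opRel, add_mul, mul_assoc (q2 Eo Ho Fo) (Eo 1), h1]
      have e1 : (4 * (Ho 3 * Eo 0) - 4 * (Eo 3 * Ho 0) - 8 * Eo 3) * q2 Eo Ho Fo ^ a =
          4 * (Ho 3 * q2 Eo Ho Fo ^ a) * Eo 0 - 4 * (Eo 3 * q2 Eo Ho Fo ^ a) * Ho 0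
            - 8 * (Eo 3 * q2 Eo Ho Fo ^ a) := by
        simp only [sub_mul, mul_assoc]
        rw [c0, c1]
      rw [e1]
      simp only [mul_add, add_mul, sub_mul, mul_assoc]
      abel
    · rw [RLift_eight]
      have s1 : SymOp ((8 : ℝ) • (Eo 3 * q2 Eo Ho Fo ^ a)) (1 + 2 * a)
          ((8 : ℝ) • (X 1 * K 0 ^ a)) :=
        ((symE 3).mul (RLift_pow symq2 a)).smul 8
      rcases Nat.eq_zero_or_pos a with ha | ha
      · rw [h2 ha, mul_zero, zero_sub]
        subst ha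
        refine RLift_cast s1.neg rfl ?_
        simp only [smul_eq_C_mul, map_ofNat, pow_zero, mul_one, zero_add, Nat.cast_one,
          Nat.sub_self]
        ring
      · refine RLift_cast (RLift_sub (RLift_cast (symq2.mul (h3 ha)) (by omega) rfl) s1)
          (by omega) ?_
        obtain ⟨b, rfl⟩ := Nat.exists_eq_add_of_le' ha
        simp only [smul_eq_C_mul, map_ofNat, Nat.add_sub_cancel]
        push_cast
        ring

private theorem RLift_cpow (b c d e : ℕ) :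
    ∃ u : Module.End ℝ R9, (∀ i, Eo i * u = u * Eo i) ∧ (∀ i, Ho i * u = u * Ho i) ∧
      SymOp u (2 * (b + c + d + e)) (K 1 ^ b * (K 2 ^ c * (K 3 ^ d * K 4 ^ e))) := by
  refine ⟨qc Eo Ho Fo 0 ^ b * (qc Eo Ho Fo 1 ^ c * (qc Eo Ho Fo 2 ^ d * qc Eo Ho Fo 3 ^ e)),
    fun i => ?_, fun i => ?_, ?_⟩
  · have hc : ∀ k : Fin 4, Commute (Eo i) (qc Eo Ho Fo k) := fun k => qc_E opRel k i
    exact (((hc 0).pow_right b).mul_right (((hc 1).pow_right c).mul_right
      (((hc 2).pow_right d).mul_right ((hc 3).pow_right e)))).eq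
  · have hc : ∀ k : Fin 4, Commute (Ho i) (qc Eo Ho Fo k) := fun k => qc_H opRel k i
    exact (((hc 0).pow_right b).mul_right (((hc 1).pow_right c).mul_right
      (((hc 2).pow_right d).mul_right ((hc 3).pow_right e)))).eq
  · exact RLift_cast ((RLift_pow (symqc 0) b).mul ((RLift_pow (symqc 1) c).mul
      ((RLift_pow (symqc 2) d).mul (RLift_pow (symqc 3) e)))) (by ring) rfl

private theorem RLift_mono (a b c d e : ℕ) :
    RLift_Good (a + b + c + d + e)
      (X 0 ^ a * (X 1 ^ b * (X 2 ^ c * (X 3 ^ d * X 4 ^ e)))) := by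
  obtain ⟨V, W1, W0, h1, h2, h3⟩ := RLift_qpow a
  obtain ⟨u, u1, u2, u3⟩ := RLift_cpow b c d e
  have c0 : Eo 0 * q2 Eo Ho Fo ^ a = q2 Eo Ho Fo ^ a * Eo 0 :=
    (Commute.pow_right (show Commute (Eo 0) (q2 Eo Ho Fo) from q2_E0 opRel) a).eq
  have c1 : Ho 0 * q2 Eo Ho Fo ^ a = q2 Eo Ho Fo ^ a * Ho 0 :=
    (Commute.pow_right (show Commute (Ho 0) (q2 Eo Ho Fo) from q2_H0 opRel) a).eq
  have hd : pderiv 0 (X 0 ^ a * (X 1 ^ b * (X 2 ^ c * (X 3 ^ d * X 4 ^ e))) : R5) =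
      (a : R5) * X 0 ^ (a - 1) * (X 1 ^ b * (X 2 ^ c * (X 3 ^ d * X 4 ^ e))) := by
    have hz : ∀ (i : Fin 5) (n : ℕ), i ≠ 0 → pderiv 0 (X i ^ n : R5) = 0 := by
      intro i n hi
      rw [Derivation.leibniz_pow, pderiv_X_of_ne hi, smul_zero, smul_zero]
    rw [Derivation.leibniz, Derivation.leibniz, Derivation.leibniz, Derivation.leibniz,
      hz 1 b (by decide), hz 2 c (by decide), hz 3 d (by decide), hz 4 e (by decide),
      Derivation.leibniz_pow, pderiv_X_self]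
    simp only [smul_zero, add_zero, zero_add, smul_eq_mul, mul_one, nsmul_eq_mul]
    ring
  refine ⟨q2 Eo Ho Fo ^ a * u, V * u, W0 * u, W1 * u, ?_, ?_, ?_, ?_, ?_, ?_⟩
  · rw [← mul_assoc, c0, mul_assoc, u1, ← mul_assoc]
  · rw [← mul_assoc, c1, mul_assoc, u2, ← mul_assoc]
  · refine RLift_cast ((RLift_pow symq2 a).mul u3) (by ring) ?_
    simp only [map_mul, map_pow, aeval_X]
  · rw [← mul_assoc, h1]
    simp only [add_mul, mul_assoc]
    rw [u1, u1, u2]
  · intro hk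
    rw [hd]
    rcases Nat.eq_zero_or_pos a with ha | ha
    · rw [h2 ha, zero_mul]
      refine RLift_cast (SymOp.zero _) rfl ?_
      subst ha
      simp
    · refine RLift_cast ((h3 ha).mul u3) (by omega) ?_
      simp only [map_mul, map_pow, aeval_X, map_natCast]
      ring
  · intro hk
    rw [h2 (by omega), zero_mul]

theorem lift_exists_op (k : ℕ) (Φ : R5) (hΦ : Φ.IsHomogeneous k) :
    ∃ u v w0 w1 : Module.End ℝ R9,
      Eo 0 * u = u * Eo 0 ∧ Ho 0 * u = u * Ho 0 ∧ SymOp u (2 * k) (aeval K Φ) ∧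
      Eo 1 * u = u * Eo 1 + v + w1 * Eo 0 + w0 * Ho 0 ∧
      (1 ≤ k → SymOp v (2 * k - 1) (-8 * aeval K (pderiv 0 Φ) * X 1)) ∧ (k = 0 → v = 0) := by
  change RLift_Good k Φ
  have key : ∀ s : Finset (Fin 5 →₀ ℕ), (∀ α ∈ s, α.degree = k) →
      RLift_Good k (∑ α ∈ s, monomial α (coeff α Φ)) := by
    intro s
    induction s using Finset.induction_on with
    | empty => intro _; rw [Finset.sum_empty]; exact RLift_zero k
    | insert α s hα ih =>
      intro hs
      rw [Finset.sum_insert hα]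
      refine RLift_add ?_ (ih fun β hβ => hs β (Finset.mem_insert_of_mem hβ))
      have h1 : (monomial α (coeff α Φ) : R5) = coeff α Φ •
          (X 0 ^ α 0 * (X 1 ^ α 1 * (X 2 ^ α 2 * (X 3 ^ α 3 * X 4 ^ α 4)))) := by
        rw [monomial_eq, smul_eq_C_mul, Finsupp.prod_fintype _ _ (fun i => pow_zero _),
          Fin.prod_univ_five]
        ring
      have h2 : α 0 + α 1 + α 2 + α 3 + α 4 = k := by
        rw [← hs α (Finset.mem_insert_self _ _), Finsupp.degree_eq_sum, Fin.sum_univ_five]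
      rw [h1, ← h2]
      exact RLift_smul _ (RLift_mono _ _ _ _ _)
  have h3 := key Φ.support (fun α hα => by
    have h4 := hΦ (mem_support_iff.1 hα)
    rw [Finsupp.degree_eq_weight_one]
    exact h4)
  rwa [support_sum_monomial_coeff] at h3

end Pool.Agent.H69.DF
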