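import Pool.Agent.H69.DF.Base2

/-!
# Row PoiE: existence of the Poisson bracket on the symmetric algebra of L

Statement: `exists_pois`.

Proof. Let `b : Module.Basis (Fin 12) ℝ L` be the standard basis (L is by definition Fin 12 → ℝ, so
`Pi.basisFun ℝ (Fin 12)` is a basis of L, use `show` / type ascription) and
`e : S ≃ₐ[ℝ] MvPolynomial (Fin 12) ℝ := SymmetricAlgebra.equivMvPolynomial b`
(simp lemmas `SymmetricAlgebra.equivMvPolynomial_ι_apply`, `equivMvPolynomial_symm_X`).
Put c i j := e (ι ⁅b i, b j⁆) and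
 P a p := e.symm (∑ i, ∑ j, c i j * pderiv i (e a) * pderiv j (e p)),
as a bilinear map with `LinearMap.mk₂ ℝ` (all four conditions by simp [map_add, mul_add, add_mul, Finset.sum_add_distrib,
Derivation.leibniz ...]).
* gen: e (ι X) = ∑ i, X_i • X i (expand X in the basis: X = ∑ i, (b.repr X i) • b i), so pderiv i (e (ι X)) = C (X_i);
  hence e (P (ι X) (ι Y)) = ∑ i j, X_i Y_j c i j = e (ι ⁅X, Y⁆) by bilinearity of the bracket (sum_lie, lie_sum, smul_lie, lie_smul).
  Alternative: both sides of `gen` are bilinear in (X, Y) so by `Module.Basis.ext` twice it is enough to take X = b i, Y = b j, where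
  pderiv k (X i) = Pi.single i 1 k and the double sum collapses.
* anti: c i j = - c j i (lie_skew), exchange the two sums (Finset.sum_comm) and commute the factors.
* leib: pderiv j (e (b * c)) = pderiv j (e b * e c) = ... (Derivation.leibniz), then Finset.sum_add_distrib / Finset.mul_sum, e.symm
  is an algebra equivalence.
-/

namespace Pool.Agent.H69.DF

open MvPolynomial

/-- the standard basis of `L` -/
noncomputable def RPois_b : Module.Basis (Fin 12) ℝ L := (Pi.basisFun ℝ (Fin 12) :)

/-- the bracket in coordinates -/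
noncomputable def RPois_B (c : Fin 12 → Fin 12 → MvPolynomial (Fin 12) ℝ) :
    MvPolynomial (Fin 12) ℝ →ₗ[ℝ] MvPolynomial (Fin 12) ℝ →ₗ[ℝ] MvPolynomial (Fin 12) ℝ :=
  LinearMap.mk₂ ℝ (fun f g => ∑ i, ∑ j, c i j * (pderiv i f * pderiv j g))
    (fun f f' g => by
      simp only [map_add, add_mul, mul_add, Finset.sum_add_distrib])
    (fun r f g => by
      simp only [Derivation.map_smul, smul_mul_assoc, mul_smul_comm, Finset.smul_sum])
    (fun f g g' => by
      simp only [map_add, mul_add, Finset.sum_add_distrib])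
    (fun r f g => by
      simp only [Derivation.map_smul, mul_smul_comm, Finset.smul_sum])

theorem RPois_B_apply (c : Fin 12 → Fin 12 → MvPolynomial (Fin 12) ℝ)
    (f g : MvPolynomial (Fin 12) ℝ) :
    RPois_B c f g = ∑ i, ∑ j, c i j * (pderiv i f * pderiv j g) := rfl

theorem RPois_X (c : Fin 12 → Fin 12 → MvPolynomial (Fin 12) ℝ) (k l : Fin 12) :
    RPois_B c (X k) (X l) = c k l := by
  rw [RPois_B_apply, Finset.sum_eq_single k, Finset.sum_eq_single l]
  · rw [pderiv_X_self, pderiv_X_self, mul_one, mul_one]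
  · intro j _ hj
    rw [pderiv_X_of_ne (Ne.symm hj), mul_zero, mul_zero]
  · intro h
    exact absurd (Finset.mem_univ _) h
  · intro i _ hi
    refine Finset.sum_eq_zero fun j _ => ?_
    rw [pderiv_X_of_ne (Ne.symm hi), zero_mul, mul_zero]
  · intro h
    exact absurd (Finset.mem_univ _) h

theorem RPois_anti (c : Fin 12 → Fin 12 → MvPolynomial (Fin 12) ℝ) (hc : ∀ i j, c i j = -c j i)
    (f g : MvPolynomial (Fin 12) ℝ) : RPois_B c f g = -RPois_B c g f := by
  rw [RPois_B_apply, RPois_B_apply, Finset.sum_comm, ← Finset.sum_neg_distrib]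
  refine Finset.sum_congr rfl fun i _ => ?_
  rw [← Finset.sum_neg_distrib]
  refine Finset.sum_congr rfl fun j _ => ?_
  rw [hc j i]
  ring

theorem RPois_leib (c : Fin 12 → Fin 12 → MvPolynomial (Fin 12) ℝ)
    (f g h : MvPolynomial (Fin 12) ℝ) :
    RPois_B c f (g * h) = RPois_B c f g * h + g * RPois_B c f h := by
  rw [RPois_B_apply, RPois_B_apply, RPois_B_apply, Finset.sum_mul, Finset.mul_sum,
    ← Finset.sum_add_distrib]
  refine Finset.sum_congr rfl fun i _ => ?_
  rw [Finset.sum_mul, Finset.mul_sum, ← Finset.sum_add_distrib]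
  refine Finset.sum_congr rfl fun j _ => ?_
  rw [Derivation.leibniz, smul_eq_mul, smul_eq_mul]
  ring

theorem exists_pois : ∃ P : S →ₗ[ℝ] S →ₗ[ℝ] S, IsPois P := by
  obtain ⟨e, he⟩ : ∃ e : S ≃ₐ[ℝ] MvPolynomial (Fin 12) ℝ,
      ∀ i, e (SymmetricAlgebra.ι ℝ L (RPois_b i)) = X i :=
    ⟨SymmetricAlgebra.equivMvPolynomial RPois_b, fun i =>
      SymmetricAlgebra.equivMvPolynomial_ι_apply RPois_b i⟩
  obtain ⟨c, hc⟩ : ∃ c : Fin 12 → Fin 12 → MvPolynomial (Fin 12) ℝ, ∀ i j,
      c i j = e (SymmetricAlgebra.ι ℝ L ⁅RPois_b i, RPois_b j⁆) := ⟨_, fun _ _ => rfl⟩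
  have hanti : ∀ i j, c i j = -c j i := by
    intro i j
    rw [hc, hc, ← lie_skew, map_neg, map_neg]
  obtain ⟨P, hP⟩ : ∃ P : S →ₗ[ℝ] S →ₗ[ℝ] S, ∀ a p, P a p = e.symm (RPois_B c (e a) (e p)) :=
    ⟨LinearMap.mk₂ ℝ (fun a p => e.symm (RPois_B c (e a) (e p)))
      (fun a a' p => by simp only [map_add, LinearMap.add_apply])
      (fun r a p => by simp only [map_smul, LinearMap.smul_apply])
      (fun a p p' => by simp only [map_add])
      (fun r a p => by simp only [map_smul]), fun _ _ => rfl⟩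
  refine ⟨P, ?_, ?_, ?_⟩
  · have hbil : P.compl₁₂ (SymmetricAlgebra.ι ℝ L) (SymmetricAlgebra.ι ℝ L) =
        LinearMap.mk₂ ℝ (fun x y : L => SymmetricAlgebra.ι ℝ L ⁅x, y⁆)
          (fun x x' y => by rw [add_lie, map_add])
          (fun r x y => by rw [smul_lie, map_smul])
          (fun x y y' => by rw [lie_add, map_add])
          (fun r x y => by rw [lie_smul, map_smul]) := by
      refine LinearMap.ext_basis RPois_b RPois_b fun i j => ?_
      rw [LinearMap.compl₁₂_apply, LinearMap.mk₂_apply, hP, he, he, RPois_X, hc,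
        AlgEquiv.symm_apply_apply]
    intro x y
    have h := LinearMap.congr_fun (LinearMap.congr_fun hbil x) y
    rw [LinearMap.compl₁₂_apply, LinearMap.mk₂_apply] at h
    exact h
  · intro a b
    rw [hP, hP, RPois_anti c hanti, map_neg]
  · intro a b d
    rw [hP, hP, hP, map_mul, RPois_leib, map_add, map_mul, map_mul, AlgEquiv.symm_apply_apply,
      AlgEquiv.symm_apply_apply]

end Pool.Agent.H69.DF
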