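import Pool.Agent.H69.DF.Base2

/-!
# Row Red: the reduction map S(g) → R9 and the Poisson bracket

`sg : S →ₐ R9` kills ι h_0, ι e_0, ι e_1 and sends ι e_2, ι e_3, ι h_1, ι h_2, ι h_3, ι f_0, ..., ι f_3 to X 0, ..., X 8.
(1) `sg_mem`: a ∈ Jd ↔ sg a = 0.
  → : Jd is generated by ι Y, Y in hs, and sgl Y = 0 (all the coordinates occurring in sgl vanish on hs).
  ← : let s : R9 →ₐ S, X i ↦ the corresponding ι of a basis vector (aeval). Then a - s (sg a) ∈ Jd for all a: `SymmetricAlgebra.induction`;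
      for a = ι x: x - (the combination of the 9 basis vectors) lies in hs. Products: a b - s(sg a) s(sg b) = (a - s(sg a)) b + s(sg a)(b - s(sg b)).
(2) `P_algebraMap`: P a (algebraMap c) = 0 (leib with b = c = 1 gives P a 1 = 0; algebraMap c = c • 1).
(3) `sg_P0` etc.: for P with IsPois: sg (P (ι (hL 0)) a) = DT (sg a), sg (P (ι (eL 0)) a) = D0 (sg a), sg (P (ι (eL 1)) a) = D1 (sg a).
  SymmetricAlgebra.induction on a: a = ι x: P (ι y) (ι x) = ι ⁅y, x⁆, both sides linear in x; 12 coordinates (br); products: leib and Derivation.leibniz.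
(4) `inN_iff`: inN P a ↔ DT (sg a) = 0 ∧ D0 (sg a) = 0 ∧ D1 (sg a) = 0: an element Y of hs is Y 4 • hL 0 + Y 0 • eL 0 + Y 1 • eL 1 (coordinates), (1), (3).
(5) `sg_Kt`: sg (Kt i) = K i (fin_cases i; simp [Kt, K, es, hS, fs, sg, sgl, eL, hL, fL]).
(6) `Kt_cas`: for i : Fin 4 and all a: P (Kt i.succ) a = 0. By anti it is enough that P a (Kt i.succ) = 0 ... do: for fixed Kt the map a ↦ P (Kt) a is a
  derivation (leib), so by SymmetricAlgebra.induction it is enough to have P (Kt i.succ) (ι x) = 0 for all x, i.e. P (ι x) (Kt i.succ) = 0 (anti);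
  by linearity x is one of the 12 basis vectors; expand with leib, gen (P (ι x) (es j) = ι ⁅x, eL j⁆ ...), then `ring`.
(7) `Kt_inN0`: inN P (Kt 0): by (4), (5): DT (K 0) = 0, D0 (K 0) = 0, D1 (K 0) = 0 (mkDerivation_X, Derivation.leibniz; ring).
-/

namespace Pool.Agent.H69.DF

open MvPolynomial

theorem RRed_vec (y : L) : y = y 0 • eL 0 + y 1 • eL 1 + y 2 • eL 2 + y 3 • eL 3 + y 4 • hL 0 + y 5 • hL 1 + y 6 • hL 2 + y 7 • hL 3 + y 8 • fL 0 + y 9 • fL 1 + y 10 • fL 2 + y 11 • fL 3 := by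
  refine L_ext fun k => ?_
  fin_cases k <;> simp [eL, hL, fL]

theorem RRed_exp (y : L) : SymmetricAlgebra.ι ℝ L y = algebraMap ℝ S (y 0) * es 0 + algebraMap ℝ S (y 1) * es 1 + algebraMap ℝ S (y 2) * es 2 + algebraMap ℝ S (y 3) * es 3 + algebraMap ℝ S (y 4) * hS 0 + algebraMap ℝ S (y 5) * hS 1 + algebraMap ℝ S (y 6) * hS 2 + algebraMap ℝ S (y 7) * hS 3 + algebraMap ℝ S (y 8) * fs 0 + algebraMap ℝ S (y 9) * fs 1 + algebraMap ℝ S (y 10) * fs 2 + algebraMap ℝ S (y 11) * fs 3 := by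
  conv_lhs => rw [RRed_vec y]
  simp only [map_add, map_smul, Algebra.smul_def, es, hS, fs]

theorem RRed_hs {Y : L} (h2 : Y 2 = 0) (h3 : Y 3 = 0) (h5 : Y 5 = 0) (h6 : Y 6 = 0) (h7 : Y 7 = 0)
    (h8 : Y 8 = 0) (h9 : Y 9 = 0) (h10 : Y 10 = 0) (h11 : Y 11 = 0) :
    SymmetricAlgebra.ι ℝ L Y ∈ Jd :=
  Ideal.subset_span ⟨⟨Y, h2, h3, h5, h6, h7, h8, h9, h10, h11⟩, rfl⟩

theorem RRed_ker : Jd ≤ RingHom.ker (sg : S →+* R9) := by
  unfold Jd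
  rw [Ideal.span_le]
  rintro _ ⟨⟨Y, h2, h3, h5, h6, h7, h8, h9, h10, h11⟩, rfl⟩
  show sg (SymmetricAlgebra.ι ℝ L Y) = 0
  rw [sg, SymmetricAlgebra.lift_ι_apply]
  show Y 2 • X 0 + Y 3 • X 1 + Y 5 • X 2 + Y 6 • X 3 + Y 7 • X 4 + Y 8 • X 5 + Y 9 • X 6
    + Y 10 • X 7 + Y 11 • X 8 = (0 : R9)
  rw [h2, h3, h5, h6, h7, h8, h9, h10, h11]
  simp

/-- a section of `sg` -/
noncomputable def RRed_s : R9 →ₐ[ℝ] S :=
  aeval ![es 2, es 3, hS 1, hS 2, hS 3, fs 0, fs 1, fs 2, fs 3]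

theorem RRed_s_X : RRed_s (X 0) = es 2 ∧ RRed_s (X 1) = es 3 ∧ RRed_s (X 2) = hS 1 ∧
    RRed_s (X 3) = hS 2 ∧ RRed_s (X 4) = hS 3 ∧ RRed_s (X 5) = fs 0 ∧ RRed_s (X 6) = fs 1 ∧
    RRed_s (X 7) = fs 2 ∧ RRed_s (X 8) = fs 3 := by
  refine ⟨?_, ?_, ?_, ?_, ?_, ?_, ?_, ?_, ?_⟩ <;> rw [RRed_s, aeval_X] <;> rfl

theorem RRed_sgl (x : L) : sg (SymmetricAlgebra.ι ℝ L x) =
    x 2 • X 0 + x 3 • X 1 + x 5 • X 2 + x 6 • X 3 + x 7 • X 4 + x 8 • X 5 + x 9 • X 6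
    + x 10 • X 7 + x 11 • X 8 := by
  rw [sg, SymmetricAlgebra.lift_ι_apply]
  rfl

theorem RRed_s_sg (x : L) : RRed_s (sg (SymmetricAlgebra.ι ℝ L x)) = SymmetricAlgebra.ι ℝ L
      (x 2 • eL 2 + x 3 • eL 3 + x 5 • hL 1 + x 6 • hL 2 + x 7 • hL 3 + x 8 • fL 0
        + x 9 • fL 1 + x 10 • fL 2 + x 11 • fL 3) := by
  obtain ⟨e0, e1, e2, e3, e4, e5, e6, e7, e8⟩ := RRed_s_X
  rw [RRed_sgl]
  generalize x 2 = x2
  generalize x 3 = x3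
  generalize x 5 = x5
  generalize x 6 = x6
  generalize x 7 = x7
  generalize x 8 = x8
  generalize x 9 = x9
  generalize x 10 = x10
  generalize x 11 = x11
  simp only [map_add, map_smul, e0, e1, e2, e3, e4, e5, e6, e7, e8, es, hS, fs]

theorem RRed_sub (x : L) : SymmetricAlgebra.ι ℝ L
      (x 2 • eL 2 + x 3 • eL 3 + x 5 • hL 1 + x 6 • hL 2 + x 7 • hL 3 + x 8 • fL 0
        + x 9 • fL 1 + x 10 • fL 2 + x 11 • fL 3) - SymmetricAlgebra.ι ℝ L x ∈ Jd := by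
  rw [← map_sub]
  apply RRed_hs <;> simp [eL, hL, fL]

theorem RRed_sec : (Ideal.Quotient.mkₐ ℝ Jd).comp (RRed_s.comp sg) = Ideal.Quotient.mkₐ ℝ Jd := by
  refine SymmetricAlgebra.algHom_ext (LinearMap.ext fun x => ?_)
  have h1 : Ideal.Quotient.mk Jd (RRed_s (sg (SymmetricAlgebra.ι ℝ L x))) =
      Ideal.Quotient.mk Jd (SymmetricAlgebra.ι ℝ L x) := by
    rw [Ideal.Quotient.eq, RRed_s_sg]
    exact RRed_sub x
  exact h1

theorem sg_mem (a : S) : a ∈ Jd ↔ sg a = 0 := by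
  constructor
  · intro h
    exact RRed_ker h
  · intro h
    have h1 := DFunLike.congr_fun RRed_sec a
    have h2 : Ideal.Quotient.mk Jd (RRed_s (sg a)) = Ideal.Quotient.mk Jd a := h1
    rw [h, map_zero, map_zero] at h2
    exact Ideal.Quotient.eq_zero_iff_mem.1 h2.symm

theorem P_algebraMap {P : S →ₗ[ℝ] S →ₗ[ℝ] S} (hP : IsPois P) (a : S) (c : ℝ) :
    P a (algebraMap ℝ S c) = 0 := by
  have h1 : P a 1 = 0 := by
    have h := hP.leib a 1 1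
    rw [mul_one, one_mul] at h
    have h2 : P a 1 + 0 = P a 1 + P a 1 := by
      rw [add_zero]
      simpa using h
    exact (add_left_cancel h2).symm
  rw [Algebra.algebraMap_eq_smul_one, map_smul, h1, smul_zero]

theorem RRed_der {P : S →ₗ[ℝ] S →ₗ[ℝ] S} (hP : IsPois P) (y : L) (D : Derivation ℝ R9 R9)
    (h : ∀ x : L, sg (SymmetricAlgebra.ι ℝ L ⁅y, x⁆) = D (sg (SymmetricAlgebra.ι ℝ L x))) (a : S) :
    sg (P (SymmetricAlgebra.ι ℝ L y) a) = D (sg a) := by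
  induction a using SymmetricAlgebra.induction with
  | algebraMap r =>
    rw [P_algebraMap hP, map_zero, AlgHom.commutes, Derivation.map_algebraMap]
  | ι x => rw [hP.gen, h]
  | mul a b ha hb =>
    rw [hP.leib, map_add, map_mul, map_mul, ha, hb, map_mul, Derivation.leibniz]
    simp only [smul_eq_mul]
    ring
  | add a b ha hb => rw [map_add, map_add, ha, hb, map_add, map_add]

theorem RRed_C2 : (C 2 : R9) = 2 := map_ofNat C 2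

theorem sg_P {P : S →ₗ[ℝ] S →ₗ[ℝ] S} (hP : IsPois P) (a : S) :
    sg (P (SymmetricAlgebra.ι ℝ L (hL 0)) a) = DT (sg a) ∧
    sg (P (SymmetricAlgebra.ι ℝ L (eL 0)) a) = D0 (sg a) ∧
    sg (P (SymmetricAlgebra.ι ℝ L (eL 1)) a) = D1 (sg a) := by
  refine ⟨RRed_der hP _ DT (fun x => ?_) a, RRed_der hP _ D0 (fun x => ?_) a,
    RRed_der hP _ D1 (fun x => ?_) a⟩
  · rw [RRed_sgl, RRed_sgl, DT]
    simp only [map_add, map_smul, mkDerivation_X, bracket_def]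
    simp [br, hL, smul_eq_C_mul, RRed_C2]
    ring
  · rw [RRed_sgl, RRed_sgl, D0]
    simp only [map_add, map_smul, mkDerivation_X, bracket_def]
    simp [br, eL, smul_eq_C_mul, RRed_C2]
    ring
  · rw [RRed_sgl, RRed_sgl, D1]
    simp only [map_add, map_smul, mkDerivation_X, bracket_def]
    simp [br, eL, smul_eq_C_mul, RRed_C2]
    ring

theorem inN_iff {P : S →ₗ[ℝ] S →ₗ[ℝ] S} (hP : IsPois P) (a : S) :
    inN P a ↔ DT (sg a) = 0 ∧ D0 (sg a) = 0 ∧ D1 (sg a) = 0 := by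
  obtain ⟨e1, e2, e3⟩ := sg_P hP a
  constructor
  · intro h
    refine ⟨?_, ?_, ?_⟩
    · rw [← e1]
      exact (sg_mem _).1 (h ⟨hL 0, by refine ⟨?_, ?_, ?_, ?_, ?_, ?_, ?_, ?_, ?_⟩ <;> simp [hL]⟩)
    · rw [← e2]
      exact (sg_mem _).1 (h ⟨eL 0, by refine ⟨?_, ?_, ?_, ?_, ?_, ?_, ?_, ?_, ?_⟩ <;> simp [eL]⟩)
    · rw [← e3]
      exact (sg_mem _).1 (h ⟨eL 1, by refine ⟨?_, ?_, ?_, ?_, ?_, ?_, ?_, ?_, ?_⟩ <;> simp [eL]⟩)
  · rintro ⟨h1, h2, h3⟩ ⟨Y, g2, g3, g5, g6, g7, g8, g9, g10, g11⟩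
    show P (SymmetricAlgebra.ι ℝ L Y) a ∈ Jd
    have hY : Y = Y 4 • hL 0 + Y 0 • eL 0 + Y 1 • eL 1 := by
      refine L_ext fun k => ?_
      fin_cases k <;> simp [eL, hL, g2, g3, g5, g6, g7, g8, g9, g10, g11]
    obtain ⟨c1, c2, c3, hY⟩ : ∃ c1 c2 c3 : ℝ, Y = c1 • hL 0 + c2 • eL 0 + c3 • eL 1 :=
      ⟨_, _, _, hY⟩
    have hP1 : P (SymmetricAlgebra.ι ℝ L Y) a = c1 • P (SymmetricAlgebra.ι ℝ L (hL 0)) a +
        c2 • P (SymmetricAlgebra.ι ℝ L (eL 0)) a + c3 • P (SymmetricAlgebra.ι ℝ L (eL 1)) a := by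
      rw [hY]
      simp only [map_add, map_smul, LinearMap.add_apply, LinearMap.smul_apply]
    rw [sg_mem, hP1, map_add, map_add, map_smul, map_smul, map_smul, e1, e2, e3, h1, h2, h3]
    simp

theorem RRed_sg_es0 : sg (es 0) = 0 := by
  rw [es, RRed_sgl]
  simp [eL]

theorem RRed_sg_es1 : sg (es 1) = 0 := by
  rw [es, RRed_sgl]
  simp [eL]

theorem RRed_sg_es2 : sg (es 2) = X 0 := by
  rw [es, RRed_sgl]
  simp [eL]

theorem RRed_sg_es3 : sg (es 3) = X 1 := by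
  rw [es, RRed_sgl]
  simp [eL]

theorem RRed_sg_hS0 : sg (hS 0) = 0 := by
  rw [hS, RRed_sgl]
  simp [hL]

theorem RRed_sg_hS1 : sg (hS 1) = X 2 := by
  rw [hS, RRed_sgl]
  simp [hL]

theorem RRed_sg_hS2 : sg (hS 2) = X 3 := by
  rw [hS, RRed_sgl]
  simp [hL]

theorem RRed_sg_hS3 : sg (hS 3) = X 4 := by
  rw [hS, RRed_sgl]
  simp [hL]

theorem RRed_sg_fs0 : sg (fs 0) = X 5 := by
  rw [fs, RRed_sgl]
  simp [fL]

theorem RRed_sg_fs1 : sg (fs 1) = X 6 := by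
  rw [fs, RRed_sgl]
  simp [fL]

theorem RRed_sg_fs2 : sg (fs 2) = X 7 := by
  rw [fs, RRed_sgl]
  simp [fL]

theorem RRed_sg_fs3 : sg (fs 3) = X 8 := by
  rw [fs, RRed_sgl]
  simp [fL]

theorem RRed_sg4 : sg 4 = 4 := map_ofNat sg 4

theorem RRed_sg2 : sg 2 = 2 := map_ofNat sg 2

theorem RRed_A2 : algebraMap ℝ S 2 = 2 := map_ofNat (algebraMap ℝ S) 2

theorem RRed_C4 : (C 4 : R9) = 4 := map_ofNat C 4

theorem sg_Kt (i : Fin 5) : sg (Kt i) = K i := by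
  fin_cases i
  all_goals
    simp [Kt, K, RRed_sg4, RRed_sg2, RRed_sg_es0, RRed_sg_es1, RRed_sg_es2, RRed_sg_es3, RRed_sg_hS0, RRed_sg_hS1, RRed_sg_hS2, RRed_sg_hS3, RRed_sg_fs0, RRed_sg_fs1, RRed_sg_fs2, RRed_sg_fs3]
  all_goals ring

theorem RRed_P_es0 {P : S →ₗ[ℝ] S →ₗ[ℝ] S} (hP : IsPois P) (x : L) :
    P (SymmetricAlgebra.ι ℝ L x) (es 0) =
      2 * (algebraMap ℝ S (x 4) * es 0) - (algebraMap ℝ S (x 8) * hS 0) + 2 * (algebraMap ℝ S (x 5) * es 1) - (algebraMap ℝ S (x 9) * hS 1) + 2 * (algebraMap ℝ S (x 6) * es 2) - (algebraMap ℝ S (x 10) * hS 2) + 2 * (algebraMap ℝ S (x 7) * es 3) - (algebraMap ℝ S (x 11) * hS 3) := by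
  have h : P (SymmetricAlgebra.ι ℝ L x) (SymmetricAlgebra.ι ℝ L (eL 0)) = _ :=
    (hP.gen x (eL 0)).trans (RRed_exp _)
  refine h.trans ?_
  rw [bracket_def]
  simp [br, eL, RRed_A2]
  ring

theorem RRed_P_es1 {P : S →ₗ[ℝ] S →ₗ[ℝ] S} (hP : IsPois P) (x : L) :
    P (SymmetricAlgebra.ι ℝ L x) (es 1) =
      2 * (algebraMap ℝ S (x 4) * es 1) - (algebraMap ℝ S (x 8) * hS 1) + 2 * (algebraMap ℝ S (x 5) * es 2) - (algebraMap ℝ S (x 9) * hS 2) + 2 * (algebraMap ℝ S (x 6) * es 3) - (algebraMap ℝ S (x 10) * hS 3) := by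
  have h : P (SymmetricAlgebra.ι ℝ L x) (SymmetricAlgebra.ι ℝ L (eL 1)) = _ :=
    (hP.gen x (eL 1)).trans (RRed_exp _)
  refine h.trans ?_
  rw [bracket_def]
  simp [br, eL, RRed_A2]
  ring

theorem RRed_P_es2 {P : S →ₗ[ℝ] S →ₗ[ℝ] S} (hP : IsPois P) (x : L) :
    P (SymmetricAlgebra.ι ℝ L x) (es 2) =
      2 * (algebraMap ℝ S (x 4) * es 2) - (algebraMap ℝ S (x 8) * hS 2) + 2 * (algebraMap ℝ S (x 5) * es 3) - (algebraMap ℝ S (x 9) * hS 3) := by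
  have h : P (SymmetricAlgebra.ι ℝ L x) (SymmetricAlgebra.ι ℝ L (eL 2)) = _ :=
    (hP.gen x (eL 2)).trans (RRed_exp _)
  refine h.trans ?_
  rw [bracket_def]
  simp [br, eL, RRed_A2]
  ring

theorem RRed_P_es3 {P : S →ₗ[ℝ] S →ₗ[ℝ] S} (hP : IsPois P) (x : L) :
    P (SymmetricAlgebra.ι ℝ L x) (es 3) =
      2 * (algebraMap ℝ S (x 4) * es 3) - (algebraMap ℝ S (x 8) * hS 3) := by
  have h : P (SymmetricAlgebra.ι ℝ L x) (SymmetricAlgebra.ι ℝ L (eL 3)) = _ :=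
    (hP.gen x (eL 3)).trans (RRed_exp _)
  refine h.trans ?_
  rw [bracket_def]
  simp [br, eL, RRed_A2]
  ring

theorem RRed_P_hS0 {P : S →ₗ[ℝ] S →ₗ[ℝ] S} (hP : IsPois P) (x : L) :
    P (SymmetricAlgebra.ι ℝ L x) (hS 0) =
      -2 * (algebraMap ℝ S (x 0) * es 0) + 2 * (algebraMap ℝ S (x 8) * fs 0) - 2 * (algebraMap ℝ S (x 1) * es 1) + 2 * (algebraMap ℝ S (x 9) * fs 1) - 2 * (algebraMap ℝ S (x 2) * es 2) + 2 * (algebraMap ℝ S (x 10) * fs 2) - 2 * (algebraMap ℝ S (x 3) * es 3) + 2 * (algebraMap ℝ S (x 11) * fs 3) := by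
  have h : P (SymmetricAlgebra.ι ℝ L x) (SymmetricAlgebra.ι ℝ L (hL 0)) = _ :=
    (hP.gen x (hL 0)).trans (RRed_exp _)
  refine h.trans ?_
  rw [bracket_def]
  simp [br, hL, RRed_A2]
  ring

theorem RRed_P_hS1 {P : S →ₗ[ℝ] S →ₗ[ℝ] S} (hP : IsPois P) (x : L) :
    P (SymmetricAlgebra.ι ℝ L x) (hS 1) =
      -2 * (algebraMap ℝ S (x 0) * es 1) + 2 * (algebraMap ℝ S (x 8) * fs 1) - 2 * (algebraMap ℝ S (x 1) * es 2) + 2 * (algebraMap ℝ S (x 9) * fs 2) - 2 * (algebraMap ℝ S (x 2) * es 3) + 2 * (algebraMap ℝ S (x 10) * fs 3) := by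
  have h : P (SymmetricAlgebra.ι ℝ L x) (SymmetricAlgebra.ι ℝ L (hL 1)) = _ :=
    (hP.gen x (hL 1)).trans (RRed_exp _)
  refine h.trans ?_
  rw [bracket_def]
  simp [br, hL, RRed_A2]
  ring

theorem RRed_P_hS2 {P : S →ₗ[ℝ] S →ₗ[ℝ] S} (hP : IsPois P) (x : L) :
    P (SymmetricAlgebra.ι ℝ L x) (hS 2) =
      -2 * (algebraMap ℝ S (x 0) * es 2) + 2 * (algebraMap ℝ S (x 8) * fs 2) - 2 * (algebraMap ℝ S (x 1) * es 3) + 2 * (algebraMap ℝ S (x 9) * fs 3) := by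
  have h : P (SymmetricAlgebra.ι ℝ L x) (SymmetricAlgebra.ι ℝ L (hL 2)) = _ :=
    (hP.gen x (hL 2)).trans (RRed_exp _)
  refine h.trans ?_
  rw [bracket_def]
  simp [br, hL, RRed_A2]
  ring

theorem RRed_P_hS3 {P : S →ₗ[ℝ] S →ₗ[ℝ] S} (hP : IsPois P) (x : L) :
    P (SymmetricAlgebra.ι ℝ L x) (hS 3) =
      -2 * (algebraMap ℝ S (x 0) * es 3) + 2 * (algebraMap ℝ S (x 8) * fs 3) := by
  have h : P (SymmetricAlgebra.ι ℝ L x) (SymmetricAlgebra.ι ℝ L (hL 3)) = _ :=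
    (hP.gen x (hL 3)).trans (RRed_exp _)
  refine h.trans ?_
  rw [bracket_def]
  simp [br, hL, RRed_A2]
  ring

theorem RRed_P_fs0 {P : S →ₗ[ℝ] S →ₗ[ℝ] S} (hP : IsPois P) (x : L) :
    P (SymmetricAlgebra.ι ℝ L x) (fs 0) =
      (algebraMap ℝ S (x 0) * hS 0) - 2 * (algebraMap ℝ S (x 4) * fs 0) + (algebraMap ℝ S (x 1) * hS 1) - 2 * (algebraMap ℝ S (x 5) * fs 1) + (algebraMap ℝ S (x 2) * hS 2) - 2 * (algebraMap ℝ S (x 6) * fs 2) + (algebraMap ℝ S (x 3) * hS 3) - 2 * (algebraMap ℝ S (x 7) * fs 3) := by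
  have h : P (SymmetricAlgebra.ι ℝ L x) (SymmetricAlgebra.ι ℝ L (fL 0)) = _ :=
    (hP.gen x (fL 0)).trans (RRed_exp _)
  refine h.trans ?_
  rw [bracket_def]
  simp [br, fL, RRed_A2]
  ring

theorem RRed_P_fs1 {P : S →ₗ[ℝ] S →ₗ[ℝ] S} (hP : IsPois P) (x : L) :
    P (SymmetricAlgebra.ι ℝ L x) (fs 1) =
      (algebraMap ℝ S (x 0) * hS 1) - 2 * (algebraMap ℝ S (x 4) * fs 1) + (algebraMap ℝ S (x 1) * hS 2) - 2 * (algebraMap ℝ S (x 5) * fs 2) + (algebraMap ℝ S (x 2) * hS 3) - 2 * (algebraMap ℝ S (x 6) * fs 3) := by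
  have h : P (SymmetricAlgebra.ι ℝ L x) (SymmetricAlgebra.ι ℝ L (fL 1)) = _ :=
    (hP.gen x (fL 1)).trans (RRed_exp _)
  refine h.trans ?_
  rw [bracket_def]
  simp [br, fL, RRed_A2]
  ring

theorem RRed_P_fs2 {P : S →ₗ[ℝ] S →ₗ[ℝ] S} (hP : IsPois P) (x : L) :
    P (SymmetricAlgebra.ι ℝ L x) (fs 2) =
      (algebraMap ℝ S (x 0) * hS 2) - 2 * (algebraMap ℝ S (x 4) * fs 2) + (algebraMap ℝ S (x 1) * hS 3) - 2 * (algebraMap ℝ S (x 5) * fs 3) := by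
  have h : P (SymmetricAlgebra.ι ℝ L x) (SymmetricAlgebra.ι ℝ L (fL 2)) = _ :=
    (hP.gen x (fL 2)).trans (RRed_exp _)
  refine h.trans ?_
  rw [bracket_def]
  simp [br, fL, RRed_A2]
  ring

theorem RRed_P_fs3 {P : S →ₗ[ℝ] S →ₗ[ℝ] S} (hP : IsPois P) (x : L) :
    P (SymmetricAlgebra.ι ℝ L x) (fs 3) =
      (algebraMap ℝ S (x 0) * hS 3) - 2 * (algebraMap ℝ S (x 4) * fs 3) := by
  have h : P (SymmetricAlgebra.ι ℝ L x) (SymmetricAlgebra.ι ℝ L (fL 3)) = _ :=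
    (hP.gen x (fL 3)).trans (RRed_exp _)
  refine h.trans ?_
  rw [bracket_def]
  simp [br, fL, RRed_A2]
  ring

theorem RRed_four {P : S →ₗ[ℝ] S →ₗ[ℝ] S} (hP : IsPois P) (a : S) : P a 4 = 0 := by
  have h := P_algebraMap hP a 4
  rwa [map_ofNat] at h

theorem RRed_two {P : S →ₗ[ℝ] S →ₗ[ℝ] S} (hP : IsPois P) (a : S) : P a 2 = 0 := by
  have h := P_algebraMap hP a 2
  rwa [map_ofNat] at h

theorem RRed_cas {P : S →ₗ[ℝ] S →ₗ[ℝ] S} (hP : IsPois P) (i : Fin 4) (x : L) :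
    P (SymmetricAlgebra.ι ℝ L x) (Kt i.succ) = 0 := by
  fin_cases i
  · show P (SymmetricAlgebra.ι ℝ L x) (4 * (es 0 * fs 3 + es 1 * fs 2 + es 2 * fs 1 + es 3 * fs 0)
      + 2 * hS 0 * hS 3 + 2 * hS 1 * hS 2) = 0
    simp only [map_add, hP.leib, RRed_four hP, RRed_two hP, pow_two,
      RRed_P_es0 hP x, RRed_P_es1 hP x, RRed_P_es2 hP x, RRed_P_es3 hP x, RRed_P_hS0 hP x, RRed_P_hS1 hP x, RRed_P_hS2 hP x, RRed_P_hS3 hP x, RRed_P_fs0 hP x, RRed_P_fs1 hP x, RRed_P_fs2 hP x, RRed_P_fs3 hP x]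
    ring
  · show P (SymmetricAlgebra.ι ℝ L x) (4 * (es 1 * fs 3 + es 2 * fs 2 + es 3 * fs 1)
      + 2 * hS 1 * hS 3 + hS 2 ^ 2) = 0
    simp only [map_add, hP.leib, RRed_four hP, RRed_two hP, pow_two,
      RRed_P_es0 hP x, RRed_P_es1 hP x, RRed_P_es2 hP x, RRed_P_es3 hP x, RRed_P_hS0 hP x, RRed_P_hS1 hP x, RRed_P_hS2 hP x, RRed_P_hS3 hP x, RRed_P_fs0 hP x, RRed_P_fs1 hP x, RRed_P_fs2 hP x, RRed_P_fs3 hP x]
    ring
  · show P (SymmetricAlgebra.ι ℝ L x) (4 * (es 2 * fs 3 + es 3 * fs 2) + 2 * hS 2 * hS 3) = 0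
    simp only [map_add, hP.leib, RRed_four hP, RRed_two hP, pow_two,
      RRed_P_es0 hP x, RRed_P_es1 hP x, RRed_P_es2 hP x, RRed_P_es3 hP x, RRed_P_hS0 hP x, RRed_P_hS1 hP x, RRed_P_hS2 hP x, RRed_P_hS3 hP x, RRed_P_fs0 hP x, RRed_P_fs1 hP x, RRed_P_fs2 hP x, RRed_P_fs3 hP x]
    ring
  · show P (SymmetricAlgebra.ι ℝ L x) (4 * (es 3 * fs 3) + hS 3 ^ 2) = 0
    simp only [map_add, hP.leib, RRed_four hP, RRed_two hP, pow_two,
      RRed_P_es0 hP x, RRed_P_es1 hP x, RRed_P_es2 hP x, RRed_P_es3 hP x, RRed_P_hS0 hP x, RRed_P_hS1 hP x, RRed_P_hS2 hP x, RRed_P_hS3 hP x, RRed_P_fs0 hP x, RRed_P_fs1 hP x, RRed_P_fs2 hP x, RRed_P_fs3 hP x]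
    ring

theorem Kt_cas {P : S →ₗ[ℝ] S →ₗ[ℝ] S} (hP : IsPois P) (i : Fin 4) (a : S) : P (Kt i.succ) a = 0 := by
  induction a using SymmetricAlgebra.induction with
  | algebraMap r => exact P_algebraMap hP _ r
  | ι x => rw [hP.anti, RRed_cas hP, neg_zero]
  | mul a b ha hb => rw [hP.leib, ha, hb, zero_mul, mul_zero, add_zero]
  | add a b ha hb => rw [map_add, ha, hb, add_zero]

theorem Kt_inN0 {P : S →ₗ[ℝ] S →ₗ[ℝ] S} (hP : IsPois P) : inN P (Kt 0) := by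
  rw [inN_iff hP, sg_Kt]
  have hK : K 0 = 4 * X 0 * X 5 + X 2 ^ 2 := rfl
  have h4 : (4 : R9) = algebraMap ℝ R9 4 := by rw [map_ofNat]
  rw [hK, h4]
  refine ⟨?_, ?_, ?_⟩
  · simp only [DT, map_add, Derivation.leibniz, Derivation.map_algebraMap, mkDerivation_X, pow_two]
    simp [RRed_C4]
    ring
  · simp only [D0, map_add, Derivation.leibniz, Derivation.map_algebraMap, mkDerivation_X, pow_two]
    simp [RRed_C4]
  · simp only [D1, map_add, Derivation.leibniz, Derivation.map_algebraMap, mkDerivation_X, pow_two]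
    simp [RRed_C4]
    ring

end Pool.Agent.H69.DF
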