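import Pool.Agent.H69.DF.Base2

/-!
# Row RelU: the relations in U(g), and U(g) → A from the relations

(1) `decomp`: x = sum over i < 4 of x_i e_i + x_(4+i) h_i + x_(8+i) f_i.  (12 coordinates; L_ext, fin_cases, simp [eL, hL, fL]).
(2) `lie_ee` ... `lie_ef`: brackets of the basis vectors for all natural indices i, j (eL i = 0 etc. for i ≥ 4: the functions are 0
   by definition; for i, j < 4 use interval_cases and the 12 coordinates: L_ext, bracket_def, br, eL, hL, fL).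
(3) `relU`: in U(g) the images satisfy `Rel`: for X, Y in L, ι X * ι Y - ι Y * ι X = ι ⁅X, Y⁆
   (LieHom.map_lie (UniversalEnvelopingAlgebra.ι ℝ), LieRing.of_associative_ring_bracket).
(4) `lift_exists`: for E H F in an algebra A satisfying `Rel` there is an algebra map ρ : U →ₐ A with ρ (Eu i) = E i, ...
   Proof. Let φ : L →ₗ[ℝ] A, φ x = ∑ i in range 4 (x_i • E i + x_(4+i) • H i + x_(8+i) • F i). Then φ (eL i) = E i etc. for every
   natural i (for i ≥ 4 both are 0 by Rel.E0 ...). It is a Lie homomorphism: the identity ⁅φ x, φ y⁆ = φ ⁅x, y⁆ is bilinear, so by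
   (1) it is enough to check it for x, y among eL i, hL i, fL i; for these use (2) and Rel.  (Bilinearity: e.g. fix y and use (1) for x
   with map_add, map_smul, add_lie, smul_lie; then the same for y.)  Then ρ = UniversalEnvelopingAlgebra.lift ℝ φ'.
-/

namespace Pool.Agent.H69.DF

open MvPolynomial

theorem RRelU_e (i : ℕ) (k : Fin 12) : eL i k = if i < 4 ∧ (k : ℕ) = i then 1 else 0 := rfl
theorem RRelU_h (i : ℕ) (k : Fin 12) : hL i k = if i < 4 ∧ (k : ℕ) = 4 + i then 1 else 0 := rfl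
theorem RRelU_f (i : ℕ) (k : Fin 12) : fL i k = if i < 4 ∧ (k : ℕ) = 8 + i then 1 else 0 := rfl

theorem decomp (x : L) : x = x 0 • eL 0 + x 1 • eL 1 + x 2 • eL 2 + x 3 • eL 3
    + x 4 • hL 0 + x 5 • hL 1 + x 6 • hL 2 + x 7 • hL 3
    + x 8 • fL 0 + x 9 • fL 1 + x 10 • fL 2 + x 11 • fL 3 := by
  apply L_ext
  intro i
  simp only [add_ap, smul_ap, RRelU_e, RRelU_h, RRelU_f]
  fin_cases i <;> simp

theorem eL_ge (i : ℕ) (hi : 4 ≤ i) : eL i = 0 := by
  apply L_ext
  intro k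
  rw [RRelU_e, zero_ap, if_neg (by omega)]
theorem hL_ge (i : ℕ) (hi : 4 ≤ i) : hL i = 0 := by
  apply L_ext
  intro k
  rw [RRelU_h, zero_ap, if_neg (by omega)]
theorem fL_ge (i : ℕ) (hi : 4 ≤ i) : fL i = 0 := by
  apply L_ext
  intro k
  rw [RRelU_f, zero_ap, if_neg (by omega)]

theorem lie_ee (i j : ℕ) : ⁅eL i, eL j⁆ = 0 := by
  by_cases hi : 4 ≤ i
  · rw [eL_ge i hi, zero_lie]
  by_cases hj : 4 ≤ j
  · rw [eL_ge j hj, lie_zero]
  have hi' : i < 4 := by omega
  have hj' : j < 4 := by omega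
  apply L_ext
  intro k
  rw [bracket_def, zero_ap]
  interval_cases i <;> interval_cases j <;> fin_cases k <;> simp [br, RRelU_e]
theorem lie_hh (i j : ℕ) : ⁅hL i, hL j⁆ = 0 := by
  by_cases hi : 4 ≤ i
  · rw [hL_ge i hi, zero_lie]
  by_cases hj : 4 ≤ j
  · rw [hL_ge j hj, lie_zero]
  have hi' : i < 4 := by omega
  have hj' : j < 4 := by omega
  apply L_ext
  intro k
  rw [bracket_def, zero_ap]
  interval_cases i <;> interval_cases j <;> fin_cases k <;> simp [br, RRelU_h]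
theorem lie_ff (i j : ℕ) : ⁅fL i, fL j⁆ = 0 := by
  by_cases hi : 4 ≤ i
  · rw [fL_ge i hi, zero_lie]
  by_cases hj : 4 ≤ j
  · rw [fL_ge j hj, lie_zero]
  have hi' : i < 4 := by omega
  have hj' : j < 4 := by omega
  apply L_ext
  intro k
  rw [bracket_def, zero_ap]
  interval_cases i <;> interval_cases j <;> fin_cases k <;> simp [br, RRelU_f]
theorem lie_he (i j : ℕ) : ⁅hL i, eL j⁆ = (2 : ℝ) • eL (i + j) := by
  by_cases hi : 4 ≤ i
  · rw [hL_ge i hi, zero_lie, eL_ge (i + j) (by omega), smul_zero]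
  by_cases hj : 4 ≤ j
  · rw [eL_ge j hj, lie_zero, eL_ge (i + j) (by omega), smul_zero]
  have hi' : i < 4 := by omega
  have hj' : j < 4 := by omega
  apply L_ext
  intro k
  rw [bracket_def, smul_ap]
  interval_cases i <;> interval_cases j <;> fin_cases k <;> simp [br, RRelU_e, RRelU_h]
theorem lie_hf (i j : ℕ) : ⁅hL i, fL j⁆ = -((2 : ℝ) • fL (i + j)) := by
  by_cases hi : 4 ≤ i
  · rw [hL_ge i hi, zero_lie, fL_ge (i + j) (by omega), smul_zero, neg_zero]
  by_cases hj : 4 ≤ j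
  · rw [fL_ge j hj, lie_zero, fL_ge (i + j) (by omega), smul_zero, neg_zero]
  have hi' : i < 4 := by omega
  have hj' : j < 4 := by omega
  apply L_ext
  intro k
  rw [bracket_def, neg_ap, smul_ap]
  interval_cases i <;> interval_cases j <;> fin_cases k <;> simp [br, RRelU_f, RRelU_h]
theorem lie_ef (i j : ℕ) : ⁅eL i, fL j⁆ = hL (i + j) := by
  by_cases hi : 4 ≤ i
  · rw [eL_ge i hi, zero_lie, hL_ge (i + j) (by omega)]
  by_cases hj : 4 ≤ j
  · rw [fL_ge j hj, lie_zero, hL_ge (i + j) (by omega)]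
  have hi' : i < 4 := by omega
  have hj' : j < 4 := by omega
  apply L_ext
  intro k
  rw [bracket_def]
  interval_cases i <;> interval_cases j <;> fin_cases k <;> simp [br, RRelU_f, RRelU_h, RRelU_e]

attribute [local instance 100] LieRing.ofAssociativeRing
attribute [local instance 100] LieAlgebra.ofAssociativeAlgebra

theorem RRelU_comm (x y : L) : UniversalEnvelopingAlgebra.ι ℝ x * UniversalEnvelopingAlgebra.ι ℝ y
    = UniversalEnvelopingAlgebra.ι ℝ y * UniversalEnvelopingAlgebra.ι ℝ x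
      + UniversalEnvelopingAlgebra.ι ℝ ⁅x, y⁆ := by
  rw [LieHom.map_lie, LieRing.of_associative_ring_bracket]
  abel

theorem relU : Rel Eu Hu Fu where
  E0 i hi := by unfold Eu; rw [eL_ge i hi, map_zero]
  H0 i hi := by unfold Hu; rw [hL_ge i hi, map_zero]
  F0 i hi := by unfold Fu; rw [fL_ge i hi, map_zero]
  EE i j := by unfold Eu; rw [RRelU_comm, lie_ee, map_zero, add_zero]
  HH i j := by unfold Hu; rw [RRelU_comm, lie_hh, map_zero, add_zero]
  FF i j := by unfold Fu; rw [RRelU_comm, lie_ff, map_zero, add_zero]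
  HE i j := by unfold Hu Eu; rw [RRelU_comm, lie_he, map_smul]
  HF i j := by unfold Hu Fu; rw [RRelU_comm, lie_hf, map_neg, map_smul, sub_eq_add_neg]
  EF i j := by unfold Eu Fu Hu; rw [RRelU_comm, lie_ef]

/-- The linear map `L → A` given by `E H F`. -/
noncomputable def RRelU_phi {A : Type*} [Ring A] [Algebra ℝ A] (E H F : ℕ → A) : L →ₗ[ℝ] A where
  toFun x := x 0 • E 0 + x 1 • E 1 + x 2 • E 2 + x 3 • E 3
    + x 4 • H 0 + x 5 • H 1 + x 6 • H 2 + x 7 • H 3
    + x 8 • F 0 + x 9 • F 1 + x 10 • F 2 + x 11 • F 3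
  map_add' x y := by
    simp only [add_ap, add_smul]
    abel
  map_smul' c x := by simp only [smul_ap, mul_smul, smul_add, RingHom.id_apply]

theorem RRelU_phi_ap {A : Type*} [Ring A] [Algebra ℝ A] (E H F : ℕ → A) (x : L) :
    RRelU_phi E H F x = x 0 • E 0 + x 1 • E 1 + x 2 • E 2 + x 3 • E 3
    + x 4 • H 0 + x 5 • H 1 + x 6 • H 2 + x 7 • H 3
    + x 8 • F 0 + x 9 • F 1 + x 10 • F 2 + x 11 • F 3 := rfl

theorem RRelU_phi_e {A : Type*} [Ring A] [Algebra ℝ A] {E H F : ℕ → A} (h : Rel E H F) (i : ℕ) :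
    RRelU_phi E H F (eL i) = E i := by
  by_cases hi : 4 ≤ i
  · rw [eL_ge i hi, map_zero, h.E0 i hi]
  have hi' : i < 4 := by omega
  rw [RRelU_phi_ap]
  interval_cases i <;> simp [RRelU_e]

theorem RRelU_phi_h {A : Type*} [Ring A] [Algebra ℝ A] {E H F : ℕ → A} (h : Rel E H F) (i : ℕ) :
    RRelU_phi E H F (hL i) = H i := by
  by_cases hi : 4 ≤ i
  · rw [hL_ge i hi, map_zero, h.H0 i hi]
  have hi' : i < 4 := by omega
  rw [RRelU_phi_ap]
  interval_cases i <;> simp [RRelU_h]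

theorem RRelU_phi_f {A : Type*} [Ring A] [Algebra ℝ A] {E H F : ℕ → A} (h : Rel E H F) (i : ℕ) :
    RRelU_phi E H F (fL i) = F i := by
  by_cases hi : 4 ≤ i
  · rw [fL_ge i hi, map_zero, h.F0 i hi]
  have hi' : i < 4 := by omega
  rw [RRelU_phi_ap]
  interval_cases i <;> simp [RRelU_f]

/-- Induction on elements of `L`: a property closed under linear combinations. -/
theorem RRelU_ind {p : L → Prop} (he : ∀ i, p (eL i)) (hh : ∀ i, p (hL i)) (hf : ∀ i, p (fL i))
    (hadd : ∀ x y, p x → p y → p (x + y)) (hsm : ∀ (c : ℝ) x, p x → p (c • x)) (x : L) : p x := by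
  rw [decomp x]
  refine hadd _ _ (hadd _ _ (hadd _ _ (hadd _ _ (hadd _ _ (hadd _ _ (hadd _ _ (hadd _ _
    (hadd _ _ (hadd _ _ (hadd _ _ ?_ ?_) ?_) ?_) ?_) ?_) ?_) ?_) ?_) ?_) ?_) ?_ <;>
    apply hsm <;> first | exact he _ | exact hh _ | exact hf _

theorem RRelU_phi_lie {A : Type*} [Ring A] [Algebra ℝ A] {E H F : ℕ → A} (h : Rel E H F)
    (x y : L) : RRelU_phi E H F ⁅x, y⁆ =
      RRelU_phi E H F x * RRelU_phi E H F y - RRelU_phi E H F y * RRelU_phi E H F x := by
  have hsk : ∀ x y : L, RRelU_phi E H F ⁅x, y⁆ =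
      RRelU_phi E H F x * RRelU_phi E H F y - RRelU_phi E H F y * RRelU_phi E H F x →
      RRelU_phi E H F ⁅y, x⁆ =
      RRelU_phi E H F y * RRelU_phi E H F x - RRelU_phi E H F x * RRelU_phi E H F y := by
    intro x y hxy
    rw [← lie_skew, map_neg, hxy, neg_sub]
  have hhe : ∀ i j, RRelU_phi E H F ⁅hL i, eL j⁆ = RRelU_phi E H F (hL i) * RRelU_phi E H F (eL j)
      - RRelU_phi E H F (eL j) * RRelU_phi E H F (hL i) := by
    intro i j
    rw [lie_he, map_smul, RRelU_phi_e h, RRelU_phi_e h, RRelU_phi_h h, h.HE i j]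
    abel
  have hhf : ∀ i j, RRelU_phi E H F ⁅hL i, fL j⁆ = RRelU_phi E H F (hL i) * RRelU_phi E H F (fL j)
      - RRelU_phi E H F (fL j) * RRelU_phi E H F (hL i) := by
    intro i j
    rw [lie_hf, map_neg, map_smul, RRelU_phi_f h, RRelU_phi_f h, RRelU_phi_h h, h.HF i j]
    abel
  have hef : ∀ i j, RRelU_phi E H F ⁅eL i, fL j⁆ = RRelU_phi E H F (eL i) * RRelU_phi E H F (fL j)
      - RRelU_phi E H F (fL j) * RRelU_phi E H F (eL i) := by
    intro i j
    rw [lie_ef, RRelU_phi_f h, RRelU_phi_e h, RRelU_phi_h h, h.EF i j]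
    abel
  have hee : ∀ i j, RRelU_phi E H F ⁅eL i, eL j⁆ = RRelU_phi E H F (eL i) * RRelU_phi E H F (eL j)
      - RRelU_phi E H F (eL j) * RRelU_phi E H F (eL i) := by
    intro i j
    rw [lie_ee, map_zero, RRelU_phi_e h, RRelU_phi_e h, h.EE i j, sub_self]
  have hhh : ∀ i j, RRelU_phi E H F ⁅hL i, hL j⁆ = RRelU_phi E H F (hL i) * RRelU_phi E H F (hL j)
      - RRelU_phi E H F (hL j) * RRelU_phi E H F (hL i) := by
    intro i j
    rw [lie_hh, map_zero, RRelU_phi_h h, RRelU_phi_h h, h.HH i j, sub_self]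
  have hff : ∀ i j, RRelU_phi E H F ⁅fL i, fL j⁆ = RRelU_phi E H F (fL i) * RRelU_phi E H F (fL j)
      - RRelU_phi E H F (fL j) * RRelU_phi E H F (fL i) := by
    intro i j
    rw [lie_ff, map_zero, RRelU_phi_f h, RRelU_phi_f h, h.FF i j, sub_self]
  have hadd : ∀ x x' y : L, RRelU_phi E H F ⁅x, y⁆ =
      RRelU_phi E H F x * RRelU_phi E H F y - RRelU_phi E H F y * RRelU_phi E H F x →
      RRelU_phi E H F ⁅x', y⁆ =
      RRelU_phi E H F x' * RRelU_phi E H F y - RRelU_phi E H F y * RRelU_phi E H F x' →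
      RRelU_phi E H F ⁅x + x', y⁆ =
      RRelU_phi E H F (x + x') * RRelU_phi E H F y
        - RRelU_phi E H F y * RRelU_phi E H F (x + x') := by
    intro x x' y h1 h2
    rw [add_lie, map_add, h1, h2, map_add, add_mul, mul_add]
    abel
  have hsm : ∀ (c : ℝ) (x y : L), RRelU_phi E H F ⁅x, y⁆ =
      RRelU_phi E H F x * RRelU_phi E H F y - RRelU_phi E H F y * RRelU_phi E H F x →
      RRelU_phi E H F ⁅c • x, y⁆ =
      RRelU_phi E H F (c • x) * RRelU_phi E H F y
        - RRelU_phi E H F y * RRelU_phi E H F (c • x) := by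
    intro c x y h1
    rw [smul_lie, map_smul, h1, map_smul, smul_mul_assoc, mul_smul_comm, smul_sub]
  have key : ∀ y x : L, RRelU_phi E H F ⁅x, y⁆ =
      RRelU_phi E H F x * RRelU_phi E H F y - RRelU_phi E H F y * RRelU_phi E H F x := by
    intro y
    refine RRelU_ind (p := fun y => ∀ x : L, RRelU_phi E H F ⁅x, y⁆ =
      RRelU_phi E H F x * RRelU_phi E H F y - RRelU_phi E H F y * RRelU_phi E H F x)
      ?_ ?_ ?_ ?_ ?_ y
    · intro j
      refine RRelU_ind (fun i => hee i j) (fun i => hhe i j) (fun i => hsk _ _ (hef j i)) ?_ ?_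
      · exact fun x x' h1 h2 => hadd x x' _ h1 h2
      · exact fun c x h1 => hsm c x _ h1
    · intro j
      refine RRelU_ind (fun i => hsk _ _ (hhe j i)) (fun i => hhh i j) (fun i => hsk _ _ (hhf j i))
        ?_ ?_
      · exact fun x x' h1 h2 => hadd x x' _ h1 h2
      · exact fun c x h1 => hsm c x _ h1
    · intro j
      refine RRelU_ind (fun i => hef i j) (fun i => hhf i j) (fun i => hff i j) ?_ ?_
      · exact fun x x' h1 h2 => hadd x x' _ h1 h2
      · exact fun c x h1 => hsm c x _ h1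
    · intro y y' h1 h2 x
      exact hsk _ _ (hadd y y' x (hsk _ _ (h1 x)) (hsk _ _ (h2 x)))
    · intro c y h1 x
      exact hsk _ _ (hsm c y x (hsk _ _ (h1 x)))
  exact key y x

theorem lift_exists {A : Type*} [Ring A] [Algebra ℝ A] {E H F : ℕ → A} (h : Rel E H F) :
    ∃ ρ : U →ₐ[ℝ] A, (∀ i, ρ (Eu i) = E i) ∧ (∀ i, ρ (Hu i) = H i) ∧ ∀ i, ρ (Fu i) = F i := by
  let φ : L →ₗ⁅ℝ⁆ A :=
    { RRelU_phi E H F with
      map_lie' := by
        intro x y
        show RRelU_phi E H F ⁅x, y⁆ = ⁅RRelU_phi E H F x, RRelU_phi E H F y⁆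
        rw [LieRing.of_associative_ring_bracket]
        exact RRelU_phi_lie h x y }
  have hφ : ∀ x, φ x = RRelU_phi E H F x := fun x => rfl
  refine ⟨UniversalEnvelopingAlgebra.lift ℝ φ, fun i => ?_, fun i => ?_, fun i => ?_⟩
  · unfold Eu
    rw [UniversalEnvelopingAlgebra.lift_ι_apply, hφ, RRelU_phi_e h]
  · unfold Hu
    rw [UniversalEnvelopingAlgebra.lift_ι_apply, hφ, RRelU_phi_h h]
  · unfold Fu
    rw [UniversalEnvelopingAlgebra.lift_ι_apply, hφ, RRelU_phi_f h]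

/-- Every element of `U(g)` lies in a subalgebra containing the image of `ι`. -/
theorem RRelU_top (B : Subalgebra ℝ U)
    (hB : ∀ x : L, UniversalEnvelopingAlgebra.ι ℝ x ∈ B) (u : U) : u ∈ B := by
  let φ : L →ₗ⁅ℝ⁆ B :=
    { toFun := fun x => ⟨UniversalEnvelopingAlgebra.ι ℝ x, hB x⟩
      map_add' := fun x y => Subtype.ext (map_add _ _ _)
      map_smul' := fun c x => Subtype.ext (map_smul _ _ _)
      map_lie' := by
        intro x y
        apply Subtype.ext
        rw [LieRing.of_associative_ring_bracket]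
        show UniversalEnvelopingAlgebra.ι ℝ ⁅x, y⁆ = _
        rw [LieHom.map_lie, LieRing.of_associative_ring_bracket]
        rfl }
  have h1 : B.val.comp (UniversalEnvelopingAlgebra.lift ℝ φ) = AlgHom.id ℝ U := by
    apply UniversalEnvelopingAlgebra.hom_ext
    ext x
    show B.val (UniversalEnvelopingAlgebra.lift ℝ φ (UniversalEnvelopingAlgebra.ι ℝ x)) = _
    rw [UniversalEnvelopingAlgebra.lift_ι_apply]
    rfl
  have h2 := DFunLike.congr_fun h1 u
  rw [AlgHom.id_apply] at h2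
  rw [← h2]
  exact (UniversalEnvelopingAlgebra.lift ℝ φ u).2

/-- Elements commuting with all the generators are central. -/
theorem center_of_gen (c : U) (h1 : ∀ i, Eu i * c = c * Eu i) (h2 : ∀ i, Hu i * c = c * Hu i)
    (h3 : ∀ i, Fu i * c = c * Fu i) : c ∈ Subalgebra.center ℝ U := by
  rw [Subalgebra.mem_center_iff]
  intro b
  have hb : b ∈ Subalgebra.centralizer ℝ ({c} : Set U) := by
    apply RRelU_top
    intro x
    rw [Subalgebra.mem_centralizer_iff]
    intro g hg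
    rw [Set.mem_singleton_iff.1 hg]
    refine RRelU_ind (p := fun x => c * UniversalEnvelopingAlgebra.ι ℝ x
      = UniversalEnvelopingAlgebra.ι ℝ x * c) (fun i => (h1 i).symm) (fun i => (h2 i).symm)
      (fun i => (h3 i).symm) ?_ ?_ x
    · intro x y hx hy
      show c * _ = _ * c
      rw [map_add, mul_add, add_mul, hx, hy]
    · intro r x hx
      show c * _ = _ * c
      rw [map_smul, mul_smul_comm, smul_mul_assoc, hx]
  rw [Subalgebra.mem_centralizer_iff] at hb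
  exact (hb c (Set.mem_singleton c)).symm

theorem RRelU_hs {Y : L} (hY : Y ∈ hs) : Y = Y 4 • hL 0 + Y 0 • eL 0 + Y 1 • eL 1 := by
  obtain ⟨a1, a2, a3, a4, a5, a6, a7, a8, a9⟩ := hY
  conv_lhs => rw [decomp Y]
  rw [a1, a2, a3, a4, a5, a6, a7, a8, a9]
  simp only [zero_smul, add_zero]
  abel

theorem RRelU_h0 : hL 0 ∈ hs := by
  refine ⟨?_, ?_, ?_, ?_, ?_, ?_, ?_, ?_, ?_⟩ <;> simp [RRelU_h]
theorem RRelU_e0 : eL 0 ∈ hs := by
  refine ⟨?_, ?_, ?_, ?_, ?_, ?_, ?_, ?_, ?_⟩ <;> simp [RRelU_e]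
theorem RRelU_e1 : eL 1 ∈ hs := by
  refine ⟨?_, ?_, ?_, ?_, ?_, ?_, ?_, ?_, ?_⟩ <;> simp [RRelU_e]

/-- The ideal `Id` is generated by `Hu 0, Eu 0, Eu 1`. -/
theorem Id_mem_gen (w0 w1 w2 : U) : w0 * Hu 0 + w1 * Eu 0 + w2 * Eu 1 ∈ Id := by
  refine Ideal.add_mem _ (Ideal.add_mem _ ?_ ?_) ?_
  · exact Ideal.mul_mem_left _ _ (Ideal.subset_span ⟨⟨hL 0, RRelU_h0⟩, rfl⟩)
  · exact Ideal.mul_mem_left _ _ (Ideal.subset_span ⟨⟨eL 0, RRelU_e0⟩, rfl⟩)
  · exact Ideal.mul_mem_left _ _ (Ideal.subset_span ⟨⟨eL 1, RRelU_e1⟩, rfl⟩)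

/-- An algebra map killing a vector by `Hu 0, Eu 0, Eu 1` kills it by `Id`. -/
theorem Id_kill {V : Type*} [AddCommGroup V] [Module ℝ V] (ρ : U →ₐ[ℝ] Module.End ℝ V) (v : V)
    (h0 : ρ (Hu 0) v = 0) (h1 : ρ (Eu 0) v = 0) (h2 : ρ (Eu 1) v = 0) (u : U) (hu : u ∈ Id) :
    ρ u v = 0 := by
  unfold Id at hu
  rw [Ideal.span] at hu
  induction hu using Submodule.span_induction with
  | mem x hx =>
    obtain ⟨Y, rfl⟩ := hx
    have h3 : UniversalEnvelopingAlgebra.ι ℝ (Y : L) = (Y : L) 4 • Hu 0 + (Y : L) 0 • Eu 0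
        + (Y : L) 1 • Eu 1 := by
      conv_lhs => rw [RRelU_hs Y.2]
      rw [map_add, map_add, map_smul, map_smul, map_smul]
      rfl
    rw [h3, map_add, map_add, map_smul, map_smul, map_smul, LinearMap.add_apply,
      LinearMap.add_apply, LinearMap.smul_apply, LinearMap.smul_apply, LinearMap.smul_apply,
      h0, h1, h2, smul_zero, smul_zero, smul_zero, add_zero, add_zero]
  | zero => rw [map_zero, LinearMap.zero_apply]
  | add x y _ _ hx hy => rw [map_add, LinearMap.add_apply, hx, hy, add_zero]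
  | smul a x _ hx =>
    rw [smul_eq_mul, map_mul, Module.End.mul_apply, hx, map_zero]

end Pool.Agent.H69.DF
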