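import Pool.Agent.H69.DF.Base2

/-!
# Row Sym: symbol calculus

Key formulas (proof by coefficients / on monomials; p arbitrary in R9):
 (a) homogeneousComponent (k+1) (X i * p) = X i * homogeneousComponent k p,   homogeneousComponent 0 (X i * p) = 0;
 (b) homogeneousComponent k (pderiv i p) = pderiv i (homogeneousComponent (k+1) p).
 (for (a), (b): both sides are linear in p, so check on monomials: homogeneousComponent_C_mul / homogeneousComponent of a monomial is the monomial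
  or 0 (`homogeneousComponent_of_mem` or `IsHomogeneous`), monomial degree α.sum; pderiv_monomial.)
 (c) p.totalDegree ≤ n ↔ ∀ k > n, homogeneousComponent k p = 0  (`homogeneousComponent_eq_zero`, and p = ∑ components `sum_homogeneousComponent`).
With (a), (b), (c): an operator that is a product of multiplications and derivatives is homogeneous; so
 Fo j = multiplication by the variable sF j;
 Ho 0 = DT (degree 0), Ho i = multiplication by sH i + (degree 0 operators) for i = 1, 2, 3;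
 Eo 0 = D0 + (operators lowering the degree by 1), Eo 1 = D1 + (operators lowering the degree by 1),
 Eo 2 = multiplication by X 0 + (degree 0) + (degree -1), Eo 3 = multiplication by X 1 + (degree 0) + (degree -1).
For i ≥ 4 all operators and symbols are 0.
The statements about DT, D0, D1: a derivation given by mkDerivation is ∑ i, (value on X i) * pderiv i; check
 DT p = 2 X0 ∂0 p + 2 X1 ∂1 p - 2 X5 ∂5 p - ... by `MvPolynomial.derivation_ext`-type argument (`mkDerivation_apply`/`derivation_eq_of_forall_mem_vars`).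
-/

namespace Pool.Agent.H69.DF

open MvPolynomial

/-! ### components -/

private theorem RSym_deg {p : R9} {m : ℕ} (h : ∀ k, m < k → homogeneousComponent k p = 0) :
    p.totalDegree ≤ m := by
  refine Finset.sup_le fun s hs => ?_
  by_contra hc
  have hc' : m < s.degree := by
    rw [not_le] at hc
    exact hc
  have h1 := congrArg (coeff s) (h _ hc')
  rw [coeff_homogeneousComponent, if_pos rfl, coeff_zero] at h1
  exact (mem_support_iff.1 hs) h1

private theorem RSym_compX (i : Fin 9) (n : ℕ) (p : R9) :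
    homogeneousComponent (n + 1) (X i * p) = X i * homogeneousComponent n p := by
  ext m
  rw [coeff_homogeneousComponent, coeff_X_mul', coeff_X_mul', coeff_homogeneousComponent]
  by_cases hi : i ∈ m.support
  · rw [if_pos hi, if_pos hi]
    have h1 : (m - Finsupp.single i 1).degree + 1 = m.degree := by
      have h2 : m - Finsupp.single i 1 + Finsupp.single i 1 = m :=
        Finsupp.sub_add_single_one_cancel (Finsupp.mem_support_iff.1 hi)
      have h3 := congrArg Finsupp.degree h2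
      rw [map_add, Finsupp.degree_single] at h3
      exact h3
    by_cases h : m.degree = n + 1
    · rw [if_pos h, if_pos (by omega)]
    · rw [if_neg h, if_neg (by omega)]
  · rw [if_neg hi, if_neg hi, ite_self]

private theorem RSym_compD (i : Fin 9) (n : ℕ) (p : R9) :
    homogeneousComponent n (pderiv i p) = pderiv i (homogeneousComponent (n + 1) p) := by
  ext m
  rw [coeff_homogeneousComponent, coeff_pderiv, coeff_pderiv, coeff_homogeneousComponent]
  have h1 : (m + Finsupp.single i 1).degree = m.degree + 1 := by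
    rw [map_add, Finsupp.degree_single]
  by_cases h : m.degree = n
  · rw [if_pos h, if_pos (by omega)]
  · rw [if_neg h, if_neg (by omega), zero_mul]

/-! ### symbol calculus -/

theorem SymOp.add {A B : Module.End ℝ R9} {d : ℕ} {s t : R9} (hA : SymOp A d s) (hB : SymOp B d t) :
    SymOp (A + B) d (s + t) := by
  intro n p hp
  obtain ⟨a1, a2⟩ := hA n p hp
  obtain ⟨b1, b2⟩ := hB n p hp
  refine ⟨(totalDegree_add _ _).trans (max_le a1 b1), ?_⟩
  rw [LinearMap.add_apply, map_add, a2, b2, add_mul]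

theorem SymOp.neg {A : Module.End ℝ R9} {d : ℕ} {s : R9} (hA : SymOp A d s) :
    SymOp (-A) d (-s) := by
  intro n p hp
  obtain ⟨a1, a2⟩ := hA n p hp
  refine ⟨?_, ?_⟩
  · rw [LinearMap.neg_apply, totalDegree_neg]
    exact a1
  · rw [LinearMap.neg_apply, map_neg, a2, neg_mul]

theorem SymOp.smul {A : Module.End ℝ R9} {d : ℕ} {s : R9} (c : ℝ) (hA : SymOp A d s) :
    SymOp (c • A) d (c • s) := by
  intro n p hp
  obtain ⟨a1, a2⟩ := hA n p hp
  refine ⟨?_, ?_⟩
  · rw [LinearMap.smul_apply]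
    exact (totalDegree_smul_le _ _).trans a1
  · rw [LinearMap.smul_apply, map_smul, a2, smul_mul_assoc]

theorem SymOp.mul {A B : Module.End ℝ R9} {d e : ℕ} {s t : R9} (hA : SymOp A d s) (hB : SymOp B e t) :
    SymOp (A * B) (d + e) (s * t) := by
  intro n p hp
  obtain ⟨b1, b2⟩ := hB n p hp
  obtain ⟨a1, a2⟩ := hA (n + e) (B p) b1
  have e1 : n + (d + e) = n + e + d := by omega
  rw [e1]
  refine ⟨a1, ?_⟩
  rw [Module.End.mul_apply, a2, b2, mul_assoc]

theorem SymOp.one : SymOp 1 0 1 := by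
  intro n p hp
  exact ⟨hp, (one_mul _).symm⟩

theorem SymOp.zero (d : ℕ) : SymOp 0 d 0 := by
  intro n p hp
  refine ⟨?_, ?_⟩
  · rw [LinearMap.zero_apply, totalDegree_zero]
    exact Nat.zero_le _
  · rw [LinearMap.zero_apply, map_zero, zero_mul]

/-- lower order operators have symbol zero -/
theorem SymOp.lower {A : Module.End ℝ R9} {d e : ℕ} {s : R9} (hA : SymOp A d s) (h : d < e) :
    SymOp A e 0 := by
  intro n p hp
  obtain ⟨a1, -⟩ := hA n p hp
  refine ⟨a1.trans (by omega), ?_⟩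
  rw [homogeneousComponent_eq_zero _ _ (lt_of_le_of_lt a1 (by omega)), zero_mul]

private theorem RSym_sub {A B : Module.End ℝ R9} {d : ℕ} {s t : R9} (hA : SymOp A d s)
    (hB : SymOp B d t) : SymOp (A - B) d (s - t) := by
  rw [sub_eq_add_neg, sub_eq_add_neg]
  exact hA.add hB.neg

private theorem RSym_X (i : Fin 9) : SymOp (mu (X i)) 1 (X i) := by
  intro n p hp
  refine ⟨?_, RSym_compX i n p⟩
  rw [mu_ap]
  refine (totalDegree_mul _ _).trans ?_
  rw [totalDegree_X]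
  omega

private theorem RSym_two : SymOp (mu 2) 0 2 := by
  intro n p hp
  have e : (2 : R9) = C 2 := by rw [map_ofNat]
  refine ⟨?_, ?_⟩
  · rw [mu_ap]
    refine (totalDegree_mul _ _).trans ?_
    rw [e, totalDegree_C]
    omega
  · rw [mu_ap, e]
    exact homogeneousComponent_C_mul _ _ _

/-- operators lowering the degree by one -/
private def RSym_DOp (A : Module.End ℝ R9) (D : R9 → R9) : Prop :=
  (∀ p : R9, D (homogeneousComponent 0 p) = 0) ∧ (∀ p : R9, p.totalDegree ≤ 0 → A p = 0) ∧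
    ∀ (m : ℕ) (p : R9), p.totalDegree ≤ m + 1 → (A p).totalDegree ≤ m ∧
      homogeneousComponent m (A p) = D (homogeneousComponent (m + 1) p)

private theorem RSym_pd (i : Fin 9) : RSym_DOp (pd i) (fun p => pderiv i p) := by
  refine ⟨fun p => ?_, fun p hp => ?_, fun m p hp => ⟨?_, RSym_compD i m p⟩⟩
  · show pderiv i _ = 0
    rw [homogeneousComponent_zero, pderiv_C]
  · rw [pd_ap, (totalDegree_eq_zero_iff_eq_C.1 (Nat.le_zero.1 hp)), pderiv_C]
  · refine RSym_deg fun k hk => ?_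
    rw [pd_ap, RSym_compD, homogeneousComponent_eq_zero _ _ (lt_of_le_of_lt hp (by omega)),
      map_zero]

private theorem RSym_DOp_sym {A : Module.End ℝ R9} {D : R9 → R9} (h : RSym_DOp A D) :
    SymOp A 0 0 := by
  obtain ⟨-, h1, h2⟩ := h
  intro n p hp
  rcases Nat.eq_zero_or_pos n with rfl | hn
  · rw [h1 p hp]
    refine ⟨?_, ?_⟩
    · rw [totalDegree_zero]
    · rw [map_zero, zero_mul]
  · obtain ⟨m, rfl⟩ := Nat.exists_eq_add_of_lt hn
    have e : 0 + m + 1 = m + 1 := by omega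
    rw [e] at hp ⊢
    obtain ⟨a, -⟩ := h2 m p hp
    refine ⟨by omega, ?_⟩
    rw [homogeneousComponent_eq_zero _ _ (lt_of_le_of_lt a (by omega)), zero_mul]

private theorem RSym_pd0 (i : Fin 9) : SymOp (pd i) 0 0 := RSym_DOp_sym (RSym_pd i)

private theorem RSym_cast {A : Module.End ℝ R9} {d e : ℕ} {s t : R9} (h : SymOp A d s)
    (hd : d = e) (hs : s = t) : SymOp A e t := by
  subst hd hs
  exact h

private theorem RSym_Xpd (i j : Fin 9) : SymOp (mu (X i) * pd j) 1 0 :=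
  RSym_cast ((RSym_X i).mul (RSym_pd0 j)) rfl (mul_zero _)

private theorem RSym_two0 {A : Module.End ℝ R9} {d : ℕ} (h : SymOp A d 0) :
    SymOp (mu 2 * A) d 0 :=
  RSym_cast (RSym_two.mul h) (Nat.zero_add d) (mul_zero _)

private theorem RSym_add0 {A B : Module.End ℝ R9} {d : ℕ} (hA : SymOp A d 0) (hB : SymOp B d 0) :
    SymOp (A + B) d 0 := RSym_cast (hA.add hB) rfl (add_zero _)

private theorem RSym_sub0 {A B : Module.End ℝ R9} {d : ℕ} {s : R9} (hA : SymOp A d s)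
    (hB : SymOp B d 0) : SymOp (A - B) d s := RSym_cast (RSym_sub hA hB) rfl (sub_zero _)

private theorem RSym_mulpd {A : Module.End ℝ R9} {d : ℕ} {s : R9} (hA : SymOp A d s) (j : Fin 9) :
    SymOp (A * pd j) d 0 := RSym_cast (hA.mul (RSym_pd0 j)) rfl (mul_zero _)

private theorem RSym_mul0 {A B : Module.End ℝ R9} {d : ℕ} {s : R9} (hA : SymOp A d s)
    (hB : SymOp B 0 0) : SymOp (A * B) d 0 := RSym_cast (hA.mul hB) rfl (mul_zero _)

private theorem RSym_Hp0 : SymOp (Hp 0) 1 0 :=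
  RSym_two0 (RSym_add0 (RSym_Xpd _ _) (RSym_Xpd _ _))

private theorem RSym_Hp1 : SymOp (Hp 1) 1 (X 2) :=
  RSym_sub0 (RSym_X 2) (RSym_two0 (RSym_add0 (RSym_Xpd _ _) (RSym_Xpd _ _)))

private theorem RSym_Hp2 : SymOp (Hp 2) 1 (X 3) :=
  RSym_sub0 (RSym_X 3) (RSym_two0 (RSym_Xpd _ _))

private theorem RSym_Hp3 : SymOp (Hp 3) 1 (X 4) := RSym_X 4

private theorem RSym_pdpd (i j : Fin 9) : SymOp (pd i * pd j) 0 0 := RSym_mulpd (RSym_pd0 i) j

theorem symE (i : ℕ) : SymOp (Eo i) 1 (sE i) := by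
  match i with
  | 0 =>
    refine RSym_cast (RSym_sub0 (RSym_sub0 (RSym_add0 (RSym_add0 (RSym_add0
      (RSym_mulpd RSym_Hp0 5) (RSym_mulpd RSym_Hp1 6)) (RSym_mulpd RSym_Hp2 7))
      (RSym_mulpd RSym_Hp3 8)) (RSym_two0 (RSym_add0 (RSym_Xpd _ _) (RSym_Xpd _ _)))) ?_) rfl rfl
    exact RSym_add0 (RSym_add0 (RSym_add0 (RSym_mul0 (RSym_X 5) (RSym_pdpd _ _))
      (RSym_two0 (RSym_mul0 (RSym_X 6) (RSym_pdpd _ _))))
      (RSym_mul0 (RSym_X 7) (RSym_add0 (RSym_two0 (RSym_pdpd _ _)) (RSym_pdpd _ _))))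
      (RSym_two0 (RSym_mul0 (RSym_X 8) (RSym_add0 (RSym_pdpd _ _) (RSym_pdpd _ _))))
  | 1 =>
    refine RSym_cast (RSym_sub0 (RSym_sub0 (RSym_add0 (RSym_add0
      (RSym_mulpd RSym_Hp1 5) (RSym_mulpd RSym_Hp2 6)) (RSym_mulpd RSym_Hp3 7))
      (RSym_two0 (RSym_add0 (RSym_Xpd _ _) (RSym_Xpd _ _)))) ?_) rfl rfl
    exact RSym_add0 (RSym_add0 (RSym_mul0 (RSym_X 6) (RSym_pdpd _ _))
      (RSym_two0 (RSym_mul0 (RSym_X 7) (RSym_pdpd _ _))))
      (RSym_mul0 (RSym_X 8) (RSym_add0 (RSym_two0 (RSym_pdpd _ _)) (RSym_pdpd _ _)))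
  | 2 =>
    refine RSym_cast (RSym_sub0 (RSym_sub0 ((RSym_add0
      (RSym_mulpd RSym_Hp2 5) (RSym_mulpd RSym_Hp3 6)).add (RSym_X 0))
      (RSym_two0 (RSym_Xpd _ _))) ?_) rfl (zero_add _)
    exact RSym_add0 (RSym_mul0 (RSym_X 7) (RSym_pdpd _ _))
      (RSym_two0 (RSym_mul0 (RSym_X 8) (RSym_pdpd _ _)))
  | 3 =>
    exact RSym_cast (RSym_sub0 ((RSym_mulpd RSym_Hp3 5).add (RSym_X 1))
      (RSym_mul0 (RSym_X 8) (RSym_pdpd _ _))) rfl (zero_add _)
  | (n + 4) => exact SymOp.zero 1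

theorem symH (i : ℕ) : SymOp (Ho i) 1 (sH i) := by
  match i with
  | 0 =>
    exact RSym_sub0 RSym_Hp0 (RSym_two0 (RSym_add0 (RSym_add0 (RSym_add0 (RSym_Xpd _ _)
      (RSym_Xpd _ _)) (RSym_Xpd _ _)) (RSym_Xpd _ _)))
  | 1 =>
    exact RSym_sub0 RSym_Hp1 (RSym_two0 (RSym_add0 (RSym_add0 (RSym_Xpd _ _)
      (RSym_Xpd _ _)) (RSym_Xpd _ _)))
  | 2 => exact RSym_sub0 RSym_Hp2 (RSym_two0 (RSym_add0 (RSym_Xpd _ _) (RSym_Xpd _ _)))
  | 3 => exact RSym_sub0 RSym_Hp3 (RSym_two0 (RSym_Xpd _ _))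
  | (n + 4) => exact SymOp.zero 1

theorem symF (i : ℕ) : SymOp (Fo i) 1 (sF i) := by
  match i with
  | 0 => exact RSym_X 5
  | 1 => exact RSym_X 6
  | 2 => exact RSym_X 7
  | 3 => exact RSym_X 8
  | (n + 4) => exact SymOp.zero 1

/-! ### the graded operators -/

private theorem RSym_gadd {A B : Module.End ℝ R9} {D E : R9 → R9} (hA : GrOp A D)
    (hB : GrOp B E) : GrOp (A + B) (fun p => D p + E p) := by
  intro n p hp
  obtain ⟨a1, a2⟩ := hA n p hp
  obtain ⟨b1, b2⟩ := hB n p hp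
  refine ⟨(totalDegree_add _ _).trans (max_le a1 b1), ?_⟩
  rw [LinearMap.add_apply, map_add, a2, b2]

private theorem RSym_gsub {A B : Module.End ℝ R9} {D E : R9 → R9} (hA : GrOp A D)
    (hB : GrOp B E) : GrOp (A - B) (fun p => D p - E p) := by
  intro n p hp
  obtain ⟨a1, a2⟩ := hA n p hp
  obtain ⟨b1, b2⟩ := hB n p hp
  refine ⟨(totalDegree_sub _ _).trans (max_le a1 b1), ?_⟩
  rw [LinearMap.sub_apply, map_sub, a2, b2]

private theorem RSym_gtwo {A : Module.End ℝ R9} {D : R9 → R9} (hA : GrOp A D) :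
    GrOp (mu 2 * A) (fun p => 2 * D p) := by
  intro n p hp
  obtain ⟨a1, a2⟩ := hA n p hp
  obtain ⟨b1, b2⟩ := RSym_two n (A p) a1
  refine ⟨b1, ?_⟩
  rw [Module.End.mul_apply]
  exact b2.trans (by rw [a2])

private theorem RSym_gmul {A B : Module.End ℝ R9} {s : R9} {D : R9 → R9} (hA : SymOp A 1 s)
    (hB : RSym_DOp B D) : GrOp (A * B) (fun p => s * D p) := by
  obtain ⟨h0, h1, h2⟩ := hB
  intro n p hp
  rw [Module.End.mul_apply]
  show _ ∧ _ = s * D (homogeneousComponent n p)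
  rcases Nat.eq_zero_or_pos n with rfl | hn
  · rw [h1 p hp, map_zero, h0, mul_zero, map_zero]
    exact ⟨by rw [totalDegree_zero], rfl⟩
  · obtain ⟨m, rfl⟩ := Nat.exists_eq_add_of_lt hn
    have e : 0 + m + 1 = m + 1 := by omega
    rw [e] at hp ⊢
    obtain ⟨a1, a2⟩ := h2 m p hp
    obtain ⟨b1, b2⟩ := hA m (B p) a1
    exact ⟨b1, by rw [b2, a2]⟩

private theorem RSym_dmul {A B : Module.End ℝ R9} {s : R9} {D : R9 → R9} (hA : SymOp A 0 s)
    (hB : RSym_DOp B D) : RSym_DOp (A * B) (fun p => s * D p) := by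
  obtain ⟨h0, h1, h2⟩ := hB
  refine ⟨fun p => ?_, fun p hp => ?_, fun m p hp => ?_⟩
  · show s * D _ = 0
    rw [h0, mul_zero]
  · rw [Module.End.mul_apply, h1 p hp, map_zero]
  · obtain ⟨a1, a2⟩ := h2 m p hp
    obtain ⟨b1, b2⟩ := hA m (B p) a1
    refine ⟨b1, ?_⟩
    rw [Module.End.mul_apply]
    exact b2.trans (by rw [a2])

private theorem RSym_dadd {A B : Module.End ℝ R9} {D E : R9 → R9} (hA : RSym_DOp A D)
    (hB : RSym_DOp B E) : RSym_DOp (A + B) (fun p => D p + E p) := by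
  obtain ⟨a0, a1, a2⟩ := hA
  obtain ⟨b0, b1, b2⟩ := hB
  refine ⟨fun p => ?_, fun p hp => ?_, fun m p hp => ?_⟩
  · show D _ + E _ = 0
    rw [a0, b0, add_zero]
  · rw [LinearMap.add_apply, a1 p hp, b1 p hp, add_zero]
  · obtain ⟨u1, u2⟩ := a2 m p hp
    obtain ⟨v1, v2⟩ := b2 m p hp
    refine ⟨(totalDegree_add _ _).trans (max_le u1 v1), ?_⟩
    rw [LinearMap.add_apply, map_add, u2, v2]

private theorem RSym_dpd (i j : Fin 9) :
    RSym_DOp (pd i * pd j) (fun p => 0 * pderiv j p) :=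
  RSym_dmul (RSym_pd0 i) (RSym_pd j)

private theorem RSym_gcongr {A : Module.End ℝ R9} {D E : R9 → R9} (hA : GrOp A D)
    (h : ∀ p, D p = E p) : GrOp A E := by
  intro n p hp
  obtain ⟨a1, a2⟩ := hA n p hp
  exact ⟨a1, by rw [a2, h]⟩

private theorem RSym_gX (i j : Fin 9) : GrOp (mu (X i) * pd j) (fun p => X i * pderiv j p) :=
  RSym_gmul (RSym_X i) (RSym_pd j)

private theorem RSym_D0 (p : R9) : D0 p = -2 * X 0 * pderiv 3 p + -2 * X 1 * pderiv 4 p +
    X 2 * pderiv 6 p + X 3 * pderiv 7 p + X 4 * pderiv 8 p := by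
  have h : D0 = (-2 * X 0 : R9) • (pderiv 3 : Derivation ℝ R9 R9) +
      (-2 * X 1 : R9) • (pderiv 4 : Derivation ℝ R9 R9) +
      (X 2 : R9) • (pderiv 6 : Derivation ℝ R9 R9) +
      (X 3 : R9) • (pderiv 7 : Derivation ℝ R9 R9) +
      (X 4 : R9) • (pderiv 8 : Derivation ℝ R9 R9) := by
    refine MvPolynomial.derivation_ext fun i => ?_
    rw [D0, mkDerivation_X]
    fin_cases i <;> simp [pderiv_X, Pi.single_apply]
  rw [h]
  simp only [Derivation.add_apply, Derivation.smul_apply, smul_eq_mul]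

private theorem RSym_D1 (p : R9) : D1 p = -2 * X 0 * pderiv 2 p + -2 * X 1 * pderiv 3 p +
    X 2 * pderiv 5 p + X 3 * pderiv 6 p + X 4 * pderiv 7 p := by
  have h : D1 = (-2 * X 0 : R9) • (pderiv 2 : Derivation ℝ R9 R9) +
      (-2 * X 1 : R9) • (pderiv 3 : Derivation ℝ R9 R9) +
      (X 2 : R9) • (pderiv 5 : Derivation ℝ R9 R9) +
      (X 3 : R9) • (pderiv 6 : Derivation ℝ R9 R9) +
      (X 4 : R9) • (pderiv 7 : Derivation ℝ R9 R9) := by
    refine MvPolynomial.derivation_ext fun i => ?_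
    rw [D1, mkDerivation_X]
    fin_cases i <;> simp [pderiv_X, Pi.single_apply]
  rw [h]
  simp only [Derivation.add_apply, Derivation.smul_apply, smul_eq_mul]

private theorem RSym_DT (p : R9) : DT p = 2 * X 0 * pderiv 0 p + 2 * X 1 * pderiv 1 p +
    -2 * X 5 * pderiv 5 p + -2 * X 6 * pderiv 6 p + -2 * X 7 * pderiv 7 p +
    -2 * X 8 * pderiv 8 p := by
  have h : DT = (2 * X 0 : R9) • (pderiv 0 : Derivation ℝ R9 R9) +
      (2 * X 1 : R9) • (pderiv 1 : Derivation ℝ R9 R9) +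
      (-2 * X 5 : R9) • (pderiv 5 : Derivation ℝ R9 R9) +
      (-2 * X 6 : R9) • (pderiv 6 : Derivation ℝ R9 R9) +
      (-2 * X 7 : R9) • (pderiv 7 : Derivation ℝ R9 R9) +
      (-2 * X 8 : R9) • (pderiv 8 : Derivation ℝ R9 R9) := by
    refine MvPolynomial.derivation_ext fun i => ?_
    rw [DT, mkDerivation_X]
    fin_cases i <;> simp [pderiv_X, Pi.single_apply]
  rw [h]
  simp only [Derivation.add_apply, Derivation.smul_apply, smul_eq_mul]

theorem grE0 : GrOp (Eo 0) D0 := by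
  refine RSym_gcongr (RSym_gsub (RSym_gsub (RSym_gadd (RSym_gadd (RSym_gadd
    (RSym_gmul RSym_Hp0 (RSym_pd 5)) (RSym_gmul RSym_Hp1 (RSym_pd 6)))
    (RSym_gmul RSym_Hp2 (RSym_pd 7))) (RSym_gmul RSym_Hp3 (RSym_pd 8)))
    (RSym_gtwo (RSym_gadd (RSym_gX 0 3) (RSym_gX 1 4))))
    (RSym_gadd (RSym_gadd (RSym_gadd (RSym_gmul (RSym_X 5) (RSym_dpd 5 5))
      (RSym_gtwo (RSym_gmul (RSym_X 6) (RSym_dpd 5 6))))
      (RSym_gmul (RSym_X 7) (RSym_dadd (RSym_dmul RSym_two (RSym_dpd 5 7)) (RSym_dpd 6 6))))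
      (RSym_gtwo (RSym_gmul (RSym_X 8) (RSym_dadd (RSym_dpd 5 8) (RSym_dpd 6 7)))))) fun p => ?_
  rw [RSym_D0]
  ring

theorem grE1 : GrOp (Eo 1) D1 := by
  refine RSym_gcongr (RSym_gsub (RSym_gsub (RSym_gadd (RSym_gadd
    (RSym_gmul RSym_Hp1 (RSym_pd 5)) (RSym_gmul RSym_Hp2 (RSym_pd 6)))
    (RSym_gmul RSym_Hp3 (RSym_pd 7)))
    (RSym_gtwo (RSym_gadd (RSym_gX 0 2) (RSym_gX 1 3))))
    (RSym_gadd (RSym_gadd (RSym_gmul (RSym_X 6) (RSym_dpd 5 5))
      (RSym_gtwo (RSym_gmul (RSym_X 7) (RSym_dpd 5 6))))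
      (RSym_gmul (RSym_X 8) (RSym_dadd (RSym_dmul RSym_two (RSym_dpd 5 7)) (RSym_dpd 6 6)))))
    fun p => ?_
  rw [RSym_D1]
  ring

theorem grH0 : GrOp (Ho 0) DT := by
  refine RSym_gcongr (RSym_gsub (RSym_gtwo (RSym_gadd (RSym_gX 0 0) (RSym_gX 1 1)))
    (RSym_gtwo (RSym_gadd (RSym_gadd (RSym_gadd (RSym_gX 5 5) (RSym_gX 6 6)) (RSym_gX 7 7))
      (RSym_gX 8 8)))) fun p => ?_
  rw [RSym_DT]
  ring

end Pool.Agent.H69.DF
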