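import Pool.Agent.H69.DF.RLift
import Pool.Agent.H69.DF.RThmAO
import Pool.Agent.H69.DF.RRelU

/-!
# Row ThmB: vectors killed by Ho 0, Eo 0, Eo 1
-/

namespace Pool.Agent.H69.DF

open MvPolynomial

theorem Eo0_one : Eo 0 1 = 0 := by
  simp [Eo, Hp]

theorem Eo1_one : Eo 1 1 = 0 := by
  simp [Eo, Hp]

theorem Ho0_one : Ho 0 1 = 0 := by
  simp [Ho, Hp]

theorem pd0_rename (Φ : R5) (h : pderiv 0 Φ = 0) : ∃ Φ' : R4, rename Fin.succ Φ' = Φ := by
  refine exists_rename_eq_of_vars_subset_range Φ Fin.succ (Fin.succ_injective 4) ?_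
  intro i hi
  rcases Fin.eq_zero_or_eq_succ i with rfl | ⟨j, rfl⟩
  · exfalso
    obtain ⟨α, hα, hα0⟩ := (mem_vars 0).mp hi
    have hc : coeff (α - Finsupp.single 0 1) (pderiv 0 Φ) = 0 := by rw [h]; simp
    rw [coeff_pderiv] at hc
    have h1 : 1 ≤ α 0 := Nat.one_le_iff_ne_zero.mpr (Finsupp.mem_support_iff.mp hα0)
    have e : α - Finsupp.single 0 1 + Finsupp.single 0 1 = α := by
      refine tsub_add_cancel_of_le ?_
      exact Finsupp.single_le_iff.mpr h1
    rw [e] at hc
    have h2 : coeff α Φ ≠ 0 := mem_support_iff.mp hα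
    have h3 : (((α - Finsupp.single 0 1 : Fin 5 →₀ ℕ) 0 : ℝ) + 1) ≠ 0 := by positivity
    rcases mul_eq_zero.mp hc with h4 | h4
    · exact h2 h4
    · exact h3 h4
  · exact ⟨j, rfl⟩

theorem K_hom (i : Fin 5) : (K i).IsHomogeneous 2 := by
  have hX : ∀ j, (X j : R9).IsHomogeneous 1 := fun j => isHomogeneous_X ℝ j
  have h2 : ∀ a b : R9, a.IsHomogeneous 1 → b.IsHomogeneous 1 → (a * b).IsHomogeneous 2 :=
    fun a b ha hb => ha.mul hb
  have hc : ∀ (c : ℝ) (a : R9), a.IsHomogeneous 1 → (C c * a).IsHomogeneous 1 := fun c a ha => by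
    have := (isHomogeneous_C (Fin 9) c).mul ha
    rwa [zero_add] at this
  have hc2 : ∀ (c : ℝ) (a : R9), a.IsHomogeneous 2 → (C c * a).IsHomogeneous 2 := fun c a ha => by
    have := (isHomogeneous_C (Fin 9) c).mul ha
    rwa [zero_add] at this
  have e4 : (4 : R9) = C 4 := (map_ofNat C 4).symm
  have e2 : (2 : R9) = C 2 := (map_ofNat C 2).symm
  fin_cases i
  · change (4 * X 0 * X 5 + X 2 ^ 2 : R9).IsHomogeneous 2
    rw [e4, pow_two]
    exact (h2 _ _ (hc _ _ (hX _)) (hX _)).add (h2 _ _ (hX _) (hX _))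
  · change (4 * (X 0 * X 6 + X 1 * X 5) + 2 * X 2 * X 3 : R9).IsHomogeneous 2
    rw [e4, e2]
    exact (hc2 _ _ ((h2 _ _ (hX _) (hX _)).add (h2 _ _ (hX _) (hX _)))).add
      (h2 _ _ (hc _ _ (hX _)) (hX _))
  · change (4 * (X 0 * X 7 + X 1 * X 6) + X 3 ^ 2 + 2 * X 2 * X 4 : R9).IsHomogeneous 2
    rw [e4, e2, pow_two]
    exact ((hc2 _ _ ((h2 _ _ (hX _) (hX _)).add (h2 _ _ (hX _) (hX _)))).add
      (h2 _ _ (hX _) (hX _))).add (h2 _ _ (hc _ _ (hX _)) (hX _))
  · change (4 * (X 0 * X 8 + X 1 * X 7) + 2 * X 3 * X 4 : R9).IsHomogeneous 2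
    rw [e4, e2]
    exact (hc2 _ _ ((h2 _ _ (hX _) (hX _)).add (h2 _ _ (hX _) (hX _)))).add
      (h2 _ _ (hc _ _ (hX _)) (hX _))
  · change (4 * X 1 * X 8 + X 4 ^ 2 : R9).IsHomogeneous 2
    rw [e4, pow_two]
    exact (h2 _ _ (hc _ _ (hX _)) (hX _)).add (h2 _ _ (hX _) (hX _))

/-- `aeval K` doubles the degree. -/
theorem aevalK_hom (k : ℕ) (Φ : R5) (h : Φ.IsHomogeneous k) : (aeval K Φ).IsHomogeneous (2 * k) := by
  rw [aeval_def, eval₂_eq]
  refine IsHomogeneous.sum _ _ _ fun α hα => ?_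
  have hd : ∑ i, α i = k := by
    have := h (mem_support_iff.mp hα)
    rw [← this, Finsupp.weight_apply, Finsupp.sum_fintype] <;> simp
  have e : 2 * k = 0 + ∑ i ∈ α.support, 2 * α i := by
    rw [zero_add, ← hd, Finset.mul_sum]
    symm
    refine Finset.sum_subset (Finset.subset_univ _) fun i _ hi => ?_
    rw [Finsupp.notMem_support_iff.mp hi, mul_zero]
  rw [e]
  refine IsHomogeneous.mul ?_ ?_
  · rw [algebraMap_eq]; exact isHomogeneous_C _ _
  · refine IsHomogeneous.prod _ _ _ fun i _ => ?_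
    exact (K_hom i).pow (α i)

theorem hcomp_aevalK (m : ℕ) (Φ : R5) :
    homogeneousComponent m (aeval K Φ)
      = if Even m then aeval K (homogeneousComponent (m / 2) Φ) else 0 := by
  have e : aeval K Φ = ∑ k ∈ Finset.range (Φ.totalDegree + 1), aeval K (homogeneousComponent k Φ) := by
    conv_lhs => rw [← sum_homogeneousComponent Φ]
    rw [map_sum]
  have hk : ∀ k, homogeneousComponent m (aeval K (homogeneousComponent k Φ))
      = if 2 * k = m then aeval K (homogeneousComponent k Φ) else 0 := fun k => by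
    rw [homogeneousComponent_of_mem (aevalK_hom k _ (homogeneousComponent_isHomogeneous k Φ))]
    by_cases h : m = 2 * k
    · rw [if_pos h, if_pos h.symm]
    · rw [if_neg h, if_neg (fun h2 => h h2.symm)]
  rw [e, map_sum]
  simp only [hk]
  by_cases hm : Even m
  · obtain ⟨l, hl⟩ := hm
    have hl2 : m / 2 = l := by omega
    rw [if_pos ⟨l, hl⟩, hl2]
    by_cases h3 : l ∈ Finset.range (Φ.totalDegree + 1)
    · rw [Finset.sum_eq_single_of_mem l h3]
      · rw [if_pos (by omega)]
      · intro b _ hb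
        rw [if_neg (by omega)]
    · rw [Finset.sum_eq_zero, homogeneousComponent_eq_zero, map_zero]
      · rw [Finset.mem_range] at h3; omega
      · intro b hb
        rw [if_neg]
        rintro h4
        have : b = l := by omega
        exact h3 (this ▸ hb)
  · rw [if_neg hm]
    refine Finset.sum_eq_zero fun b _ => ?_
    rw [if_neg]
    intro h; exact hm ⟨b, by omega⟩

theorem SymOp.sum {ι : Type*} (s : Finset ι) (A : ι → Module.End ℝ R9) (f : ι → R9) (d : ℕ)
    (h : ∀ i ∈ s, SymOp (A i) d (f i)) : SymOp (∑ i ∈ s, A i) d (∑ i ∈ s, f i) := by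
  classical
  induction s using Finset.induction_on with
  | empty => simpa using SymOp.zero d
  | insert a s ha ih =>
    rw [Finset.sum_insert ha, Finset.sum_insert ha]
    exact (h a (Finset.mem_insert_self a s)).add
      (ih fun i hi => h i (Finset.mem_insert_of_mem hi))

variable (ρ : U →ₐ[ℝ] Module.End ℝ R9) (hE : ∀ i, ρ (Eu i) = Eo i) (hH : ∀ i, ρ (Hu i) = Ho i)
  (hF : ∀ i, ρ (Fu i) = Fo i)

include hE hH hF in
theorem rho_qc (i : Fin 4) : ρ (qc Eu Hu Fu i) = qc Eo Ho Fo i := by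
  have e8 : ρ (8 : U) = 8 := map_ofNat ρ 8
  have e4 : ρ (4 : U) = 4 := map_ofNat ρ 4
  have e2 : ρ (2 : U) = 2 := map_ofNat ρ 2
  fin_cases i <;> simp [qc, hE, hH, hF, e8, e4, e2]

variable (Kc : Fin 4 → Subalgebra.center ℝ U) (hK : ∀ i, (Kc i : U) = qc Eu Hu Fu i)

include hE hH hF hK in
theorem sym_mon (α : Fin 4 →₀ ℕ) :
    SymOp (ρ ((aeval Kc (monomial α (1 : ℝ)) : Subalgebra.center ℝ U) : U)) (2 * α.degree)
      (aeval K (rename Fin.succ (monomial α (1 : ℝ)))) := by
  induction α using Finsupp.induction_linear with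
  | zero =>
    have e : (monomial 0 (1 : ℝ) : R4) = 1 := rfl
    rw [e, map_one, map_one, map_one, OneMemClass.coe_one, map_one]
    simpa using SymOp.one
  | add f g hf hg =>
    have e : (monomial (f + g) (1 : ℝ) : R4) = monomial f 1 * monomial g 1 := by
      rw [monomial_mul, mul_one]
    rw [e, map_mul, map_mul, map_mul, MulMemClass.coe_mul, map_mul, map_add, mul_add]
    exact hf.mul hg
  | single i n =>
    have e : (monomial (Finsupp.single i n) (1 : ℝ) : R4) = X i ^ n := by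
      rw [X_pow_eq_monomial]
    rw [e, map_pow, map_pow, map_pow, aeval_X, rename_X, aeval_X, SubmonoidClass.coe_pow, map_pow,
      hK, rho_qc ρ hE hH hF, Finsupp.degree_single]
    clear e
    induction n with
    | zero => simpa using SymOp.one
    | succ n ih =>
      rw [pow_succ, pow_succ, mul_add, mul_one]
      exact ih.mul (symqc i)

include hE hH hF hK in
theorem sym_center (k : ℕ) (Φ : R4) (hΦ : Φ.IsHomogeneous k) :
    SymOp (ρ ((aeval Kc Φ : Subalgebra.center ℝ U) : U)) (2 * k) (aeval K (rename Fin.succ Φ)) := by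
  have e : Φ = ∑ α ∈ Φ.support, coeff α Φ • monomial α (1 : ℝ) := by
    conv_lhs => rw [← support_sum_monomial_coeff Φ]
    refine Finset.sum_congr rfl fun α _ => ?_
    rw [smul_monomial, smul_eq_mul, mul_one]
  have e1 : ρ ((aeval Kc Φ : Subalgebra.center ℝ U) : U) = ∑ α ∈ Φ.support,
      coeff α Φ • ρ ((aeval Kc (monomial α (1 : ℝ)) : Subalgebra.center ℝ U) : U) := by
    conv_lhs => rw [e]
    rw [map_sum, AddSubmonoidClass.coe_finset_sum, map_sum]
    refine Finset.sum_congr rfl fun α _ => ?_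
    rw [map_smul, Subalgebra.coe_smul, map_smul]
  have e2 : aeval K (rename Fin.succ Φ) = ∑ α ∈ Φ.support,
      coeff α Φ • aeval K (rename Fin.succ (monomial α (1 : ℝ))) := by
    conv_lhs => rw [e]
    rw [map_sum, map_sum]
    refine Finset.sum_congr rfl fun α _ => ?_
    rw [map_smul, map_smul]
  rw [e1, e2]
  refine SymOp.sum _ _ _ _ fun α hα => ?_
  have hd : α.degree = k := by
    by_contra hne
    exact (mem_support_iff.mp hα) (hΦ.coeff_eq_zero hne)
  rw [← hd]
  exact (sym_mon ρ hE hH hF Kc hK α).smul _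

theorem degree_drop (n : ℕ) (p : R9) (h : p.totalDegree ≤ n + 1)
    (h2 : homogeneousComponent (n + 1) p = 0) : p.totalDegree ≤ n := by
  rw [totalDegree, Finset.sup_le_iff] at h ⊢
  intro α hα
  have h3 := h α hα
  by_contra h4
  have h5 : α.degree = n + 1 := by
    rw [Finsupp.degree_eq_sum]
    rw [Finsupp.sum_fintype _ _ (fun _ => rfl)] at h3 h4
    omega
  have h6 : coeff α (homogeneousComponent (n + 1) p) = coeff α p := by
    rw [coeff_homogeneousComponent, if_pos h5]
  rw [h2, coeff_zero] at h6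
  exact (mem_support_iff.mp hα) h6.symm

include hE hH hF hK in
theorem thmB_aux (n : ℕ) : ∀ p : R9, p.totalDegree ≤ n → Ho 0 p = 0 → Eo 0 p = 0 → Eo 1 p = 0 →
    ∃ Φ : R4, p = ρ ((aeval Kc Φ : Subalgebra.center ℝ U) : U) 1 := by
  induction n with
  | zero =>
    intro p hp _ _ _
    obtain ⟨c, hc⟩ : ∃ c, p = C c := ⟨coeff 0 p, totalDegree_eq_zero_iff_eq_C.mp (Nat.le_zero.mp hp)⟩
    refine ⟨C c, ?_⟩
    have e : ((aeval Kc (C c : R4) : Subalgebra.center ℝ U) : U) = algebraMap ℝ U c := by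
      rw [algHom_C]; rfl
    rw [e, AlgHom.commutes, Module.algebraMap_end_apply, hc, smul_eq_C_mul, mul_one]
  | succ n ih =>
    intro p hp hT h0 h1
    set F := homogeneousComponent (n + 1) p with hF'
    have dT : DT F = 0 := by rw [← (grH0 (n + 1) p hp).2, hT, map_zero]
    have d0 : D0 F = 0 := by rw [← (grE0 (n + 1) p hp).2, h0, map_zero]
    have d1 : D1 F = 0 := by rw [← (grE1 (n + 1) p hp).2, h1, map_zero]
    obtain ⟨Φ0, hΦ0⟩ := thmA F dT d0 d1
    have hFF : homogeneousComponent (n + 1) F = F := by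
      rw [hF']
      exact homogeneousComponent_eq_self (homogeneousComponent_isHomogeneous _ _)
    have hF2 : F = if Even (n + 1) then aeval K (homogeneousComponent ((n + 1) / 2) Φ0) else 0 := by
      rw [← hcomp_aevalK, ← hΦ0, hFF]
    by_cases hev : Even (n + 1)
    swap
    · rw [if_neg hev] at hF2
      exact ih p (degree_drop n p hp (hF'.symm.trans hF2)) hT h0 h1
    rw [if_pos hev] at hF2
    obtain ⟨k, hk⟩ := hev
    have hk2 : (n + 1) / 2 = k := by omega
    rw [hk2] at hF2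
    set Φ := homogeneousComponent k Φ0 with hΦdef
    have hΦ : Φ.IsHomogeneous k := homogeneousComponent_isHomogeneous _ _
    obtain ⟨u, v, w0, w1, a1, a2, a3, a4, a5, -⟩ := lift_exists_op k Φ hΦ
    have k1 : 1 ≤ k := by omega
    have one0 : (1 : R9).totalDegree ≤ 0 := by simp
    have hc1 : homogeneousComponent 0 (1 : R9) = 1 := by
      rw [homogeneousComponent_zero, coeff_zero_one, C_1]
    have s1 := a3 0 1 one0
    rw [hc1, mul_one, zero_add] at s1
    have hn : n + 1 = 2 * k := by omega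
    have hp' : (p - u 1).totalDegree ≤ n := by
      refine degree_drop n _ ?_ ?_
      · refine (totalDegree_sub _ _).trans (max_le hp ?_)
        rw [hn]; exact s1.1
      · rw [map_sub, hn, s1.2, ← hF2, hF', hn, sub_self]
    have k0 : Eo 0 (u 1) = 0 := by
      rw [← Module.End.mul_apply, a1, Module.End.mul_apply, Eo0_one, map_zero]
    have e1 : Eo 1 (u 1) = v 1 := by
      rw [← Module.End.mul_apply, a4]
      simp only [LinearMap.add_apply, Module.End.mul_apply, Eo1_one, Eo0_one, Ho0_one, map_zero,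
        zero_add, add_zero]
    have kT : Ho 0 (u 1) = 0 := by
      rw [← Module.End.mul_apply, a2, Module.End.mul_apply, Ho0_one, map_zero]
    have s2 := (a5 k1) 0 1 one0
    rw [hc1, mul_one, zero_add] at s2
    have hn2 : 2 * k - 1 = n := by omega
    rw [hn2] at s2
    set W := homogeneousComponent n (p - u 1) with hW
    have wT : DT W = 0 := by rw [← (grH0 n _ hp').2, map_sub, hT, kT, sub_zero, map_zero]
    have w0' : D0 W = 0 := by rw [← (grE0 n _ hp').2, map_sub, h0, k0, sub_zero, map_zero]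
    have w1' : D1 W = aeval K (8 * pderiv 0 Φ) * X 1 := by
      rw [← (grE1 n _ hp').2, map_sub, h1, e1, zero_sub, map_neg, s2.2, map_mul, map_ofNat]
      ring
    have hG := thmO W _ wT w0' w1'
    have hpd : pderiv 0 Φ = 0 := by
      have h8 : (8 : R5) ≠ 0 := by norm_num
      exact (mul_eq_zero.mp hG).resolve_left h8
    obtain ⟨Φ', hΦ'⟩ := pd0_rename Φ hpd
    have hΦh : Φ'.IsHomogeneous k := by
      rw [← IsHomogeneous.rename_isHomogeneous_iff (Fin.succ_injective 4), hΦ']
      exact hΦ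
    have s3 := sym_center ρ hE hH hF Kc hK k Φ' hΦh 0 1 one0
    rw [hc1, mul_one, zero_add, hΦ'] at s3
    set z := ρ ((aeval Kc Φ' : Subalgebra.center ℝ U) : U) with hz
    have hcen : ∀ x : U, ρ x * z = z * ρ x := fun x => by
      rw [hz, ← map_mul, ← map_mul]
      congr 1
      exact (Subalgebra.mem_center_iff.mp (aeval Kc Φ' : Subalgebra.center ℝ U).2 x)
    have zk : ∀ x : U, ρ x 1 = 0 → ρ x (z 1) = 0 := fun x hx => by
      rw [← Module.End.mul_apply, hcen, Module.End.mul_apply, hx, map_zero]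
    have hq : (p - z 1).totalDegree ≤ n := by
      refine degree_drop n _ ?_ ?_
      · refine (totalDegree_sub _ _).trans (max_le hp ?_)
        rw [hn]; exact s3.1
      · rw [map_sub, hn, s3.2, ← hF2, hF', hn, sub_self]
    obtain ⟨Ψ, hΨ⟩ := ih (p - z 1) hq
      (by rw [map_sub, hT, ← hH 0, zk _ (by rw [hH 0]; exact Ho0_one), sub_zero])
      (by rw [map_sub, h0, ← hE 0, zk _ (by rw [hE 0]; exact Eo0_one), sub_zero])
      (by rw [map_sub, h1, ← hE 1, zk _ (by rw [hE 1]; exact Eo1_one), sub_zero])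
    refine ⟨Φ' + Ψ, ?_⟩
    rw [map_add, AddMemClass.coe_add, map_add, LinearMap.add_apply, ← hΨ]
    ring

include hE hH hF hK in
theorem thmB (p : R9) (hT : Ho 0 p = 0) (h0 : Eo 0 p = 0) (h1 : Eo 1 p = 0) :
    ∃ Φ : R4, p = ρ ((aeval Kc Φ : Subalgebra.center ℝ U) : U) 1 :=
  thmB_aux ρ hE hH hF Kc hK p.totalDegree p le_rfl hT h0 h1

end Pool.Agent.H69.DF
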